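import Pool.Agent.P.MP_d483fb_an.Z.NF.Push

/-!
Normal forms: measurability of the leaves and of the coordinates.
-/

open MeasureTheory Filter Topology Set Real

set_option linter.unusedSectionVars false

noncomputable section

namespace Pool.Agent.P.MP_d483fb_an.Z.NF

open Os

variable {W X Γ M : Type} [NormedAddCommGroup W] [NormedSpace ℝ W] [MeasurableSpace W]
  [MeasurableSpace X] {μ : Measure X} [Group Γ] [MeasurableSpace Γ] [MetricSpace M]
  [MeasurableSpace M] {α : Γ →* Equiv.Perm M} {len : Γ → ℝ} {D : ℕ}
  {S : Sys W X μ} {J : Jets α len D} {K : Skew S J} {lam : Fin D → W →L[ℝ] ℝ} {r : ℕ}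
  {a : W} {s1 s2 : ℝ}

variable [Countable Γ] [DiscreteMeasurableSpace Γ] [BorelSpace M] [SecondCountableTopology M]

theorem Skew.measurable_α (K : Skew S J) : Measurable fun p : Γ × M => α p.1 p.2 := by
  exact measurable_from_prod_countable_right fun γ =>
    (LipschitzWith.of_dist_le' (J.lip γ)).continuous.measurable

theorem Skew.measurable_mv (K : Skew S J) (s : W) :
    Measurable fun p : X × M => K.mv s p.1 p.2 := by
  exact K.measurable_α.comp
    ((K.measβ.comp (measurable_const.prodMk measurable_fst)).prodMk measurable_snd)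

theorem Skew.measurableSet_Sh (K : Skew S J) (a : W) (s C : ℝ) :
    MeasurableSet {p : X × M | K.Sh a s C p.1 p.2} := by
  simp only [Skew.Sh, ofPred_forall]
  exact MeasurableSet.iInter fun n => measurableSet_le ((K.measurable_mv _).dist
    (K.measPt.comp ((S.mp _).measurable.comp measurable_fst))) measurable_const

theorem Skew.measurableSet_Wu (K : Skew S J) (a : W) (s : ℝ) :
    MeasurableSet {p : X × M | p.2 ∈ K.Wu a s p.1} := by
  have : {p : X × M | p.2 ∈ K.Wu a s p.1} = ⋃ n : ℕ, {p : X × M | K.Sh a s n p.1 p.2} := by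
    ext p
    simp only [mem_ofPred_eq, mem_iUnion, Skew.Wu]
    refine ⟨fun ⟨C, hC⟩ => ?_, fun ⟨n, hn⟩ => ⟨n, hn⟩⟩
    obtain ⟨n, hn⟩ := exists_nat_ge C
    exact ⟨n, hC.mono le_rfl hn⟩
  rw [this]
  exact MeasurableSet.iUnion fun n => K.measurableSet_Sh a s n

theorem Formal.measurable_H (F : Formal K lam r) (a : W) :
    Measurable fun p : X × M => F.H a p.1 p.2 := by
  have h : ∀ n : ℕ, Measurable fun p : X × M => F.Hn a n p.1 p.2 := fun n => by
    have ha : Measurable fun p : X × M => S.act (-(n • a)) p.1 :=
      (S.mp _).measurable.comp measurable_fst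
    exact measurable_evv (measurable_compv (F.measΨ.comp measurable_fst)
      ((K.measurable_T r).comp (measurable_const.prodMk ha)))
      (J.measC.comp ((K.measPt.comp ha).prodMk (K.measurable_mv _)))
  exact (StronglyMeasurable.limUnder fun n => (h n).stronglyMeasurable).measurable

/-- A measurable family of maps that are injective on the sections of a measurable set has a
measurable family of inverses. -/
theorem exists_meas_inv {X M Y : Type} [MeasurableSpace X] [StandardBorelSpace X]
    [MeasurableSpace M] [StandardBorelSpace M] [MeasurableSpace Y] [StandardBorelSpace Y]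
    {G : Set (X × M)} (hG : MeasurableSet G) {H : X → M → Y}
    (hH : Measurable fun p : X × M => H p.1 p.2)
    (hi : ∀ x z z', (x, z) ∈ G → (x, z') ∈ G → H x z = H x z' → z = z') {d : X → M}
    (hd : Measurable d) : ∃ I : X → Y → M, (Measurable fun p : X × Y => I p.1 p.2) ∧
      ∀ x z, (x, z) ∈ G → I x (H x z) = z := by
  have := hG.standardBorel
  have hm : Measurable fun p : G => (p.1.1, H p.1.1 p.1.2) :=
    (measurable_fst.prodMk hH).comp measurable_subtype_coe
  have hj : Function.Injective fun p : G => (p.1.1, H p.1.1 p.1.2) := by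
    rintro ⟨⟨x, z⟩, h⟩ ⟨⟨x', z'⟩, h'⟩ e
    obtain ⟨rfl, e2⟩ := Prod.ext_iff.1 e
    obtain rfl := hi x z z' h h' e2
    rfl
  refine ⟨fun x y => Function.extend (fun p : G => (p.1.1, H p.1.1 p.1.2)) (fun p => p.1.2)
    (fun q => d q.1) (x, y), (hm.measurableEmbedding hj).measurable_extend
      (measurable_snd.comp measurable_subtype_coe) (hd.comp measurable_fst), fun x z h => ?_⟩
  exact hj.extend_apply _ _ ⟨(x, z), h⟩

end Pool.Agent.P.MP_d483fb_an.Z.NF
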