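import Pool.Agent.P.MP_d483fb_an.Z.NF.PEv

/-!
Normal forms: continuity of the operations on jets.
-/

open MvPolynomial Filter Topology Real

noncomputable section

namespace Pool.Agent.P.MP_d483fb_an.Z.NF

variable {D r : ℕ}

/-- All coefficients of the family `p` depend continuously on the parameter. -/
def CC {Y : Type} [TopologicalSpace Y] (p : Y → MvPolynomial (Fin D) ℝ) : Prop :=
  ∀ m, Continuous fun y => coeff m (p y)

section CC

variable {Y : Type} [TopologicalSpace Y]

theorem CC.const (q : MvPolynomial (Fin D) ℝ) : CC fun _ : Y => q := fun _ => continuous_const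

theorem CC.mul {p q : Y → MvPolynomial (Fin D) ℝ} (hp : CC p) (hq : CC q) :
    CC fun y => p y * q y := by
  classical
  intro m
  simp only [coeff_mul]
  exact continuous_finsetSum _ fun x _ => (hp _).mul (hq _)

theorem CC.sum {ι : Type} (s : Finset ι) {p : ι → Y → MvPolynomial (Fin D) ℝ}
    (hp : ∀ i, CC (p i)) : CC fun y => ∑ i ∈ s, p i y := by
  intro m
  simp only [coeff_sum]
  exact continuous_finsetSum _ fun i _ => hp i m

theorem CC.prod {ι : Type} (s : Finset ι) {p : ι → Y → MvPolynomial (Fin D) ℝ}
    (hp : ∀ i, CC (p i)) : CC fun y => ∏ i ∈ s, p i y := by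
  classical
  induction s using Finset.induction_on with
  | empty => simpa using CC.const 1
  | insert j s hj ih => simpa only [Finset.prod_insert hj] using (hp j).mul ih

theorem CC.pow {p : Y → MvPolynomial (Fin D) ℝ} (hp : CC p) (n : ℕ) : CC fun y => p y ^ n := by
  induction n with
  | zero => simpa using CC.const 1
  | succ n ih => simpa only [pow_succ] using ih.mul hp

theorem CC.C {c : Y → ℝ} (hc : Continuous c) :
    CC fun y => (MvPolynomial.C (c y) : MvPolynomial (Fin D) ℝ) := by
  classical
  intro m
  simp only [coeff_C]
  split_ifs
  · exact hc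
  · exact continuous_const

theorem CC.toPoly {t : Y → V D r} (ht : Continuous t) : CC fun y => toPoly (t y) := by
  classical
  refine CC.sum _ fun α m => ?_
  simp only [coeff_monomial]
  split_ifs
  · exact (continuous_apply α).comp ht
  · exact continuous_const

theorem CC.ofPoly {p : Y → MvPolynomial (Fin D) ℝ} (hp : CC p) :
    Continuous fun y => (ofPoly (p y) : V D r) :=
  continuous_pi fun α => hp α.1

end CC

theorem cont_ev {Y : Type} [TopologicalSpace Y] {t : Y → V D r} {w : Y → E D}
    (ht : Continuous t) (hw : Continuous w) : Continuous fun y => ev (t y) (w y) := by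
  unfold ev mono
  exact continuous_finsetSum _ fun α _ => ((continuous_apply α).comp ht).mul
    (continuous_finsetProd _ fun j _ => ((continuous_apply j).comp hw).pow _)

theorem cont_comp {Y : Type} [TopologicalSpace Y] {t : Y → V D r} {T : Y → Jt D r}
    (ht : Continuous t) (hT : Continuous T) : Continuous fun y => comp (t y) (T y) := by
  have e : ∀ y, bind₁ (fun j => toPoly (T y j)) (toPoly (t y)) =
      ∑ α : Idx D r, C (t y α) * ∏ j ∈ α.1.support, toPoly (T y j) ^ α.1 j := by
    intro y
    have : toPoly (t y) = ∑ α : Idx D r, monomial α.1 (t y α) := rfl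
    rw [this, map_sum]
    exact Finset.sum_congr rfl fun α _ => bind₁_monomial _ _ _
  unfold comp
  simp only [e]
  refine CC.ofPoly (CC.sum _ fun α => CC.mul (CC.C ((continuous_apply α).comp ht)) ?_)
  exact CC.prod _ fun j => CC.pow (CC.toPoly ((continuous_apply j).comp hT)) _

theorem continuous_ev : Continuous fun p : V D r × E D => ev p.1 p.2 :=
  cont_ev continuous_fst continuous_snd

theorem continuous_evv : Continuous fun p : Jt D r × E D => evv p.1 p.2 :=
  continuous_pi fun i => cont_ev (t := fun p : Jt D r × E D => p.1 i)
    ((continuous_apply i).comp continuous_fst) continuous_snd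

theorem continuous_comp : Continuous fun p : V D r × Jt D r => comp p.1 p.2 :=
  cont_comp continuous_fst continuous_snd

theorem continuous_compv : Continuous fun p : Jt D r × Jt D r => compv p.1 p.2 :=
  continuous_pi fun i => cont_comp (t := fun p : Jt D r × Jt D r => p.1 i)
    ((continuous_apply i).comp continuous_fst) continuous_snd

theorem continuous_compL : Continuous (compL : Jt D r → V D r →L[ℝ] V D r) := by
  refine continuous_clm_apply.2 fun t => ?_
  simp only [compL_apply]
  exact cont_comp continuous_const continuous_id

theorem continuous_linv : Continuous (linv : Jt D r → E D →L[ℝ] E D) := by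
  refine continuous_clm_apply.2 fun w => continuous_pi fun i => ?_
  simp only [linv_apply, lin, ContinuousLinearMap.sum_apply, ContinuousLinearMap.smul_apply,
    smul_eq_mul]
  exact continuous_finsetSum _ fun j _ =>
    (CC.toPoly (t := fun T : Jt D r => T i) (continuous_apply i) _).mul continuous_const

theorem continuous_ofLin : Continuous (ofLin r : E D → V D r) := by
  unfold ofLin
  exact CC.ofPoly (CC.sum _ fun j => CC.mul (CC.C (continuous_apply j)) (CC.const _))

theorem measurable_evv {Y : Type} [MeasurableSpace Y] {T : Y → Jt D r} {w : Y → E D}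
    (hT : Measurable T) (hw : Measurable w) : Measurable fun y => evv (T y) (w y) :=
  Measurable.comp (g := fun p : Jt D r × E D => evv p.1 p.2) (f := fun y => (T y, w y))
    continuous_evv.measurable (hT.prodMk hw)

theorem measurable_compv {Y : Type} [MeasurableSpace Y] {S T : Y → Jt D r}
    (hS : Measurable S) (hT : Measurable T) : Measurable fun y => compv (S y) (T y) :=
  Measurable.comp (g := fun p : Jt D r × Jt D r => compv p.1 p.2) (f := fun y => (S y, T y))
    continuous_compv.measurable (hS.prodMk hT)

end Pool.Agent.P.MP_d483fb_an.Z.NF
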