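import Pool.Agent.P.MP_d483fb_an.Z.NF.PAlg
import Pool.Agent.P.MP_d483fb_an.Z.NF.PCont

/-!
Normal forms: the inverse of a jet with invertible linear part.
-/

open MvPolynomial Filter Topology Real

noncomputable section

namespace Pool.Agent.P.MP_d483fb_an.Z.NF

variable {D r : ℕ}

section alg

variable {φ : MvPolynomial (Fin D) ℝ →ₐ[ℝ] MvPolynomial (Fin D) ℝ}

theorem PInv_mul {k l : ℕ} {a b : MvPolynomial (Fin D) ℝ}
    (ha : a ∈ idealOfVars (Fin D) ℝ ^ k) (ha' : φ a - a ∈ idealOfVars (Fin D) ℝ ^ (k + 1))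
    (hb : b ∈ idealOfVars (Fin D) ℝ ^ l) (hb' : φ b - b ∈ idealOfVars (Fin D) ℝ ^ (l + 1)) :
    φ (a * b) - a * b ∈ idealOfVars (Fin D) ℝ ^ (k + l + 1) := by
  have h1 : φ b ∈ idealOfVars (Fin D) ℝ ^ l := by
    have := add_mem (Ideal.pow_le_pow_right (Nat.le_succ l) hb') hb
    rwa [sub_add_cancel] at this
  have e : φ (a * b) - a * b = (φ a - a) * φ b + a * (φ b - b) := by
    rw [map_mul]
    ring
  rw [e]
  refine add_mem ?_ ?_
  · rw [show k + l + 1 = (k + 1) + l by ring, pow_add]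
    exact Ideal.mul_mem_mul ha' h1
  · rw [add_assoc, pow_add]
    exact Ideal.mul_mem_mul ha hb'

theorem PInv_alg (h : ∀ j, φ (X j) - X j ∈ idealOfVars (Fin D) ℝ ^ 2) (k : ℕ) :
    ∀ p ∈ idealOfVars (Fin D) ℝ ^ k, φ p - p ∈ idealOfVars (Fin D) ℝ ^ (k + 1) := by
  have hX : ∀ j, (X j : MvPolynomial (Fin D) ℝ) ∈ idealOfVars (Fin D) ℝ ^ 1 := fun j => by
    rw [pow_one]
    exact Ideal.subset_span ⟨j, rfl⟩
  have hadd : ∀ a b : MvPolynomial (Fin D) ℝ, φ (a + b) - (a + b) = (φ a - a) + (φ b - b) :=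
    fun a b => by
      rw [map_add]
      ring
  have h00 : ∀ p : MvPolynomial (Fin D) ℝ, p ∈ idealOfVars (Fin D) ℝ ^ 0 := fun p => by simp
  have h0 : ∀ p : MvPolynomial (Fin D) ℝ, φ p - p ∈ idealOfVars (Fin D) ℝ ^ (0 + 1) := by
    intro p
    induction p using MvPolynomial.induction_on with
    | C a => simp
    | add p q hp hq =>
      rw [hadd]
      exact add_mem hp hq
    | mul_X p j hp => exact Ideal.pow_le_pow_right (by norm_num) (PInv_mul (h00 p) hp (hX j) (h j))
  have h1 : ∀ p ∈ idealOfVars (Fin D) ℝ, φ p - p ∈ idealOfVars (Fin D) ℝ ^ (1 + 1) := by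
    intro p hp
    induction hp using Submodule.span_induction with
    | mem x hx =>
      obtain ⟨j, rfl⟩ := hx
      exact h j
    | zero => simp
    | add x y _ _ hx hy =>
      rw [hadd]
      exact add_mem hx hy
    | smul a x hx hx' =>
      have h2 : x ∈ idealOfVars (Fin D) ℝ ^ 1 := by
        rw [pow_one]
        exact hx
      have h3 := PInv_mul (h00 a) (h0 a) h2 hx'
      rw [smul_eq_mul]
      exact h3
  induction k with
  | zero => exact fun p _ => h0 p
  | succ k ih =>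
    intro p hp
    rw [pow_succ] at hp
    refine Submodule.mul_induction_on hp (fun a ha b hb => ?_) (fun a b ha hb => ?_)
    · have h2 : b ∈ idealOfVars (Fin D) ℝ ^ 1 := by
        rw [pow_one]
        exact hb
      exact PInv_mul ha (ih a ha) h2 (h1 b hb)
    · rw [hadd]
      exact add_mem ha hb

end alg

theorem PInv_lin_single (t : V D r) (l : Fin D) :
    lin t (Pi.single l 1) = coeff (Finsupp.single l 1) (toPoly t) := by
  simp [lin, Pi.single_apply]

theorem PInv_two {T : Jt D r} (hT : ∀ w, linv T w = w) (j : Fin D) :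
    toPoly (T j) - X j ∈ idealOfVars (Fin D) ℝ ^ 2 := by
  refine (mem_pow_idealOfVars_iff' 2 _).2 fun x hx => ?_
  rw [coeff_sub]
  rcases Nat.eq_zero_or_pos x.degree with h0 | h0
  · rw [coeff_toPoly_of_not _ (by omega), (Finsupp.degree_eq_zero_iff x).1 h0, coeff_zero_X,
      sub_zero]
  · have h1 : x ∈ {d : Fin D →₀ ℕ | d.degree = 1} := show x.degree = 1 by omega
    rw [← Finsupp.range_single_one] at h1
    obtain ⟨l, rfl⟩ := h1
    rw [← PInv_lin_single, ← linv_apply, hT, coeff_X, Pi.single_apply]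
    simp [Finsupp.single_left_inj]

theorem PInv_nil {T : Jt D r} (hT : ∀ w, linv T w = w) : (1 - compL T) ^ r = 0 := by
  have key : ∀ (k : ℕ) (t : V D r) (α : Idx D r), α.1.degree < k →
      ((1 - compL T) ^ k) t α = 0 := by
    intro k
    induction k with
    | zero => exact fun t α h => absurd h (Nat.not_lt_zero _)
    | succ k ih =>
      intro t α hα
      rw [pow_succ', mul_apply_eq_comp]
      have hu := ih t
      generalize ((1 - compL T) ^ k) t = u at hu
      have hp : toPoly u ∈ idealOfVars (Fin D) ℝ ^ k := by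
        refine (mem_pow_idealOfVars_iff' k _).2 fun x hx => ?_
        by_cases hc : 0 < x.degree ∧ x.degree < r
        · exact (coeff_toPoly u ⟨x, hc⟩).trans (hu ⟨x, hc⟩ hx)
        · exact coeff_toPoly_of_not u hc
      have h1 := PInv_alg (φ := bind₁ fun j => toPoly (T j))
        (fun j => by rw [bind₁_X_right]; exact PInv_two hT j) k _ hp
      have h2 := (mem_pow_idealOfVars_iff' _ _).1 h1 α.1 hα
      rw [coeff_sub, coeff_toPoly] at h2
      show u α - coeff α.1 (bind₁ (fun j => toPoly (T j)) (toPoly u)) = 0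
      linarith
  ext t α
  exact key r t α α.2.2

theorem PInv_comm {a b : V D r →L[ℝ] V D r} (h : a * b = 1) : b * a = 1 := by
  have h1 : (a : V D r →ₗ[ℝ] V D r) * (b : V D r →ₗ[ℝ] V D r) = 1 :=
    LinearMap.ext fun t => ContinuousLinearMap.ext_iff.1 h t
  have h2 := mul_eq_one_comm.1 h1
  exact ContinuousLinearMap.ext fun t => LinearMap.congr_fun h2 t

theorem PInv_compL (S T : Jt D r) : compL (compv S T) = compL T * compL S :=
  ContinuousLinearMap.ext fun t => (comp_assoc t S T).symm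

theorem PInv_meas : Measurable fun (Ψ : Jt D r) (i : Fin D) =>
    Ring.inverse (compL Ψ) (idv D r i) := by
  classical
  have hs : IsOpen {Ψ : Jt D r | IsUnit (compL Ψ)} := Units.isOpen.preimage continuous_compL
  have hc : ContinuousOn (fun (Ψ : Jt D r) (i : Fin D) => Ring.inverse (compL Ψ) (idv D r i))
      {Ψ : Jt D r | IsUnit (compL Ψ)} := by
    rintro Ψ ⟨u, hu⟩
    refine ContinuousAt.continuousWithinAt (continuousAt_pi.2 fun i => ?_)
    have h1 : ContinuousAt (fun Φ : Jt D r => Ring.inverse (compL Φ)) Ψ :=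
      ContinuousAt.comp (f := compL) (hu ▸ NormedRing.inverse_continuousAt u)
        continuous_compL.continuousAt
    exact h1.clm_apply continuousAt_const
  have h := hc.measurable_piecewise (g := fun _ => 0) continuousOn_const hs.measurableSet
  have e : (fun (Ψ : Jt D r) (i : Fin D) => Ring.inverse (compL Ψ) (idv D r i)) =
      Set.piecewise {Ψ : Jt D r | IsUnit (compL Ψ)}
        (fun (Ψ : Jt D r) (i : Fin D) => Ring.inverse (compL Ψ) (idv D r i)) fun _ => 0 := by
    funext Ψ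
    by_cases hΨ : Ψ ∈ {Ψ : Jt D r | IsUnit (compL Ψ)}
    · rw [Set.piecewise_eq_of_mem _ _ _ hΨ]
    · rw [Set.piecewise_eq_of_notMem _ _ _ hΨ, Ring.inverse_non_unit _ hΨ]
      rfl
  rw [e]
  exact h

theorem PInv_geom {N : V D r →L[ℝ] V D r} {B : ℝ} (hB : 0 ≤ B)
    (hN : ∀ t, ‖N t‖ ≤ exp B * ‖t‖) (t : V D r) :
    ‖(∑ k ∈ Finset.range r, N ^ k) t‖ ≤ exp (r + r * B) * ‖t‖ := by
  have h1 : ∀ k : ℕ, ‖(N ^ k) t‖ ≤ exp (k * B) * ‖t‖ := by
    intro k
    induction k with
    | zero => simp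
    | succ k ih =>
      rw [pow_succ', mul_apply_eq_comp, Nat.cast_succ, add_mul, one_mul, add_comm,
        exp_add, mul_assoc]
      exact (hN _).trans (mul_le_mul_of_nonneg_left ih (exp_pos _).le)
  rw [_root_.sum_apply]
  refine (norm_sum_le _ _).trans ?_
  refine (Finset.sum_le_card_nsmul _ _ (exp (r * B) * ‖t‖) fun k hk => (h1 k).trans ?_).trans ?_
  · have hk' : (k : ℝ) ≤ r := by exact_mod_cast (Finset.mem_range.1 hk).le
    gcongr
  · rw [Finset.card_range, nsmul_eq_mul, exp_add, mul_assoc]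
    exact mul_le_mul_of_nonneg_right (by linarith [add_one_le_exp (r : ℝ)]) (by positivity)

theorem exists_inv (hr : 2 ≤ r) : ∃ (C : ℝ) (iv : Jt D r → Jt D r), 0 ≤ C ∧ Measurable iv ∧
    ∀ (Ψ : Jt D r) (F : E D →L[ℝ] E D) (R : ℝ), 0 ≤ R → ‖Ψ‖ ≤ exp R → ‖F‖ ≤ exp R →
      (∀ w, linv Ψ (F w) = w) →
      compv Ψ (iv Ψ) = idv D r ∧ compv (iv Ψ) Ψ = idv D r ∧ ‖iv Ψ‖ ≤ exp (C * (1 + R)) := by
  obtain ⟨A, hA⟩ := exists_pc D r
  have A0 := hA.nonneg
  have r0 : (0 : ℝ) ≤ r := Nat.cast_nonneg r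
  refine ⟨r + r * (1 + A + r * A) + r * r * (r + 1) + 1,
    fun Ψ i => Ring.inverse (compL Ψ) (idv D r i), by positivity, PInv_meas, ?_⟩
  intro Ψ F R hR hΨ hF hl
  obtain ⟨G, hG⟩ : ∃ G : Jt D r, G = fun i => ofLin r fun j => F (Pi.single j 1) i := ⟨_, rfl⟩
  have G1 : ‖G‖ ≤ exp R := by
    rw [hG]
    refine (pi_norm_le_iff_of_nonneg (exp_pos R).le).2 fun i => (norm_ofLin_le _).trans ?_
    refine (pi_norm_le_iff_of_nonneg (exp_pos R).le).2 fun j => (norm_le_pi_norm _ i).trans ?_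
    refine (F.le_opNorm _).trans ?_
    rw [Pi.norm_single, norm_one, mul_one]
    exact hF
  have G2 : ∀ w, linv G w = F w := by
    intro w
    funext i
    rw [linv_apply, hG, lin_ofLin hr]
    conv_rhs => rw [pi_eq_sum_univ' w, map_sum, Finset.sum_apply]
    refine Finset.sum_congr rfl fun j _ => ?_
    rw [map_smul, Pi.smul_apply, smul_eq_mul, mul_comm]
  have P1 : ∀ w, linv (compv Ψ G) w = w := fun w => by
    rw [linv_compv, ContinuousLinearMap.comp_apply, G2, hl]
  have P2 : ‖compv Ψ G‖ ≤ exp (A + (r + 1) * R) := by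
    refine (hA.compv_le Ψ G hR G1).trans ?_
    rw [add_mul, one_mul, ← add_assoc, exp_add (A + r * R)]
    exact mul_le_mul_of_nonneg_left hΨ (exp_pos _).le
  have hR' : 0 ≤ A + (r + 1) * R := by positivity
  have N1 : ∀ t, ‖(1 - compL (compv Ψ G)) t‖ ≤ exp (1 + (A + r * (A + (r + 1) * R))) * ‖t‖ := by
    intro t
    have h1 := hA.comp_le t _ _ hR' P2
    have h2 : 1 ≤ exp (A + r * (A + (r + 1) * R)) := one_le_exp (by positivity)
    have h3 : 2 ≤ exp 1 := by linarith [add_one_le_exp (1 : ℝ)]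
    have h4 := norm_nonneg t
    have h5 : ‖(1 - compL (compv Ψ G)) t‖ ≤ ‖t‖ + ‖comp t (compv Ψ G)‖ := norm_sub_le _ _
    rw [exp_add]
    nlinarith [mul_le_mul_of_nonneg_right h2 h4,
      mul_le_mul_of_nonneg_right h3 (mul_nonneg (zero_le_one.trans h2) h4)]
  obtain ⟨S, hS⟩ : ∃ S, S = ∑ k ∈ Finset.range r, (1 - compL (compv Ψ G)) ^ k := ⟨_, rfl⟩
  have S1 : compL G * (compL Ψ * S) = 1 := by
    have h1 := mul_neg_geom_sum (1 - compL (compv Ψ G)) r
    rwa [PInv_nil P1, sub_zero, sub_sub_cancel, ← hS, PInv_compL, mul_assoc] at h1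
  have S2 : compL Ψ * (S * compL G) = 1 := by rw [← mul_assoc]; exact PInv_comm S1
  have S3 : Ring.inverse (compL Ψ) = S * compL G :=
    Ring.inverse_unit ⟨compL Ψ, S * compL G, S2, PInv_comm S2⟩
  have hid : ∀ (T : Jt D r) (i : Fin D), compL T (idv D r i) = T i := fun T i =>
    congrFun (idv_compv hr T) i
  have Q1 : compv (fun i => Ring.inverse (compL Ψ) (idv D r i)) Ψ = idv D r := by
    funext i
    rw [S3]
    exact ContinuousLinearMap.ext_iff.1 S2 (idv D r i)
  refine ⟨?_, Q1, ?_⟩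
  · have h1 := congrArg compL Q1
    have h2 : compL (idv D r) = 1 := ContinuousLinearMap.ext fun t => comp_idv hr t
    rw [PInv_compL, h2] at h1
    have h3 := PInv_comm h1
    rw [← PInv_compL] at h3
    funext i
    refine (hid _ i).symm.trans ?_
    rw [h3]
    rfl
  · refine (pi_norm_le_iff_of_nonneg (exp_pos _).le).2 fun i => ?_
    show ‖Ring.inverse (compL Ψ) (idv D r i)‖ ≤ _
    rw [S3, mul_apply_eq_comp, hid, hS]
    refine (PInv_geom (by positivity) N1 _).trans ?_
    refine (mul_le_mul_of_nonneg_left ((norm_le_pi_norm G i).trans G1) (exp_pos _).le).trans ?_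
    rw [← exp_add]
    refine exp_le_exp.2 ?_
    have h1 : 0 ≤ (r + r * (1 + A + r * A)) * R := by positivity
    have h2 : (0 : ℝ) ≤ r * r * (r + 1) := by positivity
    nlinarith

end Pool.Agent.P.MP_d483fb_an.Z.NF
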