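import Pool.Agent.P.MP_d483fb_an.Z.NF.PEst

/-!
Normal forms: resonant jets and dilations.
-/

open MvPolynomial Filter Topology Real

noncomputable section

namespace Pool.Agent.P.MP_d483fb_an.Z.NF

variable {D r : ℕ}

theorem wt_apply {W : Type} [NormedAddCommGroup W] [NormedSpace ℝ W] (lam : Fin D → W →L[ℝ] ℝ)
    (α : Fin D →₀ ℕ) (a : W) : wt lam α a = wt (fun j => lam j a) α := by
  simp [wt]

theorem Res1.apply {W : Type} [NormedAddCommGroup W] [NormedSpace ℝ W] {lam : Fin D → W →L[ℝ] ℝ}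
    {l : W →L[ℝ] ℝ} {t : V D r} (h : Res1 lam l t) (a : W) : Res1 (fun j => lam j a) (l a) t := by
  intro α hα
  rw [← wt_apply, h α hα]

theorem Res.apply {W : Type} [NormedAddCommGroup W] [NormedSpace ℝ W] {lam : Fin D → W →L[ℝ] ℝ}
    {T : Jt D r} (h : Res lam T) (a : W) : Res (fun j => lam j a) T :=
  fun i => (h i).apply a

theorem wt_mul (c : Fin D → ℝ) (u : ℝ) (α : Fin D →₀ ℕ) :
    wt (fun j => c j * u) α = wt c α * u := by
  simp [wt, Finset.sum_mul, mul_assoc]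

theorem Res1.mul {c : Fin D → ℝ} {c0 : ℝ} {t : V D r} (h : Res1 c c0 t) (u : ℝ) :
    Res1 (fun j => c j * u) (c0 * u) t := by
  intro α hα
  rw [wt_mul, h α hα]

theorem res1_single {Λ : Type} [AddCommMonoid Λ] (lam : Fin D → Λ) (α : Idx D r) :
    Res1 lam (wt lam α.1) (Pi.single α 1 : V D r) := by
  intro β hβ
  by_cases h : β = α
  · rw [h]
  · exact absurd (Pi.single_eq_of_ne h 1) hβ

theorem comp_eq_sum (t : V D r) (T : Jt D r) :
    comp t T = ∑ α, t α • comp (Pi.single α 1 : V D r) T := by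
  have h : t = ∑ α, t α • (Pi.single α 1 : V D r) := by
    funext β
    simp [Finset.sum_apply, Pi.single_apply]
  conv_lhs => rw [h]
  simp only [← compL_apply, map_sum, map_smul]

theorem exp_wt (c : Fin D → ℝ) (α : Fin D →₀ ℕ) : exp (wt c α) = ∏ j, exp (c j) ^ α j := by
  rw [wt, Real.exp_sum]
  exact Finset.prod_congr rfl fun j _ => by rw [nsmul_eq_mul, Real.exp_nat_mul]

theorem mono_dil (c : Fin D → ℝ) (α : Fin D →₀ ℕ) (w : E D) :
    mono α (dil c w) = exp (wt c α) * mono α w := by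
  rw [exp_wt, mono, mono, ← Finset.prod_mul_distrib]
  exact Finset.prod_congr rfl fun j _ => by rw [dil, mul_pow]

theorem Res1.ev_dil {c : Fin D → ℝ} {c0 : ℝ} {t : V D r} (h : Res1 c c0 t) (w : E D) :
    ev t (dil c w) = exp c0 * ev t w := by
  rw [ev, ev, Finset.mul_sum]
  refine Finset.sum_congr rfl fun α _ => ?_
  by_cases hα : t α = 0
  · simp [hα]
  · rw [mono_dil, h α hα]
    ring

theorem bind₁_toPoly (f : Fin D → MvPolynomial (Fin D) ℝ) (t : V D r) :
    bind₁ f (toPoly t) = ∑ α, t α • ∏ j, f j ^ α.1 j := by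
  rw [toPoly, map_sum]
  refine Finset.sum_congr rfl fun α _ => ?_
  rw [bind₁_monomial, smul_eq_C_mul]
  congr 1
  refine Finset.prod_subset (Finset.subset_univ _) fun j _ hj => ?_
  rw [Finsupp.notMem_support_iff.1 hj, pow_zero]

theorem Res1.comp_dil {c : Fin D → ℝ} {c0 : ℝ} {t : V D r} (h : Res1 c c0 t) (T : Jt D r) :
    comp t (fun j => exp (c j) • T j) = exp c0 • comp t T := by
  have key : bind₁ (fun j => toPoly (exp (c j) • T j)) (toPoly t) =
      exp c0 • bind₁ (fun j => toPoly (T j)) (toPoly t) := by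
    rw [bind₁_toPoly, bind₁_toPoly, Finset.smul_sum]
    refine Finset.sum_congr rfl fun α _ => ?_
    by_cases hα : t α = 0
    · simp [hα]
    · rw [← h α hα, exp_wt, smul_comm]
      congr 1
      simp only [toPoly_smul, smul_pow]
      exact Finset.prod_smul _ _ _
  funext β
  simp only [comp, ofPoly, key, Pi.smul_apply, coeff_smul]

theorem exists_undil {c : Fin D → ℝ} {T : Jt D r} {R : ℝ} (hT : ∀ j, ‖T j‖ ≤ exp (R + c j)) :
    ∃ T' : Jt D r, ‖T'‖ ≤ exp R ∧ T = fun j => exp (c j) • T' j := by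
  refine ⟨fun j => exp (-c j) • T j, ?_, ?_⟩
  · refine (pi_norm_le_iff_of_nonneg (exp_pos R).le).2 fun j => ?_
    rw [norm_smul, Real.norm_of_nonneg (exp_pos _).le]
    calc exp (-c j) * ‖T j‖ ≤ exp (-c j) * exp (R + c j) := by gcongr; exact hT j
      _ = exp R := by rw [← Real.exp_add]; congr 1; ring
  · funext j
    rw [smul_smul, ← Real.exp_add, add_neg_cancel, Real.exp_zero, one_smul]

/-- Weighted form of the bound for the composition. -/
theorem PC.comp_le_res {A : ℝ} (h : PC D r A) {c : Fin D → ℝ} {c0 : ℝ} {t : V D r}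
    (ht : Res1 c c0 t) {T : Jt D r} {R : ℝ} (hR : 0 ≤ R) (hT : ∀ j, ‖T j‖ ≤ exp (R + c j)) :
    ‖comp t T‖ ≤ exp (A + r * R + c0) * ‖t‖ := by
  obtain ⟨T', hT', rfl⟩ := exists_undil hT
  rw [ht.comp_dil, norm_smul, Real.norm_of_nonneg (exp_pos _).le, Real.exp_add]
  calc exp c0 * ‖comp t T'‖ ≤ exp c0 * (exp (A + r * R) * ‖t‖) := by
        gcongr; exact h.comp_le t T' R hR hT'
    _ = exp (A + r * R) * exp c0 * ‖t‖ := by ring

theorem evv_dil_smul (c : Fin D → ℝ) (T : Jt D r) (w : E D) :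
    evv (fun j => exp (c j) • T j) w = dil c (evv T w) := by
  funext j
  simp only [evv, dil, ev_smul]

/-- Weighted form of the truncation error. -/
theorem PC.comp_err_res {A : ℝ} (h : PC D r A) {c : Fin D → ℝ} {c0 : ℝ} {t : V D r}
    (ht : Res1 c c0 t) {T : Jt D r} {R : ℝ} (hR : 0 ≤ R) (hT : ∀ j, ‖T j‖ ≤ exp (R + c j))
    {w : E D} (hw : ‖w‖ ≤ 1) :
    |ev (comp t T) w - ev t (evv T w)| ≤ exp (A + r * R + c0) * ‖t‖ * ‖w‖ ^ r := by
  obtain ⟨T', hT', rfl⟩ := exists_undil hT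
  rw [ht.comp_dil, evv_dil_smul, ht.ev_dil, ev_smul, ← mul_sub, abs_mul, abs_of_pos (exp_pos _),
    Real.exp_add]
  calc exp c0 * |ev (comp t T') w - ev t (evv T' w)|
      ≤ exp c0 * (exp (A + r * R) * ‖t‖ * ‖w‖ ^ r) := by
        gcongr; exact h.comp_err t T' w R hR hT' hw
    _ = exp (A + r * R) * exp c0 * ‖t‖ * ‖w‖ ^ r := by ring

theorem zero_mem_U (c : Fin D → ℝ) : (0 : E D) ∈ U c := fun _ _ => rfl

theorem dil_mem_U {c : Fin D → ℝ} {v : E D} (hv : v ∈ U c) (c' : Fin D → ℝ) : dil c' v ∈ U c := by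
  intro j hj
  rw [dil, hv j hj, mul_zero]

theorem isClosed_U (c : Fin D → ℝ) : IsClosed (U c) := by
  have h : U c = ⋂ j, ⋂ _ : c j ≤ 0, {v : E D | v j = 0} := by
    ext v
    simp [U]
  rw [h]
  exact isClosed_iInter fun j => isClosed_iInter fun _ =>
    isClosed_eq (continuous_apply j) continuous_const

theorem mono_eq_zero {c : Fin D → ℝ} {α : Fin D →₀ ℕ} (hα : ¬ ∀ j, α j ≠ 0 → 0 < c j) {v : E D}
    (hv : v ∈ U c) : mono α v = 0 := by
  push Not at hα
  obtain ⟨j, hj, hc⟩ := hα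
  exact Finset.prod_eq_zero (Finset.mem_univ j) (by rw [hv j hc, zero_pow hj])

theorem wt_pos {c : Fin D → ℝ} (α : Idx D r) (hα : ∀ j, α.1 j ≠ 0 → 0 < c j) : 0 < wt c α.1 := by
  have h0 : α.1 ≠ 0 := fun h => by
    have := α.2.1
    rw [h] at this
    simp at this
  obtain ⟨j, hj⟩ : ∃ j, α.1 j ≠ 0 := by
    by_contra hn
    push Not at hn
    exact h0 (Finsupp.ext hn)
  refine Finset.sum_pos' (fun i _ => ?_) ⟨j, Finset.mem_univ j, ?_⟩
  · by_cases hi : α.1 i = 0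
    · simp [hi]
    · exact nsmul_nonneg (hα i hi).le _
  · rw [nsmul_eq_mul]
    exact mul_pos (Nat.cast_pos.2 (Nat.pos_of_ne_zero hj)) (hα j hj)

theorem Res1.ev_U {c : Fin D → ℝ} {c0 : ℝ} {t : V D r} (h : Res1 c c0 t) (h0 : c0 ≤ 0) {v : E D}
    (hv : v ∈ U c) : ev t v = 0 := by
  refine Finset.sum_eq_zero fun α _ => ?_
  by_cases hα : t α = 0
  · rw [hα, zero_mul]
  · by_cases hp : ∀ j, α.1 j ≠ 0 → 0 < c j
    · have := wt_pos α hp
      rw [h α hα] at this
      exact absurd h0 (not_le.2 this)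
    · rw [mono_eq_zero hp hv, mul_zero]

theorem Res.evv_mem {c : Fin D → ℝ} {T : Jt D r} (h : Res c T) {v : E D} (hv : v ∈ U c) :
    evv T v ∈ U c :=
  fun j hj => (h j).ev_U hj hv

theorem norm_dil_neg_le {c : Fin D → ℝ} {s τ : ℝ} (hc : ∀ j, 0 < c j → s ≤ c j) (hτ : 0 ≤ τ)
    {v : E D} (hv : v ∈ U c) : ‖dil (fun j => c j * -τ) v‖ ≤ exp (-(s * τ)) * ‖v‖ := by
  refine (pi_norm_le_iff_of_nonneg (by positivity)).2 fun j => ?_
  rcases le_or_gt (c j) 0 with hj | hj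
  · rw [dil, hv j hj, mul_zero, norm_zero]
    positivity
  · rw [dil, norm_mul, Real.norm_of_nonneg (exp_pos _).le]
    have h1 : c j * -τ ≤ -(s * τ) := by nlinarith [hc j hj]
    gcongr
    exact norm_le_pi_norm v j

/-- On `U c` the truncated composition of resonant jets is the composition. -/
theorem ev_comp_U {c : Fin D → ℝ} {c0 s : ℝ} {t : V D r} {T : Jt D r} (hs : 0 < s)
    (hc : ∀ j, 0 < c j → s ≤ c j) (hr : c0 < r * s) (ht : Res1 c c0 t) (hT : Res c T)
    (htT : Res1 c c0 (comp t T)) {v : E D} (hv : v ∈ U c) :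
    ev (comp t T) v = ev t (evv T v) := by
  obtain ⟨A, hA⟩ := exists_pc D r
  have hTR : ‖T‖ ≤ exp ‖T‖ := by linarith [Real.add_one_le_exp ‖T‖]
  set K : ℝ := exp (A + r * ‖T‖) * ‖t‖ * ‖v‖ ^ r with hK
  have hlim : Tendsto (fun τ : ℝ => K * exp (-((r * s - c0) * τ))) atTop (𝓝 (K * 0)) :=
    (Real.tendsto_exp_neg_atTop_nhds_zero.comp
      (tendsto_id.const_mul_atTop (sub_pos.2 hr))).const_mul K
  have hsm : Tendsto (fun τ : ℝ => exp (-(s * τ)) * ‖v‖) atTop (𝓝 (0 * ‖v‖)) :=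
    (Real.tendsto_exp_neg_atTop_nhds_zero.comp (tendsto_id.const_mul_atTop hs)).mul_const _
  rw [mul_zero] at hlim
  rw [zero_mul] at hsm
  rw [← sub_eq_zero, ← abs_nonpos_iff]
  refine ge_of_tendsto hlim ?_
  filter_upwards [eventually_ge_atTop (0 : ℝ), hsm.eventually (ge_mem_nhds one_pos)] with τ hτ h1
  have hw := norm_dil_neg_le hc hτ hv
  have he := hA.comp_err t T _ ‖T‖ (norm_nonneg _) hTR (hw.trans h1)
  have h2 : evv T (dil (fun j => c j * -τ) v) = dil (fun j => c j * -τ) (evv T v) := by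
    funext j
    exact ((hT j).mul (-τ)).ev_dil v
  rw [h2, (htT.mul (-τ)).ev_dil, (ht.mul (-τ)).ev_dil, ← mul_sub, abs_mul,
    abs_of_pos (exp_pos _)] at he
  have h3 : exp (c0 * -τ) * |ev (comp t T) v - ev t (evv T v)| ≤
      exp (c0 * -τ) * (K * exp (-((r * s - c0) * τ))) := by
    refine he.trans ?_
    calc exp (A + r * ‖T‖) * ‖t‖ * ‖dil (fun j => c j * -τ) v‖ ^ r
        ≤ exp (A + r * ‖T‖) * ‖t‖ * (exp (-(s * τ)) * ‖v‖) ^ r := by gcongr
      _ = K * exp (r * -(s * τ)) := by rw [mul_pow, Real.exp_nat_mul, hK]; ring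
      _ = K * (exp (c0 * -τ) * exp (-((r * s - c0) * τ))) := by
        rw [← Real.exp_add]; congr 2; ring
      _ = _ := by ring
  exact le_of_mul_le_mul_left h3 (exp_pos _)

theorem eval_monomial_eq (α : Fin D →₀ ℕ) (a : ℝ) (v : E D) :
    eval v (monomial α a) = a * mono α v := by
  rw [eval_monomial, Finsupp.prod_fintype _ _ fun j => pow_zero _, mono]

theorem Res.subRes {c : Fin D → ℝ} {T : Jt D r} (h : Res c T) : SubRes c (evv T) := by
  classical
  intro i
  refine ⟨∑ α ∈ Finset.univ.filter (fun α : Idx D r => ∀ j, α.1 j ≠ 0 → 0 < c j),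
    monomial α.1 (T i α), fun β hβ => ?_, fun v hv => ?_⟩
  · obtain ⟨α, hα, hβα⟩ := Finset.mem_biUnion.1 (support_sum hβ)
    have h1 : β = α.1 := Finset.mem_singleton.1 (support_monomial_subset hβα)
    have h2 : T i α ≠ 0 := fun h0 => by simp [h0] at hβα
    rw [h1]
    exact ⟨(Finset.mem_filter.1 hα).2, (h i α h2).le⟩
  · rw [map_sum, Finset.sum_filter]
    refine Finset.sum_congr rfl fun α _ => ?_
    split_ifs with hp
    · rw [eval_monomial_eq]
    · rw [mono_eq_zero hp hv, mul_zero]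

end Pool.Agent.P.MP_d483fb_an.Z.NF
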