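import Pool.Agent.P.MP_d483fb_an.Z.NF.Formal
import Pool.Agent.P.MP_d483fb_an.Os.MainT

/-!
Normal forms: a height function with bounded increments is tempered on an invariant conull set.
-/

open MeasureTheory Filter Topology Set Real

set_option linter.unusedSectionVars false

noncomputable section

namespace Pool.Agent.P.MP_d483fb_an.Z.NF

open Os

variable {W X Γ M : Type} [NormedAddCommGroup W] [NormedSpace ℝ W] [MeasurableSpace W]
  [MeasurableSpace X] {μ : Measure X} [Group Γ] [MeasurableSpace Γ] [MetricSpace M]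
  [MeasurableSpace M] {α : Γ →* Equiv.Perm M} {len : Γ → ℝ} {D : ℕ}
  {S : Sys W X μ} {J : Jets α len D} {K : Skew S J} {lam : Fin D → W →L[ℝ] ℝ} {r : ℕ}
  {a : W} {s1 s2 : ℝ}

theorem exists_slow [FiniteDimensional ℝ W] [IsFiniteMeasure μ] (S : Sys W X μ) {h : X → ℝ} {L : ℝ}
    (hm : Measurable h) (hL : 0 ≤ L) (hl : ∀ s x, h (S.act s x) ≤ h x + L * (‖s‖ + 1)) :
    ∃ (X1 : Set X) (B : ℝ), 0 ≤ B ∧ MeasurableSet X1 ∧ (∀ᵐ x ∂μ, x ∈ X1) ∧
      (∀ s, ∀ x ∈ X1, S.act s x ∈ X1) ∧ ∀ ε, 0 < ε → ∃ q : X → ℝ, Measurable q ∧ (∀ x, 0 ≤ q x) ∧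
        (∀ x ∈ X1, h x ≤ q x) ∧ ∀ s, ∀ x ∈ X1, q (S.act s x) ≤ q x + ε * ‖s‖ + B := by
  obtain ⟨g⟩ := exists_gen W
  obtain ⟨Z, B, h1, h2, h3, h4, h5⟩ := g.slow S hL hm hl
  refine ⟨Z, B, h4, h1, h2, h3, fun ε hε => ?_⟩
  obtain ⟨q, q1, q2, q3⟩ := h5 ε hε
  exact ⟨q, q1, q2, fun x hx => (q3 x hx).1, fun s x hx => (q3 x hx).2 s⟩

/-- A slowly varying function is dominated by one that varies slowly along the powers of `a`. -/
theorem exists_slow_pow (S : Sys W X μ) {X0 : Set X} (hi : ∀ s, ∀ x ∈ X0, S.act s x ∈ X0) (a : W)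
    {q : X → ℝ} {ε ε' B : ℝ} (hm : Measurable q) (h0 : ∀ x, 0 ≤ q x) (hε : ε * ‖a‖ ≤ ε')
    (hε' : 0 ≤ ε')
    (hq : ∀ s, ∀ x ∈ X0, q (S.act s x) ≤ q x + ε * ‖s‖ + B) :
    ∃ q' : X → ℝ, Measurable q' ∧ (∀ x, 0 ≤ q' x) ∧ (∀ x ∈ X0, q x ≤ q' x) ∧
      (∀ s, ∀ x ∈ X0, q' (S.act s x) ≤ q' x + ε * ‖s‖ + B) ∧
      ∀ n : ℤ, ∀ x ∈ X0, q' (S.act (n • a) x) ≤ q' x + ε' * |(n : ℝ)| := by
  have hb : ∀ x ∈ X0, BddAbove (range fun n : ℤ => q (S.act (n • a) x) - ε' * |(n : ℝ)|) := by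
    intro x hx
    refine ⟨q x + B, ?_⟩
    rintro _ ⟨n, rfl⟩
    have h1 := hq (n • a) x hx
    have h2 : ‖n • a‖ = |(n : ℝ)| * ‖a‖ := by
      rw [← Int.cast_smul_eq_zsmul ℝ, norm_smul, Real.norm_eq_abs]
    have h3 := mul_le_mul_of_nonneg_right hε (abs_nonneg (n : ℝ))
    rw [h2] at h1
    simp only
    nlinarith
  have hle : ∀ x ∈ X0, ∀ n : ℤ, q (S.act (n • a) x) - ε' * |(n : ℝ)| ≤
      ⨆ n : ℤ, (q (S.act (n • a) x) - ε' * |(n : ℝ)|) := fun x hx n => le_ciSup (hb x hx) n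
  have h00 : ∀ x ∈ X0, q x ≤ ⨆ n : ℤ, (q (S.act (n • a) x) - ε' * |(n : ℝ)|) := fun x hx => by
    simpa [S.zero] using hle x hx 0
  refine ⟨fun x => max (⨆ n : ℤ, (q (S.act (n • a) x) - ε' * |(n : ℝ)|)) 0,
    (Measurable.iSup fun n => (hm.comp (S.meas _)).sub_const _).max measurable_const,
    fun x => le_max_right _ _, fun x hx => (h00 x hx).trans (le_max_left _ _), fun s x hx => ?_,
    fun m x hx => ?_⟩
  · simp only [max_eq_left ((h0 _).trans (h00 _ hx)), max_eq_left ((h0 _).trans (h00 _ (hi s x hx)))]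
    refine ciSup_le fun n => ?_
    have := hq s _ (hi (n • a) x hx)
    rw [S.comm] at this
    linarith [hle x hx n]
  · simp only [max_eq_left ((h0 _).trans (h00 _ hx)),
      max_eq_left ((h0 _).trans (h00 _ (hi (m • a) x hx)))]
    refine ciSup_le fun n => ?_
    have h1 := hle x hx (n + m)
    have h2 : |((n + m : ℤ) : ℝ)| ≤ |(n : ℝ)| + |(m : ℝ)| := by
      push_cast
      exact abs_add_le _ _
    rw [add_smul, S.add] at h1
    nlinarith [mul_le_mul_of_nonneg_left h2 hε']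

end Pool.Agent.P.MP_d483fb_an.Z.NF
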