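import Pool.Agent.P.MP_d483fb_an.Os.OutT

/-!
Normal forms: the Oseledets splitting indexed by all linear forms.
-/

open MeasureTheory Filter Topology Set Real

set_option linter.unusedSectionVars false
set_option linter.unusedVariables false

noncomputable section

namespace Pool.Agent.P.MP_d483fb_an.Z.NF

open Os

variable {W X V ι : Type} [NormedAddCommGroup W] [NormedSpace ℝ W] [MeasurableSpace X]
  {μ : Measure X} [NormedAddCommGroup V] [NormedSpace ℝ V] [FiniteDimensional ℝ V]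
  {S : Sys W X μ} {A : W → X → V →L[ℝ] V} [Fintype ι] (o : OseA S A ι)

open Classical in
/-- The projection on the vectors of exponent `ν`. -/
def Pw (ν : W →L[ℝ] ℝ) (x : X) : V →L[ℝ] V := ∑ k, if o.lamL k = ν then o.P k x else 0

/-- The vectors of exponent `ν`. -/
def Dw (ν : W →L[ℝ] ℝ) (x : X) : Submodule ℝ V where
  carrier := {v | ∀ k, o.lamL k ≠ ν → o.P k x v = 0}
  zero_mem' := fun _ _ => map_zero _
  add_mem' := fun hv hw k hk => by rw [map_add, hv k hk, hw k hk, add_zero]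
  smul_mem' := fun c _ hv k hk => by rw [map_smul, hv k hk, smul_zero]

variable {o} {ν : W →L[ℝ] ℝ} {x : X}

theorem Pw_sm (o : OseA S A ι) (ν : W →L[ℝ] ℝ) : StronglyMeasurable (Pw o ν) := by
  classical
  refine Finset.stronglyMeasurable_fun_sum _ fun k _ => ?_
  split_ifs
  · exact o.measP k
  · exact stronglyMeasurable_const

theorem Pw_mem (hx : x ∈ o.X0) (ν : W →L[ℝ] ℝ) (v : V) : Pw o ν x v ∈ Dw o ν x := by
  classical
  intro k hk
  rw [Pw, sum_apply, map_sum]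
  refine Finset.sum_eq_zero fun j _ => ?_
  split_ifs with hj
  · exact o.P_other x hx k j (fun e => hk (e ▸ hj)) _ (o.P_mem x hx j v)
  · exact map_zero _

theorem Pw_self (hx : x ∈ o.X0) {v : V} (hv : v ∈ Dw o ν x) : Pw o ν x v = v := by
  classical
  refine Eq.trans ?_ (o.P_sum x hx v)
  rw [Pw, sum_apply]
  refine Finset.sum_congr rfl fun k _ => ?_
  split_ifs with hk
  · rfl
  · exact (hv k hk).symm

theorem Pw_other (hx : x ∈ o.X0) {ν' : W →L[ℝ] ℝ} (h : ν' ≠ ν) {v : V} (hv : v ∈ Dw o ν x) :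
    Pw o ν' x v = 0 := by
  classical
  rw [Pw, sum_apply]
  refine Finset.sum_eq_zero fun k _ => ?_
  split_ifs with hk
  · exact hv k (hk ▸ h)
  · rfl

/-- The sum of the projections over any finite set of forms containing the exponents. -/
theorem Pw_sum (hx : x ∈ o.X0) {T : Finset (W →L[ℝ] ℝ)} (hT : ∀ k, o.lamL k ∈ T) (v : V) :
    ∑ ν ∈ T, Pw o ν x v = v := by
  classical
  rw [← sum_apply]
  simp only [Pw]
  rw [Finset.sum_comm, sum_apply]
  refine Eq.trans (Finset.sum_congr rfl fun k _ => ?_) (o.P_sum x hx v)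
  congr 1
  convert (Finset.sum_ite_eq T (o.lamL k) fun _ => o.P k x).trans (if_pos (hT k))

theorem Dw_act (hx : x ∈ o.X0) (s : W) {v : V} (hv : v ∈ Dw o ν x) :
    A s x v ∈ Dw o ν (S.act s x) := by
  intro k hk
  rw [o.P_inv x hx, hv k hk, map_zero]

theorem Dw_est (o : OseA S A ι) {ε : ℝ} (hε : 0 < ε) : ∃ q : X → ℝ, Measurable q ∧ (∀ x, 0 ≤ q x) ∧
    (∀ s, ∀ x ∈ o.X0, q (S.act s x) ≤ q x + ε * ‖s‖ + o.B) ∧
    ∀ x ∈ o.X0, ∀ ν, ‖Pw o ν x‖ ≤ exp (q x) ∧ ∀ s, ∀ v ∈ Dw o ν x,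
      ‖A s x v‖ ≤ exp (q x + ν s + ε * ‖s‖) * ‖v‖ := by
  classical
  obtain ⟨q, q1, q2, q3, q4⟩ := o.est ε hε
  have hc : (Fintype.card ι : ℝ) ≤ exp (Fintype.card ι) := by
    linarith [add_one_le_exp (Fintype.card ι : ℝ)]
  refine ⟨fun x => q x + Fintype.card ι, q1.add_const _, fun x => add_nonneg (q2 x) (Nat.cast_nonneg _),
    fun s x hx => by linarith [q3 s x hx], fun x hx ν => ⟨?_, fun s v hv => ?_⟩⟩
  · refine (norm_sum_le _ _).trans ((Finset.sum_le_card_nsmul _ _ (exp (q x)) fun k _ => ?_).trans ?_)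
    · split_ifs
      · exact (q4 x hx k).1
      · rw [norm_zero]
        exact (exp_pos _).le
    · rw [nsmul_eq_mul, exp_add, mul_comm]
      exact mul_le_mul_of_nonneg_left hc (exp_pos _).le
  by_cases h : ∃ k, o.lamL k = ν
  · obtain ⟨k, rfl⟩ := h
    have e : o.P k x v = v := by
      rw [← o.P_sum x hx v, Finset.sum_eq_single k (fun j _ hj => hv j fun e => hj
        (o.lam_inj (AddMonoidHom.ext fun s => DFunLike.congr_fun e s))) (by simp)]
      exact o.P_self x hx k _ (o.P_mem x hx k v)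
    refine ((q4 x hx k).2 s v (e ▸ o.P_mem x hx k v)).1.trans
      (mul_le_mul_of_nonneg_right (exp_le_exp.2 ?_) (norm_nonneg v))
    rw [o.lamL_apply]
    linarith [(Fintype.card ι).cast_nonneg (α := ℝ)]
  · rw [← o.P_sum x hx v, Finset.sum_eq_zero fun k _ => hv k fun e => h ⟨k, e⟩, map_zero, norm_zero,
      mul_zero]

theorem eq_zero_of_growth' {ν ν' : W →L[ℝ] ℝ} (h : ν ≠ ν') {c : ℝ}
    (hc : ∀ ε : ℝ, 0 < ε → ∃ C : ℝ, ∀ s, |c| ≤ C * exp (ν s - ν' s + ε * ‖s‖)) : c = 0 := by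
  obtain ⟨s, hs⟩ : ∃ s, ν s < ν' s := by
    obtain ⟨s, hs⟩ := DFunLike.ne_iff.1 h
    rcases lt_or_gt_of_ne hs with h1 | h1
    · exact ⟨s, h1⟩
    · exact ⟨-s, by rw [map_neg, map_neg]; exact neg_lt_neg h1⟩
  have hd := sub_pos.2 hs
  obtain ⟨C, hC⟩ := hc ((ν' s - ν s) / 2 / (‖s‖ + 1)) (by positivity)
  have h1 : (ν' s - ν s) / 2 / (‖s‖ + 1) * ‖s‖ ≤ (ν' s - ν s) / 2 := by
    rw [div_mul_eq_mul_div, div_le_iff₀ (by positivity)]
    linarith
  by_contra h0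
  have h2 := abs_pos.2 h0
  obtain ⟨n, hn⟩ := exists_nat_gt (C / (|c| * ((ν' s - ν s) / 2)))
  rw [div_lt_iff₀ (by positivity)] at hn
  have h3 := hC ((n : ℝ) • s)
  have hC0 : 0 ≤ C := by simpa using h2.le.trans (hC 0)
  rw [map_smul, map_smul, norm_smul, Real.norm_natCast, smul_eq_mul, smul_eq_mul] at h3
  have h4 : |c| ≤ C * exp (-((ν' s - ν s) / 2 * n)) := h3.trans (mul_le_mul_of_nonneg_left
    (exp_le_exp.2 (by linarith [mul_le_mul_of_nonneg_left h1 n.cast_nonneg])) hC0)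
  rw [exp_neg, le_mul_inv_iff₀ (exp_pos _)] at h4
  linarith [mul_le_mul_of_nonneg_left (add_one_le_exp ((ν' s - ν s) / 2 * n)) h2.le]

theorem Dw_of_growth (hx : x ∈ o.X0) {v : V}
    (h : ∀ ε : ℝ, 0 < ε → ∃ C : ℝ, ∀ s, ‖A s x v‖ ≤ C * exp (ν s + ε * ‖s‖)) : v ∈ Dw o ν x := by
  intro k hk
  refine norm_eq_zero.1 (eq_zero_of_growth' hk.symm fun ε hε => ?_)
  obtain ⟨q, -, -, q3, q4⟩ := o.est (ε / 3) (by positivity)
  obtain ⟨C, hC⟩ := h (ε / 3) (by positivity)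
  refine ⟨exp (2 * q x + o.B) * C, fun s => ?_⟩
  have h1 := ((q4 x hx k).2 s _ (o.P_mem x hx k v)).2
  rw [← o.P_inv x hx] at h1
  rw [abs_norm]
  refine h1.trans ((mul_le_mul_of_nonneg_left (((o.P k _).le_opNorm _).trans (mul_le_mul
    ((q4 _ (o.inv0 s x hx) k).1.trans (exp_le_exp.2 (q3 s x hx))) (hC s) (norm_nonneg _)
      (exp_pos _).le)) (exp_pos _).le).trans_eq ?_)
  rw [mul_left_comm _ C, mul_left_comm _ C, mul_comm _ C, mul_assoc C, ← exp_add, ← exp_add, ← exp_add,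
    o.lamL_apply]
  ring_nf

/-- Two different linear forms are separated by some direction. -/
theorem eq_zero_of_growth {ν ν' : W →L[ℝ] ℝ} (h : ν ≠ ν') {c : ℝ}
    (hc : ∀ ε : ℝ, 0 < ε → ∃ C : ℝ, ∀ s, |c| ≤ C * exp (ν s - ν' s + ε * ‖s‖)) : c = 0 := by
  exact eq_zero_of_growth' h hc

end Pool.Agent.P.MP_d483fb_an.Z.NF
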