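import Pool.Agent.P.MP_d483fb_an.Z.NF.Push
import Pool.Agent.P.MP_d483fb_an.Z.NF.Wts
import Pool.Agent.P.MP_d483fb_an.Z.NF.PInv
import Pool.Agent.P.MP_d483fb_an.Z.NF.PRes
import Pool.Agent.P.MP_d483fb_an.Z.NF.SlowH
import Pool.Agent.P.MP_d483fb_an.Os.MainT

/-!
Normal forms: existence of formal normal forms.
-/

open MeasureTheory Filter Topology Set Real

set_option linter.unusedSectionVars false

noncomputable section

namespace Pool.Agent.P.MP_d483fb_an.Z.NF

open Os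

variable {W X Γ M : Type} [NormedAddCommGroup W] [NormedSpace ℝ W] [MeasurableSpace W]
  [MeasurableSpace X] {μ : Measure X} [Group Γ] [MeasurableSpace Γ] [MetricSpace M]
  [MeasurableSpace M] {α : Γ →* Equiv.Perm M} {len : Γ → ℝ} {D : ℕ}
  {S : Sys W X μ} {J : Jets α len D} {K : Skew S J} {lam : Fin D → W →L[ℝ] ℝ} {r : ℕ}
  {a : W} {s1 s2 : ℝ}

theorem lin_push (K : Skew S J) (hr : 2 ≤ r) (s : W) (x : X) (u : V D r) (v : E D) :
    lin u v = lin (K.push r s x u) (K.Dl s x v) := by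
  rw [K.push_apply, lin_comp, K.linv_T hr, ContinuousLinearMap.comp_apply, ← K.Dl_add,
    neg_add_cancel, K.Dl_zero]

/-- The lifts of the dual frame to jets of the same exponents. -/
theorem lin_Pw (hr : 2 ≤ r) (Fr : Frame S K.Dl lam) {ι : Type} [Fintype ι]
    (o : OseA S (K.push r) ι) {x : X} (hx : x ∈ o.X0) (hx' : x ∈ Fr.X0) (i j : Fin D) :
    lin (Pw o (-lam i) x (ofLin r (Fr.g x i))) (Fr.f x j) = if i = j then 1 else 0 := by
  classical
  obtain ⟨A, hA⟩ := exists_pc D r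
  have h0 : ∀ ν, ν ≠ -lam j → lin (Pw o ν x (ofLin r (Fr.g x i))) (Fr.f x j) = 0 := by
    refine fun ν hν => eq_zero_of_growth hν fun ε hε => ?_
    obtain ⟨q, -, -, -, hq⟩ := Dw_est o (half_pos hε)
    obtain ⟨q', -, -, -, hq'⟩ := Fr.est _ (half_pos hε)
    refine ⟨exp (A + q x + q' x) * ‖Pw o ν x (ofLin r (Fr.g x i))‖, fun s => ?_⟩
    rw [lin_push K hr s x]
    refine ((lin _).le_opNorm _).trans ((mul_le_mul ((hA.lin_le _).trans (mul_le_mul_of_nonneg_left
      ((hq x hx ν).2 s _ (Pw_mem hx ν _)) (exp_pos _).le)) ((hq' x hx').2.2 s j) (norm_nonneg _)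
        (by positivity)).trans_eq ?_)
    rw [← mul_assoc, mul_right_comm, ← exp_add, ← exp_add, mul_right_comm, ← exp_add, neg_apply]
    ring_nf
  have h1 : lin (Pw o (-lam j) x (ofLin r (Fr.g x i))) (Fr.f x j) = if i = j then 1 else 0 := by
    rw [← Fr.dual x hx', ← lin_ofLin hr]
    conv_rhs => rw [← Pw_sum hx (T := insert (-lam j) (Finset.univ.image o.lamL))
      (fun k => Finset.mem_insert_of_mem (Finset.mem_image_of_mem _ (Finset.mem_univ k)))
      (ofLin r (Fr.g x i)), lin_sum, sum_apply]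
    exact (Finset.sum_eq_single_of_mem _ (Finset.mem_insert_self _ _) fun ν _ hν => h0 ν hν).symm
  by_cases h : lam i = lam j
  · rw [h, h1]
  · rw [h0 _ fun e => h (neg_injective e), if_neg fun e => h (congrArg lam e)]

/-- The coefficients of a jet of exponent `-l` in coordinates of exponents `-lam` are resonant. -/
theorem res1_of_Dw (hr : 2 ≤ r) {ι : Type} [Fintype ι] (o : OseA S (K.push r) ι) {x : X}
    (hx : x ∈ o.X0) {Ψ Q : Jt D r} (hΨ : ∀ i, Ψ i ∈ Dw o (-lam i) x) (hQ : compv Ψ Q = idv D r)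
    {l : W →L[ℝ] ℝ} {t : V D r} (ht : comp t Ψ ∈ Dw o (-l) x) : Res1 lam l t := by
  classical
  obtain ⟨A, hA⟩ := exists_pc D r
  have hr0 : (0 : ℝ) < r := by positivity
  have h1 : ∀ β : Idx D r, comp (Pi.single β 1 : V D r) Ψ ∈ Dw o (-wt lam β.1) x := by
    refine fun β => Dw_of_growth hx fun ε hε => ?_
    obtain ⟨q, -, q0, -, hq⟩ := Dw_est o (div_pos hε hr0)
    refine ⟨exp (A + r * (q x + ‖Ψ‖)) * ‖(Pi.single β 1 : V D r)‖, fun s => ?_⟩
    rw [K.push_apply, comp_assoc]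
    refine (hA.comp_le_res (res1_single (fun j => lam j (-s)) β)
      (R := q x + ‖Ψ‖ + ε / r * ‖s‖) (by have := q0 x; positivity) fun j => ?_).trans_eq ?_
    · refine ((hq x hx _).2 s _ (hΨ j)).trans ((mul_le_mul_of_nonneg_left
        ((norm_le_pi_norm Ψ j).trans (norm_le_exp_norm Ψ)) (exp_pos _).le).trans_eq ?_)
      rw [← exp_add, neg_apply, map_neg]
      ring_nf
    · rw [← wt_apply, map_neg, neg_apply, mul_right_comm, ← exp_add, mul_add _ _ (ε / r * ‖s‖),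
        ← mul_assoc, mul_div_cancel₀ _ hr0.ne']
      ring_nf
  intro β hβ
  by_contra hne
  let t' : V D r := fun γ => if wt lam γ.1 = wt lam β.1 then t γ else 0
  have h2 : comp t' Ψ = 0 := by
    rw [← Pw_other hx (ν' := -wt lam β.1) (fun e => hne (neg_injective e)) ht, comp_eq_sum,
      comp_eq_sum t, map_sum]
    refine Finset.sum_congr rfl fun γ _ => ?_
    rw [map_smul]
    by_cases h : wt lam γ.1 = wt lam β.1
    · rw [← h, Pw_self hx (h1 γ), show t' γ = t γ from if_pos h]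
    · rw [Pw_other hx (fun e => h (neg_injective e).symm) (h1 γ), show t' γ = 0 from if_neg h,
        zero_smul, smul_zero]
  have h3 : t' = 0 := by rw [← comp_idv hr t', ← hQ, ← comp_assoc, h2, ← compL_apply, map_zero]
  exact hβ ((if_pos rfl).symm.trans (congrFun h3 β))

theorem exists_formal [FiniteDimensional ℝ W] [BorelSpace W] [IsProbabilityMeasure μ] [Countable Γ]
    [DiscreteMeasurableSpace Γ] (K : Skew S J) (hr : 2 ≤ r) (Fr : Frame S K.Dl lam) :
    Nonempty (Formal K lam r) := by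
  obtain ⟨c, L, -, hc⟩ := K.tcoc_push hr
  obtain ⟨ι, _, ⟨o⟩⟩ := oseledets_temp hc (K.sm_push r)
  obtain ⟨A, hA⟩ := exists_pc D r
  obtain ⟨C, iv, hC, miv, hiv⟩ := exists_inv (D := D) hr
  obtain ⟨X1, B, hB, z1, z2, z3, hZ⟩ := exists_slow S K.measH K.L_nonneg K.h_lip
  let Ψ : X → Jt D r := fun x i => Pw o (-lam i) x (ofLin r (Fr.g x i))
  let F : X → E D →L[ℝ] E D := fun x => ∑ j, (ContinuousLinearMap.proj j).smulRight (Fr.f x j)
  have hF : ∀ x w, F x w = ∑ j, w j • Fr.f x j := fun x w => by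
    simp only [F, sum_apply, ContinuousLinearMap.smulRight_apply, ContinuousLinearMap.proj_apply]
  have nF : ∀ x, ‖F x‖ ≤ exp D * ‖Fr.f x‖ := fun x =>
    ContinuousLinearMap.opNorm_le_bound _ (by positivity) fun w => by
      rw [hF]
      refine (norm_sum_le _ _).trans ((Finset.sum_le_card_nsmul _ _ (‖Fr.f x‖ * ‖w‖)
        fun j _ => ?_).trans ?_)
      · rw [norm_smul, mul_comm]
        exact mul_le_mul (norm_le_pi_norm _ j) (norm_le_pi_norm _ j) (norm_nonneg _) (norm_nonneg _)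
      · rw [Finset.card_univ, Fintype.card_fin, nsmul_eq_mul, mul_assoc]
        exact mul_le_mul_of_nonneg_right (by linarith [add_one_le_exp (D : ℝ)]) (by positivity)
  have lF : ∀ x ∈ o.X0, x ∈ Fr.X0 → ∀ w, linv (Ψ x) (F x w) = w := fun x hx hx' w => by
    funext i
    rw [linv_apply, hF, map_sum]
    simp only [Ψ, map_smul, lin_Pw hr Fr o hx hx', smul_eq_mul, mul_ite, mul_one, mul_zero,
      Finset.sum_ite_eq, Finset.mem_univ, if_true]
  have hi : ∀ x ∈ o.X0, x ∈ Fr.X0 →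
      compv (Ψ x) (iv (Ψ x)) = idv D r ∧ compv (iv (Ψ x)) (Ψ x) = idv D r := fun x hx hx' => by
    have := hiv (Ψ x) (F x) (‖Ψ x‖ + ‖F x‖) (by positivity)
      ((norm_le_exp_norm _).trans (exp_le_exp.2 (le_add_of_nonneg_right (norm_nonneg _))))
      ((norm_le_exp_norm _).trans (exp_le_exp.2 (le_add_of_nonneg_left (norm_nonneg _))))
      (lF x hx hx')
    exact ⟨this.1, this.2.1⟩
  have mΨ : Measurable Ψ := measurable_pi_iff.2 fun i =>
    (isBoundedBilinearMap_apply.continuous.comp_stronglyMeasurable ((Pw_sm o _).prodMk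
      (continuous_ofLin.measurable.comp ((measurable_pi_apply i).comp Fr.measG)).stronglyMeasurable)
      ).measurable
  have cj : ∀ s, ∀ x ∈ o.X0, x ∈ Fr.X0 → compv (Ψ (S.act s x)) (K.T r s x) =
      compv (compv (compv (Ψ (S.act s x)) (K.T r s x)) (iv (Ψ x))) (Ψ x) := fun s x hx hx' => by
    rw [compv_assoc, (hi x hx hx').2, compv_idv hr]
  have ps : ∀ s x i, compv (Ψ (S.act s x)) (K.T r s x) i =
      K.push r (-s) (S.act s x) (Ψ (S.act s x) i) := fun s x i => by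
    rw [K.push_apply, neg_neg, S.neg_act, compv]
  have hB1 := o.B_nonneg
  have hB2 := Fr.B_nonneg
  have hA0 := hA.nonneg
  have hrC : 0 ≤ r * C := by positivity
  have hD : (0 : ℝ) ≤ D := D.cast_nonneg
  refine ⟨⟨o.X0 ∩ Fr.X0 ∩ X1, (r * C + C + 2) * (o.B + Fr.B + B), A, Ψ, fun x => iv (Ψ x),
    fun s x => compv (compv (Ψ (S.act s x)) (K.T r s x)) (iv (Ψ x)), hA, by positivity,
    (o.meas0.inter Fr.meas0).inter z1, (o.ae0.and Fr.ae0).and z2, fun s x hx =>
      ⟨⟨o.inv0 s x hx.1.1, Fr.inv0 s x hx.1.2⟩, z3 s x hx.2⟩, mΨ, fun s => measurable_compv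
      (measurable_compv (mΨ.comp (S.meas s)) ((K.measurable_T r).comp measurable_prodMk_left))
      (miv.comp mΨ), fun x hx => (hi x hx.1.1 hx.1.2).1, fun x hx => (hi x hx.1.1 hx.1.2).2,
    fun s x hx => cj s x hx.1.1 hx.1.2, fun s x hx i => ?_, fun ε hε => ?_⟩⟩
  · refine res1_of_Dw hr o hx.1.1 (fun i => Pw_mem hx.1.1 _ _) (hi x hx.1.1 hx.1.2).1 ?_
    have := Dw_act (o.inv0 s x hx.1.1) (-s) (Pw_mem (o.inv0 s x hx.1.1) (-lam i)
      (ofLin r (Fr.g (S.act s x) i)))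
    rw [S.neg_act] at this
    exact mem_of_eq_of_mem ((congrFun (cj s x hx.1.1 hx.1.2) i).symm.trans (ps s x i)) this
  have hc' : 0 < r * C + C + 2 := by positivity
  obtain ⟨e, he, he'⟩ : ∃ e, 0 < e ∧ (r * C + C + 2) * e = ε / 4 :=
    ⟨ε / 4 / (r * C + C + 2), by positivity, mul_div_cancel₀ _ hc'.ne'⟩
  obtain ⟨q1, m1, p1, s1, b1⟩ := Dw_est o he
  obtain ⟨q2, m2, p2, s2, b2⟩ := Fr.est e he
  obtain ⟨q3, m3, p3, b3, s3⟩ := hZ e he
  have nΨ : ∀ x ∈ o.X0, x ∈ Fr.X0 → ‖Ψ x‖ ≤ exp (q1 x + q2 x) := fun x hx hx' =>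
    (pi_norm_le_iff_of_nonneg (exp_pos _).le).2 fun i => ((Pw o _ x).le_opNorm _).trans (by
      rw [exp_add]
      exact mul_le_mul (b1 x hx _).1 ((norm_ofLin_le _).trans ((norm_le_pi_norm _ i).trans
        (b2 x hx').2.1)) (norm_nonneg _) (exp_pos _).le)
  have nQ : ∀ x ∈ o.X0, x ∈ Fr.X0 → ‖iv (Ψ x)‖ ≤ exp (C * (1 + (q1 x + q2 x + D))) :=
    fun x hx hx' => (hiv (Ψ x) (F x) _ (by linarith [p1 x, p2 x])
      ((nΨ x hx hx').trans (exp_le_exp.2 (by linarith)))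
      ((nF x).trans ((mul_le_mul_of_nonneg_left (b2 x hx').1 (exp_pos _).le).trans (by
        rw [← exp_add, exp_le_exp]
        linarith [p1 x]))) (lF x hx hx')).2.2
  have hk : 0 ≤ A + (r * C + C) * (1 + D) + 2 * o.B + Fr.B := by positivity
  refine ⟨fun x => (r * C + C + 2) * (q1 x + q2 x + q3 x) +
      (A + (r * C + C) * (1 + D) + 2 * o.B + Fr.B),
    (((m1.add m2).add m3).const_mul _).add_const _, fun x => ?_, fun x hx => ?_, fun s x hx => ?_,
    fun x hx => ?_⟩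
  · have := p1 x
    have := p2 x
    have := p3 x
    positivity
  · have h1 := mul_nonneg (add_nonneg hrC hC) (add_nonneg (add_nonneg (p1 x) (p2 x)) (p3 x))
    linarith [b3 x hx.2, p1 x, p2 x, p3 x]
  · have h1 := mul_le_mul_of_nonneg_left (add_le_add (add_le_add (s1 s x hx.1.1) (s2 s x hx.1.2))
      (s3 s x hx.2)) hc'.le
    have h2 := congrArg (· * ‖s‖) he'
    linarith [mul_nonneg hε.le (norm_nonneg s)]
  have h1 := mul_nonneg hrC (add_nonneg (p1 x) (p2 x))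
  have h2 := mul_nonneg hC (add_nonneg (p1 x) (p2 x))
  have h3 := mul_nonneg hc'.le (p3 x)
  have h4 := mul_nonneg hrC (add_nonneg zero_le_one hD)
  have h5 := mul_nonneg hC (add_nonneg zero_le_one hD)
  refine ⟨(nΨ x hx.1.1 hx.1.2).trans (exp_le_exp.2 (by linarith [p1 x, p2 x])),
    (nQ x hx.1.1 hx.1.2).trans (exp_le_exp.2 (by linarith [p1 x, p2 x])), fun s i => ?_⟩
  have h6 := (b1 _ (o.inv0 s x hx.1.1) _).2 (-s) _ (Pw_mem (o.inv0 s x hx.1.1) (-lam i)
    (ofLin r (Fr.g (S.act s x) i)))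
  refine (hA.comp_le _ _ _ (mul_nonneg hC (by linarith [p1 x, p2 x])) (nQ x hx.1.1 hx.1.2)).trans ?_
  rw [ps]
  refine (mul_le_mul_of_nonneg_left (h6.trans (mul_le_mul_of_nonneg_left ((norm_le_pi_norm
    (Ψ (S.act s x)) i).trans (nΨ _ (o.inv0 s x hx.1.1) (Fr.inv0 s x hx.1.2))) (exp_pos _).le))
      (exp_pos _).le).trans ?_
  rw [← exp_add, ← exp_add, exp_le_exp, neg_apply, map_neg, neg_neg, norm_neg]
  have h7 := congrArg (· * ‖s‖) he'
  have h8 := mul_nonneg (mul_nonneg (add_nonneg hrC hC) he.le) (norm_nonneg s)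
  linarith [s1 s x hx.1.1, s2 s x hx.1.2, p1 x, p2 x, mul_nonneg hε.le (norm_nonneg s)]

end Pool.Agent.P.MP_d483fb_an.Z.NF
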