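import Pool.Agent.P.MP_d483fb_an.Z.NF.Formal

/-!
Normal forms: a measurable tempered frame adapted to an Oseledets splitting.
-/

open MeasureTheory Filter Topology Set Real

set_option linter.unusedSectionVars false

noncomputable section

namespace Pool.Agent.P.MP_d483fb_an.Z.NF

open Os

variable {W X Γ M : Type} [NormedAddCommGroup W] [NormedSpace ℝ W] [MeasurableSpace W]
  [MeasurableSpace X] {μ : Measure X} [Group Γ] [MeasurableSpace Γ] [MetricSpace M]
  [MeasurableSpace M] {α : Γ →* Equiv.Perm M} {len : Γ → ℝ} {D : ℕ}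
  {S : Sys W X μ} {J : Jets α len D} {K : Skew S J} {lam : Fin D → W →L[ℝ] ℝ} {r : ℕ}
  {a : W} {s1 s2 : ℝ}

/-- The matrix whose rows are projections of vectors of the standard basis. -/
def frM {ι : Type} (P : ι → E D →L[ℝ] E D) (σ : Fin D → ι) (ϖ : Fin D → Fin D) :
    Matrix (Fin D) (Fin D) ℝ := Matrix.of fun i => P (σ i) (Pi.single (ϖ i) 1)

theorem frM_ne {ι : Type} (P : ι → E D →L[ℝ] E D) (σ : Fin D → ι)
    (b : Module.Basis (Fin D) ℝ (E D)) (hb : ∀ i, P (σ i) (b i) = b i) :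
    ∃ ϖ, (frM P σ ϖ).det ≠ 0 := by
  by_contra h
  push Not at h
  have h0 : (Matrix.of fun i => b i).det ≠ 0 :=
    ((Matrix.isUnit_iff_isUnit_det _).1
      (Matrix.linearIndependent_rows_iff_isUnit.1 b.linearIndependent)).ne_zero
  have e : (fun i => b i) = fun i => ∑ l, b i l • P (σ i) (Pi.single l 1) := by
    funext i
    simp only [← map_smul, ← map_sum]
    rw [← hb i]
    congr 1
    rw [hb i]
    funext m
    simp [Pi.single_apply]
  apply h0
  rw [e]
  refine ((Matrix.detRowAlternating (R := ℝ) (n := Fin D)).toMultilinearMap.map_sum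
    fun i l => b i l • P (σ i) (Pi.single l 1)).trans (Finset.sum_eq_zero fun ϖ _ => ?_)
  refine ((Matrix.detRowAlternating (R := ℝ) (n := Fin D)).toMultilinearMap.map_smul_univ
    (fun i => b i (ϖ i)) fun i => P (σ i) (Pi.single (ϖ i) 1)).trans ?_
  exact smul_eq_zero_of_right _ (h ϖ)

theorem frM_le {ι : Type} [Fintype ι] (P : ι → E D →L[ℝ] E D) (σ : Fin D → ι)
    (hs : ∀ v, ∑ j, P j v = v) (h1 : ∀ j v, P j (P j v) = P j v)
    (h2 : ∀ i j, i ≠ j → ∀ v, P i (P j v) = 0) {ϖ : Fin D → Fin D}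
    (hm : ∀ ϖ', |(frM P σ ϖ').det| ≤ |(frM P σ ϖ).det|) (h0 : (frM P σ ϖ).det ≠ 0) (i l : Fin D) :
    |(frM P σ ϖ).adjugate l i / (frM P σ ϖ).det| ≤ 1 := by
  set F := frM P σ ϖ with hF
  have hz : ∀ j, j ≠ σ i → ∀ v, F.transpose.cramer (P j v) i = 0 := by
    intro j hj v
    have e : v = ∑ k, (Matrix.vecMul v F⁻¹) k • F k := by
      rw [← Matrix.vecMul_eq_sum, Matrix.vecMul_vecMul, Matrix.nonsing_inv_mul _ h0.isUnit,
        Matrix.vecMul_one]
    rw [e, map_sum, map_sum, Finset.sum_apply]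
    refine Finset.sum_eq_zero fun k _ => ?_
    rw [map_smul, map_smul, Pi.smul_apply]
    refine smul_eq_zero_of_right _ ?_
    have ek : F k = P (σ k) (Pi.single (ϖ k) 1) := rfl
    by_cases hk : j = σ k
    · rw [ek, hk, h1, ← ek, Matrix.cramer_transpose_row_self, Pi.single_eq_of_ne]
      rintro rfl
      exact hj hk
    · rw [ek, h2 _ _ hk, map_zero]
      rfl
  have e : F.adjugate l i = (frM P σ (Function.update ϖ i l)).det := by
    rw [Matrix.adjugate_apply, ← Matrix.cramer_transpose_apply, ← hs (Pi.single l 1), map_sum,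
      Finset.sum_apply, Finset.sum_eq_single (σ i) (fun j _ hj => hz j hj _) (by simp),
      Matrix.cramer_transpose_apply]
    congr 1
    ext k m
    by_cases hk : k = i
    · subst hk
      simp [frM]
    · simp [hF, frM, Matrix.updateRow_ne hk, Function.update_of_ne hk]
  rw [abs_div, e]
  exact div_le_one_of_le₀ (hm _) (abs_nonneg _)

theorem frM_basis {A : W → X → E D →L[ℝ] E D} {ι : Type} [Fintype ι] [DecidableEq ι]
    (o : OseA S A ι) {x : X} (hx : x ∈ o.X0) :
    ∃ b : Module.Basis (Σ j, Fin (o.d j)) ℝ (E D), ∀ i, b i ∈ o.D i.1 x := by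
  have hI : DirectSum.IsInternal fun j => o.D j x := by
    refine DirectSum.isInternal_submodule_of_iSupIndep_of_iSup_eq_top (fun i => ?_) ?_
    · rw [Submodule.disjoint_def]
      intro v hv hv'
      have hk : (⨆ j, ⨆ (_ : j ≠ i), o.D j x) ≤ LinearMap.ker (o.P i x).toLinearMap :=
        iSup₂_le fun j hj w hw => o.P_other x hx i j hj.symm w hw
      exact (o.P_self x hx i v hv).symm.trans (hk hv')
    · refine top_le_iff.1 fun v _ => ?_
      rw [← o.P_sum x hx v]
      exact Submodule.sum_mem _ fun j _ => Submodule.mem_iSup_of_mem j (o.P_mem x hx j v)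
  exact ⟨hI.collectedBasis fun j => Module.finBasisOfFinrankEq ℝ _ (o.rank x hx j),
    fun i => hI.collectedBasis_mem _ i⟩

theorem exists_frame {A : W → X → E D →L[ℝ] E D} {ι : Type} [Fintype ι] [DecidableEq ι]
    (o : OseA S A ι) (hne : o.X0.Nonempty) :
    ∃ σ : Fin D → ι, (∀ j, (Finset.univ.filter fun i => σ i = j).card = o.d j) ∧
      Nonempty (Frame S A fun i => o.lamL (σ i)) := by
  classical
  obtain ⟨x0, hx0⟩ := hne
  obtain ⟨b0, -⟩ := frM_basis o hx0
  have hc : Fintype.card (Σ j, Fin (o.d j)) = D := by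
    rw [← Module.finrank_eq_card_basis b0]
    simp
  let e : Fin D ≃ Σ j, Fin (o.d j) := (Fintype.equivFinOfCardEq hc).symm
  let σ : Fin D → ι := fun i => (e i).1
  refine ⟨σ, fun j => ?_, ?_⟩
  · rw [← Fintype.card_subtype, Fintype.card_congr ((e.subtypeEquiv (q := fun s => s.1 = j)
      fun _ => Iff.rfl).trans (Equiv.sigmaSubtype j)), Fintype.card_fin]
  have : Nonempty (Fin D → Fin D) := ⟨id⟩
  obtain ⟨t, ht⟩ := exists_surjective_nat (Fin D → Fin D)
  have mM : ∀ ϖ, Measurable fun x => (fun i l => frM (fun j => o.P j x) σ ϖ i l) := fun ϖ =>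
    measurable_pi_lambda _ fun i => (sm_apply (o.measP (σ i)) (Pi.single (ϖ i) 1)).measurable
  have cd : Continuous fun F : Fin D → Fin D → ℝ => (Matrix.of F).det :=
    Continuous.matrix_det continuous_id
  have ca : ∀ i l, Continuous fun F : Fin D → Fin D → ℝ => (Matrix.of F).adjugate l i :=
    fun i l => (Continuous.matrix_adjugate continuous_id).matrix_elem l i
  have md : ∀ ϖ, Measurable fun x => |(frM (fun j => o.P j x) σ ϖ).det| := fun ϖ =>
    (cd.measurable.comp (mM ϖ)).abs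
  have hex : ∀ x, ∃ n, ∀ ϖ', |(frM (fun j => o.P j x) σ ϖ').det| ≤
      |(frM (fun j => o.P j x) σ (t n)).det| := fun x => by
    obtain ⟨ϖ, hϖ⟩ := Finite.exists_max fun ϖ => |(frM (fun j => o.P j x) σ ϖ).det|
    obtain ⟨n, rfl⟩ := ht ϖ
    exact ⟨n, hϖ⟩
  obtain ⟨ϖ, hϖ⟩ : ∃ ϖ : X → Fin D → Fin D, ∀ x, ϖ x = t (Nat.find (hex x)) := ⟨_, fun _ => rfl⟩
  have hm : ∀ x ϖ', |(frM (fun j => o.P j x) σ ϖ').det| ≤ |(frM (fun j => o.P j x) σ (ϖ x)).det| :=
    fun x => by rw [hϖ]; exact Nat.find_spec (hex x)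
  have mF : Measurable fun x => (fun i l => frM (fun j => o.P j x) σ (ϖ x) i l) := by
    simp only [hϖ]
    refine Measurable.find (f := fun n x => (fun i l => frM (fun j => o.P j x) σ (t n) i l))
      (fun n => mM _) (fun n => ?_) hex
    simp only [Set.ofPred_forall]
    exact MeasurableSet.iInter fun ϖ' => measurableSet_le (md _) (md _)
  have h0 : ∀ x ∈ o.X0, (frM (fun j => o.P j x) σ (ϖ x)).det ≠ 0 := by
    intro x hx h
    obtain ⟨b, hb⟩ := frM_basis o hx
    obtain ⟨ϖ', h'⟩ := frM_ne (fun j => o.P j x) σ (b.reindex e.symm) fun i => by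
      rw [Module.Basis.reindex_apply]
      exact o.P_self x hx _ _ (hb _)
    have := hm x ϖ'
    rw [h, abs_zero] at this
    exact h' (abs_nonpos_iff.1 this)
  refine ⟨⟨fun x i l => frM (fun j => o.P j x) σ (ϖ x) i l,
    fun x i l => (frM (fun j => o.P j x) σ (ϖ x)).adjugate l i /
      (frM (fun j => o.P j x) σ (ϖ x)).det, o.X0, 2 * o.B, by linarith [o.B_nonneg], o.meas0, o.ae0,
    o.inv0, mF, ?_, fun x hx i j => ?_, fun ε hε => ?_⟩⟩
  · exact measurable_pi_lambda _ fun i => measurable_pi_lambda _ fun l =>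
      ((ca i l).measurable.comp mF).div (cd.measurable.comp mF)
  · have h := congrFun (congrFun (Matrix.mul_adjugate (frM (fun j => o.P j x) σ (ϖ x))) j) i
    rw [Matrix.mul_apply, Matrix.smul_apply, Matrix.one_apply] at h
    simp only [div_mul_eq_mul_div, ← Finset.sum_div, mul_comm (Matrix.adjugate _ _ _), h]
    rw [div_eq_iff (h0 x hx)]
    simp [eq_comm]
  · obtain ⟨q, hq, q0, qs, hq2⟩ := o.est (ε / 2) (by linarith)
    refine ⟨fun x => 2 * q x, hq.const_mul 2, fun x => by linarith [q0 x],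
      fun s x hx => by linarith [qs s x hx], fun x hx => ?_⟩
    have hf : ∀ i, ‖o.P (σ i) x (Pi.single (ϖ x i) 1)‖ ≤ exp (q x) := fun i => by
      refine ((o.P (σ i) x).le_opNorm _).trans ?_
      rw [Pi.norm_single, norm_one, mul_one]
      exact (hq2 x hx _).1
    refine ⟨(pi_norm_le_iff_of_nonneg (exp_nonneg _)).2 fun i =>
      (hf i).trans (exp_le_exp.2 (by linarith [q0 x])),
      (pi_norm_le_iff_of_nonneg (exp_nonneg _)).2 fun i =>
        (pi_norm_le_iff_of_nonneg (exp_nonneg _)).2 fun l => ?_, fun s i => ?_⟩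
    · refine (frM_le (fun j => o.P j x) σ (o.P_sum x hx)
        (fun j v => o.P_self x hx j _ (o.P_mem x hx j v))
        (fun i j hij v => o.P_other x hx i j hij _ (o.P_mem x hx j v)) (hm x) (h0 x hx) i l).trans ?_
      exact one_le_exp (by linarith [q0 x])
    · refine (((hq2 x hx (σ i)).2 s _ (o.P_mem x hx _ (Pi.single (ϖ x i) 1))).1.trans
        (mul_le_mul_of_nonneg_left (hf i) (exp_nonneg _))).trans ?_
      rw [← exp_add, exp_le_exp, OseA.lamL_apply]
      nlinarith [norm_nonneg s]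

end Pool.Agent.P.MP_d483fb_an.Z.NF
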