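import Mathlib

/-!
Normal forms: a two sided discrete Gronwall inequality.
-/

open Filter Topology Real

noncomputable section

namespace Pool.Agent.P.MP_d483fb_an.Z.NF

theorem gron_geo {r : ℝ} (hr : 0 < r) (n : ℕ) :
    ∑ k ∈ Finset.range n, exp (-(r * (k + 1))) ≤ 1 / r := by
  have h : ∀ n : ℕ, r * ∑ k ∈ Finset.range n, exp (-(r * (k + 1))) ≤ 1 - exp (-(r * n)) := by
    intro n
    induction n with
    | zero => simp
    | succ n ih =>
      rw [Finset.sum_range_succ, mul_add]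
      have e : exp (-(r * n)) = exp (-(r * (n + 1))) * exp r := by
        rw [← exp_add]; congr 1; ring
      have h1 := add_one_le_exp r
      have h2 := exp_pos (-(r * (n + 1)))
      push_cast
      nlinarith
  rw [le_div_iff₀ hr, mul_comm]
  have := exp_pos (-(r * n))
  linarith [h n]

theorem gron_geo1 {r : ℝ} (hr : 0 < r) (i t : ℕ) :
    ∑ j ∈ Finset.Ico i t, exp (-(r * (j + 1 - i))) ≤ 1 / r := by
  rw [Finset.sum_Ico_eq_sum_range]
  refine le_of_eq_of_le (Finset.sum_congr rfl fun k _ => ?_) (gron_geo hr (t - i))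
  congr 2
  push_cast
  ring

theorem gron_geo2 {r : ℝ} (hr : 0 < r) (i : ℕ) :
    ∑ j ∈ Finset.range i, exp (-(r * (i - j))) ≤ 1 / r := by
  rw [← Finset.sum_range_reflect]
  refine le_of_eq_of_le (Finset.sum_congr rfl fun k hk => ?_) (gron_geo hr i)
  have hk' := Finset.mem_range.1 hk
  congr 2
  rw [Nat.sub_sub, Nat.cast_sub (by omega)]
  push_cast
  ring

theorem gron_pos {s2 s3 : ℝ} (h2 : 0 < s2) (h3 : s2 < s3)
    (d : ℕ → ℝ) (t : ℕ) (u v θ ε : ℝ) (hd : ∀ i, 0 ≤ d i) (hu : 0 ≤ u) (hv : 0 < v) (hε : 0 < ε)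
    (hs : 2 * ε ≤ s2) (hθ : 0 ≤ θ) (hc : θ * (1 / (s3 - s2) + 1 / ε) ≤ 1 / 2)
    (h : ∀ i ≤ t, d i ≤ u * exp (-(s3 * (t - i))) + v * exp (ε * i) +
        θ * (∑ j ∈ Finset.Ico i t, exp (-(s3 * (j + 1 - i))) * d j +
          ∑ j ∈ Finset.range i, exp (ε * (i - (j + 1))) * d j)) :
    ∀ i ≤ t, d i ≤ 2 * (u * exp (-(s2 * (t - i))) + v * exp (2 * ε * i)) := by
  obtain ⟨φ, hφ⟩ : ∃ φ : ℕ → ℝ, ∀ i, φ i = u * exp (-(s2 * (t - i))) + v * exp (2 * ε * i) :=
    ⟨_, fun _ => rfl⟩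
  have hp : ∀ i, 0 < φ i := fun i => by rw [hφ]; positivity
  have hcmp : ∀ (i j : ℕ) (a : ℝ), s2 * (j - i) ≤ a → 2 * ε * (j - i) ≤ a →
      φ j ≤ exp a * φ i := by
    intro i j a a1 a2
    rw [hφ, hφ, mul_add, mul_left_comm, mul_left_comm (exp a), ← exp_add, ← exp_add]
    exact add_le_add (mul_le_mul_of_nonneg_left (exp_le_exp.2 (by linarith)) hu)
      (mul_le_mul_of_nonneg_left (exp_le_exp.2 (by linarith)) hv.le)
  obtain ⟨i, hi, hmax⟩ := Finset.exists_max_image (Finset.range (t + 1)) (fun i => d i / φ i)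
    ⟨0, by simp⟩
  have hit : i ≤ t := Nat.lt_succ_iff.1 (Finset.mem_range.1 hi)
  set M := d i / φ i with hM
  have hM0 : 0 ≤ M := div_nonneg (hd i) (hp i).le
  have hb : ∀ j ≤ t, d j ≤ M * φ j := fun j hj =>
    (div_le_iff₀ (hp j)).1 (hmax j (Finset.mem_range.2 (Nat.lt_succ_iff.2 hj)))
  have hMφ : 0 ≤ M * φ i := mul_nonneg hM0 (hp i).le
  have s1 : ∑ j ∈ Finset.Ico i t, exp (-(s3 * (j + 1 - i))) * d j ≤ M * φ i * (1 / (s3 - s2)) := by
    refine le_trans ?_ (mul_le_mul_of_nonneg_left (gron_geo1 (sub_pos.2 h3) i t) hMφ)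
    rw [Finset.mul_sum]
    refine Finset.sum_le_sum fun j hj => ?_
    obtain ⟨j1, j2⟩ := Finset.mem_Ico.1 hj
    have j3 : (i : ℝ) ≤ j := by exact_mod_cast j1
    have c1 := hcmp i j (s2 * (j + 1 - i)) (by nlinarith) (by nlinarith)
    calc exp (-(s3 * (j + 1 - i))) * d j
        ≤ exp (-(s3 * (j + 1 - i))) * (M * (exp (s2 * (j + 1 - i)) * φ i)) :=
          mul_le_mul_of_nonneg_left ((hb j j2.le).trans (mul_le_mul_of_nonneg_left c1 hM0))
            (exp_pos _).le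
      _ = M * φ i * (exp (-(s3 * (j + 1 - i))) * exp (s2 * (j + 1 - i))) := by ring
      _ = _ := by rw [← exp_add]; congr 2; ring
  have s2' : ∑ j ∈ Finset.range i, exp (ε * (i - (j + 1))) * d j ≤ M * φ i * (1 / ε) := by
    refine le_trans ?_ (mul_le_mul_of_nonneg_left (gron_geo2 hε i) hMφ)
    rw [Finset.mul_sum]
    refine Finset.sum_le_sum fun j hj => ?_
    have j1 := Finset.mem_range.1 hj
    have j3 : (j : ℝ) ≤ i := by exact_mod_cast j1.le
    have c1 := hcmp i j (2 * ε * (j - i)) (by nlinarith) le_rfl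
    calc exp (ε * (i - (j + 1))) * d j
        ≤ exp (ε * (i - j)) * (M * (exp (2 * ε * (j - i)) * φ i)) :=
          mul_le_mul (exp_le_exp.2 (by nlinarith))
            ((hb j (by omega)).trans (mul_le_mul_of_nonneg_left c1 hM0)) (hd j) (exp_pos _).le
      _ = M * φ i * (exp (ε * (i - j)) * exp (2 * ε * (j - i))) := by ring
      _ = _ := by rw [← exp_add]; congr 2; ring
  have s0 : u * exp (-(s3 * (t - i))) + v * exp (ε * i) ≤ φ i := by
    rw [hφ]
    have i1 : (i : ℝ) ≤ t := by exact_mod_cast hit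
    have i0 : (0 : ℝ) ≤ i := Nat.cast_nonneg i
    exact add_le_add (mul_le_mul_of_nonneg_left (exp_le_exp.2 (by nlinarith)) hu)
      (mul_le_mul_of_nonneg_left (exp_le_exp.2 (by nlinarith)) hv.le)
  have e : d i = M * φ i := by rw [hM, div_mul_cancel₀ _ (hp i).ne']
  have s3' := mul_le_mul_of_nonneg_left (add_le_add s1 s2') hθ
  have s4 : θ * (M * φ i * (1 / (s3 - s2)) + M * φ i * (1 / ε)) ≤ M * φ i * (1 / 2) := by
    rw [← mul_add, mul_left_comm]
    exact mul_le_mul_of_nonneg_left hc hMφ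
  have hM2 : M ≤ 2 := by
    have h5 : M * φ i ≤ 2 * φ i := by linarith [h i hit]
    exact le_of_mul_le_mul_right h5 (hp i)
  intro j hj
  rw [← hφ]
  exact (hb j hj).trans (mul_le_mul_of_nonneg_right hM2 (hp j).le)

theorem gronwall2 {s2 s3 : ℝ} (h2 : 0 < s2) (h3 : s2 < s3) : ∃ c : ℝ, 0 < c ∧ c ≤ 1 ∧
    ∀ (d : ℕ → ℝ) (t : ℕ) (u v θ ε : ℝ), (∀ i, 0 ≤ d i) → 0 ≤ u → 0 ≤ v → 0 < ε → 2 * ε ≤ s2 →
      0 ≤ θ → θ ≤ c * ε →
      (∀ i ≤ t, d i ≤ u * exp (-(s3 * (t - i))) + v * exp (ε * i) +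
        θ * (∑ j ∈ Finset.Ico i t, exp (-(s3 * (j + 1 - i))) * d j +
          ∑ j ∈ Finset.range i, exp (ε * (i - (j + 1))) * d j)) →
      ∀ i ≤ t, d i ≤ 2 * (u * exp (-(s2 * (t - i))) + v * exp (2 * ε * i)) := by
  have h4 : 0 < s2 * (1 / (s3 - s2)) := mul_pos h2 (one_div_pos.2 (sub_pos.2 h3))
  have h5 : 0 < s2 * (1 / (s3 - s2)) + 2 := by linarith
  refine ⟨1 / (s2 * (1 / (s3 - s2)) + 2), one_div_pos.2 h5, (div_le_one h5).2 (by linarith), ?_⟩
  intro d t u v θ ε hd hu hv hε hs hθ hc h i hi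
  have hq : 0 < 1 / (s3 - s2) := one_div_pos.2 (sub_pos.2 h3)
  have hc' : θ * (1 / (s3 - s2) + 1 / ε) ≤ 1 / 2 := by
    refine (mul_le_mul_of_nonneg_right hc (by positivity)).trans ?_
    rw [mul_assoc, mul_add, mul_one_div_cancel hε.ne', one_div_mul_eq_div, div_le_iff₀ h5]
    nlinarith
  refine le_of_forall_pos_le_add fun η hη => ?_
  have hE := exp_pos (2 * ε * i)
  have h6 := gron_pos h2 h3 d t u (v + η / (2 * exp (2 * ε * i))) θ ε hd hu (by positivity) hε hs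
    hθ hc' (fun j hj => (h j hj).trans (by
      have : 0 ≤ η / (2 * exp (2 * ε * i)) * exp (ε * j) := by positivity
      linarith)) i hi
  have e : η / (2 * exp (2 * ε * i)) * exp (2 * ε * i) = η / 2 := by field_simp
  linarith

/-- Variation of constants from the final time and from the initial time. -/
theorem varconst {V : Type} [AddCommGroup V] [Module ℝ V] (Λ : ℕ → ℕ → V →ₗ[ℝ] V)
    (h1 : ∀ i v, Λ i i v = v) (h2 : ∀ i j k v, Λ i j (Λ j k v) = Λ i k v) (u : ℕ → V) {i t : ℕ}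
    (h : i ≤ t) :
    u i = Λ i t (u t) - ∑ j ∈ Finset.Ico i t, Λ i (j + 1) (u (j + 1) - Λ (j + 1) j (u j)) ∧
    u i = Λ i 0 (u 0) + ∑ j ∈ Finset.range i, Λ i (j + 1) (u (j + 1) - Λ (j + 1) j (u j)) := by
  have e : ∀ j, Λ i (j + 1) (u (j + 1) - Λ (j + 1) j (u j)) =
      Λ i (j + 1) (u (j + 1)) - Λ i j (u j) := fun j => by rw [map_sub, h2]
  simp only [e]
  constructor
  · rw [Finset.sum_Ico_sub (fun j => Λ i j (u j)) h, h1]
    abel
  · rw [Finset.sum_range_sub (fun j => Λ i j (u j)), h1]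
    abel

end Pool.Agent.P.MP_d483fb_an.Z.NF
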