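import Pool.Agent.P.MP_d483fb_an.Z.NF.TrackA
import Pool.Agent.P.MP_d483fb_an.Z.NF.Gron

/-!
Normal forms: orbits that stay close during a time interval.
-/

open MeasureTheory Filter Topology Set Real

set_option linter.unusedSectionVars false

noncomputable section

namespace Pool.Agent.P.MP_d483fb_an.Z.NF

open Os

variable {W X Γ M : Type} [NormedAddCommGroup W] [NormedSpace ℝ W] [MeasurableSpace W]
  [MeasurableSpace X] {μ : Measure X} [Group Γ] [MeasurableSpace Γ] [MetricSpace M]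
  [MeasurableSpace M] {α : Γ →* Equiv.Perm M} {len : Γ → ℝ} {D : ℕ}
  {S : Sys W X μ} {J : Jets α len D} {K : Skew S J} {lam : Fin D → W →L[ℝ] ℝ} {r : ℕ}
  {a : W} {s1 s2 : ℝ}

namespace Formal

variable (F : Formal K lam r)

theorem track (P : Par K lam r a s1 s2) : F.Unif a fun C ε q => ∀ x ∈ F.X0, ∀ (t : ℕ) z,
    (∀ i ≤ t, dist (K.mv (i • a) x z) (K.pt (S.act (i • a) x)) ≤
      exp (-(C * q (S.act (i • a) x)))) →
    ∀ i ≤ t, dist (K.mv (i • a) x z) (K.pt (S.act (i • a) x)) ≤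
      exp (C * q (S.act (t • a) x) - s2 * (t - i)) + exp (C * (q x + ε * t)) * dist z (K.pt x) := by
  obtain ⟨C1, ε1, hC1, hε1, hstep⟩ := F.lin_step P
  obtain ⟨g, g0, g1, gs1, gs2, ggap, -, -⟩ := P.exists_gap
  have hs2 : 0 < s2 := P.s1_pos.trans P.lt
  obtain ⟨c, c0, c1, hgr⟩ := gronwall2 (s2 := s2 + g / 3) (s3 := s2 + 2 * g / 3) (by linarith)
    (by linarith)
  have hA := F.pc.nonneg
  have hc : 0 ≤ -log c := neg_nonneg.2 (log_nonpos c0.le c1)
  have hC1' : (1 : ℝ) ≤ C1 := by exact_mod_cast hC1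
  obtain ⟨C, hC⟩ := exists_nat_ge (F.A + 2 * C1 + 3 + -log c)
  refine ⟨C, min ε1 (g / (3 * C1)), by exact_mod_cast (show (1 : ℝ) ≤ C by linarith),
    lt_min hε1 (by positivity), fun ε q hε T x hx t z hz => ?_⟩
  have e0 := T.pos
  have eC : C1 * ε ≤ g / 3 := by
    have := hε.trans (min_le_right _ _)
    rw [le_div_iff₀ (by positivity)] at this
    linarith
  have eg : ε ≤ g / 3 := (le_mul_of_one_le_left e0.le hC1').trans eC
  replace hstep := hstep ε q (hε.trans (min_le_left _ _)) T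
  obtain ⟨y, hy⟩ : ∃ y : ℕ → X, ∀ i, y i = S.act (i • a) x := ⟨_, fun _ => rfl⟩
  obtain ⟨d, hd⟩ : ∃ d : ℕ → ℝ, ∀ i, d i = dist (K.mv (i • a) x z) (K.pt (y i)) := ⟨_, fun _ => rfl⟩
  obtain ⟨u, hu⟩ : ∃ u : ℕ → E D, ∀ i,
      u i = evv (F.Ψ (y i)) (J.c (K.pt (y i)) (K.mv (i • a) x z)) := ⟨_, fun _ => rfl⟩
  simp only [← hy, ← hd] at hz ⊢
  have hy0 : ∀ i, y i ∈ F.X0 := fun i => hy i ▸ F.inv0 _ x hx
  have hq : ∀ i, 1 ≤ q (y i) := fun i => T.one_le _
  have d0 : ∀ i, 0 ≤ d i := fun i => hd i ▸ dist_nonneg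
  have hyy : ∀ i j : ℕ, S.act (((i : ℤ) - j) • a) (y j) = y i := fun i j => by
    rw [hy, hy, ← S.add, sub_zsmul, natCast_zsmul, natCast_zsmul, neg_add_cancel_right]
  have hpos : ∀ {i j : ℕ}, j ≤ i → ((i : ℤ) - j) • a = (i - j) • a := fun h => by
    rw [← Nat.cast_sub h, natCast_zsmul]
  have hneg : ∀ {i j : ℕ}, i ≤ j → ((i : ℤ) - j) • a = -((j - i) • a) := fun h => by
    rw [← hpos h, ← neg_zsmul, neg_sub]
  have qf : ∀ {i j : ℕ}, j ≤ i → q (y i) ≤ q (y j) + ε * (i - j) := fun {i j} h => by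
    have := T.slow_f (i - j) _ (hy0 j)
    rwa [← hpos h, hyy, Nat.cast_sub h] at this
  have qb : ∀ {i j : ℕ}, i ≤ j → q (y i) ≤ q (y j) + ε * (j - i) := fun {i j} h => by
    have := T.slow_b (j - i) _ (hy0 j)
    rwa [← hneg h, hyy, Nat.cast_sub h] at this
  have hone : ∀ j : ℕ, (((j + 1 : ℕ) : ℤ) - j) • a = a := fun j => by simp
  let Λ : ℕ → ℕ → E D →ₗ[ℝ] E D := fun i j => linv (F.N (((i : ℤ) - j) • a) (y j))
  have Λ1 : ∀ i v, Λ i i v = v := fun i v => by
    simp only [Λ, sub_self, zero_zsmul, F.N_zero P.two_le (hy0 i), linv_idv P.two_le]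
    rfl
  have Λ2 : ∀ i j k v, Λ i j (Λ j k v) = Λ i k v := fun i j k v => by
    have e : ((i : ℤ) - k) • a = ((i : ℤ) - j) • a + ((j : ℤ) - k) • a := by
      rw [← add_zsmul, sub_add_sub_cancel]
    simp only [Λ]
    rw [e, F.N_add P.two_le _ _ (hy0 k), linv_compv, hyy]
    rfl
  have row : ∀ (i j : ℕ) l v (b : ℝ), ‖F.N (((i : ℤ) - j) • a) (y j) l‖ ≤ exp (q (y j) + b) →
      |Λ i j v l| ≤ exp b * (exp (F.A + q (y j)) * ‖v‖) := fun i j l v b h =>
    calc |Λ i j v l| ≤ ‖lin (F.N (((i : ℤ) - j) • a) (y j) l)‖ * ‖v‖ := (lin _).le_opNorm v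
      _ ≤ exp F.A * exp (q (y j) + b) * ‖v‖ := by
        gcongr
        exact (F.pc.lin_le _).trans (by gcongr)
      _ = _ := by simp only [exp_add]; ring
  have rowb : ∀ {i j : ℕ} l v, i ≤ j → 0 < lam l a → |Λ i j v l| ≤
      exp (-((s2 + 2 * g / 3) * (j - i))) * (exp (F.A + q (y j)) * ‖v‖) := fun {i j} l v h hl => by
    refine row i j l v _ ?_
    rw [hneg h]
    refine (T.N_b _ _ (hy0 j) l).trans (exp_le_exp.2 ?_)
    have h1 : (0 : ℝ) ≤ j - i := sub_nonneg.2 (Nat.cast_le.2 h)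
    have h2 := mul_le_mul_of_nonneg_right
      (show s2 + 2 * g / 3 + ε ≤ lam l a by linarith [ggap l hl]) h1
    rw [Nat.cast_sub h]
    linarith
  have rowf : ∀ {i j : ℕ} l v, j ≤ i → lam l a ≤ 0 → |Λ i j v l| ≤
      exp (ε * (i - j)) * (exp (F.A + q (y j)) * ‖v‖) := fun {i j} l v h hl => by
    refine row i j l v _ ?_
    rw [hpos h]
    refine (T.N_f _ _ (hy0 j) l).trans (exp_le_exp.2 ?_)
    have h1 : (0 : ℝ) ≤ i - j := sub_nonneg.2 (Nat.cast_le.2 h)
    have h2 := mul_nonpos_of_nonpos_of_nonneg hl h1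
    rw [Nat.cast_sub h]
    linarith
  have hCq : ∀ i (b : ℝ), b ≤ C → b * q (y i) ≤ C * q (y i) := fun i b h =>
    mul_le_mul_of_nonneg_right h (by linarith [hq i])
  have st : ∀ i ≤ t, ‖u i‖ ≤ exp (C1 * q (y i)) * d i ∧ d i ≤ exp (C1 * q (y i)) * ‖u i‖ ∧
      ‖u (i + 1) - Λ (i + 1) i (u i)‖ ≤ exp (C1 * q (y i)) * d i ^ 2 := fun i hi => by
    have h := hstep (y i) (hy0 i) (K.mv (i • a) x z) (by
      rw [← hd]
      exact (hz i hi).trans (exp_le_exp.2 (neg_le_neg (hCq i _ (by linarith)))))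
    have e1 : S.act a (y i) = y (i + 1) := by rw [← hyy (i + 1) i, hone]
    have e2 : K.mv a (y i) (K.mv (i • a) x z) = K.mv ((i + 1) • a) x z := by
      rw [hy, K.mv_mv, succ_nsmul']
    rw [← hd, ← hu, e1, e2, ← hu] at h
    simpa only [Λ, hone, ContinuousLinearMap.coe_coe] using h
  have err : ∀ j ≤ t, exp (F.A + q (y (j + 1))) * ‖u (j + 1) - Λ (j + 1) j (u j)‖ ≤
      c * ε * ‖u j‖ := fun j hj => by
    obtain ⟨-, h2, h3⟩ := st j hj
    have h4 := qf (Nat.le_add_right j 1)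
    push_cast at h4
    have h5 := hCq j _ hC
    have h6 : F.A ≤ F.A * q (y j) := le_mul_of_one_le_right hA (hq j)
    have h7 : -log c ≤ -log c * q (y j) := le_mul_of_one_le_right hc (hq j)
    calc _ ≤ exp (F.A + q (y (j + 1))) * (exp (C1 * q (y j)) * (exp (-(C * q (y j))) *
          (exp (C1 * q (y j)) * ‖u j‖))) := by
          gcongr
          refine h3.trans ?_
          rw [sq]
          gcongr
          exacts [d0 j, hz j hj]
      _ = exp (F.A + q (y (j + 1)) + C1 * q (y j) + -(C * q (y j)) + C1 * q (y j)) * ‖u j‖ := by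
          simp only [exp_add]; ring
      _ ≤ exp (log c + -q (y j)) * ‖u j‖ := by
          refine mul_le_mul_of_nonneg_right (exp_le_exp.2 ?_) (norm_nonneg _)
          linarith [hq j]
      _ ≤ c * ε * ‖u j‖ := by
          rw [exp_add, exp_log c0]
          gcongr
          exact T.big _
  have key := hgr (fun i => ‖u i‖) t (exp (F.A + q (y t)) * ‖u t‖) (exp (F.A + q (y 0)) * ‖u 0‖)
    (c * ε) ε (fun _ => norm_nonneg _) (by positivity) (by positivity) e0 (by linarith [P.lt])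
    (by positivity) le_rfl (fun i hi => by
      have n1 : 0 ≤ ∑ j ∈ Finset.Ico i t, exp (-((s2 + 2 * g / 3) * (j + 1 - i))) * ‖u j‖ :=
        Finset.sum_nonneg fun _ _ => by positivity
      have n2 : 0 ≤ ∑ j ∈ Finset.range i, exp (ε * (i - (j + 1))) * ‖u j‖ :=
        Finset.sum_nonneg fun _ _ => by positivity
      have n3 : 0 ≤ exp (F.A + q (y t)) * ‖u t‖ * exp (-((s2 + 2 * g / 3) * (t - i))) := by
        positivity
      have n4 : 0 ≤ exp (F.A + q (y 0)) * ‖u 0‖ * exp (ε * i) := by positivity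
      have n5 : 0 ≤ c * ε := by positivity
      refine (pi_norm_le_iff_of_nonneg (by positivity)).2 fun l => ?_
      obtain ⟨v1, v2⟩ := varconst Λ Λ1 Λ2 u hi
      rw [Real.norm_eq_abs, mul_add]
      rcases lt_or_ge 0 (lam l a) with hl | hl
      · have h1 := rowb l (u t) hi hl
        have h2 : |(∑ j ∈ Finset.Ico i t, Λ i (j + 1) (u (j + 1) - Λ (j + 1) j (u j))) l| ≤
            c * ε * ∑ j ∈ Finset.Ico i t, exp (-((s2 + 2 * g / 3) * (j + 1 - i))) * ‖u j‖ := by
          rw [Finset.sum_apply, Finset.mul_sum]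
          refine (Finset.abs_sum_le_sum_abs _ _).trans (Finset.sum_le_sum fun j hj => ?_)
          obtain ⟨h3, h4⟩ := Finset.mem_Ico.1 hj
          refine (rowb l _ (h3.trans (Nat.le_succ j)) hl).trans ?_
          push_cast
          rw [mul_left_comm (c * ε)]
          exact mul_le_mul_of_nonneg_left (err j h4.le) (exp_pos _).le
        have h3 : |u i l| ≤ _ := (congrArg (fun v : E D => |v l|) v1).le.trans (abs_sub _ _)
        linarith [mul_nonneg n5 n2]
      · have h1 := rowf l (u 0) (Nat.zero_le i) hl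
        have h2 : |(∑ j ∈ Finset.range i, Λ i (j + 1) (u (j + 1) - Λ (j + 1) j (u j))) l| ≤
            c * ε * ∑ j ∈ Finset.range i, exp (ε * (i - (j + 1))) * ‖u j‖ := by
          rw [Finset.sum_apply, Finset.mul_sum]
          refine (Finset.abs_sum_le_sum_abs _ _).trans (Finset.sum_le_sum fun j hj => ?_)
          have h3 := Finset.mem_range.1 hj
          refine (rowf l _ (Nat.succ_le_of_lt h3) hl).trans ?_
          push_cast
          rw [mul_left_comm (c * ε)]
          exact mul_le_mul_of_nonneg_left (err j (h3.le.trans hi)) (exp_pos _).le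
        have h3 : |u i l| ≤ _ := (congrArg (fun v : E D => |v l|) v2).le.trans (abs_add_le _ _)
        rw [Nat.cast_zero, sub_zero] at h1
        linarith [mul_nonneg n5 n1])
  intro i hi
  have hti : (0 : ℝ) ≤ t - i := sub_nonneg.2 (Nat.cast_le.2 hi)
  have hit : (i : ℝ) ≤ t := Nat.cast_le.2 hi
  have i0 : (0 : ℝ) ≤ i := i.cast_nonneg
  have y0 : y 0 = x := by rw [hy, zero_nsmul, S.zero]
  have dd : d 0 = dist z (K.pt x) := by rw [hd, y0, zero_nsmul, K.mv_zero]
  have two : (2 : ℝ) ≤ exp 1 := by linarith [add_one_le_exp (1 : ℝ)]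
  have ut : ‖u t‖ ≤ exp (C1 * q (y t)) := (st t le_rfl).1.trans
    (mul_le_of_le_one_right (exp_pos _).le ((hz t le_rfl).trans (exp_le_one_iff.2
      (neg_nonpos.2 (mul_nonneg C.cast_nonneg (by linarith [hq t]))))))
  have u0 := (st 0 (Nat.zero_le t)).1
  have b1 : exp (C1 * q (y i)) * (2 * (exp (F.A + q (y t)) * ‖u t‖ *
      exp (-((s2 + g / 3) * (t - i))))) ≤ exp (C * q (y t) - s2 * (t - i)) := by
    calc _ ≤ exp (C1 * q (y i)) * (exp 1 * (exp (F.A + q (y t)) * exp (C1 * q (y t)) *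
          exp (-((s2 + g / 3) * (t - i))))) := by gcongr
      _ ≤ _ := by
        simp only [← exp_add]
        refine exp_le_exp.2 ?_
        have h1 := mul_le_mul_of_nonneg_left (qb hi) (C1.cast_nonneg (α := ℝ))
        have h2 := mul_le_mul_of_nonneg_right eC hti
        have h3 := hCq t (F.A + 2 * C1 + 3) (by linarith)
        have h6 : F.A ≤ F.A * q (y t) := le_mul_of_one_le_right hA (hq t)
        linarith [hq t]
  have b2 : exp (C1 * q (y i)) * (2 * (exp (F.A + q (y 0)) * ‖u 0‖ * exp (2 * ε * i))) ≤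
      exp (C * (q x + ε * t)) * dist z (K.pt x) := by
    calc _ ≤ exp (C1 * q (y i)) * (exp 1 * (exp (F.A + q (y 0)) * (exp (C1 * q (y 0)) * d 0) *
          exp (2 * ε * i))) := by gcongr
      _ = exp (C1 * q (y i) + 1 + (F.A + q (y 0)) + C1 * q (y 0) + 2 * ε * i) * d 0 := by
        simp only [exp_add]; ring
      _ ≤ _ := by
        rw [dd, ← y0]
        gcongr
        have h1 := mul_le_mul_of_nonneg_left (qf (Nat.zero_le i)) (C1.cast_nonneg (α := ℝ))
        rw [Nat.cast_zero, sub_zero] at h1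
        have h3 := hCq 0 (F.A + 2 * C1 + 3) (by linarith)
        have h6 : F.A ≤ F.A * q (y 0) := le_mul_of_one_le_right hA (hq 0)
        have h7 : (C1 + 2) * (ε * i) ≤ C * (ε * t) := by gcongr; linarith
        linarith [hq 0]
  have h1 := (st i hi).2.1.trans (mul_le_mul_of_nonneg_left (key i hi) (exp_pos _).le)
  linarith

end Formal

end Pool.Agent.P.MP_d483fb_an.Z.NF
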