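import Pool.Agent.P.MP_d483fb_an.Z.NF.HolSub
import Pool.Agent.P.MP_d483fb_an.Z.NF.Meas
import Pool.Agent.P.MP_d483fb_an.Z.NF.Track
import Pool.Agent.P.MP_d483fb_an.Z.NF.FormalEx
import Pool.Agent.P.MP_d483fb_an.Z.NF.FrameEx

/-!
Normal forms on the unstable leaves of the fibres.
-/

open MeasureTheory Filter Topology Set Real

set_option linter.unusedSectionVars false

noncomputable section

namespace Pool.Agent.P.MP_d483fb_an.Z.NF

open Os

variable {W X Γ M : Type} [NormedAddCommGroup W] [NormedSpace ℝ W] [MeasurableSpace W]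
  [MeasurableSpace X] {μ : Measure X} [Group Γ] [MeasurableSpace Γ] [MetricSpace M]
  [MeasurableSpace M] {α : Γ →* Equiv.Perm M} {len : Γ → ℝ} {D : ℕ}
  {S : Sys W X μ} {J : Jets α len D} {K : Skew S J} {lam : Fin D → W →L[ℝ] ℝ} {r : ℕ}
  {a : W} {s1 s2 : ℝ}

variable [FiniteDimensional ℝ W] [BorelSpace W] [StandardBorelSpace X] [IsProbabilityMeasure μ]
  [Countable Γ] [DiscreteMeasurableSpace Γ] [CompactSpace M] [BorelSpace M]

theorem Slow.mono {X0 : Set X} {B ε ε' : ℝ} {q : X → ℝ} (h : Slow K X0 B a ε q) (hε : ε ≤ ε') :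
    Slow K X0 B a ε' q where
  pos := h.pos.trans_le hε
  meas := h.meas
  one_le := h.one_le
  big x := (h.big x).trans hε
  h_le := h.h_le
  slowA s x hx := (h.slowA s x hx).trans (by gcongr)
  slow_f n x hx := (h.slow_f n x hx).trans (by gcongr)
  slow_b n x hx := (h.slow_b n x hx).trans (by gcongr)

theorem Formal.exists_H_eq (F : Formal K lam r) (P : Par K lam r a s1 s2) {x : X} (hx : x ∈ F.X0)
    {v : E D} (hv : v ∈ U fun i => lam i a) : ∃ z ∈ K.Wu a s1 x, F.H a x z = v := by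
  obtain ⟨C, ε0, -, h2, h⟩ := F.surj P
  obtain ⟨q, T⟩ := F.exists_temp a h2
  obtain ⟨z, h3, h4⟩ := h ε0 q le_rfl T x hx v hv ‖v‖ (norm_nonneg _)
    (by linarith [add_one_le_exp ‖v‖])
  exact ⟨z, ⟨_, h3.mono P.lt.le le_rfl⟩, h4⟩

theorem Formal.exists_leaf (F : Formal K lam r) (P : Par K lam r a s1 s2) :
    ∃ Lf : Leaf K lam a s1 s2, Lf.X0 = F.X0 := by
  obtain ⟨C1, e1, -, p1, h1⟩ := F.H_le P
  obtain ⟨C2, e2, -, p2, h2⟩ := F.upgrade P
  obtain ⟨C3, e3, -, p3, h3⟩ := F.hol_lip P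
  obtain ⟨C4, e4, o4, p4, h4⟩ := F.track P
  obtain ⟨I, mI, hI⟩ := exists_meas_inv (G := {p : X × M | p.1 ∈ F.X0 ∧ p.2 ∈ K.Wu a s1 p.1})
    ((measurable_fst F.meas0).inter (K.measurableSet_Wu a s1)) (F.measurable_H a)
    (fun x z z' hz hz' e => F.H_inj P hz.1 hz.2 hz'.2 e) K.measPt
  have hG : ∀ x ∈ F.X0, ∀ v ∈ U fun i => lam i a, I x v ∈ K.Wu a s1 x ∧ F.H a x (I x v) = v := by
    intro x hx v hv
    obtain ⟨z, hz, rfl⟩ := F.exists_H_eq P hx hv
    rw [hI x z ⟨hx, hz⟩]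
    exact ⟨hz, rfl⟩
  have c1 : (C1 : ℝ) ≤ (C1 + C2 + C3 + C4 : ℕ) := by exact_mod_cast (by omega)
  have c2 : (C2 : ℝ) ≤ (C1 + C2 + C3 + C4 : ℕ) := by exact_mod_cast (by omega)
  have c3 : (C3 : ℝ) ≤ (C1 + C2 + C3 + C4 : ℕ) := by exact_mod_cast (by omega)
  have c4 : (C4 : ℝ) ≤ (C1 + C2 + C3 + C4 : ℕ) := by exact_mod_cast (by omega)
  have o4' : (1 : ℝ) ≤ C4 := by exact_mod_cast o4
  refine ⟨⟨⟨r, C1 + C2 + C3 + C4, (r + 1) * F.B, F.X0, F.H a, I, F.N, F.meas0, F.ae0, F.inv0,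
    F.measurable_H a, mI, F.measN, fun x hx z hz => F.H_mem P hx hz, fun x _ => F.H_pt a x,
    fun x hx => F.H_inj P hx, fun x hx v hv => (hG x hx v hv).1, fun x hx v hv => (hG x hx v hv).2,
    fun s x hx z hz => F.mv_mem P s hx hz, fun s x hx z hz => F.H_mv P s hx hz, F.res,
    fun x hx x' hx' γ C0 h hp z hz => F.hol_mem P hx hx' h hp hz,
    fun x hx x' hx' γ C0 h hp => F.hol_symm P hx hx' h hp,
    fun x hx x' hx' γ C0 h hp => F.hol_poly P hx hx' h hp (hG x' hx')⟩, fun ε hε => ?_⟩, rfl⟩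
  set e := min (min (min e1 e2) (min e3 e4)) (ε / C4) with he
  have he0 : 0 < e := lt_min (lt_min (lt_min p1 p2) (lt_min p3 p4)) (by positivity)
  have l1 : e ≤ e1 := (min_le_left _ _).trans ((min_le_left _ _).trans (min_le_left _ _))
  have l2 : e ≤ e2 := (min_le_left _ _).trans ((min_le_left _ _).trans (min_le_right _ _))
  have l3 : e ≤ e3 := (min_le_left _ _).trans ((min_le_right _ _).trans (min_le_left _ _))
  have l4 : e ≤ e4 := (min_le_left _ _).trans ((min_le_right _ _).trans (min_le_right _ _))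
  have l5 : e * C4 ≤ ε := (le_div_iff₀ (by positivity)).1 (min_le_right _ _)
  have l6 : e ≤ ε := by nlinarith
  obtain ⟨q, T⟩ := F.exists_temp a he0
  have hq : ∀ x, 0 ≤ q x := fun x => zero_le_one.trans (T.one_le x)
  refine ⟨q, T.toSlow.mono l6, fun s x hx i => (T.N_le s x hx i).trans (by gcongr),
    fun n x hx i => (T.N_f n x hx i).trans (by gcongr),
    fun n x hx i => (T.N_b n x hx i).trans (by gcongr),
    fun x hx z R hR hz => (h1 e q l1 T x hx z R hR hz).trans ?_, fun x hx v hv R hR hvR => ?_,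
    fun x hx x' hx' γ C0 h0 h n z z' => (h3 e q l3 T x hx x' hx' γ C0 h0 h n z z').trans ?_,
    fun x hx t z hz i hi => (h4 e q l4 T x hx t z (fun j hj => (hz j hj).trans ?_) i hi).trans ?_⟩
  · have := hq x
    gcongr
  · have h := h2 e q l2 T x hx _ (hG x hx v hv).1 R hR (by rwa [(hG x hx v hv).2])
    rw [(hG x hx v hv).2] at h
    refine h.mono le_rfl ?_
    have := hq x
    gcongr
  · have := hq x
    have := hq x'
    gcongr
  · exact exp_le_exp.2 (neg_le_neg (mul_le_mul_of_nonneg_right c4 (hq _)))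
  · have := hq (S.act (t • a) x)
    refine add_le_add (by gcongr) (mul_le_mul_of_nonneg_right (exp_le_exp.2 ?_) dist_nonneg)
    nlinarith [mul_le_mul_of_nonneg_right c4 (hq x),
      mul_le_mul_of_nonneg_right l5 (t.cast_nonneg (α := ℝ))]

/-- Normal forms on the unstable leaves of every `a`, for given Oseledets data of the fibre
derivative cocycle; `σ` lists the exponents with their multiplicities. -/
theorem exists_leaf (K : Skew S J) {ι : Type} [Fintype ι] [DecidableEq ι] (o : OseA S K.Dl ι) :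
    ∃ σ : Fin D → ι, (∀ j, (Finset.univ.filter fun i => σ i = j).card = o.d j) ∧
      ∀ (a : W) (s1 s2 : ℝ), 0 < s1 → s1 < s2 → (∀ i, 0 < o.lamL (σ i) a → s2 < o.lamL (σ i) a) →
        Nonempty (Leaf K (fun i => o.lamL (σ i)) a s1 s2) := by
  obtain ⟨σ, h1, ⟨Fr⟩⟩ := exists_frame o o.ae0.exists
  refine ⟨σ, h1, fun a s1 s2 p1 p2 p3 => ?_⟩
  obtain ⟨b, hb⟩ := (finite_range fun i => o.lamL (σ i) a).bddAbove
  obtain ⟨r, hr⟩ := exists_nat_gt (max 2 (max b (J.L0 * K.L * ‖a‖) / s1))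
  have h2 : (2 : ℝ) < r := (le_max_left _ _).trans_lt hr
  have h3 := (div_lt_iff₀ p1).1 ((le_max_right _ _).trans_lt hr)
  have P : Par K (fun i => o.lamL (σ i)) r a s1 s2 :=
    ⟨by exact_mod_cast h2.le, p1, p2, p3,
      fun i => ((hb ⟨i, rfl⟩).trans (le_max_left _ _)).trans_lt h3, (le_max_right _ _).trans_lt h3⟩
  obtain ⟨F⟩ := exists_formal K P.two_le Fr
  obtain ⟨Lf, -⟩ := F.exists_leaf P
  exact ⟨Lf⟩

end Pool.Agent.P.MP_d483fb_an.Z.NF
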