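import Pool.Agent.P.MP_d483fb_an.Z.NF.VerGen
import Pool.Agent.P.MP_d483fb_an.Z.NF.Main
import Pool.Agent.P.MP_d483fb_an.Z.Geo.Defs

/-!
Normal forms as matrices acting on monomials.
-/

open MeasureTheory Filter Topology Set Real
open scoped Matrix Matrix.Norms.Operator

set_option linter.unusedSectionVars false

noncomputable section

namespace Pool.Agent.P.MP_d483fb_an.Z.NF

open Os Geo

variable {W X Γ M : Type} [NormedAddCommGroup W] [NormedSpace ℝ W] [MeasurableSpace W]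
  [MeasurableSpace X] {μ : Measure X} [Group Γ] [MeasurableSpace Γ] [MetricSpace M]
  [MeasurableSpace M] {α : Γ →* Equiv.Perm M} {len : Γ → ℝ} {D : ℕ}
  {S : Sys W X μ} {J : Jets α len D} {K : Skew S J} {lam : Fin D → W →L[ℝ] ℝ}
  {a : W} {s1 s2 : ℝ}

theorem Rp.congr {c : Fin D → ℝ} {f g : E D → E D} {T : Matrix (Mon c) (Mon c) ℝ} (h : Rp c f T)
    (e : ∀ v ∈ U c, g v = f v) : Rp c g T := fun v hv => by
  rw [e v hv]
  exact h v hv

theorem exp_add_exp_le {u v : ℝ} (hu : 0 ≤ u) (hv : 0 ≤ v) : exp u + exp v ≤ exp (1 + u + v) := by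
  have h1 : exp u ≤ exp (u + v) := exp_le_exp.2 (by linarith)
  have h2 : exp v ≤ exp (u + v) := exp_le_exp.2 (by linarith)
  rw [add_assoc, exp_add]
  nlinarith [add_one_le_exp (1 : ℝ), exp_pos (u + v)]

namespace Leaf0

variable (F : Leaf0 K lam a s1) {x y : X} {γ : Γ}

theorem Hinv_H (hx : x ∈ F.X0) {z : M} (hz : z ∈ K.Wu a s1 x) : F.Hinv x (F.H x z) = z :=
  F.H_inj x hx (F.Hinv_mem x hx _ (F.H_mem x hx z hz)) hz (F.H_Hinv x hx _ (F.H_mem x hx z hz))

theorem Hinv_zero (hx : x ∈ F.X0) : F.Hinv x 0 = K.pt x := by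
  rw [← F.H_pt x hx, F.Hinv_H hx (Skew.pt_mem a s1 x)]

theorem N_add (s t : W) (hx : x ∈ F.X0) {v : E D} (hv : v ∈ U fun i => lam i a) :
    evv (F.N (s + t) x) v = evv (F.N s (S.act t x)) (evv (F.N t x) v) := by
  have hz := F.Hinv_mem x hx v hv
  rw [← F.H_Hinv x hx v hv, ← F.H_mv _ x hx _ hz, ← F.H_mv _ x hx _ hz,
    ← F.H_mv _ _ (F.inv0 t x hx) _ (F.mv_mem t x hx _ hz), K.mv_add, S.add]

theorem N_zero (hx : x ∈ F.X0) {v : E D} (hv : v ∈ U fun i => lam i a) :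
    evv (F.N 0 x) v = v := by
  conv_lhs => rw [← F.H_Hinv x hx v hv, ← F.H_mv _ x hx _ (F.Hinv_mem x hx v hv), K.mv_zero, S.zero]
  exact F.H_Hinv x hx v hv

theorem N_neg (s : W) (hx : x ∈ F.X0) {v : E D} (hv : v ∈ U fun i => lam i a) :
    evv (F.N s x) (evv (F.N (-s) (S.act s x)) v) = v := by
  have := F.N_add s (-s) (F.inv0 s x hx) hv
  rw [S.neg_act, add_neg_cancel, F.N_zero (F.inv0 s x hx) hv] at this
  exact this.symm

/-- The holonomy in the normal form coordinates. -/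
def hm (x y : X) (γ : Γ) (v : E D) : E D := F.H x (α γ (F.Hinv y v))

theorem ok_symm (h : Ok K F.X0 a s1 x y γ) : Ok K F.X0 a s1 y x γ⁻¹ := by
  obtain ⟨C0, h1, h2⟩ := h.hol
  exact ⟨h.right, h.left, ⟨C0, h2, by rwa [inv_inv]⟩, F.hol_symm x h.left y h.right γ C0 h2 h.mem⟩

theorem ok_mem (h : Ok K F.X0 a s1 x y γ) {z : M} (hz : z ∈ K.Wu a s1 y) :
    α γ z ∈ K.Wu a s1 x := by
  obtain ⟨C0, h1, -⟩ := h.hol
  exact F.hol_mem x h.left y h.right γ C0 h1 h.mem z hz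

theorem hm_hm {z : X} {γ' : Γ} (h : Ok K F.X0 a s1 y z γ') {v : E D}
    (hv : v ∈ U fun i => lam i a) : F.hm x y γ (F.hm y z γ' v) = F.hm x z (γ * γ') v := by
  rw [hm, hm, hm, F.Hinv_H h.left (F.ok_mem h (F.Hinv_mem z h.right v hv)), map_mul]
  rfl

theorem hm_one (hx : x ∈ F.X0) {v : E D} (hv : v ∈ U fun i => lam i a) : F.hm x x 1 v = v := by
  rw [hm, map_one]
  exact F.H_Hinv x hx v hv

theorem hm_N (s : W) (h : Ok K F.X0 a s1 x y γ) {v : E D} (hv : v ∈ U fun i => lam i a) :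
    F.hm (S.act s x) (S.act s y) (K.β s x * γ * (K.β s y)⁻¹) (evv (F.N s y) v) =
      evv (F.N s x) (F.hm x y γ v) := by
  have hz := F.Hinv_mem y h.right v hv
  rw [hm, hm, ← F.H_mv s x h.left _ (F.ok_mem h hz)]
  conv_lhs => rw [← F.H_Hinv y h.right v hv, ← F.H_mv s y h.right _ hz,
    F.Hinv_H (F.inv0 s y h.right) (F.mv_mem s y h.right _ hz)]
  simp [Skew.mv]

theorem exists_rp_N (s : W) (hx : x ∈ F.X0) : ∃ T, Rp (fun i => lam i a) (evv (F.N s x)) T := by
  have h := (F.N_res s x hx).apply a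
  exact (h.subRes.exists_rp fun v hv => h.evv_mem hv).imp fun _ h => h.1

theorem exists_rp_hm (h : Ok K F.X0 a s1 x y γ) : ∃ T, Rp (fun i => lam i a) (F.hm x y γ) T ∧
    ∀ m m', T m m' ≠ 0 → wt (fun i => lam i a) m'.1 ≤ wt (fun i => lam i a) m.1 := by
  obtain ⟨C0, h1, -⟩ := h.hol
  exact (F.hol_poly x h.left y h.right γ C0 h1 h.mem).exists_rp fun v hv =>
    F.H_mem x h.left _ (F.ok_mem h (F.Hinv_mem y h.right v hv))

variable {F} {ε : ℝ} {q : X → ℝ}

theorem Est.sh_of (T : F.Est s2 ε q) (hx : x ∈ F.X0) {z : M} (hz : z ∈ K.Wu a s1 x) {R : ℝ}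
    (hR : 0 ≤ R) (h : ‖F.H x z‖ ≤ exp R) : K.Sh a s2 (exp (F.C * (q x + R) + R)) x z := by
  have := T.Hinv_sh x hx _ (F.H_mem x hx z hz) R hR h
  rw [F.Hinv_H hx hz] at this
  exact this.mono le_rfl (by rw [exp_add]; gcongr)

theorem Est.hm_le (T : F.Est s2 ε q) (hx : x ∈ F.X0) (hy : y ∈ F.X0) {C0 R : ℝ} (h0 : 0 ≤ C0)
    (hR : 0 ≤ R) (h : K.Hol a C0 x y γ) (hp : K.Sh a s1 (exp R) x (α γ (K.pt y))) {v : E D}
    (hv : v ∈ U fun i => lam i a) (hv1 : ‖v‖ ≤ 1) :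
    ‖F.hm x y γ v‖ ≤ exp (F.C * (2 + 2 * F.C) * (q x + q y + C0 + R)) := by
  have hC : (0 : ℝ) ≤ F.C := F.C.cast_nonneg
  have q1 := T.one_le x
  have q2 := T.one_le y
  have h1 : K.Sh a s2 (exp (F.C * q y)) y (F.Hinv y v) :=
    (T.Hinv_sh y hy v hv 0 le_rfl (by simpa using hv1)).mono le_rfl (by
      rw [add_zero]
      exact mul_le_of_le_one_right (exp_pos _).le hv1)
  have h2 := Skew.Sh.hol (T.hol_lip x hx y hy γ C0 h0 h) hp h1
  rw [← exp_add] at h2
  have h3 : 0 ≤ F.C * (q x + q y + C0) + F.C * q y := by positivity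
  refine (T.H_le x hx _ _ (by positivity) (h2.mono le_rfl (exp_add_exp_le hR h3))).trans ?_
  rw [exp_le_exp, mul_assoc]
  refine mul_le_mul_of_nonneg_left ?_ hC
  nlinarith [mul_nonneg hC hR, mul_nonneg hC h0, mul_nonneg hC (zero_le_one.trans q1)]

theorem Est.sh_symm (T : F.Est s2 ε q) (hx : x ∈ F.X0) (hy : y ∈ F.X0) {C0 R : ℝ} (h0 : 0 ≤ C0)
    (hR : 0 ≤ R) (h : K.Hol a C0 y x γ⁻¹) (hp : K.Sh a s1 (exp R) x (α γ (K.pt y))) :
    K.Sh a s1 (exp (F.C * (3 + F.C) * (q x + q y + C0 + R))) y (α γ⁻¹ (K.pt x)) := by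
  have hC : (0 : ℝ) ≤ F.C := F.C.cast_nonneg
  have q1 := T.one_le x
  have q2 := T.one_le y
  have h1 := T.sh_of hx ⟨_, hp⟩ (by positivity) (T.H_le x hx _ R hR hp)
  refine (Skew.Sh.hol_inv (T.hol_lip y hy x hx γ⁻¹ C0 h0 h) h1).mono le_rfl ?_
  rw [← exp_add, exp_le_exp]
  have : q y + q x + C0 + (q x + F.C * (q x + R) + (q x + R)) ≤
      (3 + F.C) * (q x + q y + C0 + R) := by
    nlinarith [mul_nonneg hC h0, mul_nonneg hC (zero_le_one.trans q2)]
  nlinarith [mul_le_mul_of_nonneg_left this hC]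

end Leaf0

theorem dil_evv_le {r : ℕ} {A u : ℝ} (h : PC D r A) {N : Jt D r} {c : Fin D → ℝ}
    (hN : ∀ j, ‖N j‖ ≤ exp (u - c j)) {v : E D} (hv : ‖v‖ ≤ 1) :
    ‖dil c (evv N v)‖ ≤ exp (A + u) := by
  refine (pi_norm_le_iff_of_nonneg (exp_pos _).le).2 fun j => ?_
  have h1 := h.ev_le (N j) v 0 le_rfl (by simpa using hv)
  rw [mul_zero, add_zero] at h1
  have h2 : exp A * ‖N j‖ * ‖v‖ ≤ exp A * exp (u - c j) * 1 := by gcongr; exact hN j
  rw [dil, norm_mul, Real.norm_of_nonneg (exp_pos _).le]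
  refine (mul_le_mul_of_nonneg_left (h1.trans h2) (exp_pos _).le).trans_eq ?_
  rw [mul_one, ← exp_add, ← exp_add]
  congr 1
  ring

variable [Countable Γ] [DiscreteMeasurableSpace Γ] [BorelSpace M] [SecondCountableTopology M]

theorem Leaf.exists_fib (F : Leaf K lam a s1 s2) :
    ∃ (κ : Type) (_ : Fintype κ) (_ : DecidableEq κ), Nonempty (Fib K lam a s1 s2 κ) := by
  obtain ⟨mt, A, hA, m1, m2, m3⟩ := exists_matOf fun i => lam i a
  obtain ⟨Ap, pc⟩ := exists_pc D F.r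
  have hAp := pc.nonneg
  have hC : (0 : ℝ) ≤ F.C := F.C.cast_nonneg
  have rN : ∀ s, ∀ x ∈ F.X0, Rp (fun i => lam i a) (evv (F.N s x)) (mt (evv (F.N s x))) := by
    intro s x hx
    obtain ⟨T, hT⟩ := F.exists_rp_N s hx
    rwa [m1 _ _ hT]
  have rT : ∀ {x y γ}, Ok K F.X0 a s1 x y γ →
      Rp (fun i => lam i a) (F.hm x y γ) (mt (F.hm x y γ)) := fun h => by
    obtain ⟨T, hT, -⟩ := F.exists_rp_hm h
    rwa [m1 _ _ hT]
  have iN : ∀ s, ∀ x ∈ F.X0, (mt (evv (F.N s x)))⁻¹ = mt (evv (F.N (-s) (S.act s x))) :=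
    fun s x hx => (rN s x hx).inv_eq (rN _ _ (F.inv0 s x hx)) fun v hv => F.N_neg s hx hv
  have gN : ∀ s, ∀ x ∈ F.X0, mt (evv (F.N s x)) ∈ GenF fun i => lam i a :=
    fun s x hx => (rN s x hx).mem_gen (rN _ _ (F.inv0 s x hx)) fun v hv => F.N_neg s hx hv
  have c0 : ∀ {x y γ}, Ok K F.X0 a s1 x y γ → ∀ m, mt (F.hm x y γ) m (e0 _) =
      ver _ (F.H x (α γ (K.pt y))) m := fun h m => by
    rw [(rT h).col, Leaf0.hm, F.Hinv_zero h.right]
  set C1 : ℝ := A * (1 + F.C * (2 + 2 * F.C)) with hC1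
  set C2 : ℝ := C1 * (1 + F.C * (3 + F.C)) with hC2
  set C3 : ℝ := A * (3 + Ap + |F.B|) with hC3
  have p1 : 0 ≤ C1 := by positivity
  have p2 : C1 ≤ C2 := le_mul_of_one_le_right p1 (le_add_of_nonneg_right (by positivity))
  have p3 : 0 ≤ C3 := by positivity
  refine ⟨Mon fun i => lam i a, inferInstance, inferInstance, ⟨⟨⟨1 + F.C + C2 + C3, F.B, F.X0,
    fun m => wt lam m.1, e0 _, Finset.univ.filter fun m => m.1.degree = 1, GenF _,
    fun s x => mt (evv (F.N s x)), fun x y γ => mt (F.hm x y γ), by linarith, F.meas0, F.ae0,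
    F.inv0, fun m => sum_mem fun j _ => nsmul_mem (AddSubgroup.subset_closure (mem_range_self j)) _,
    wt_zero lam, fun m hm => by rw [wt_apply]; exact wt_mon_pos hm, card_deg_one lam,
    fun T h => h.1, fun T h => genF_inv h, fun T => genF_cl, fun T h => h.2.1.rp.row,
    fun V h m hm => genF_lie h fun e => hm (Finset.mem_filter.2 ⟨Finset.mem_univ _, e⟩),
    fun s => by simp only [wt_apply]; exact dil_mem_gen _,
    fun s => m2 X _ fun v => measurable_evv (F.measN s) measurable_const,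
    fun x hx => (rN 0 x hx).unique rp_id fun v hv => F.N_zero hx hv,
    fun s t x hx => (rN _ x hx).unique ((rN s _ (F.inv0 t x hx)).comp (rN t x hx))
      fun v hv => F.N_add s t hx hv,
    fun s x hx m m' h => (rN s x hx).res (F.N_res s x hx) h, gN,
    m2 (X × X × Γ) (fun p => F.hm p.1 p.2.1 p.2.2) fun v => ?_, F.mv_mem,
    fun x y γ h => F.ok_symm h, fun x y γ h z hz => F.ok_mem h hz,
    fun x hx => m1 _ _ (rp_id.congr fun v hv => F.hm_one hx hv),
    fun x y z γ γ' h h' h'' => ((rT h).comp (rT h')).unique (rT h'') fun v hv => F.hm_hm h' hv,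
    fun x y γ h m m' h0 => ?_,
    fun x y γ h => (rT h).mem_gen (rT (F.ok_symm h)) fun v hv => by
      rw [F.hm_hm (F.ok_symm h) hv, mul_inv_cancel, F.hm_one h.left hv],
    fun s x y γ h h' => ?_, fun x y y' γ γ' h h' e => ?_⟩, fun ε hε => ?_⟩⟩⟩
  · exact F.measH.comp (measurable_fst.prodMk (K.measurable_α.comp (measurable_snd.snd.prodMk
      (F.measHinv.comp (measurable_snd.fst.prodMk measurable_const)))))
  · obtain ⟨T, hT, ht⟩ := F.exists_rp_hm h
    rw [wt_apply, wt_apply]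
    exact ht m m' (by rwa [← m1 _ _ hT])
  · rw [← ((rT h').comp (rN s y h.right)).unique ((rN s x h.left).comp (rT h))
      fun v hv => F.hm_N s h hv, Matrix.mul_nonsing_inv_cancel_right _ _ (gN s y h.right).1]
  · refine F.H_inj x h.left h.mem h'.mem ?_
    rw [← unver_ver (F.H_mem x h.left _ h.mem), ← unver_ver (F.H_mem x h.left _ h'.mem)]
    congr 1
    funext m
    rw [← c0 h, ← c0 h']
    exact e m
  obtain ⟨q, T⟩ := F.est ε hε
  have t1 : ∀ x ∈ F.X0, ∀ y ∈ F.X0, ∀ γ C0 R, 0 ≤ C0 → 0 ≤ R → K.Hol a C0 x y γ →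
      K.Sh a s1 (exp R) x (α γ (K.pt y)) → ‖mt (F.hm x y γ)‖ ≤ exp (C1 * (q x + q y + C0 + R)) := by
    intro x hx y hy γ C0 R h0 hR h hp
    have q1 := T.one_le x
    have q2 := T.one_le y
    refine (m3 _ _ (by positivity) fun v hv hv1 => T.hm_le hx hy h0 hR h hp hv hv1).trans ?_
    rw [exp_le_exp, hC1, mul_assoc A]
    exact mul_le_mul_of_nonneg_left (by nlinarith) hA
  refine ⟨q, T.toSlow, fun s x hx => ?_, fun x hx y hy γ C0 R h0 hR h h' hp => ⟨?_, ?_⟩,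
    fun x y γ R h hR hm => ?_, fun x hx t z hz i hi => ?_⟩
  · have q1 := T.one_le x
    have e1 : 0 ≤ ε * ‖s‖ := by positivity
    have hb := abs_nonneg F.B
    have key : ∀ R, R ≤ Ap + |F.B| + q x + 2 * (ε * ‖s‖) →
        exp (A * (1 + R)) ≤ exp ((1 + F.C + C2 + C3) * (q x + ε * ‖s‖)) := fun R hR => by
      have : A * (1 + R) ≤ C3 * (q x + ε * ‖s‖) := by
        rw [hC3, mul_assoc]
        exact mul_le_mul_of_nonneg_left (by nlinarith) hA
      exact exp_le_exp.2 (this.trans (mul_le_mul_of_nonneg_right (by linarith) (by linarith)))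
    constructor
    · have e : ∀ m : Mon fun i => lam i a, -wt lam m.1 s = wt (fun j => lam j (-s)) m.1 := fun m => by
        rw [← wt_apply, map_neg]
      simp only [e]
      rw [← m1 _ _ ((rN s x hx).comp (rp_dil _))]
      refine (m3 _ (Ap + (q x + ε * ‖s‖)) (by linarith) fun v _ hv => ?_).trans (key _ (by linarith))
      rw [((F.N_res s x hx).apply (-s)).evv_dil]
      refine dil_evv_le pc (fun j => (T.N_le s x hx j).trans_eq ?_) hv
      rw [map_neg]
      congr 1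
      ring
    · have hs := T.slowA s x hx
      have q2 := T.one_le (S.act s x)
      simp only [wt_apply]
      rw [iN s x hx, ← m1 _ _ ((rp_dil _).comp (rN _ _ (F.inv0 s x hx)))]
      refine (m3 _ (Ap + (q (S.act s x) + ε * ‖s‖)) (by linarith) fun v _ hv => ?_).trans
        (key _ (by linarith [le_abs_self F.B]))
      refine dil_evv_le pc (fun j => (T.N_le (-s) _ (F.inv0 s x hx) j).trans_eq ?_) hv
      rw [map_neg, norm_neg]
      congr 1
      ring
  · have q1 := T.one_le x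
    have q2 := T.one_le y
    exact (t1 x hx y hy γ C0 R h0 hR h hp).trans
      (exp_le_exp.2 (mul_le_mul_of_nonneg_right (by linarith) (by linarith)))
  · have q1 := T.one_le x
    have q2 := T.one_le y
    refine (t1 y hy x hx γ⁻¹ C0 _ h0 (by positivity) h' (T.sh_symm hx hy h0 hR h' hp)).trans
      (exp_le_exp.2 (le_trans ?_ (mul_le_mul_of_nonneg_right (a := q x + q y + C0 + R)
        (by linarith : C2 ≤ 1 + F.C + C2 + C3) (by linarith))))
    rw [hC2, mul_assoc C1]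
    exact mul_le_mul_of_nonneg_left (by nlinarith) p1
  · have q1 := T.one_le x
    refine (T.sh_of h.left h.mem hR ?_).mono le_rfl (exp_le_exp.2 ?_)
    · rw [← unver_ver (F.H_mem x h.left _ h.mem)]
      exact norm_unver_le (exp_pos _).le fun m => by rw [← c0 h]; exact hm m
    · change _ ≤ (1 + F.C + C2 + C3) * _
      nlinarith [mul_nonneg (add_nonneg (p1.trans p2) p3) (by linarith : 0 ≤ q x + R)]
  · have hq : ∀ x, F.C * q x ≤ (1 + F.C + C2 + C3) * q x := fun x =>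
      mul_le_mul_of_nonneg_right (by linarith) (by linarith [T.one_le x])
    refine (T.track x hx t z (fun j hj => (hz j hj).trans (exp_le_exp.2 (neg_le_neg (hq _)))) i
      hi).trans (add_le_add (exp_le_exp.2 (sub_le_sub_right (hq _) _)) ?_)
    exact mul_le_mul_of_nonneg_right (exp_le_exp.2 (add_le_add (hq _) le_rfl)) dist_nonneg

end Pool.Agent.P.MP_d483fb_an.Z.NF
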