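import Pool.Agent.P.MP_d483fb_an.Z.NF.NAlg

/-!
Normal forms: convergence of the approximations on the unstable leaves.
-/

open MeasureTheory Filter Topology Set Real

set_option linter.unusedSectionVars false

noncomputable section

namespace Pool.Agent.P.MP_d483fb_an.Z.NF

open Os

variable {W X Γ M : Type} [NormedAddCommGroup W] [NormedSpace ℝ W] [MeasurableSpace W]
  [MeasurableSpace X] {μ : Measure X} [Group Γ] [MeasurableSpace Γ] [MetricSpace M]
  [MeasurableSpace M] {α : Γ →* Equiv.Perm M} {len : Γ → ℝ} {D : ℕ}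
  {S : Sys W X μ} {J : Jets α len D} {K : Skew S J} {lam : Fin D → W →L[ℝ] ℝ} {r : ℕ}
  {a : W} {s1 s2 : ℝ}

namespace Formal

variable (F : Formal K lam r)

theorem step (P : Par K lam r a s1 s2) : F.Unif a fun C ε q => ∀ x ∈ F.X0, ∀ (n : ℕ) z i,
    dist (K.mv (-((n + 1) • a)) x z) (K.pt (S.act (-((n + 1) • a)) x)) ≤
      exp (-(C * (q x + ε * n))) →
    |F.Hn a (n + 1) x z i - F.Hn a n x z i| ≤ exp (C * (q x + ε * n) + lam i a * n) *
      dist (K.mv (-((n + 1) • a)) x z) (K.pt (S.act (-((n + 1) • a)) x)) ^ r := by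
  have hL0 := J.L0_nonneg
  have hLr := J.Lr_nonneg r
  have hL := K.L_nonneg
  have hA := F.pc.nonneg
  have hr0 : (0 : ℝ) ≤ r := r.cast_nonneg
  have hr1 : r ≠ 0 := by have := P.two_le; omega
  obtain ⟨B0, hB0⟩ : ∃ B0 : ℝ, B0 = J.Lr r * (1 + K.L * (3 + ‖a‖)) := ⟨_, rfl⟩
  have hB : 0 ≤ B0 := by rw [hB0]; positivity
  obtain ⟨C, hC⟩ := exists_nat_ge (F.A + r * (B0 + J.L0 + 1) + B0 + J.L0 + 2)
  have hrB : 0 ≤ r * (B0 + J.L0 + 1) := by positivity
  refine ⟨C, 1, by exact_mod_cast (show (1 : ℝ) ≤ C by linarith), one_pos, ?_⟩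
  intro ε q hε T x hx n z i hd
  have hq := T.one_le x
  have hεn : 0 ≤ ε * n := mul_nonneg T.pos.le n.cast_nonneg
  have hh := T.h_back (n + 1) hx
  have ht := T.J_le n x hx i
  have e1 := act_succ (S := S) a n x
  have e2 := mv_succ (K := K) a n x z
  have e3 := F.Jn_succ a n x
  simp only [Hn, e3]
  rw [← e2, ← e1]
  generalize S.act (-((n + 1) • a)) x = y at *
  generalize K.mv (-((n + 1) • a)) x z = z' at *
  obtain ⟨Q, hQ⟩ : ∃ Q : ℝ, Q = q x + ε * n := ⟨_, rfl⟩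
  have hQ1 : 1 ≤ Q := by linarith
  have hh2 : K.h y ≤ 2 * Q := by push_cast at hh; linarith
  rw [← hQ] at hd ⊢
  have hBQ : J.Lr r * (1 + K.L * (1 + ‖a‖ + K.h y)) ≤ B0 * Q := by
    rw [hB0, mul_assoc]
    refine mul_le_mul_of_nonneg_left ?_ hLr
    have h1 : 1 + ‖a‖ + K.h y ≤ (3 + ‖a‖) * Q := by nlinarith [norm_nonneg a]
    have h2 := mul_le_mul_of_nonneg_left h1 hL
    nlinarith
  have hBQ0 : 0 ≤ B0 * Q := by positivity
  have hCQ : F.A + J.L0 + B0 * Q ≤ C * Q := by nlinarith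
  have hd0 : 0 ≤ dist z' (K.pt y) := dist_nonneg
  have hd1 : dist z' (K.pt y) ≤ exp (-J.L0) := hd.trans (exp_le_exp.2 (by linarith))
  have hd2 : dist z' (K.pt y) ≤ 1 := hd1.trans (exp_le_one_iff.2 (by linarith))
  have hw := J.c_le hd1
  have key : ∀ b : ℝ, b ≤ C * Q → exp b * dist z' (K.pt y) ≤ 1 := fun b hb => by
    calc exp b * dist z' (K.pt y) ≤ exp b * exp (-(C * Q)) := by gcongr
      _ ≤ 1 := by rw [← exp_add]; exact exp_le_one_iff.2 (by linarith)
  have hw1 : ‖J.c (K.pt y) z'‖ ≤ 1 := hw.trans (key _ (by linarith))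
  have hT : ‖K.T r a y‖ ≤ exp (B0 * Q) := (K.T_le r a y).trans (exp_le_exp.2 hBQ)
  have hj : ‖J.c (K.pt (S.act a y)) (K.mv a y z') - evv (K.T r a y) (J.c (K.pt y) z')‖ ≤
      exp (B0 * Q) * dist z' (K.pt y) ^ r :=
    (K.jet r a y z' (hd.trans (exp_le_exp.2 (by linarith)))).trans (by gcongr)
  have hj1 : exp (B0 * Q) * dist z' (K.pt y) ^ r ≤ 1 := by
    refine le_trans ?_ (key (B0 * Q) (by linarith))
    gcongr
    exact pow_le_of_le_one hd0 hd2 hr1
  have hu : ‖evv (K.T r a y) (J.c (K.pt y) z')‖ ≤ 1 := by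
    refine (F.pc.evv_le _ _ le_rfl (by rwa [exp_zero])).trans ?_
    refine le_trans ?_ (key (F.A + J.L0 + B0 * Q) hCQ)
    calc exp (F.A + r * 0) * ‖K.T r a y‖ * ‖J.c (K.pt y) z'‖
        ≤ exp (F.A + r * 0) * exp (B0 * Q) * (exp J.L0 * dist z' (K.pt y)) := by gcongr
      _ = _ := by simp only [exp_add, mul_zero, exp_zero]; ring
  have h2e : (2 : ℝ) ≤ exp 1 := by linarith [add_one_le_exp (1 : ℝ)]
  have hv : ‖J.c (K.pt (S.act a y)) (K.mv a y z')‖ ≤ exp 1 := by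
    have := norm_sub_norm_le (J.c (K.pt (S.act a y)) (K.mv a y z'))
      (evv (K.T r a y) (J.c (K.pt y) z'))
    linarith
  have a1 := F.pc.comp_err (F.Jn a n x i) (K.T r a y) _ _ hBQ0 hT hw1
  have a2 := F.pc.ev_lip (F.Jn a n x i) _ _ 1 zero_le_one (hu.trans (by linarith)) hv
  rw [norm_sub_rev] at hj
  have ht' : ‖F.Jn a n x i‖ ≤ exp (Q + lam i a * n) := ht.trans (le_of_eq (by rw [hQ]; ring_nf))
  have hdr : 0 ≤ dist z' (K.pt y) ^ r := pow_nonneg hd0 r
  have hrQ : r * (B0 * Q) + r * J.L0 + r ≤ r * (B0 + J.L0 + 1) * Q := by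
    have : B0 * Q + J.L0 + 1 ≤ (B0 + J.L0 + 1) * Q := by nlinarith
    nlinarith [mul_le_mul_of_nonneg_left this hr0]
  have hfin : F.A + r * (B0 * Q) + r * J.L0 + r + B0 * Q + Q + 1 ≤ C * Q := by nlinarith
  have p1 : 0 ≤ r * (B0 * Q) := by positivity
  have p2 : 0 ≤ r * J.L0 := by positivity
  have b1 : exp (F.A + r * (B0 * Q)) * ‖F.Jn a n x i‖ * ‖J.c (K.pt y) z'‖ ^ r ≤
      exp (C * Q + lam i a * n - 1) * dist z' (K.pt y) ^ r := by
    calc _ ≤ exp (F.A + r * (B0 * Q)) * exp (Q + lam i a * n) *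
          (exp J.L0 * dist z' (K.pt y)) ^ r := by gcongr
      _ = exp (F.A + r * (B0 * Q) + (Q + lam i a * n) + r * J.L0) * dist z' (K.pt y) ^ r := by
          rw [mul_pow, ← exp_nat_mul]
          simp only [exp_add]
          ring
      _ ≤ _ := by gcongr; linarith
  have b2 : exp (F.A + r * 1) * ‖F.Jn a n x i‖ *
      ‖evv (K.T r a y) (J.c (K.pt y) z') - J.c (K.pt (S.act a y)) (K.mv a y z')‖ ≤
      exp (C * Q + lam i a * n - 1) * dist z' (K.pt y) ^ r := by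
    calc _ ≤ exp (F.A + r * 1) * exp (Q + lam i a * n) *
          (exp (B0 * Q) * dist z' (K.pt y) ^ r) := by gcongr
      _ = exp (F.A + r * 1 + (Q + lam i a * n) + B0 * Q) * dist z' (K.pt y) ^ r := by
          simp only [exp_add]
          ring
      _ ≤ _ := by gcongr; linarith
  have b3 : 2 * exp (C * Q + lam i a * n - 1) ≤ exp (C * Q + lam i a * n) := by
    have : exp (C * Q + lam i a * n) = exp 1 * exp (C * Q + lam i a * n - 1) := by
      rw [← exp_add]; ring_nf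
    rw [this]
    gcongr
  have b4 := abs_sub_le (ev (comp (F.Jn a n x i) (K.T r a y)) (J.c (K.pt y) z'))
    (ev (F.Jn a n x i) (evv (K.T r a y) (J.c (K.pt y) z')))
    (ev (F.Jn a n x i) (J.c (K.pt (S.act a y)) (K.mv a y z')))
  have b5 := mul_le_mul_of_nonneg_right b3 hdr
  change |ev (comp (F.Jn a n x i) (K.T r a y)) (J.c (K.pt y) z') -
    ev (F.Jn a n x i) (J.c (K.pt (S.act a y)) (K.mv a y z'))| ≤ _
  linarith

theorem Conv_inc (P : Par K lam r a s1 s2) : ∃ g : ℝ, 0 < g ∧ F.Unif a fun C ε q =>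
    C * ε ≤ s1 / 2 ∧ ∀ x ∈ F.X0, ∀ (n : ℕ) z η, K.Sh a s1 η x z →
      η * exp (-(s1 * n)) ≤ exp (-(C * (q x + ε * n))) →
      dist (F.Hn a n x z) (F.Hn a (n + 1) x z) ≤ exp (C * q x) * η ^ r * exp (-g) ^ n := by
  obtain ⟨g, hg, -, hg1, -, -, hg2, -⟩ := P.exists_gap
  obtain ⟨C, ε0, hC, hε0, h⟩ := F.step P
  have hC0 : (0 : ℝ) < C := by exact_mod_cast hC
  refine ⟨g / 2, by positivity, C, min ε0 (g / (2 * C)), hC, by positivity, ?_⟩
  intro ε q hε T
  have hCε : C * ε ≤ g / 2 := by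
    have := hε.trans (min_le_right _ _)
    rw [le_div_iff₀ (by positivity)] at this
    linarith
  refine ⟨by linarith, fun x hx n z η hs hη => ?_⟩
  have hη0 := hs.nonneg
  have hd : dist (K.mv (-((n + 1) • a)) x z) (K.pt (S.act (-((n + 1) • a)) x)) ≤
      η * exp (-(s1 * n)) := (hs (n + 1)).trans (by
    gcongr
    · exact P.s1_pos.le
    · exact n.le_succ)
  rw [dist_comm, dist_pi_le_iff (by positivity)]
  intro i
  rw [Real.dist_eq]
  refine (h ε q (hε.trans (min_le_left _ _)) T x hx n z i (hd.trans hη)).trans ?_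
  calc _ ≤ exp (C * (q x + ε * n) + lam i a * n) * (η * exp (-(s1 * n))) ^ r := by gcongr
    _ = exp (C * q x) * η ^ r * exp ((C * ε + lam i a - r * s1) * n) := by
        rw [mul_pow, ← exp_nat_mul, mul_comm (exp (C * q x)), mul_assoc, ← exp_add,
          mul_left_comm, ← exp_add]
        ring_nf
    _ ≤ _ := by
        rw [← exp_nat_mul, mul_comm (n : ℝ)]
        gcongr
        linarith [hg2 i]

theorem Conv_ev {s : ℝ} (hs : 0 < s) (R : ℝ) : ∀ᶠ n : ℕ in atTop, R ≤ s * n :=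
  (tendsto_natCast_atTop_atTop.const_mul_atTop hs).eventually_ge_atTop R

theorem tendsto_H (P : Par K lam r a s1 s2) {x : X} (hx : x ∈ F.X0) {z : M}
    (hz : z ∈ K.Wu a s1 x) : Tendsto (fun n => F.Hn a n x z) atTop (𝓝 (F.H a x z)) := by
  obtain ⟨g, hg, C, ε0, -, hε0, h⟩ := F.Conv_inc P
  obtain ⟨q, T⟩ := F.exists_temp a hε0
  obtain ⟨hCε, h⟩ := h ε0 q le_rfl T
  obtain ⟨R, -, hR⟩ := Skew.Wu_exp hz
  obtain ⟨N, hN⟩ := eventually_atTop.1 (Conv_ev (half_pos P.s1_pos) (R + C * q x))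
  have hc : CauchySeq fun n => F.Hn a (n + N) x z := by
    refine cauchySeq_of_le_geometric (exp (-g)) (exp (C * q x) * exp R ^ r * exp (-g) ^ N)
      (exp_lt_one_iff.2 (by linarith)) fun n => ?_
    have h1 := h x hx (n + N) z _ hR (by
      rw [← exp_add]
      refine exp_le_exp.2 ?_
      have h2 := hN (n + N) (Nat.le_add_left _ _)
      have h3 := mul_le_mul_of_nonneg_right hCε (n + N).cast_nonneg
      nlinarith)
    rw [show n + 1 + N = n + N + 1 by ring]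
    refine h1.trans (le_of_eq ?_)
    ring
  exact ((cauchySeq_shift N).1 hc).tendsto_limUnder

theorem H_mem (P : Par K lam r a s1 s2) {x : X} (hx : x ∈ F.X0) {z : M}
    (hz : z ∈ K.Wu a s1 x) : F.H a x z ∈ U fun i => lam i a := by
  intro i hi
  obtain ⟨q, T⟩ := F.exists_temp a (half_pos P.s1_pos)
  obtain ⟨R, -, hR⟩ := Skew.Wu_exp hz
  have hL0 := J.L0_nonneg
  have h1 := tendsto_pi_nhds.1 (F.tendsto_H P hx hz) i
  have h2 : Tendsto (fun n : ℕ => exp (F.A + q x + J.L0 + R) * exp (-(s1 / 2 * n))) atTop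
      (𝓝 0) := by
    simpa using (tendsto_exp_neg_atTop_nhds_zero.comp
      (tendsto_natCast_atTop_atTop.const_mul_atTop (half_pos P.s1_pos))).const_mul
      (exp (F.A + q x + J.L0 + R))
  refine tendsto_nhds_unique h1 (squeeze_zero_norm' ?_ h2)
  filter_upwards [Conv_ev P.s1_pos (R + J.L0)] with n hn
  have hd := hR n
  rw [← exp_add] at hd
  have hw := (J.c_le (hd.trans (exp_le_exp.2 (by linarith)))).trans
    (mul_le_mul_of_nonneg_left hd (exp_pos _).le)
  rw [← exp_add] at hw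
  have hJ := T.J_le n x hx i
  have h3 := F.pc.ev_le (F.Jn a n x i) _ 0 le_rfl (hw.trans (exp_le_exp.2 (by linarith)))
  refine h3.trans ?_
  calc _ ≤ exp (F.A + r * 0) * exp (q x + lam i a * n + s1 / 2 * n) *
        exp (J.L0 + (R + -(s1 * n))) := by gcongr
    _ ≤ _ := by
        rw [← exp_add, ← exp_add, ← exp_add]
        refine exp_le_exp.2 ?_
        have : lam i a * n ≤ 0 := mul_nonpos_of_nonpos_of_nonneg hi n.cast_nonneg
        linarith

theorem H_est (P : Par K lam r a s1 s2) : F.Unif a fun C _ q => ∀ x ∈ F.X0, ∀ z η,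
    η ≤ exp (-(C * q x)) → K.Sh a s1 η x z →
    ‖F.H a x z - evv (F.Ψ x) (J.c (K.pt x) z)‖ ≤ exp (C * q x) * η ^ r := by
  obtain ⟨g, hg, C, ε0, hC, hε0, h⟩ := F.Conv_inc P
  have hg1 : exp (-g) < 1 := exp_lt_one_iff.2 (by linarith)
  obtain ⟨C2, hC2⟩ := exists_nat_ge (1 - exp (-g))⁻¹
  refine ⟨C + C2, ε0, by omega, hε0, fun ε q hε T x hx z η hη hs => ?_⟩
  obtain ⟨hCε, h⟩ := h ε q hε T
  have hq := T.one_le x
  have hη0 := hs.nonneg
  have hC0 : (0 : ℝ) ≤ C2 := C2.cast_nonneg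
  have hC3 : (C2 : ℝ) ≤ C2 * q x := by nlinarith
  have h1 := dist_le_of_le_geometric_of_tendsto₀ (exp (-g)) (exp (C * q x) * η ^ r) hg1
    (fun n => h x hx n z η hs (by
      refine (mul_le_mul_of_nonneg_right hη (exp_pos _).le).trans ?_
      rw [← exp_add]
      refine exp_le_exp.2 ?_
      have h3 := mul_le_mul_of_nonneg_right hCε n.cast_nonneg
      have h4 := mul_nonneg P.s1_pos.le n.cast_nonneg
      push_cast
      nlinarith)) (F.tendsto_H P hx ⟨η, hs⟩)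
  rw [F.Hn_zero P.two_le, dist_comm, dist_eq_norm] at h1
  refine h1.trans ?_
  have h5 : (1 - exp (-g))⁻¹ ≤ exp (C2 * q x) := by linarith [add_one_le_exp (C2 * q x)]
  calc _ ≤ exp (C * q x) * η ^ r * exp (C2 * q x) := by
        rw [div_eq_mul_inv]
        gcongr
    _ = _ := by
        push_cast
        rw [add_mul, exp_add]
        ring

end Formal

end Pool.Agent.P.MP_d483fb_an.Z.NF
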