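import Pool.Agent.P.MP_d483fb_an.Z.NF.Poly
import Pool.Agent.P.MP_d483fb_an.Os.OutT

/-!
Normal forms: charts and jets of a group action (`Jets`), skew products over an action of a vector
group (`Skew`), and the normal form coordinates on unstable leaves of the fibres (`Leaf`).
-/

open MeasureTheory Filter Topology Set Real

noncomputable section

namespace Pool.Agent.P.MP_d483fb_an.Z.NF

open Os

/-- Uniform charts of `M` and the Taylor polynomials of the action `α` in these charts. -/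
structure Jets {Γ M : Type} [Group Γ] [MetricSpace M] [MeasurableSpace M]
    (α : Γ →* Equiv.Perm M) (len : Γ → ℝ) (D : ℕ) where
  c : M → M → E D
  T : (r : ℕ) → Γ → M → Jt D r
  L0 : ℝ
  Lr : ℕ → ℝ
  L0_nonneg : 0 ≤ L0
  Lr_nonneg : ∀ r, 0 ≤ Lr r
  len_nonneg : ∀ γ, 0 ≤ len γ
  measC : Measurable fun p : M × M => c p.1 p.2
  measT : ∀ r γ, Measurable (T r γ)
  c_self : ∀ p, c p p = 0
  c_lip : ∀ p z z', dist z p ≤ exp (-L0) → dist z' p ≤ exp (-L0) →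
    ‖c p z - c p z'‖ ≤ exp L0 * dist z z'
  c_lip' : ∀ p z z', dist z p ≤ exp (-L0) → dist z' p ≤ exp (-L0) →
    dist z z' ≤ exp L0 * ‖c p z - c p z'‖
  c_onto : ∀ p u, ‖u‖ ≤ exp (-(2 * L0)) → ∃ z, dist z p ≤ exp L0 * ‖u‖ ∧ c p z = u
  lip : ∀ γ z z', dist (α γ z) (α γ z') ≤ exp (L0 * (1 + len γ)) * dist z z'
  T_le : ∀ r γ p, ‖T r γ p‖ ≤ exp (Lr r * (1 + len γ))
  jet : ∀ r γ p z, dist z p ≤ exp (-(Lr r * (1 + len γ))) →
    ‖c (α γ p) (α γ z) - evv (T r γ p) (c p z)‖ ≤ exp (Lr r * (1 + len γ)) * dist z p ^ r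
  tr : ∀ r p p', dist p' p ≤ exp (-Lr r) → ∃ S : Jt D r, ‖S‖ ≤ exp (Lr r) ∧
    ∀ z, dist z p' ≤ exp (-Lr r) → ‖c p z - c p p' - evv S (c p' z)‖ ≤ exp (Lr r) * dist z p' ^ r

variable {W X Γ M : Type} [NormedAddCommGroup W] [NormedSpace ℝ W] [MeasurableSpace W]
  [MeasurableSpace X] {μ : Measure X} [Group Γ] [MeasurableSpace Γ] [MetricSpace M]
  [MeasurableSpace M] {α : Γ →* Equiv.Perm M} {len : Γ → ℝ} {D : ℕ}

/-- The derivative of `α γ` at `p` in the charts. -/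
def Jets.Dl (J : Jets α len D) (γ : Γ) (p : M) : E D →L[ℝ] E D := linv (J.T 2 γ p)

/-- The system `S` moves the fibre coordinate `pt` by a tempered cocycle `β`. -/
structure Skew (S : Sys W X μ) (J : Jets α len D) where
  pt : X → M
  β : W → X → Γ
  h : X → ℝ
  L : ℝ
  L_nonneg : 0 ≤ L
  measPt : Measurable pt
  measβ : Measurable fun p : W × X => β p.1 p.2
  measAct : Measurable fun p : W × X => S.act p.1 p.2
  measH : Measurable h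
  β_zero : ∀ x, β 0 x = 1
  β_add : ∀ s t x, β (s + t) x = β s (S.act t x) * β t x
  pt_act : ∀ s x, pt (S.act s x) = α (β s x) (pt x)
  h_nonneg : ∀ x, 0 ≤ h x
  h_lip : ∀ s x, h (S.act s x) ≤ h x + L * (‖s‖ + 1)
  len_β : ∀ s x, len (β s x) ≤ L * (1 + ‖s‖ + h x)

variable {S : Sys W X μ} {J : Jets α len D}

namespace Skew

variable (K : Skew S J)

/-- The fibre derivative cocycle. -/
def Dl (s : W) (x : X) : E D →L[ℝ] E D := J.Dl (K.β s x) (K.pt x)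

/-- The jet cocycle. -/
def T (r : ℕ) (s : W) (x : X) : Jt D r := J.T r (K.β s x) (K.pt x)

/-- The motion of a point `z` of the fibre through `x`. -/
def mv (s : W) (x : X) (z : M) : M := α (K.β s x) z

/-- The backward orbit of `z` approaches that of `x` like `C exp (-s n)`. -/
def Sh (a : W) (s C : ℝ) (x : X) (z : M) : Prop :=
  ∀ n : ℕ, dist (K.mv (-(n • a)) x z) (K.pt (S.act (-(n • a)) x)) ≤ C * exp (-(s * n))

/-- The unstable leaf of `x` in its fibre. -/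
def Wu (a : W) (s : ℝ) (x : X) : Set M := {z | ∃ C, K.Sh a s C x z}

/-- The holonomy `γ` from the fibre of `x'` to the fibre of `x` at time `-n`. -/
def hol (a : W) (n : ℕ) (x x' : X) (γ : Γ) : Γ :=
  K.β (-(n • a)) x * γ * (K.β (-(n • a)) x')⁻¹

/-- The holonomy `γ` stays tempered along the backward orbits. -/
def Hol (a : W) (C0 : ℝ) (x x' : X) (γ : Γ) : Prop :=
  ∀ n : ℕ, len (K.hol a n x x' γ) ≤
    C0 + K.L * (K.h (S.act (-(n • a)) x) + K.h (S.act (-(n • a)) x'))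

end Skew

/-- The function `q` is a tempered bound for the height on the invariant set `X0`. -/
structure Slow (K : Skew S J) (X0 : Set X) (B : ℝ) (a : W) (ε : ℝ) (q : X → ℝ) : Prop where
  pos : 0 < ε
  meas : Measurable q
  one_le : ∀ x, 1 ≤ q x
  big : ∀ x, exp (-q x) ≤ ε
  h_le : ∀ x ∈ X0, K.h x ≤ q x
  slowA : ∀ s, ∀ x ∈ X0, q (S.act s x) ≤ q x + ε * ‖s‖ + B
  slow_f : ∀ n : ℕ, ∀ x ∈ X0, q (S.act (n • a) x) ≤ q x + ε * n
  slow_b : ∀ n : ℕ, ∀ x ∈ X0, q (S.act (-(n • a)) x) ≤ q x + ε * n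

/-- Normal form coordinates on the unstable leaves of `a`: data and qualitative properties. -/
structure Leaf0 (K : Skew S J) (lam : Fin D → W →L[ℝ] ℝ) (a : W) (s1 : ℝ) where
  r : ℕ
  C : ℕ
  B : ℝ
  X0 : Set X
  H : X → M → E D
  Hinv : X → E D → M
  N : W → X → Jt D r
  meas0 : MeasurableSet X0
  ae0 : ∀ᵐ x ∂μ, x ∈ X0
  inv0 : ∀ s, ∀ x ∈ X0, S.act s x ∈ X0
  measH : Measurable fun p : X × M => H p.1 p.2
  measHinv : Measurable fun p : X × E D => Hinv p.1 p.2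
  measN : ∀ s, Measurable (N s)
  H_mem : ∀ x ∈ X0, ∀ z ∈ K.Wu a s1 x, H x z ∈ U fun i => lam i a
  H_pt : ∀ x ∈ X0, H x (K.pt x) = 0
  H_inj : ∀ x ∈ X0, InjOn (H x) (K.Wu a s1 x)
  Hinv_mem : ∀ x ∈ X0, ∀ v ∈ U fun i => lam i a, Hinv x v ∈ K.Wu a s1 x
  H_Hinv : ∀ x ∈ X0, ∀ v ∈ U fun i => lam i a, H x (Hinv x v) = v
  mv_mem : ∀ s, ∀ x ∈ X0, ∀ z ∈ K.Wu a s1 x, K.mv s x z ∈ K.Wu a s1 (S.act s x)
  H_mv : ∀ s, ∀ x ∈ X0, ∀ z ∈ K.Wu a s1 x, H (S.act s x) (K.mv s x z) = evv (N s x) (H x z)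
  N_res : ∀ s, ∀ x ∈ X0, Res lam (N s x)
  hol_mem : ∀ x ∈ X0, ∀ x' ∈ X0, ∀ γ C0, K.Hol a C0 x x' γ → α γ (K.pt x') ∈ K.Wu a s1 x →
    ∀ z ∈ K.Wu a s1 x', α γ z ∈ K.Wu a s1 x
  hol_symm : ∀ x ∈ X0, ∀ x' ∈ X0, ∀ γ C0, K.Hol a C0 x' x γ⁻¹ → α γ (K.pt x') ∈ K.Wu a s1 x →
    α γ⁻¹ (K.pt x) ∈ K.Wu a s1 x'
  hol_poly : ∀ x ∈ X0, ∀ x' ∈ X0, ∀ γ C0, K.Hol a C0 x x' γ → α γ (K.pt x') ∈ K.Wu a s1 x →
    SubRes (fun i => lam i a) fun v => H x (α γ (Hinv x' v))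

variable {K : Skew S J} {lam : Fin D → W →L[ℝ] ℝ} {a : W} {s1 : ℝ}

/-- The estimates for the normal form coordinates in terms of a tempered function `q`. -/
structure Leaf0.Est (F : Leaf0 K lam a s1) (s2 ε : ℝ) (q : X → ℝ) : Prop
    extends Slow K F.X0 F.B a ε q where
  N_le : ∀ s, ∀ x ∈ F.X0, ∀ i, ‖F.N s x i‖ ≤ exp (q x + lam i s + ε * ‖s‖)
  N_f : ∀ n : ℕ, ∀ x ∈ F.X0, ∀ i, ‖F.N (n • a) x i‖ ≤ exp (q x + lam i a * n + ε * n)
  N_b : ∀ n : ℕ, ∀ x ∈ F.X0, ∀ i, ‖F.N (-(n • a)) x i‖ ≤ exp (q x - lam i a * n + ε * n)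
  H_le : ∀ x ∈ F.X0, ∀ z R, 0 ≤ R → K.Sh a s1 (exp R) x z → ‖F.H x z‖ ≤ exp (F.C * (q x + R))
  Hinv_sh : ∀ x ∈ F.X0, ∀ v ∈ U fun i => lam i a, ∀ R, 0 ≤ R → ‖v‖ ≤ exp R →
    K.Sh a s2 (exp (F.C * (q x + R)) * ‖v‖) x (F.Hinv x v)
  hol_lip : ∀ x ∈ F.X0, ∀ x' ∈ F.X0, ∀ γ C0, 0 ≤ C0 → K.Hol a C0 x x' γ → ∀ (n : ℕ) z z',
    dist (α (K.hol a n x x' γ) z) (α (K.hol a n x x' γ) z') ≤
      exp (F.C * (q x + q x' + C0) + (s2 - s1) * n) * dist z z'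
  track : ∀ x ∈ F.X0, ∀ (t : ℕ) z,
    (∀ i ≤ t, dist (K.mv (i • a) x z) (K.pt (S.act (i • a) x)) ≤
      exp (-(F.C * q (S.act (i • a) x)))) →
    ∀ i ≤ t, dist (K.mv (i • a) x z) (K.pt (S.act (i • a) x)) ≤
      exp (F.C * q (S.act (t • a) x) - s2 * (t - i)) + exp (F.C * q x + ε * t) * dist z (K.pt x)

/-- Normal form coordinates on the unstable leaves of `a`. -/
structure Leaf (K : Skew S J) (lam : Fin D → W →L[ℝ] ℝ) (a : W) (s1 s2 : ℝ)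
    extends Leaf0 K lam a s1 where
  est : ∀ ε, 0 < ε → ∃ q, toLeaf0.Est s2 ε q

end Pool.Agent.P.MP_d483fb_an.Z.NF
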