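import Pool.Agent.P.MP_d483fb_an.Z.NF.Conv

/-!
Normal forms: equivariance of the normal form coordinates.
-/

open MeasureTheory Filter Topology Set Real

set_option linter.unusedSectionVars false

noncomputable section

namespace Pool.Agent.P.MP_d483fb_an.Z.NF

open Os

variable {W X Γ M : Type} [NormedAddCommGroup W] [NormedSpace ℝ W] [MeasurableSpace W]
  [MeasurableSpace X] {μ : Measure X} [Group Γ] [MeasurableSpace Γ] [MetricSpace M]
  [MeasurableSpace M] {α : Γ →* Equiv.Perm M} {len : Γ → ℝ} {D : ℕ}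
  {S : Sys W X μ} {J : Jets α len D} {K : Skew S J} {lam : Fin D → W →L[ℝ] ℝ} {r : ℕ}
  {a : W} {s1 s2 : ℝ}

theorem Equi_tend (c k : ℝ) (hk : k < 0) :
    Tendsto (fun n : ℕ => exp (c + k * n)) atTop (𝓝 0) :=
  tendsto_exp_atBot.comp (tendsto_atBot_add_const_left _ _
    (tendsto_natCast_atTop_atTop.const_mul_atTop_of_neg hk))

theorem Equi_est {A : ℝ} (pc : PC D r A) (hr : 1 ≤ r) {t u : V D r} {T T' : Jt D r} {w w' : E D}
    {G d L R c0 m : ℝ} {c : Fin D → ℝ} (hG : 0 ≤ G) (hL : 0 ≤ L) (hR : 0 ≤ R)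
    (hd : d ≤ -(G + A + L)) (hT : ‖T‖ ≤ exp G) (hw : ‖w‖ ≤ exp (L + d))
    (hw' : ‖w' - evv T w‖ ≤ exp (G + r * d)) (ht : ‖t‖ ≤ exp m) (he : comp t T = comp u T')
    (hu : Res1 c c0 u) (hT' : ∀ j, ‖T' j‖ ≤ exp (R + c j)) :
    |ev t w' - ev u (evv T' w)| ≤ exp (A + r + m + G + r * d) + exp (A + r * G + m + r * (L + d)) +
      ‖u‖ * exp (A + r * R + c0 + r * (L + d)) := by
  have hA := pc.nonneg
  have hr' : (1 : ℝ) ≤ r := by exact_mod_cast hr
  have hd0 : d ≤ 0 := by linarith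
  have hw1 : ‖w‖ ≤ 1 := hw.trans (exp_le_one_iff.2 (by linarith))
  have hwr : ‖w‖ ^ r ≤ exp (r * (L + d)) := by
    rw [exp_nat_mul]
    gcongr
  have h1 : ‖evv T w‖ ≤ 1 := by
    refine (pc.evv_le T w le_rfl (by simpa using hw1)).trans ?_
    calc exp (A + r * 0) * ‖T‖ * ‖w‖ ≤ exp (A + r * 0) * exp G * exp (L + d) := by gcongr
      _ ≤ 1 := by
        rw [← exp_add, ← exp_add]
        exact exp_le_one_iff.2 (by linarith)
  have h2 : ‖w' - evv T w‖ ≤ 1 := hw'.trans (exp_le_one_iff.2 (by nlinarith))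
  have e2 : (2 : ℝ) ≤ exp 1 := by linarith [add_one_le_exp (1 : ℝ)]
  have h3 : ‖w'‖ ≤ exp 1 := by
    have := norm_add_le (w' - evv T w) (evv T w)
    rw [sub_add_cancel] at this
    linarith
  have a1 : |ev t w' - ev t (evv T w)| ≤ exp (A + r + m + G + r * d) := by
    refine (pc.ev_lip t _ _ 1 zero_le_one h3 (by linarith)).trans ?_
    calc exp (A + r * 1) * ‖t‖ * ‖w' - evv T w‖ ≤ exp (A + r * 1) * exp m * exp (G + r * d) := by
          gcongr
      _ = _ := by
        rw [← exp_add, ← exp_add]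
        congr 1
        ring
  have a2 : |ev (comp t T) w - ev t (evv T w)| ≤ exp (A + r * G + m + r * (L + d)) := by
    refine (pc.comp_err t T w G hG hT hw1).trans ?_
    calc exp (A + r * G) * ‖t‖ * ‖w‖ ^ r ≤ exp (A + r * G) * exp m * exp (r * (L + d)) := by
          gcongr
      _ = _ := by rw [← exp_add, ← exp_add]
  have a3 : |ev (comp u T') w - ev u (evv T' w)| ≤
      ‖u‖ * exp (A + r * R + c0 + r * (L + d)) := by
    refine (pc.comp_err_res hu hR hT' hw1).trans ?_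
    calc exp (A + r * R + c0) * ‖u‖ * ‖w‖ ^ r ≤ exp (A + r * R + c0) * ‖u‖ * exp (r * (L + d)) := by
          gcongr
      _ = _ := by
        rw [exp_add (A + r * R + c0)]
        ring
  rw [he] at a2
  rw [abs_le] at a1 a2 a3 ⊢
  constructor <;> linarith [a1.1, a1.2, a2.1, a2.2, a3.1, a3.2]

theorem Formal.H_mv (F : Formal K lam r) (P : Par K lam r a s1 s2) (s : W) {x : X} (hx : x ∈ F.X0)
    {z : M} (hz : z ∈ K.Wu a s1 x) :
    F.H a (S.act s x) (K.mv s x z) = evv (F.N s x) (F.H a x z) := by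
  refine Tendsto.limUnder_eq (tendsto_pi_nhds.2 fun i => ?_)
  obtain ⟨g, hg, -, hg1, -, -, hg2, -⟩ := P.exists_gap
  obtain ⟨R, hR, hz'⟩ := Skew.Wu_exp hz
  have hr1 : 1 ≤ r := le_trans one_le_two P.two_le
  have hr' : (1 : ℝ) ≤ r := by exact_mod_cast hr1
  obtain ⟨κ, hκ⟩ : ∃ κ, κ = J.Lr r * K.L := ⟨_, rfl⟩
  have hκ0 : 0 ≤ κ := hκ ▸ mul_nonneg (J.Lr_nonneg r) K.L_nonneg
  obtain ⟨ε, hε, hεg⟩ : ∃ ε : ℝ, 0 < ε ∧ ε * (1 + r + κ + r * κ) < g := by
    have h : 0 < 1 + r + κ + r * κ := by positivity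
    refine ⟨g / 2 / (1 + r + κ + r * κ), by positivity, ?_⟩
    rw [div_mul_cancel₀ _ h.ne']
    linarith
  obtain ⟨q, T⟩ := F.exists_temp a hε
  obtain ⟨G, hG⟩ : ∃ G, G = J.Lr r * (1 + K.L * (1 + ‖s‖ + q x)) := ⟨_, rfl⟩
  have hq := T.one_le x
  have hG0 : 0 ≤ G := by
    have := J.Lr_nonneg r
    have := K.L_nonneg
    rw [hG]
    positivity
  have k1 : 0 ≤ ε * r := by positivity
  have k2 : 0 ≤ ε * κ := by positivity
  have k3 : 0 ≤ ε * (r * κ) := by positivity
  have hl := hg2 i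
  have hlim : Tendsto (fun n => ev (F.N s x i) (F.Hn a n x z)) atTop
      (𝓝 (ev (F.N s x i) (F.H a x z))) := by
    have : Continuous (ev (F.N s x i)) := by
      unfold ev mono
      fun_prop
    exact (this.tendsto _).comp (F.tendsto_H P hx hz)
  refine hlim.congr_dist (squeeze_zero' (Eventually.of_forall fun _ => dist_nonneg)
    (g := fun n : ℕ => exp ((F.A + r + q (S.act s x) + G + r * R) +
      (lam i a + ε + ε * κ - r * s1) * n) +
      exp ((F.A + r * G + q (S.act s x) + r * (J.L0 + R)) +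
        (lam i a + ε + ε * (r * κ) - r * s1) * n) +
      ‖F.N s x i‖ * exp ((F.A + r * q x + r * (J.L0 + R)) + (lam i a + ε * r - r * s1) * n)) ?_ ?_)
  · have hev : ∀ᶠ n : ℕ in atTop, exp ((R + G + F.A + J.L0) + (ε * κ - s1) * n) < 1 :=
      (Equi_tend _ _ (by linarith)).eventually (gt_mem_nhds one_pos)
    filter_upwards [hev] with n hn
    rw [exp_lt_one_iff] at hn
    have hn0 : (0 : ℝ) ≤ n := n.cast_nonneg
    have hA := F.pc.nonneg
    have hL0 := J.L0_nonneg
    have k4 : 0 ≤ ε * κ * n := by positivity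
    have hd : dist (K.mv (-(n • a)) x z) (K.pt (S.act (-(n • a)) x)) ≤ exp (R - s1 * n) := by
      rw [sub_eq_add_neg, exp_add]
      exact hz' n
    have hGn : J.Lr r * (1 + K.L * (1 + ‖s‖ + K.h (S.act (-(n • a)) x))) ≤ G + ε * κ * n := by
      have h1 := T.h_back n hx
      have := J.Lr_nonneg r
      have := K.L_nonneg
      calc _ ≤ J.Lr r * (1 + K.L * (1 + ‖s‖ + (q x + ε * n))) := by gcongr
        _ = _ := by rw [hG, hκ]; ring
    have e1 : S.act (-(n • a)) (S.act s x) = S.act s (S.act (-(n • a)) x) := S.comm _ _ _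
    have e2 : K.mv (-(n • a)) (S.act s x) (K.mv s x z) =
        K.mv s (S.act (-(n • a)) x) (K.mv (-(n • a)) x z) := by
      rw [K.mv_mv, K.mv_mv, add_comm]
    have key := Equi_est F.pc hr1 (t := F.Jn a n (S.act s x) i) (u := F.N s x i)
      (T := K.T r s (S.act (-(n • a)) x)) (T' := F.Jn a n x)
      (w := J.c (K.pt (S.act (-(n • a)) x)) (K.mv (-(n • a)) x z))
      (w' := J.c (K.pt (S.act s (S.act (-(n • a)) x)))
        (K.mv s (S.act (-(n • a)) x) (K.mv (-(n • a)) x z)))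
      (G := G + ε * κ * n) (d := R - s1 * n) (L := J.L0) (R := q x + ε * n) (c0 := lam i a * n)
      (m := q (S.act s x) + lam i a * n + ε * n) (c := fun j => lam j a * n)
      (by positivity) hL0 (by positivity) (by linarith)
      ((K.T_le r s _).trans (exp_le_exp.2 hGn))
      (by
        refine (J.c_le (hd.trans (exp_le_exp.2 (by linarith)))).trans ?_
        rw [exp_add]
        gcongr)
      (by
        refine (K.jet r s _ _ (hd.trans (exp_le_exp.2 (by linarith)))).trans ?_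
        rw [exp_add (G + ε * κ * n), exp_nat_mul]
        gcongr)
      (T.J_le n _ (F.inv0 s x hx) i) (congrFun (F.Jn_act a s n hx) i)
      (((F.res s x hx).apply a i).mul n)
      (fun j => (T.J_le n x hx j).trans (le_of_eq (by congr 1; ring)))
    rw [dist_comm, Real.dist_eq]
    simp only [Formal.Hn, e1, e2]
    refine key.trans (le_of_eq ?_)
    congr 1
    · congr 1 <;> congr 1 <;> ring
    · congr 2
      ring
  · have := ((Equi_tend (F.A + r + q (S.act s x) + G + r * R) (lam i a + ε + ε * κ - r * s1)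
      (by linarith)).add (Equi_tend (F.A + r * G + q (S.act s x) + r * (J.L0 + R))
      (lam i a + ε + ε * (r * κ) - r * s1) (by linarith))).add
      ((Equi_tend (F.A + r * q x + r * (J.L0 + R)) (lam i a + ε * r - r * s1)
        (by linarith)).const_mul ‖F.N s x i‖)
    simpa using this

end Pool.Agent.P.MP_d483fb_an.Z.NF
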