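import Pool.Agent.P.MP_d483fb_an.Z.NF.Defs

/-!
Normal forms: frames, formal normal forms, and the elementary algebra of skew products.
-/

open MeasureTheory Filter Topology Set Real

set_option linter.unusedSectionVars false

noncomputable section

namespace Pool.Agent.P.MP_d483fb_an.Z.NF

open Os

variable {W X Γ M : Type} [NormedAddCommGroup W] [NormedSpace ℝ W] [MeasurableSpace W]
  [MeasurableSpace X] {μ : Measure X} [Group Γ] [MeasurableSpace Γ] [MetricSpace M]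
  [MeasurableSpace M] {α : Γ →* Equiv.Perm M} {len : Γ → ℝ} {D : ℕ}

/-- A measurable tempered frame `f` with dual frame `g`, where `f i` has exponent `lam i`. -/
structure Frame (S : Sys W X μ) (A : W → X → E D →L[ℝ] E D) (lam : Fin D → W →L[ℝ] ℝ) where
  f : X → Fin D → E D
  g : X → Fin D → E D
  X0 : Set X
  B : ℝ
  B_nonneg : 0 ≤ B
  meas0 : MeasurableSet X0
  ae0 : ∀ᵐ x ∂μ, x ∈ X0
  inv0 : ∀ s, ∀ x ∈ X0, S.act s x ∈ X0
  measF : Measurable f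
  measG : Measurable g
  dual : ∀ x ∈ X0, ∀ i j, ∑ l, g x i l * f x j l = if i = j then 1 else 0
  est : ∀ ε, 0 < ε → ∃ q : X → ℝ, Measurable q ∧ (∀ x, 0 ≤ q x) ∧
    (∀ s, ∀ x ∈ X0, q (S.act s x) ≤ q x + ε * ‖s‖ + B) ∧
    ∀ x ∈ X0, ‖f x‖ ≤ exp (q x) ∧ ‖g x‖ ≤ exp (q x) ∧
      ∀ s i, ‖A s x (f x i)‖ ≤ exp (q x + lam i s + ε * ‖s‖)

variable {S : Sys W X μ} {J : Jets α len D}

/-- Formal normal forms of order `r`: `Ψ` conjugates the jet cocycle to the resonant cocycle `N`. -/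
structure Formal (K : Skew S J) (lam : Fin D → W →L[ℝ] ℝ) (r : ℕ) where
  X0 : Set X
  B : ℝ
  A : ℝ
  Ψ : X → Jt D r
  Q : X → Jt D r
  N : W → X → Jt D r
  pc : PC D r A
  B_nonneg : 0 ≤ B
  meas0 : MeasurableSet X0
  ae0 : ∀ᵐ x ∂μ, x ∈ X0
  inv0 : ∀ s, ∀ x ∈ X0, S.act s x ∈ X0
  measΨ : Measurable Ψ
  measN : ∀ s, Measurable (N s)
  ΨQ : ∀ x ∈ X0, compv (Ψ x) (Q x) = idv D r
  QΨ : ∀ x ∈ X0, compv (Q x) (Ψ x) = idv D r
  conj : ∀ s, ∀ x ∈ X0, compv (Ψ (S.act s x)) (K.T r s x) = compv (N s x) (Ψ x)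
  res : ∀ s, ∀ x ∈ X0, Res lam (N s x)
  est : ∀ ε, 0 < ε → ∃ q : X → ℝ, Measurable q ∧ (∀ x, 0 ≤ q x) ∧ (∀ x ∈ X0, K.h x ≤ q x) ∧
    (∀ s, ∀ x ∈ X0, q (S.act s x) ≤ q x + ε * ‖s‖ + B) ∧
    ∀ x ∈ X0, ‖Ψ x‖ ≤ exp (q x) ∧ ‖Q x‖ ≤ exp (q x) ∧
      ∀ s i, ‖N s x i‖ ≤ exp (q x + lam i s + ε * ‖s‖)

/-- The choice of the rates and of the order. -/
structure Par (K : Skew S J) (lam : Fin D → W →L[ℝ] ℝ) (r : ℕ) (a : W) (s1 s2 : ℝ) : Prop where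
  two_le : 2 ≤ r
  s1_pos : 0 < s1
  lt : s1 < s2
  gap : ∀ i, 0 < lam i a → s2 < lam i a
  res : ∀ i, lam i a < r * s1
  lip : J.L0 * K.L * ‖a‖ < r * s1

variable {K : Skew S J} {lam : Fin D → W →L[ℝ] ℝ} {r : ℕ}

namespace Formal

variable (F : Formal K lam r) (a : W)

/-- The jet of `Ψ x ∘ a^n` at the point `a^(-n) x`. -/
def Jn (n : ℕ) (x : X) : Jt D r := compv (F.Ψ x) (K.T r (n • a) (S.act (-(n • a)) x))

/-- The approximations of the normal form coordinates. -/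
def Hn (n : ℕ) (x : X) (z : M) : E D :=
  evv (F.Jn a n x) (J.c (K.pt (S.act (-(n • a)) x)) (K.mv (-(n • a)) x z))

/-- The normal form coordinates. -/
def H (x : X) (z : M) : E D := limUnder atTop fun n => F.Hn a n x z

/-- All tempered bounds hold with `q` and `ε`. -/
structure Temp (ε : ℝ) (q : X → ℝ) : Prop extends Slow K F.X0 ((r + 1) * F.B) a ε q where
  Ψ_le : ∀ x ∈ F.X0, ‖F.Ψ x‖ ≤ exp (q x)
  Q_le : ∀ x ∈ F.X0, ‖F.Q x‖ ≤ exp (q x)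
  N_le : ∀ s, ∀ x ∈ F.X0, ∀ i, ‖F.N s x i‖ ≤ exp (q x + lam i s + ε * ‖s‖)
  N_f : ∀ n : ℕ, ∀ x ∈ F.X0, ∀ i, ‖F.N (n • a) x i‖ ≤ exp (q x + lam i a * n + ε * n)
  N_b : ∀ n : ℕ, ∀ x ∈ F.X0, ∀ i, ‖F.N (-(n • a)) x i‖ ≤ exp (q x - lam i a * n + ε * n)
  J_le : ∀ n : ℕ, ∀ x ∈ F.X0, ∀ i, ‖F.Jn a n x i‖ ≤ exp (q x + lam i a * n + ε * n)

/-- A property holds with a constant that does not depend on the small number `ε`. -/
def Unif (P : ℕ → ℝ → (X → ℝ) → Prop) : Prop :=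
  ∃ (C : ℕ) (ε0 : ℝ), 1 ≤ C ∧ 0 < ε0 ∧ ∀ ε q, ε ≤ ε0 → F.Temp a ε q → P C ε q

end Formal

namespace Skew

variable (K)

theorem mv_zero (x : X) (z : M) : K.mv 0 x z = z := by simp [mv, K.β_zero]

theorem mv_add (s t : W) (x : X) (z : M) :
    K.mv (s + t) x z = K.mv s (S.act t x) (K.mv t x z) := by
  simp [mv, K.β_add]

theorem mv_pt (s : W) (x : X) : K.mv s x (K.pt x) = K.pt (S.act s x) := (K.pt_act s x).symm

theorem neg_mv (s : W) (x : X) (z : M) : K.mv (-s) (S.act s x) (K.mv s x z) = z := by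
  rw [← mv_add, neg_add_cancel, mv_zero]

theorem mv_neg (s : W) (x : X) (z : M) : K.mv s (S.act (-s) x) (K.mv (-s) x z) = z := by
  rw [← mv_add, add_neg_cancel, mv_zero]

theorem act_act (s t : W) (x : X) : S.act s (S.act t x) = S.act (s + t) x := (S.add s t x).symm

theorem mv_mv (s t : W) (x : X) (z : M) :
    K.mv s (S.act t x) (K.mv t x z) = K.mv (s + t) x z := (K.mv_add s t x z).symm

theorem β_neg (s : W) (x : X) : K.β (-s) (S.act s x) = (K.β s x)⁻¹ := by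
  rw [eq_inv_iff_mul_eq_one, ← K.β_add, neg_add_cancel, K.β_zero]

theorem mv_lip (s : W) (x : X) (z z' : M) : dist (K.mv s x z) (K.mv s x z') ≤
    exp (J.L0 * (1 + K.L * (1 + ‖s‖ + K.h x))) * dist z z' :=
  (J.lip _ z z').trans (by
    gcongr
    · exact J.L0_nonneg
    · exact K.len_β s x)

theorem T_le (r : ℕ) (s : W) (x : X) :
    ‖K.T r s x‖ ≤ exp (J.Lr r * (1 + K.L * (1 + ‖s‖ + K.h x))) :=
  (J.T_le r _ _).trans (by
    gcongr
    · exact J.Lr_nonneg r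
    · exact K.len_β s x)

theorem jet (r : ℕ) (s : W) (x : X) (z : M)
    (hz : dist z (K.pt x) ≤ exp (-(J.Lr r * (1 + K.L * (1 + ‖s‖ + K.h x))))) :
    ‖J.c (K.pt (S.act s x)) (K.mv s x z) - evv (K.T r s x) (J.c (K.pt x) z)‖ ≤
      exp (J.Lr r * (1 + K.L * (1 + ‖s‖ + K.h x))) * dist z (K.pt x) ^ r := by
  have h1 : J.Lr r * (1 + len (K.β s x)) ≤ J.Lr r * (1 + K.L * (1 + ‖s‖ + K.h x)) := by
    gcongr
    · exact J.Lr_nonneg r
    · exact K.len_β s x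
  rw [K.pt_act]
  exact (J.jet r _ _ z (hz.trans (exp_le_exp.2 (neg_le_neg h1)))).trans (by gcongr)

theorem hol_mv (a : W) (n : ℕ) (x x' : X) (γ : Γ) (z : M) :
    α (K.hol a n x x' γ) (K.mv (-(n • a)) x' z) = K.mv (-(n • a)) x (α γ z) := by
  simp [hol, mv]

variable {K}

theorem Sh.mono {a : W} {s s' C C' : ℝ} {x : X} {z : M} (h : K.Sh a s C x z) (hs : s' ≤ s)
    (hC : C ≤ C') : K.Sh a s' C' x z := fun n => by
  have h0 : 0 ≤ C := by simpa using dist_nonneg.trans (h 0)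
  refine (h n).trans (mul_le_mul hC (exp_le_exp.2 (neg_le_neg ?_)) (exp_pos _).le (h0.trans hC))
  exact mul_le_mul_of_nonneg_right hs n.cast_nonneg

theorem Sh.nonneg {a : W} {s C : ℝ} {x : X} {z : M} (h : K.Sh a s C x z) : 0 ≤ C := by
  simpa using dist_nonneg.trans (h 0)

theorem Sh.zero {a : W} {s C : ℝ} {x : X} {z : M} (h : K.Sh a s C x z) : dist z (K.pt x) ≤ C := by
  simpa [K.mv_zero, S.zero] using h 0

theorem Sh.back {a : W} {s C : ℝ} {x : X} {z : M} (h : K.Sh a s C x z) (m : ℕ) :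
    K.Sh a s (C * exp (-(s * m))) (S.act (-(m • a)) x) (K.mv (-(m • a)) x z) := fun n => by
  have := h (n + m)
  rw [K.mv_mv, ← S.add, ← neg_add, ← add_nsmul, mul_assoc, ← exp_add]
  refine this.trans (le_of_eq ?_)
  push_cast
  ring_nf

theorem sh_pt (a : W) (s : ℝ) (x : X) : K.Sh a s 0 x (K.pt x) := fun n => by simp [K.mv_pt]

theorem pt_mem (a : W) (s : ℝ) (x : X) : K.pt x ∈ K.Wu a s x := ⟨0, sh_pt a s x⟩

theorem Wu_exp {a : W} {s : ℝ} {x : X} {z : M} (h : z ∈ K.Wu a s x) :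
    ∃ R, 0 ≤ R ∧ K.Sh a s (exp R) x z := by
  obtain ⟨C, hC⟩ := h
  exact ⟨C, hC.nonneg, hC.mono le_rfl (by linarith [add_one_le_exp C])⟩

end Skew

theorem Jets.c_le (J : Jets α len D) {p z : M} (h : dist z p ≤ exp (-J.L0)) :
    ‖J.c p z‖ ≤ exp J.L0 * dist z p := by
  simpa [J.c_self] using J.c_lip p z p h (by simpa using (exp_pos _).le)

theorem Jets.c_ge (J : Jets α len D) {p z : M} (h : dist z p ≤ exp (-J.L0)) :
    dist z p ≤ exp J.L0 * ‖J.c p z‖ := by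
  simpa [J.c_self] using J.c_lip' p z p h (by simpa using (exp_pos _).le)

theorem Slow.slow_b' {X0 : Set X} {B ε : ℝ} {a : W} {q : X → ℝ} (h : Slow K X0 B a ε q)
    (hi : ∀ s, ∀ x ∈ X0, S.act s x ∈ X0) (n : ℕ) {x : X} (hx : x ∈ X0) :
    q x ≤ q (S.act (-(n • a)) x) + ε * n := by
  have := h.slow_f n _ (hi (-(n • a)) x hx)
  rwa [S.act_neg] at this

theorem Slow.slow_f' {X0 : Set X} {B ε : ℝ} {a : W} {q : X → ℝ} (h : Slow K X0 B a ε q)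
    (hi : ∀ s, ∀ x ∈ X0, S.act s x ∈ X0) (n : ℕ) {x : X} (hx : x ∈ X0) :
    q x ≤ q (S.act (n • a) x) + ε * n := by
  have := h.slow_b n _ (hi (n • a) x hx)
  rwa [S.neg_act] at this

end Pool.Agent.P.MP_d483fb_an.Z.NF
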