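import Pool.Agent.P.MP_d483fb_an.Z.NF.Surj

/-!
Normal forms: the leaves are invariant under the action and under holonomies.
-/

open MeasureTheory Filter Topology Set Real

set_option linter.unusedSectionVars false

noncomputable section

namespace Pool.Agent.P.MP_d483fb_an.Z.NF

open Os

variable {W X Γ M : Type} [NormedAddCommGroup W] [NormedSpace ℝ W] [MeasurableSpace W]
  [MeasurableSpace X] {μ : Measure X} [Group Γ] [MeasurableSpace Γ] [MetricSpace M]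
  [MeasurableSpace M] {α : Γ →* Equiv.Perm M} {len : Γ → ℝ} {D : ℕ}
  {S : Sys W X μ} {J : Jets α len D} {K : Skew S J} {lam : Fin D → W →L[ℝ] ℝ} {r : ℕ}
  {a : W} {s1 s2 : ℝ}

namespace Formal

variable (F : Formal K lam r)

theorem hol_lip (P : Par K lam r a s1 s2) : F.Unif a fun C _ q => ∀ x ∈ F.X0, ∀ x' ∈ F.X0,
    ∀ γ C0, 0 ≤ C0 → K.Hol a C0 x x' γ → ∀ (n : ℕ) z z',
    dist (α (K.hol a n x x' γ) z) (α (K.hol a n x x' γ) z') ≤
      exp (C * (q x + q x' + C0) + (s2 - s1) * n) * dist z z' := by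
  obtain ⟨C, hC⟩ := exists_nat_ge (J.L0 * (1 + K.L) + 1)
  have h0 := J.L0_nonneg
  have hL := K.L_nonneg
  have hLL := mul_nonneg h0 hL
  have hg := sub_pos.2 P.lt
  have hC1 : (1 : ℝ) ≤ C := by nlinarith
  refine ⟨C, (s2 - s1) / (2 * (J.L0 * K.L) + 1), by exact_mod_cast hC1, by positivity,
    fun ε q hε T x hx x' hx' γ C0 hC0 h n z z' => ?_⟩
  refine (J.lip _ z z').trans (mul_le_mul_of_nonneg_right (exp_le_exp.2 ?_) dist_nonneg)
  have h1 := T.h_back n hx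
  have h2 := T.h_back n hx'
  have h3 : len (K.hol a n x x' γ) ≤ C0 + K.L * (q x + q x' + 2 * (ε * n)) :=
    (h n).trans (by nlinarith)
  have h4 := mul_le_mul_of_nonneg_left h3 h0
  have h5 : ε * (2 * (J.L0 * K.L) + 1) ≤ s2 - s1 := (le_div_iff₀ (by positivity)).1 hε
  have h6 : 2 * (J.L0 * K.L) * ε ≤ s2 - s1 := by nlinarith [T.pos]
  have h7 := mul_le_mul_of_nonneg_right h6 (Nat.cast_nonneg (α := ℝ) n)
  have q1 := T.one_le x
  have q2 := T.one_le x'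
  have h8 : J.L0 * (1 + K.L) * (q x + q x' + C0) ≤ C * (q x + q x' + C0) :=
    mul_le_mul_of_nonneg_right (by linarith) (by linarith)
  nlinarith [mul_nonneg hLL hC0, mul_nonneg h0 (by linarith : 0 ≤ q x + q x' - 1)]

theorem _root_.Pool.Agent.P.MP_d483fb_an.Z.NF.Skew.Hol.back {x x' : X} {γ : Γ} {C0 : ℝ}
    (h : K.Hol a C0 x x' γ) (m : ℕ) :
    K.Hol a C0 (S.act (-(m • a)) x) (S.act (-(m • a)) x') (K.hol a m x x' γ) := by
  intro n
  have e : -((n + m) • a) = -(n • a) + -(m • a) := by rw [add_nsmul, neg_add]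
  have := h (n + m)
  rw [Skew.hol, e, K.β_add, K.β_add, S.add, S.add] at this
  refine le_of_eq_of_le ?_ this
  simp only [Skew.hol, mul_inv_rev, mul_assoc]

theorem _root_.Pool.Agent.P.MP_d483fb_an.Z.NF.Skew.Hol.abs {x x' : X} {γ : Γ} {C0 : ℝ}
    (h : K.Hol a C0 x x' γ) : K.Hol a |C0| x x' γ := fun n =>
  (h n).trans (by linarith [le_abs_self C0])

/-- Transport of the shadowing property by a holonomy with a given Lipschitz bound. -/
theorem _root_.Pool.Agent.P.MP_d483fb_an.Z.NF.Skew.Sh.hol {x x' : X} {γ : Γ} {z : M} {L C C' : ℝ}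
    (hl : ∀ (n : ℕ) z z', dist (α (K.hol a n x x' γ) z) (α (K.hol a n x x' γ) z') ≤
      exp (L + (s2 - s1) * n) * dist z z')
    (hp : K.Sh a s1 C x (α γ (K.pt x'))) (hz : K.Sh a s2 C' x' z) :
    K.Sh a s1 (C + exp L * C') x (α γ z) := by
  intro n
  have h1 := hl n (K.mv (-(n • a)) x' z) (K.mv (-(n • a)) x' (K.pt x'))
  rw [K.hol_mv, K.hol_mv, K.mv_pt] at h1
  have h2 := h1.trans (mul_le_mul_of_nonneg_left (hz n) (exp_pos _).le)
  have e : exp (L + (s2 - s1) * n) * (C' * exp (-(s2 * n))) = exp L * C' * exp (-(s1 * n)) := by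
    rw [mul_left_comm, ← exp_add, mul_comm (exp L), mul_assoc, ← exp_add]
    congr 2
    ring
  have h3 := dist_triangle (K.mv (-(n • a)) x (α γ z)) (K.mv (-(n • a)) x (α γ (K.pt x')))
    (K.pt (S.act (-(n • a)) x))
  have h4 := hp n
  rw [add_mul]
  linarith

/-- The inverse holonomy maps the base point into the leaf. -/
theorem _root_.Pool.Agent.P.MP_d483fb_an.Z.NF.Skew.Sh.hol_inv {x x' : X} {γ : Γ} {L C : ℝ}
    (hl : ∀ (n : ℕ) z z', dist (α (K.hol a n x' x γ⁻¹) z) (α (K.hol a n x' x γ⁻¹) z') ≤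
      exp (L + (s2 - s1) * n) * dist z z')
    (hp : K.Sh a s2 C x (α γ (K.pt x'))) : K.Sh a s1 (exp L * C) x' (α γ⁻¹ (K.pt x)) := by
  intro n
  have h1 := hl n (K.mv (-(n • a)) x (K.pt x)) (K.mv (-(n • a)) x (α γ (K.pt x')))
  have e0 : α γ⁻¹ (α γ (K.pt x')) = K.pt x' := by simp
  rw [K.hol_mv, K.hol_mv, e0, K.mv_pt, K.mv_pt, dist_comm (K.pt (S.act (-(n • a)) x))] at h1
  refine (h1.trans (mul_le_mul_of_nonneg_left (hp n) (exp_pos _).le)).trans (le_of_eq ?_)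
  rw [mul_left_comm, ← exp_add, mul_comm (exp L), mul_assoc, ← exp_add]
  congr 2
  ring

variable [CompleteSpace M]

theorem mv_mem (P : Par K lam r a s1 s2) (s : W) {x : X} (hx : x ∈ F.X0) {z : M}
    (hz : z ∈ K.Wu a s1 x) : K.mv s x z ∈ K.Wu a s1 (S.act s x) := by
  obtain ⟨C, hC⟩ := F.Wu_eq P hx hz
  have h0 := J.L0_nonneg
  have hL := K.L_nonneg
  have hLL := mul_nonneg h0 hL
  have hg := sub_pos.2 P.lt
  obtain ⟨q, T⟩ := F.exists_temp a (ε := (s2 - s1) / (J.L0 * K.L + 1)) (by positivity)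
  set ε := (s2 - s1) / (J.L0 * K.L + 1) with hε
  have h5 : ε * (J.L0 * K.L + 1) = s2 - s1 := div_mul_cancel₀ _ (by positivity)
  refine ⟨exp (J.L0 * (1 + K.L * (1 + ‖s‖ + q x))) * C, fun n => ?_⟩
  rw [K.mv_mv, ← S.add, add_comm (-(n • a)), K.mv_add, S.add, ← K.mv_pt]
  refine (K.mv_lip _ _ _ _).trans ((mul_le_mul_of_nonneg_left (hC n) (exp_pos _).le).trans ?_)
  rw [mul_left_comm, ← exp_add, mul_comm (exp _) C, mul_assoc, ← exp_add]
  refine mul_le_mul_of_nonneg_left (exp_le_exp.2 ?_) hC.nonneg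
  have h1 := mul_le_mul_of_nonneg_left (T.h_back n hx) hLL
  have h6 : J.L0 * K.L * ε ≤ s2 - s1 := by nlinarith [T.pos]
  have h7 := mul_le_mul_of_nonneg_right h6 (Nat.cast_nonneg (α := ℝ) n)
  nlinarith

theorem hol_mem (P : Par K lam r a s1 s2) {x x' : X} (hx : x ∈ F.X0) (hx' : x' ∈ F.X0) {γ : Γ}
    {C0 : ℝ} (h : K.Hol a C0 x x' γ) (hp : α γ (K.pt x') ∈ K.Wu a s1 x) {z : M}
    (hz : z ∈ K.Wu a s1 x') : α γ z ∈ K.Wu a s1 x := by
  obtain ⟨C, ε0, -, h2, hl⟩ := F.hol_lip P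
  obtain ⟨q, T⟩ := F.exists_temp a h2
  obtain ⟨C1, h1⟩ := hp
  obtain ⟨C2, h3⟩ := F.Wu_eq P hx' hz
  exact ⟨_, Skew.Sh.hol (hl ε0 q le_rfl T x hx x' hx' γ _ (abs_nonneg _) h.abs) h1 h3⟩

theorem hol_symm (P : Par K lam r a s1 s2) {x x' : X} (hx : x ∈ F.X0) (hx' : x' ∈ F.X0) {γ : Γ}
    {C0 : ℝ} (h : K.Hol a C0 x' x γ⁻¹) (hp : α γ (K.pt x') ∈ K.Wu a s1 x) :
    α γ⁻¹ (K.pt x) ∈ K.Wu a s1 x' := by
  obtain ⟨C, ε0, -, h2, hl⟩ := F.hol_lip P
  obtain ⟨q, T⟩ := F.exists_temp a h2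
  obtain ⟨C1, h1⟩ := F.Wu_eq P hx hp
  exact ⟨_, Skew.Sh.hol_inv (hl ε0 q le_rfl T x' hx' x hx γ⁻¹ _ (abs_nonneg _) h.abs) h1⟩

end Formal

end Pool.Agent.P.MP_d483fb_an.Z.NF
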