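import Pool.Agent.P.MP_d483fb_an.Z.NF.PEv

/-!
Normal forms: limits of polynomials of bounded degree and subresonance.
-/

open MvPolynomial Filter Topology Real

noncomputable section

namespace Pool.Agent.P.MP_d483fb_an.Z.NF

variable {D r : ℕ}

theorem IsPoly.const (m : ℕ) (c : ℝ) : IsPoly m fun _ : E D => c := by
  exact ⟨C c, by simp, fun v => by simp⟩

theorem IsPoly.coord (j : Fin D) : IsPoly 1 fun v : E D => v j := by
  exact ⟨X j, by simp, fun v => by simp⟩

theorem IsPoly.add {m : ℕ} {f g : E D → ℝ} (hf : IsPoly m f) (hg : IsPoly m g) :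
    IsPoly m fun v => f v + g v := by
  obtain ⟨P, hP, eP⟩ := hf
  obtain ⟨Q, hQ, eQ⟩ := hg
  exact ⟨P + Q, (totalDegree_add P Q).trans (max_le hP hQ), fun v => by rw [map_add, ← eP, ← eQ]⟩

theorem IsPoly.ev {m : ℕ} {f : E D → E D} (hf : ∀ j, IsPoly m fun v => f v j) (t : V D r) :
    IsPoly (r * m) fun v => ev t (f v) := by
  choose P hP eP using hf
  refine ⟨∑ α : Idx D r, C (t α) * ∏ j, P j ^ α.1 j, totalDegree_finsetSum_le fun α _ => ?_,
    fun v => ?_⟩
  · refine (totalDegree_mul _ _).trans ?_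
    rw [totalDegree_C, zero_add]
    refine (totalDegree_finsetProd _ _).trans ((Finset.sum_le_sum fun j _ =>
      (totalDegree_pow _ _).trans (Nat.mul_le_mul_left _ (hP j))).trans ?_)
    rw [← Finset.sum_mul, ← Finsupp.degree_eq_sum]
    exact Nat.mul_le_mul_right _ α.2.2.le
  · simp only [NF.ev, mono, map_sum, map_mul, eval_C, map_prod, map_pow, eP]

/-- The coefficients of a combination of independent functions are bounded by its values. -/
theorem coef_bound {ι Z : Type} [Fintype ι] (f : ι → Z → ℝ) (B : Set Z)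
    (h : ∀ c : ι → ℝ, (∀ z ∈ B, ∑ i, c i * f i z = 0) → c = 0) :
    ∃ (n : ℕ) (z : Fin n → Z) (t : ι → Fin n → ℝ), (∀ k, z k ∈ B) ∧
      ∀ (c : ι → ℝ) (i : ι), c i = ∑ k, t i k * ∑ j, c j * f j (z k) := by
  classical
  have hs : Submodule.span ℝ ((fun z i => f i z) '' B) = ⊤ := by
    by_contra hne
    obtain ⟨l, hl, hk⟩ := Submodule.exists_le_ker_of_lt_top _ (lt_top_iff_ne_top.2 hne)
    have h0 := h (fun i => l fun j => if i = j then 1 else 0) fun z hz => by
      have h1 : l (fun i => f i z) = 0 := hk (Submodule.subset_span ⟨z, hz, rfl⟩)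
      rw [LinearMap.pi_apply_eq_sum_univ] at h1
      simpa only [smul_eq_mul, mul_comm] using h1
    refine hl (LinearMap.ext fun x => ?_)
    rw [LinearMap.pi_apply_eq_sum_univ]
    exact Finset.sum_eq_zero fun i _ => by rw [show l _ = 0 from congrFun h0 i, smul_zero]
  choose T hT hT' using fun i : ι => Submodule.mem_span_finite_of_mem_span
    (hs.ge (Submodule.mem_top (x := (Pi.single i 1 : ι → ℝ))))
  let T0 := Finset.univ.biUnion T
  have hz : ∀ k, ∃ z ∈ B, (fun i => f i z) = (T0.equivFin.symm k).1 := fun k => by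
    obtain ⟨i, -, hi⟩ := Finset.mem_biUnion.1 (T0.equivFin.symm k).2
    exact hT i hi
  choose z hz ez using hz
  have ht : ∀ i, ∃ t : Fin T0.card → ℝ, ∑ k, t k • (fun i => f i (z k)) = Pi.single i 1 := by
    refine fun i => (Submodule.mem_span_range_iff_exists_fun ℝ).1
      (Submodule.span_mono (fun x hx => ?_) (hT' i))
    exact ⟨T0.equivFin ⟨x, Finset.mem_biUnion.2 ⟨i, Finset.mem_univ _, hx⟩⟩,
      (ez _).trans (by rw [Equiv.symm_apply_apply])⟩
  choose t ht using ht
  refine ⟨_, z, t, hz, fun c i => ?_⟩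
  have e : ∀ j, ∑ k, t i k * f j (z k) = (Pi.single i 1 : ι → ℝ) j := fun j => by
    rw [← ht i, Finset.sum_apply]
    rfl
  simp only [Finset.mul_sum, mul_left_comm _ (c _)]
  rw [Finset.sum_comm]
  simp only [← Finset.mul_sum, e]
  simp [Pi.single_apply]

theorem subRes1_of_lim {c : Fin D → ℝ} {c0 : ℝ} {m : ℕ} {p : ℕ → E D → ℝ} {g : E D → ℝ}
    (hp : ∀ n, IsPoly m (p n)) (hl : ∀ v ∈ U c, Tendsto (fun n => p n v) atTop (𝓝 (g v)))
    (hg : ∀ δ : ℝ, 0 < δ → ∃ C : ℝ, ∀ n : ℕ, ∀ u ∈ U c, ‖u‖ ≤ 1 →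
      |g (dil (fun j => c j * n) u)| ≤ C * exp ((c0 + δ) * n)) : SubRes1 c c0 g := by
  classical
  let S : Finset (Fin D →₀ ℕ) := (Finsupp.finite_of_degree_lt (σ := Fin D) (m + 1)).toFinset.filter
    fun α => ∀ j, α j ≠ 0 → 0 < c j
  have hS : ∀ α : S, ∀ j, α.1 j ≠ 0 → 0 < c j := fun α => (Finset.mem_filter.1 α.2).2
  let pr : E D → E D := fun v j => if 0 < c j then v j else 0
  have pr1 : ∀ v, pr v ∈ U c := fun v j hj => if_neg hj.not_gt
  have pr2 : ∀ v ∈ U c, pr v = v := fun v hv => funext fun j => by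
    by_cases hj : 0 < c j
    · exact if_pos hj
    · exact (if_neg hj).trans (hv j (not_lt.1 hj)).symm
  have pr3 : ∀ (α : Fin D →₀ ℕ) v, (∀ j, α j ≠ 0 → 0 < c j) → mono α (pr v) = mono α v :=
    fun α v h => Finset.prod_congr rfl fun j _ => by
      by_cases hj : α j = 0
      · rw [hj, pow_zero, pow_zero]
      · simp only [pr, if_pos (h j hj)]
  let W := Submodule.span ℝ (Set.range fun α : S => mono α.1)
  have : FiniteDimensional ℝ W := FiniteDimensional.span_of_finite ℝ (Set.finite_range _)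
  have hW : ∀ n, (fun v => p n (pr v)) ∈ W := fun n => by
    obtain ⟨P, hP, eP⟩ := hp n
    have e : (fun v => p n (pr v)) = ∑ α ∈ P.support, coeff α P • fun v => mono α (pr v) := by
      funext v
      rw [eP, eval_eq', Finset.sum_apply]
      rfl
    rw [e]
    refine Submodule.sum_mem _ fun α hα => Submodule.smul_mem _ _ ?_
    by_cases h : ∀ j, α j ≠ 0 → 0 < c j
    · refine Submodule.subset_span ⟨⟨α, Finset.mem_filter.2 ⟨?_, h⟩⟩, funext fun v => (pr3 α v h).symm⟩
      exact (Set.Finite.mem_toFinset _).2 (Nat.lt_succ_of_le ((le_totalDegree hα).trans hP))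
    · push Not at h
      obtain ⟨j, h1, h2⟩ := h
      have : (fun v => mono α (pr v)) = 0 := funext fun v =>
        Finset.prod_eq_zero (Finset.mem_univ j) (by rw [pr1 v j h2, zero_pow h1])
      rw [this]
      exact zero_mem _
  obtain ⟨a, ha⟩ := (Submodule.mem_span_range_iff_exists_fun ℝ).1
    (W.closed_of_finiteDimensional.mem_of_tendsto (f := fun n v => p n (pr v))
      (tendsto_pi_nhds.2 fun v => hl _ (pr1 v)) (Eventually.of_forall hW))
  have ha' : ∀ v, g (pr v) = ∑ α : S, a α * mono α.1 v := fun v => by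
    rw [← congrFun ha v, Finset.sum_apply]
    rfl
  have hev : ∀ (b : S → ℝ) v, eval v (∑ α : S, monomial α.1 (b α)) = ∑ α : S, b α * mono α.1 v :=
    fun b v => by simp only [map_sum, eval_monomial, Finsupp.prod_pow, mono]
  have hco : ∀ (b : S → ℝ) (α : S), coeff α.1 (∑ α : S, monomial α.1 (b α)) = b α := fun b α => by
    simp only [coeff_sum, coeff_monomial, Subtype.coe_inj, Finset.sum_ite_eq', Finset.mem_univ,
      if_true]
  obtain ⟨n, z, t, hz, ht⟩ := coef_bound (fun α : S => mono α.1) {u | ‖u‖ ≤ 1} fun b hb => by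
    have e : (∑ α : S, monomial α.1 (b α) : MvPolynomial (Fin D) ℝ) = 0 :=
      funext_set (fun _ => Set.Icc (-1) 1) (fun _ => Set.Icc_infinite (by norm_num)) fun v hv => by
        rw [hev, map_zero]
        exact hb v ((pi_norm_le_iff_of_nonneg zero_le_one).2 fun j => abs_le.2 (hv j trivial))
    funext α
    rw [← hco b α, e, coeff_zero]
    rfl
  refine ⟨∑ α : S, monomial α.1 (a α), fun β hβ => ?_, fun v hv => by rw [hev, ← ha', pr2 v hv]⟩
  obtain ⟨α, -, hα⟩ := Finset.mem_biUnion.1 (support_sum hβ)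
  obtain rfl : β = α.1 := Finset.mem_singleton.1 (support_monomial_subset hα)
  refine ⟨hS α, not_lt.1 fun hlt => ?_⟩
  have h0 : 0 < |a α| := abs_pos.2 (by simpa only [mem_support_iff, hco] using hβ)
  obtain ⟨K, hK⟩ := hg ((wt c α.1 - c0) / 2) (by linarith)
  have key : ∀ k : ℕ, |a α| * exp ((wt c α.1 - c0) / 2 * k) ≤ (∑ i, |t α i|) * K := fun k => by
    have e1 : ∀ (β : Fin D →₀ ℕ) u, mono β (dil (fun j => c j * k) u) =
        exp (wt c β * k) * mono β u := fun β u => by
      simp only [mono, dil, wt, mul_pow, Finset.prod_mul_distrib, ← exp_nat_mul, ← exp_sum,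
        Finset.sum_mul, nsmul_eq_mul, mul_assoc]
    have e2 : ∀ i, |∑ β : S, a β * exp (wt c β.1 * k) * mono β.1 (z i)| ≤
        K * exp ((c0 + (wt c α.1 - c0) / 2) * k) := fun i => by
      have h1 := hK k (pr (z i)) (pr1 _) ((pi_norm_le_iff_of_nonneg zero_le_one).2 fun j => by
        simp only [pr]
        split_ifs
        · exact (norm_le_pi_norm (z i) j).trans (hz i)
        · simp)
      have h2 : dil (fun j => c j * k) (pr (z i)) = pr (dil (fun j => c j * k) (z i)) := by
        funext j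
        simp only [pr, dil, mul_ite, mul_zero]
      simpa only [h2, ha', e1, mul_assoc] using h1
    have e3 := ht (fun β => a β * exp (wt c β.1 * k)) α
    have e4 : |a α| * exp (wt c α.1 * k) ≤
        (∑ i, |t α i|) * (K * exp ((c0 + (wt c α.1 - c0) / 2) * k)) := by
      rw [← abs_of_pos (exp_pos (wt c α.1 * k)), ← abs_mul, e3, Finset.sum_mul]
      refine (Finset.abs_sum_le_sum_abs _ _).trans (Finset.sum_le_sum fun i _ => ?_)
      rw [abs_mul]
      exact mul_le_mul_of_nonneg_left (e2 i) (abs_nonneg _)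
    refine le_of_mul_le_mul_right ?_ (exp_pos ((c0 + (wt c α.1 - c0) / 2) * k))
    rwa [mul_assoc, mul_assoc, ← exp_add,
      show (wt c α.1 - c0) / 2 * k + (c0 + (wt c α.1 - c0) / 2) * k = wt c α.1 * k by ring]
  have hd : 0 < (wt c α.1 - c0) / 2 := by linarith
  obtain ⟨k, hk⟩ := exists_nat_gt ((∑ i, |t α i|) * K / (|a α| * ((wt c α.1 - c0) / 2)))
  rw [div_lt_iff₀ (mul_pos h0 hd)] at hk
  have := mul_le_mul_of_nonneg_left (add_one_le_exp ((wt c α.1 - c0) / 2 * k)) h0.le
  linarith [key k]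

end Pool.Agent.P.MP_d483fb_an.Z.NF
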