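import Pool.Agent.P.MP_d483fb_an.Z.NF.HolBasic
import Pool.Agent.P.MP_d483fb_an.Z.NF.PLim

/-!
Normal forms: holonomies are limits of polynomials of bounded degree.
-/

open MeasureTheory Filter Topology Set Real

set_option linter.unusedSectionVars false

noncomputable section

namespace Pool.Agent.P.MP_d483fb_an.Z.NF

open Os

variable {W X Γ M : Type} [NormedAddCommGroup W] [NormedSpace ℝ W] [MeasurableSpace W]
  [MeasurableSpace X] {μ : Measure X} [Group Γ] [MeasurableSpace Γ] [MetricSpace M]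
  [MeasurableSpace M] {α : Γ →* Equiv.Perm M} {len : Γ → ℝ} {D : ℕ}
  {S : Sys W X μ} {J : Jets α len D} {K : Skew S J} {lam : Fin D → W →L[ℝ] ℝ} {r : ℕ}
  {a : W} {s1 s2 : ℝ}

/-- The error of the chain of Taylor approximations of a holonomy. -/
theorem Jets.chain_err (J : Jets α len D) {A Θ η : ℝ} (pc : PC D r A) (hr : 1 ≤ r) {g : Γ}
    {p p' z' : M} {w1 : E D} (t : V D r) {Tr : Jt D r} (h2 : 2 ≤ Θ) (hA : exp A ≤ Θ)
    (hL0 : exp (J.L0 * (1 + len g)) ≤ Θ) (hLr : exp (J.Lr r * (1 + len g)) ≤ Θ) (hη0 : 0 ≤ η)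
    (hη : Θ ^ (r + 8) * η ≤ 1) (hz : dist z' p' ≤ η) (hp : dist (α g p') p ≤ η)
    (hw : ‖J.c p' z' - w1‖ ≤ Θ * η ^ r)
    (hTr : dist (α g p') p ≤ exp (-J.Lr r) → ‖Tr‖ ≤ exp (J.Lr r) ∧
      ∀ z, dist z (α g p') ≤ exp (-J.Lr r) →
        ‖J.c p z - J.c p (α g p') - evv Tr (J.c (α g p') z)‖
          ≤ exp (J.Lr r) * dist z (α g p') ^ r) :
    |ev t (J.c p (α g p') + evv Tr (evv (J.T r g p') w1)) - ev t (J.c p (α g z'))|
      ≤ Θ ^ (r + 8) * ‖t‖ * η ^ r := by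
  have h1 : 1 ≤ Θ := by linarith
  have h0 : 0 < Θ := by linarith
  have hlen := J.len_nonneg g
  have hL0' : exp J.L0 ≤ Θ :=
    (exp_le_exp.2 (by nlinarith [J.L0_nonneg])).trans hL0
  have hLr' : exp (J.Lr r) ≤ Θ :=
    (exp_le_exp.2 (by nlinarith [J.Lr_nonneg r])).trans hLr
  have hA' : exp (A + r * 0) ≤ Θ := by simpa using hA
  have small : ∀ j, j ≤ r + 8 → Θ ^ j * η ≤ 1 := fun j hj =>
    le_trans (by gcongr) hη
  have small' : ∀ j (c : ℝ), j ≤ 7 → exp c ≤ Θ → Θ ^ j * η ≤ exp (-c) := by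
    intro j c hj hc
    rw [exp_neg, ← one_div, le_div_iff₀ (exp_pos c)]
    calc Θ ^ j * η * exp c ≤ Θ ^ j * η * Θ := by gcongr
      _ = Θ ^ (j + 1) * η := by ring
      _ ≤ 1 := small _ (by omega)
  have hη1 : η ≤ 1 := by simpa using small 0 (by omega)
  have hηr : η ^ r ≤ η := pow_le_of_le_one hη0 hη1 (by omega)
  have hηr0 : 0 ≤ η ^ r := by positivity
  have dbl : ∀ (i j k : ℕ) (y : ℝ), 0 ≤ y → i ≤ k → j ≤ k →
      Θ ^ i * y + Θ ^ j * y ≤ Θ ^ (k + 1) * y := by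
    intro i j k y hy hi hj
    calc Θ ^ i * y + Θ ^ j * y ≤ Θ ^ k * y + Θ ^ k * y := by gcongr
      _ = 2 * (Θ ^ k * y) := by ring
      _ ≤ Θ * (Θ ^ k * y) := by gcongr
      _ = _ := by ring
  have hz0 : dist z' p' ≤ Θ ^ 0 * η := by simpa using hz
  have hp0 : dist (α g p') p ≤ Θ ^ 0 * η := by simpa using hp
  have nu1 : ‖J.c p' z'‖ ≤ Θ ^ 1 * η :=
    (J.c_le (hz0.trans (small' 0 _ (by omega) hL0'))).trans (by rw [pow_one]; gcongr)
  have nw1 : ‖w1‖ ≤ Θ ^ 2 * η := by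
    refine (norm_le_norm_add_norm_sub' w1 (J.c p' z')).trans ?_
    rw [norm_sub_rev]
    refine le_trans (add_le_add nu1 (hw.trans ?_)) (dbl 1 1 1 η hη0 le_rfl le_rfl)
    rw [pow_one]
    gcongr
  have e1 : ‖evv (J.T r g p') w1 - evv (J.T r g p') (J.c p' z')‖ ≤ Θ ^ 3 * η ^ r := by
    refine (pc.evv_lip _ _ _ le_rfl (by simpa using nw1.trans (small 2 (by omega)))
      (by simpa using nu1.trans (small 1 (by omega)))).trans ?_
    rw [norm_sub_rev]
    calc _ ≤ Θ * Θ * (Θ * η ^ r) := by gcongr; exact (J.T_le r g p').trans hLr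
      _ = _ := by ring
  have e2 : ‖J.c (α g p') (α g z') - evv (J.T r g p') (J.c p' z')‖ ≤ Θ ^ 1 * η ^ r :=
    (J.jet r g p' z' (hz0.trans (small' 0 _ (by omega) hLr))).trans (by rw [pow_one]; gcongr)
  have e3 : ‖evv (J.T r g p') w1 - J.c (α g p') (α g z')‖ ≤ Θ ^ 4 * η ^ r := by
    refine (norm_sub_le_norm_sub_add_norm_sub _ (evv (J.T r g p') (J.c p' z')) _).trans ?_
    rw [norm_sub_rev (evv (J.T r g p') (J.c p' z'))]
    exact (add_le_add e1 e2).trans (dbl 3 1 3 _ hηr0 le_rfl (by omega))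
  have d2 : dist (α g z') (α g p') ≤ Θ ^ 1 * η :=
    (J.lip g z' p').trans (by rw [pow_one]; gcongr)
  have nu2 : ‖J.c (α g p') (α g z')‖ ≤ Θ ^ 2 * η :=
    (J.c_le (d2.trans (small' 1 _ (by omega) hL0'))).trans (by
      calc _ ≤ Θ * (Θ ^ 1 * η) := by gcongr
        _ = _ := by ring)
  have nw2 : ‖evv (J.T r g p') w1‖ ≤ Θ ^ 5 * η := by
    refine (norm_le_norm_add_norm_sub' _ (J.c (α g p') (α g z'))).trans ?_
    exact le_trans (add_le_add nu2 (e3.trans (by gcongr))) (dbl 2 4 4 η hη0 (by omega) le_rfl)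
  obtain ⟨hT1, hT2⟩ := hTr (hp0.trans (small' 0 _ (by omega) hLr'))
  have e4 : ‖evv Tr (evv (J.T r g p') w1) - evv Tr (J.c (α g p') (α g z'))‖ ≤ Θ ^ 6 * η ^ r := by
    refine (pc.evv_lip _ _ _ le_rfl (by simpa using nw2.trans (small 5 (by omega)))
      (by simpa using nu2.trans (small 2 (by omega)))).trans ?_
    calc _ ≤ Θ * Θ * (Θ ^ 4 * η ^ r) := by gcongr; exact hT1.trans hLr'
      _ = _ := by ring
  have e5 : ‖J.c p (α g z') - J.c p (α g p') - evv Tr (J.c (α g p') (α g z'))‖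
      ≤ Θ ^ (r + 1) * η ^ r := by
    refine (hT2 _ (d2.trans (small' 1 _ (by omega) hLr'))).trans ?_
    calc _ ≤ Θ * (Θ ^ 1 * η) ^ r := by gcongr
      _ = _ := by ring
  have e6 : ‖J.c p (α g p') + evv Tr (evv (J.T r g p') w1) - J.c p (α g z')‖
      ≤ Θ ^ (r + 7) * η ^ r := by
    have : J.c p (α g p') + evv Tr (evv (J.T r g p') w1) - J.c p (α g z')
        = (evv Tr (evv (J.T r g p') w1) - evv Tr (J.c (α g p') (α g z')))
          - (J.c p (α g z') - J.c p (α g p') - evv Tr (J.c (α g p') (α g z'))) := by abel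
    rw [this]
    exact (norm_sub_le _ _).trans ((add_le_add e4 e5).trans
      (dbl 6 (r + 1) (r + 6) _ hηr0 (by omega) (by omega)))
  have d3 : dist (α g z') p ≤ Θ ^ 2 * η :=
    (dist_triangle _ (α g p') _).trans ((add_le_add d2 hp0).trans
      (dbl 1 0 1 η hη0 le_rfl (by omega)))
  have nu3 : ‖J.c p (α g z')‖ ≤ Θ ^ 3 * η :=
    (J.c_le (d3.trans (small' 2 _ (by omega) hL0'))).trans (by
      calc _ ≤ Θ * (Θ ^ 2 * η) := by gcongr
        _ = _ := by ring)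
  have nw3 : ‖J.c p (α g p') + evv Tr (evv (J.T r g p') w1)‖ ≤ Θ ^ (r + 8) * η := by
    refine (norm_le_norm_add_norm_sub' _ (J.c p (α g z'))).trans ?_
    exact le_trans (add_le_add nu3 (e6.trans (by gcongr)))
      (dbl 3 (r + 7) (r + 7) η hη0 (by omega) le_rfl)
  refine (pc.ev_lip t _ _ 0 le_rfl (by simpa using nw3.trans hη)
    (by simpa using nu3.trans (small 3 (by omega)))).trans ?_
  calc _ ≤ Θ * ‖t‖ * (Θ ^ (r + 7) * η ^ r) := by gcongr
    _ = _ := by ring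

theorem Formal.hol_lim [CompleteSpace M] (F : Formal K lam r) (P : Par K lam r a s1 s2) {x x' : X}
    (hx : x ∈ F.X0) (hx' : x' ∈ F.X0) {γ : Γ} {C0 : ℝ} (h : K.Hol a C0 x x' γ)
    (hp : α γ (K.pt x') ∈ K.Wu a s1 x) (i : Fin D) :
    ∃ (m : ℕ) (p : ℕ → E D → ℝ), (∀ n, IsPoly m (p n)) ∧ ∀ z ∈ K.Wu a s1 x',
      Tendsto (fun n => p n (F.H a x' z)) atTop (𝓝 (F.H a x (α γ z) i)) := by
  have htr : ∀ p p' : M, ∃ T : Jt D r, dist p' p ≤ exp (-J.Lr r) → ‖T‖ ≤ exp (J.Lr r) ∧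
      ∀ z, dist z p' ≤ exp (-J.Lr r) →
        ‖J.c p z - J.c p p' - evv T (J.c p' z)‖ ≤ exp (J.Lr r) * dist z p' ^ r := by
    intro p p'
    by_cases hd : dist p' p ≤ exp (-J.Lr r)
    · exact (J.tr r p p' hd).imp fun _ h _ => h
    · exact ⟨0, fun h => absurd h hd⟩
  choose Tr hTr using htr
  refine ⟨r * (r * (r * (r * (r * 1)))), fun n v => ev (F.Jn a n x i)
    (J.c (K.pt (S.act (-(n • a)) x)) (α (K.hol a n x x' γ) (K.pt (S.act (-(n • a)) x'))) +
      evv (Tr (K.pt (S.act (-(n • a)) x)) (α (K.hol a n x x' γ) (K.pt (S.act (-(n • a)) x'))))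
        (evv (J.T r (K.hol a n x x' γ) (K.pt (S.act (-(n • a)) x')))
          (evv (F.Q (S.act (-(n • a)) x')) (evv (F.N (-(n • a)) x') v)))), fun n => ?_,
    fun z hz => ?_⟩
  · exact IsPoly.ev (fun j => (IsPoly.const _ _).add (IsPoly.ev (fun j => IsPoly.ev
      (fun j => IsPoly.ev (fun j => IsPoly.ev IsPoly.coord _) _) _) _)) _
  obtain ⟨g, hg, -, hgs, -, -, hgr, -⟩ := P.exists_gap
  obtain ⟨C, ε0, hC, hε0, hch⟩ := F.chart_of_H P
  have hL := K.L_nonneg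
  have hL0 := J.L0_nonneg
  have hLr := J.Lr_nonneg r
  have hA := F.pc.nonneg
  have hC0 : (0 : ℝ) ≤ C := Nat.cast_nonneg _
  set c : ℝ := 1 + F.A + (J.L0 + J.Lr r) * (2 + 2 * K.L) + C with hc
  have hc0 : 0 < c := by positivity
  set c' : ℝ := ((r + 8 : ℕ) : ℝ) * c with hc'
  have hc'0 : 0 < c' := by positivity
  set ε : ℝ := min ε0 (g / (2 * (c' + 1))) with hε
  have hεp : 0 < ε := lt_min hε0 (by positivity)
  have hεg : (c' + 1) * ε ≤ g / 2 := by
    calc (c' + 1) * ε ≤ (c' + 1) * (g / (2 * (c' + 1))) := by gcongr; exact min_le_right _ _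
      _ = g / 2 := by field_simp
  obtain ⟨q, T⟩ := F.exists_temp a hεp
  obtain ⟨R1, hR1, hs1⟩ := Skew.Wu_exp hz
  obtain ⟨R2, hR2, hs2⟩ := Skew.Wu_exp hp
  have hs1' : K.Sh a s1 (exp (R1 + R2)) x' z := hs1.mono le_rfl (exp_le_exp.2 (by linarith))
  have hs2' : K.Sh a s1 (exp (R1 + R2)) x (α γ (K.pt x')) :=
    hs2.mono le_rfl (exp_le_exp.2 (by linarith))
  have hq := T.one_le x
  have hq' := T.one_le x'
  have habs := abs_nonneg C0
  set b : ℝ := q x + q x' + |C0| with hb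
  have hlim := tendsto_pi_nhds.1 (F.tendsto_H P hx (F.hol_mem P hx hx' h hp hz)) i
  have hdec : ∀ B : ℝ, Tendsto (fun n : ℕ => exp (B - g / 2 * n)) atTop (𝓝 0) := fun B =>
    tendsto_exp_atBot.comp (tendsto_atBot_add_const_left _ B
      (tendsto_neg_atTop_atBot.comp (tendsto_natCast_atTop_atTop.const_mul_atTop (by positivity))))
  refine hlim.congr_dist (squeeze_zero' (Eventually.of_forall fun _ => dist_nonneg) ?_
    (hdec (c' * b + q x + r * (R1 + R2))))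
  filter_upwards [(hdec (c' * b + (R1 + R2))).eventually (ge_mem_nhds one_pos)] with n hn
  have hn0 : (0 : ℝ) ≤ n := Nat.cast_nonneg _
  have hεn : 0 ≤ ε * n := by positivity
  have hτ : 1 ≤ b + ε * n := by linarith
  have hlen : 1 + len (K.hol a n x x' γ) ≤ (2 + 2 * K.L) * (b + ε * n) := by
    have h1 := h.abs n
    have h2 := T.h_back n hx
    have h3 := T.h_back n hx'
    have h4 : K.L * (K.h (S.act (-(n • a)) x) + K.h (S.act (-(n • a)) x'))
        ≤ K.L * (2 * (b + ε * n)) := by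
      gcongr
      linarith
    linarith
  have hpos : 0 ≤ (2 + 2 * K.L) * (b + ε * n) := by positivity
  have hexp : c * (b + ε * n) = (b + ε * n) + F.A * (b + ε * n)
      + J.L0 * ((2 + 2 * K.L) * (b + ε * n)) + J.Lr r * ((2 + 2 * K.L) * (b + ε * n))
      + C * (b + ε * n) := by
    rw [hc]
    ring
  have f1 : F.A ≤ F.A * (b + ε * n) := le_mul_of_one_le_right hA hτ
  have f2 : 0 ≤ C * (b + ε * n) := by positivity
  have f3 := mul_le_mul_of_nonneg_left hlen hL0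
  have f4 := mul_le_mul_of_nonneg_left hlen hLr
  have f5 := mul_nonneg hL0 hpos
  have f6 := mul_nonneg hLr hpos
  have f7 := mul_le_mul_of_nonneg_right hεg hn0
  have f8 := mul_le_mul_of_nonneg_right hgs hn0
  have f9 := mul_le_mul_of_nonneg_right (hgr i) hn0
  have f10 := mul_nonneg hg.le hn0
  have hΘ : ∀ y : ℝ, y ≤ c * (b + ε * n) → exp y ≤ exp (c * (b + ε * n)) := fun y => exp_le_exp.2
  have hpow : exp (c * (b + ε * n)) ^ (r + 8) = exp (c' * (b + ε * n)) := by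
    rw [← exp_nat_mul, hc', mul_assoc]
  have hη : exp (c * (b + ε * n)) ^ (r + 8) * (exp (R1 + R2) * exp (-(s1 * n))) ≤ 1 := by
    rw [hpow, ← exp_add, ← exp_add]
    refine le_trans (exp_le_exp.2 ?_) hn
    linarith
  have hCq : (C : ℝ) * q (S.act (-(n • a)) x') ≤ c * (b + ε * n) := by
    have h1 := T.slow_b n x' hx'
    have h2 : (C : ℝ) * q (S.act (-(n • a)) x') ≤ C * (b + ε * n) := by
      gcongr
      linarith
    linarith
  have hsm : exp (R1 + R2) * exp (-(s1 * n)) ≤ exp (-(C * q (S.act (-(n • a)) x'))) := by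
    rw [exp_neg (C * _), ← one_div, le_div_iff₀ (exp_pos _), mul_comm]
    refine le_trans ?_ hη
    gcongr
    exact (hΘ _ hCq).trans (le_self_pow₀ (one_le_exp (by positivity)) (by omega))
  have hw := (hch ε q (min_le_left _ _) T _ (F.inv0 (-(n • a)) x' hx') _ _ hsm (hs1'.back n)).2
  rw [F.H_mv P _ hx' hz] at hw
  have hpp : α (K.hol a n x x' γ) (K.pt (S.act (-(n • a)) x'))
      = K.mv (-(n • a)) x (α γ (K.pt x')) := by rw [← K.mv_pt, K.hol_mv]
  have key := J.chain_err F.pc (by linarith [P.two_le]) (F.Jn a n x i)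
    (Θ := exp (c * (b + ε * n))) (g := K.hol a n x x' γ) (p := K.pt (S.act (-(n • a)) x))
    ((by linarith [add_one_le_exp (1 : ℝ)] : (2 : ℝ) ≤ exp 1).trans (hΘ _ (by linarith)))
    (hΘ _ (by linarith)) (hΘ _ (by linarith)) (hΘ _ (by linarith))
    (by positivity) hη (hs1' n) (by rw [hpp]; exact hs2' n)
    (hw.trans (by gcongr)) (hTr _ _)
  rw [dist_comm, Real.dist_eq]
  rw [K.hol_mv] at key
  refine key.trans ?_
  rw [hpow, ← exp_add, ← exp_nat_mul]
  calc _ ≤ exp (c' * (b + ε * n)) * exp (q x + lam i a * n + ε * n)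
        * exp (r * (R1 + R2 + -(s1 * n))) := by gcongr; exact T.J_le n x hx i
    _ ≤ _ := by
      rw [← exp_add, ← exp_add]
      refine exp_le_exp.2 ?_
      linarith

end Pool.Agent.P.MP_d483fb_an.Z.NF
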