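import Pool.Agent.P.MP_d483fb_an.Z.NF.HolPoly

/-!
Normal forms: holonomies are subresonant polynomial maps.
-/

open MeasureTheory Filter Topology Set Real

set_option linter.unusedSectionVars false

noncomputable section

namespace Pool.Agent.P.MP_d483fb_an.Z.NF

open Os

variable {W X Γ M : Type} [NormedAddCommGroup W] [NormedSpace ℝ W] [MeasurableSpace W]
  [MeasurableSpace X] {μ : Measure X} [Group Γ] [MeasurableSpace Γ] [MetricSpace M]
  [MeasurableSpace M] {α : Γ →* Equiv.Perm M} {len : Γ → ℝ} {D : ℕ}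
  {S : Sys W X μ} {J : Jets α len D} {K : Skew S J} {lam : Fin D → W →L[ℝ] ℝ} {r : ℕ}
  {a : W} {s1 s2 : ℝ}

namespace Formal

variable [CompleteSpace M] (F : Formal K lam r)

theorem hol_growth (P : Par K lam r a s1 s2) {x x' : X} (hx : x ∈ F.X0) (hx' : x' ∈ F.X0) {γ : Γ}
    {C0 : ℝ} (h : K.Hol a C0 x x' γ) (hp : α γ (K.pt x') ∈ K.Wu a s1 x) (i : Fin D) {δ : ℝ}
    (hδ : 0 < δ) : ∃ C : ℝ, ∀ n : ℕ, ∀ u : E D, ‖u‖ ≤ 1 → ∀ z ∈ K.Wu a s1 x',
      F.H a x' z = dil (fun j => lam j a * n) u →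
      |F.H a x (α γ z) i| ≤ C * exp ((lam i a + δ) * n) := by
  obtain ⟨C1, e1, -, he1, h1⟩ := F.upgrade P
  obtain ⟨C2, e2, -, he2, h2⟩ := F.hol_lip P
  obtain ⟨C3, e3, -, he3, h3⟩ := F.H_le P
  set Kc : ℝ := (r + 1) * (C3 * (2 + 2 * C2 + 2 * C1)) + 2 with hKc
  have hK0 : 0 < Kc := by positivity
  set ε : ℝ := min (min e1 e2) (min e3 (δ / Kc)) with hε
  have hε0 : 0 < ε := lt_min (lt_min he1 he2) (lt_min he3 (by positivity))
  have hεδ : Kc * ε ≤ δ := by
    have : ε ≤ δ / Kc := (min_le_right _ _).trans (min_le_right _ _)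
    rwa [le_div_iff₀' hK0] at this
  obtain ⟨q, T⟩ := F.exists_temp a hε0
  replace h1 := h1 ε q ((min_le_left _ _).trans (min_le_left _ _)) T
  replace h2 := h2 ε q ((min_le_left _ _).trans (min_le_right _ _)) T
  replace h3 := h3 ε q ((min_le_right _ _).trans (min_le_left _ _)) T
  obtain ⟨Rp, hRp, hsp⟩ := Skew.Wu_exp hp
  have hA := F.pc.nonneg
  have hq : 0 ≤ q x := zero_le_one.trans (T.one_le x)
  have hq' : 0 ≤ q x' := zero_le_one.trans (T.one_le x')
  let R1 : ℝ → ℝ := fun t => F.A + q x' + t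
  let R2 : ℝ → ℝ := fun t => C1 * (q x' + t + R1 t) + R1 t
  let L : ℝ → ℝ := fun t => C2 * (q x + t + (q x' + t) + |C0|)
  let R3 : ℝ → ℝ := fun t => Rp + (L t + R2 t) + 1
  let R4 : ℝ → ℝ := fun t => C3 * (q x + t + R3 t)
  let R5 : ℝ → ℝ := fun t => F.A + r * R4 t + (q x + t + t) + R4 t
  have hR5 : ∀ t, R5 t = R5 0 + Kc * t := fun t => by
    simp only [R5, R4, R3, R2, R1, L, hKc]
    ring
  refine ⟨exp (R5 0), fun n u hu z hz hH => ?_⟩
  set t : ℝ := ε * n with ht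
  have ht0 : 0 ≤ t := by positivity
  have hR1 : 0 ≤ R1 t := add_nonneg (add_nonneg hA hq') ht0
  have hR2 : 0 ≤ R2 t :=
    add_nonneg (mul_nonneg C1.cast_nonneg (add_nonneg (add_nonneg hq' ht0) hR1)) hR1
  have hL : 0 ≤ L t := mul_nonneg C2.cast_nonneg
    (add_nonneg (add_nonneg (add_nonneg hq ht0) (add_nonneg hq' ht0)) (abs_nonneg _))
  have hR3 : 0 ≤ R3 t := add_nonneg (add_nonneg hRp (add_nonneg hL hR2)) zero_le_one
  have hR4 : 0 ≤ R4 t := mul_nonneg C3.cast_nonneg (add_nonneg (add_nonneg hq ht0) hR3)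
  have hxn := F.inv0 (-(n • a)) x hx
  have hxn' := F.inv0 (-(n • a)) x' hx'
  have hqn := T.slow_b n x hx
  have hqn' := T.slow_b n x' hx'
  have hv : ‖F.H a (S.act (-(n • a)) x') (K.mv (-(n • a)) x' z)‖ ≤ exp (R1 t) := by
    rw [F.H_mv P _ hx' hz, hH]
    refine (pi_norm_le_iff_of_nonneg (exp_pos _).le).2 fun j => ?_
    have e := (((F.res (-(n • a)) x' hx').apply a j).mul n).ev_dil u
    have b1 := F.pc.ev_le (F.N (-(n • a)) x' j) u 0 le_rfl (by simpa using hu)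
    have b2 := T.N_b n x' hx' j
    show |ev (F.N (-(n • a)) x' j) _| ≤ _
    rw [e, abs_mul, abs_of_pos (exp_pos _)]
    calc exp (lam j a * n) * |ev (F.N (-(n • a)) x' j) u|
        ≤ exp (lam j a * n) * (exp (F.A + r * 0) * exp (q x' - lam j a * n + ε * n) * 1) :=
          mul_le_mul_of_nonneg_left (b1.trans (by gcongr)) (exp_pos _).le
      _ = exp (R1 t) := by
          rw [mul_one, ← exp_add, ← exp_add]
          congr 1
          simp only [R1, ht]
          ring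
  have hz2 : K.Sh a s2 (exp (R2 t)) (S.act (-(n • a)) x') (K.mv (-(n • a)) x' z) := by
    refine (h1 _ hxn' _ (F.mv_mem P _ hx' hz) _ hR1 hv).mono le_rfl ?_
    simp only [R2]
    rw [exp_add]
    gcongr
  have hpn := hsp.back n
  rw [← K.hol_mv a n x x' γ, K.mv_pt] at hpn
  have hy := Skew.Sh.hol (h2 _ hxn _ hxn' _ _ (abs_nonneg C0) (h.abs.back n)) hpn hz2
  rw [K.hol_mv] at hy
  have hy3 : K.Sh a s1 (exp (R3 t)) (S.act (-(n • a)) x) (K.mv (-(n • a)) x (α γ z)) := by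
    refine hy.mono le_rfl ?_
    have b1 : exp Rp * exp (-(s1 * n)) ≤ exp (Rp + (L t + R2 t)) := by
      rw [← exp_add]
      refine exp_le_exp.2 ?_
      have := mul_nonneg P.s1_pos.le (n.cast_nonneg (α := ℝ))
      linarith
    have b2 : exp (C2 * (q (S.act (-(n • a)) x) + q (S.act (-(n • a)) x') + |C0|)) * exp (R2 t) ≤
        exp (Rp + (L t + R2 t)) := by
      rw [← exp_add]
      refine exp_le_exp.2 ?_
      have : C2 * (q (S.act (-(n • a)) x) + q (S.act (-(n • a)) x') + |C0|) ≤ L t := by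
        simp only [L]
        gcongr
      linarith
    have b3 : exp (R3 t) = exp (Rp + (L t + R2 t)) * exp 1 := exp_add _ _
    have b4 := mul_le_mul_of_nonneg_left (add_one_le_exp (1 : ℝ)) (exp_pos (Rp + (L t + R2 t))).le
    linarith
  have hw : ‖F.H a (S.act (-(n • a)) x) (K.mv (-(n • a)) x (α γ z))‖ ≤ exp (R4 t) := by
    refine (h3 _ hxn _ _ hR3 hy3).trans (exp_le_exp.2 ?_)
    simp only [R4]
    gcongr
  have e := F.H_mv P (n • a) hxn ⟨_, hy3⟩
  rw [S.act_neg, K.mv_neg] at e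
  have b1 := F.pc.ev_le (F.N (n • a) (S.act (-(n • a)) x) i) _ _ hR4 hw
  have b2 := T.N_f n _ hxn i
  rw [e]
  refine b1.trans ?_
  calc _ ≤ exp (F.A + r * R4 t) * exp (q x + t + lam i a * n + t) * exp (R4 t) := by
        gcongr
        exact b2.trans (exp_le_exp.2 (by linarith))
    _ = exp (R5 t + lam i a * n) := by
        rw [← exp_add, ← exp_add]
        congr 1
        simp only [R5]
        ring
    _ ≤ _ := by
        rw [← exp_add, hR5 t]
        refine exp_le_exp.2 ?_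
        have := mul_le_mul_of_nonneg_right hεδ (n.cast_nonneg (α := ℝ))
        rw [mul_assoc, ← ht] at this
        linarith

theorem hol_poly (P : Par K lam r a s1 s2) {x x' : X} (hx : x ∈ F.X0) (hx' : x' ∈ F.X0) {γ : Γ}
    {C0 : ℝ} (h : K.Hol a C0 x x' γ) (hp : α γ (K.pt x') ∈ K.Wu a s1 x) {G : E D → M}
    (hG : ∀ v ∈ U fun i => lam i a, G v ∈ K.Wu a s1 x' ∧ F.H a x' (G v) = v) :
    SubRes (fun i => lam i a) fun v => F.H a x (α γ (G v)) := by
  intro i
  obtain ⟨m, p, h1, h2⟩ := F.hol_lim P hx hx' h hp i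
  refine subRes1_of_lim h1 (fun v hv => ?_) fun δ hδ => ?_
  · have := h2 _ (hG v hv).1
    rwa [(hG v hv).2] at this
  · obtain ⟨C, hC⟩ := F.hol_growth P hx hx' h hp i hδ
    exact ⟨C, fun n u hu hu1 => hC n u hu1 _ (hG _ (dil_mem_U hu _)).1 (hG _ (dil_mem_U hu _)).2⟩

end Formal

end Pool.Agent.P.MP_d483fb_an.Z.NF
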