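import Pool.Agent.P.MP_d483fb_an.Z.NF.Equi

/-!
Normal forms: the normal form coordinates are injective and bounded on the leaves.
-/

open MeasureTheory Filter Topology Set Real

set_option linter.unusedSectionVars false

noncomputable section

namespace Pool.Agent.P.MP_d483fb_an.Z.NF

open Os

variable {W X Γ M : Type} [NormedAddCommGroup W] [NormedSpace ℝ W] [MeasurableSpace W]
  [MeasurableSpace X] {μ : Measure X} [Group Γ] [MeasurableSpace Γ] [MetricSpace M]
  [MeasurableSpace M] {α : Γ →* Equiv.Perm M} {len : Γ → ℝ} {D : ℕ}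
  {S : Sys W X μ} {J : Jets α len D} {K : Skew S J} {lam : Fin D → W →L[ℝ] ℝ} {r : ℕ}
  {a : W} {s1 s2 : ℝ}

theorem inj_two_exp_le {u v w q : ℝ} (hq : 1 ≤ q) (hu : u + q ≤ w) (hv : v + q ≤ w) :
    exp u + exp v ≤ exp w := by
  have h1 : exp u ≤ exp (w - q) := exp_le_exp.2 (by linarith)
  have h2 : exp v ≤ exp (w - q) := exp_le_exp.2 (by linarith)
  have h3 : (2 : ℝ) ≤ exp q := by linarith [add_one_le_exp q]
  have h4 : exp w = exp (w - q) * exp q := by rw [← exp_add]; congr 1; ring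
  linarith [mul_le_mul_of_nonneg_left h3 (exp_pos (w - q)).le]

namespace Formal

variable (F : Formal K lam r)

theorem chart_of_H (P : Par K lam r a s1 s2) : F.Unif a fun C _ q => ∀ x ∈ F.X0, ∀ z η,
    η ≤ exp (-(C * q x)) → K.Sh a s1 η x z → ‖F.H a x z‖ ≤ exp (C * q x) * η ∧
      ‖J.c (K.pt x) z - evv (F.Q x) (F.H a x z)‖ ≤ exp (C * q x) * η ^ r := by
  obtain ⟨C1, ε1, hC1, hε1, h1⟩ := F.H_est P
  obtain ⟨C, hC⟩ := exists_nat_ge (F.A + J.L0 + C1 + r + r * J.L0 + 2)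
  have hA := F.pc.nonneg
  have hL := J.L0_nonneg
  have hr0 : (0 : ℝ) ≤ r := r.cast_nonneg
  have hC10 : (0 : ℝ) ≤ C1 := C1.cast_nonneg
  have hrL : 0 ≤ (r : ℝ) * J.L0 := by positivity
  have hC' : (1 : ℝ) ≤ C := by linarith
  refine ⟨C, ε1, by exact_mod_cast hC', hε1, fun ε q hε T x hx z η hη hs => ?_⟩
  have hq := T.one_le x
  have hq0 : 0 ≤ q x := by linarith
  have hη0 := hs.nonneg
  have hd := hs.zero
  have eA : F.A ≤ F.A * q x := le_mul_of_one_le_right hA hq
  have eL : J.L0 ≤ J.L0 * q x := le_mul_of_one_le_right hL hq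
  have erL : r * J.L0 ≤ r * J.L0 * q x := le_mul_of_one_le_right hrL hq
  have eC : (F.A + J.L0 + C1 + r + r * J.L0 + 2) * q x ≤ C * q x := by gcongr
  have e1 : 0 ≤ C1 * q x := by positivity
  have e2 : 0 ≤ r * q x := by positivity
  have small : ∀ u, u ≤ C * q x → exp u * η ≤ 1 := fun u hu =>
    calc exp u * η ≤ exp (C * q x) * exp (-(C * q x)) := by gcongr
      _ = 1 := by rw [← exp_add, add_neg_cancel, exp_zero]
  have hη1 : η ≤ 1 := by simpa using small 0 (by positivity)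
  have hE := h1 ε q hε T x hx z η (hη.trans (exp_le_exp.2 (by linarith))) hs
  set w := J.c (K.pt x) z with hw
  have hwle : ‖w‖ ≤ exp J.L0 * η :=
    (J.c_le (hd.trans (hη.trans (exp_le_exp.2 (by linarith))))).trans (by gcongr)
  have hw1 : ‖w‖ ≤ 1 := hwle.trans (small _ (by linarith))
  have hΨ : ‖evv (F.Ψ x) w‖ ≤ exp (F.A + q x + J.L0) * η := by
    have := F.pc.evv_le (F.Ψ x) w le_rfl (by simpa using hw1)
    rw [mul_zero, add_zero] at this
    refine this.trans ?_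
    rw [exp_add, exp_add, mul_assoc (exp F.A * exp (q x))]
    gcongr
    exact T.Ψ_le x hx
  have hηr : η ^ r ≤ η := pow_le_of_le_one hη0 hη1 (by have := P.two_le; omega)
  have hH : ‖F.H a x z‖ ≤ exp (C * q x) * η := by
    have h2 : ‖F.H a x z‖ ≤ ‖F.H a x z - evv (F.Ψ x) w‖ + ‖evv (F.Ψ x) w‖ := by
      simpa using norm_add_le (F.H a x z - evv (F.Ψ x) w) (evv (F.Ψ x) w)
    have h3 : exp (C1 * q x) * η ^ r ≤ exp (C1 * q x) * η := by gcongr
    have h4 : exp (C1 * q x) + exp (F.A + q x + J.L0) ≤ exp (C * q x) :=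
      inj_two_exp_le hq (by linarith) (by linarith)
    linarith [mul_le_mul_of_nonneg_right h4 hη0]
  refine ⟨hH, ?_⟩
  have hH1 : ‖F.H a x z‖ ≤ exp 0 := by simpa using hH.trans (small _ le_rfl)
  have hΨ1 : ‖evv (F.Ψ x) w‖ ≤ exp 0 := by simpa using hΨ.trans (small _ (by linarith))
  have h5 : ‖w - evv (F.Q x) (evv (F.Ψ x) w)‖ ≤
      exp (F.A + r * q x + q x + r * J.L0) * η ^ r := by
    have := F.pc.compv_err (F.Q x) (F.Ψ x) w hq0 (T.Ψ_le x hx) hw1
    rw [F.QΨ x hx, evv_idv P.two_le] at this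
    refine this.trans ?_
    rw [exp_add _ (r * J.L0), exp_add _ (q x), mul_assoc (exp _ * exp (q x)), exp_nat_mul,
      ← mul_pow]
    gcongr
    exact T.Q_le x hx
  have h6 : ‖evv (F.Q x) (evv (F.Ψ x) w) - evv (F.Q x) (F.H a x z)‖ ≤
      exp (F.A + q x + C1 * q x) * η ^ r := by
    have := F.pc.evv_lip (F.Q x) _ _ le_rfl hΨ1 hH1
    rw [mul_zero, add_zero, norm_sub_rev (evv (F.Ψ x) w)] at this
    refine this.trans ?_
    rw [exp_add, exp_add, mul_assoc (exp F.A * exp (q x))]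
    gcongr
    exact T.Q_le x hx
  have h7 : exp (F.A + r * q x + q x + r * J.L0) + exp (F.A + q x + C1 * q x) ≤ exp (C * q x) :=
    inj_two_exp_le hq (by linarith) (by linarith)
  have h8 := norm_sub_le_norm_sub_add_norm_sub w (evv (F.Q x) (evv (F.Ψ x) w))
    (evv (F.Q x) (F.H a x z))
  linarith [mul_le_mul_of_nonneg_right h7 (pow_nonneg hη0 r)]

theorem H_inj (P : Par K lam r a s1 s2) {x : X} (hx : x ∈ F.X0) :
    InjOn (F.H a x) (K.Wu a s1 x) := by
  intro z hz z' hz' he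
  obtain ⟨C, ε0, hC, hε0, h1⟩ := F.chart_of_H P
  obtain ⟨g, hg, -, hgs, -, -, -, hgl⟩ := P.exists_gap
  have hL := J.L0_nonneg
  have hK := K.L_nonneg
  have hC0 : (0 : ℝ) ≤ C := C.cast_nonneg
  have hden : 0 < 2 * (J.L0 * K.L + C + 1) := by positivity
  set ε := min ε0 (g / (2 * (J.L0 * K.L + C + 1))) with hεd
  have hε : 0 < ε := lt_min hε0 (by positivity)
  have hεg : ε * (2 * (J.L0 * K.L + C + 1)) ≤ g := (le_div_iff₀ hden).1 (min_le_right _ _)
  obtain ⟨q, T⟩ := F.exists_temp a hε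
  have h2 := h1 ε q (min_le_left _ _) T
  obtain ⟨R1, hR1, hs1⟩ := Skew.Wu_exp hz
  obtain ⟨R2, hR2, hs2⟩ := Skew.Wu_exp hz'
  set R := max R1 R2 with hR
  have hs : K.Sh a s1 (exp R) x z := hs1.mono le_rfl (exp_le_exp.2 (le_max_left _ _))
  have hs' : K.Sh a s1 (exp R) x z' := hs2.mono le_rfl (exp_le_exp.2 (le_max_right _ _))
  have hq := T.one_le x
  have hLK : 0 ≤ J.L0 * K.L := by positivity
  have eL : J.L0 * K.L * ε + C * ε ≤ g / 2 := by linarith
  have eC : C * ε ≤ g / 2 := by linarith [mul_nonneg hLK hε.le]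
  set c0 := J.L0 * (1 + K.L * (1 + q x)) + J.L0 + C * q x + r * R with hc0
  have key : ∀ n : ℕ, 2 * (R + C * q x + J.L0) / g ≤ n →
      dist z z' ≤ 2 * exp c0 * exp (-(g / 2 * n)) := by
    intro n hn
    have hn0 : (0 : ℝ) ≤ n := n.cast_nonneg
    have hn' : 2 * (R + C * q x + J.L0) ≤ n * g := (div_le_iff₀ hg).1 hn
    have hxn := F.inv0 (-(n • a)) x hx
    have hqn := T.slow_b n x hx
    have hqn1 := T.one_le (S.act (-(n • a)) x)
    have hb := hs.back n
    have hb' := hs'.back n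
    have e1 : C * q (S.act (-(n • a)) x) ≤ C * q x + C * ε * n := by
      linarith [mul_le_mul_of_nonneg_left hqn hC0]
    have e2 : C * ε * n ≤ g / 2 * n := by gcongr
    have e3 : g * n ≤ s1 * n := by gcongr
    have hη : exp R * exp (-(s1 * n)) ≤ exp (-(C * q (S.act (-(n • a)) x))) := by
      rw [← exp_add]
      exact exp_le_exp.2 (by linarith)
    have hηL : exp R * exp (-(s1 * n)) ≤ exp (-J.L0) := by
      rw [← exp_add]
      have : 0 ≤ C * q x := by positivity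
      have : 0 ≤ g * n := by positivity
      exact exp_le_exp.2 (by linarith)
    have k1 := (h2 _ hxn _ _ hη hb).2
    have k2 := (h2 _ hxn _ _ hη hb').2
    rw [F.H_mv P _ hx hz, he] at k1
    rw [F.H_mv P _ hx hz'] at k2
    have k3 := J.c_lip' _ _ _ (hb.zero.trans hηL) (hb'.zero.trans hηL)
    have k4 := norm_sub_le_norm_sub_add_norm_sub
      (J.c (K.pt (S.act (-(n • a)) x)) (K.mv (-(n • a)) x z))
      (evv (F.Q (S.act (-(n • a)) x)) (evv (F.N (-(n • a)) x) (F.H a x z')))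
      (J.c (K.pt (S.act (-(n • a)) x)) (K.mv (-(n • a)) x z'))
    rw [norm_sub_rev (evv _ _)] at k4
    have k5 := K.mv_lip (n • a) (S.act (-(n • a)) x) (K.mv (-(n • a)) x z) (K.mv (-(n • a)) x z')
    rw [K.mv_neg, K.mv_neg] at k5
    have k6 : ‖n • a‖ ≤ n * ‖a‖ := norm_nsmul_le
    have k7 := T.h_back n hx
    have k8 : J.L0 * (1 + K.L * (1 + ‖n • a‖ + K.h (S.act (-(n • a)) x))) ≤
        J.L0 * (1 + K.L * (1 + n * ‖a‖ + (q x + ε * n))) := by gcongr
    have k9 : (exp R * exp (-(s1 * n))) ^ r = exp (r * R - r * s1 * n) := by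
      rw [← exp_add, ← exp_nat_mul]
      congr 1
      ring
    rw [k9] at k1 k2
    have e4 : (J.L0 * K.L * ‖a‖ + g) * n ≤ r * s1 * n := by gcongr
    have e5 : (J.L0 * K.L * ε + C * ε) * n ≤ g / 2 * n := by gcongr
    calc dist z z' ≤ exp (J.L0 * (1 + K.L * (1 + n * ‖a‖ + (q x + ε * n)))) * (exp J.L0 *
          (2 * (exp (C * q x + C * ε * n) * exp (r * R - r * s1 * n)))) := by
          refine k5.trans (mul_le_mul (exp_le_exp.2 k8) (k3.trans ?_) dist_nonneg (exp_pos _).le)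
          have : exp (C * q (S.act (-(n • a)) x)) * exp (r * R - r * s1 * n) ≤
              exp (C * q x + C * ε * n) * exp (r * R - r * s1 * n) := by gcongr
          gcongr
          linarith
      _ = 2 * exp (J.L0 * (1 + K.L * (1 + n * ‖a‖ + (q x + ε * n))) + J.L0 +
          (C * q x + C * ε * n) + (r * R - r * s1 * n)) := by
          rw [exp_add _ (r * R - r * s1 * n), exp_add _ (C * q x + C * ε * n), exp_add _ J.L0]
          ring
      _ ≤ 2 * exp c0 * exp (-(g / 2 * n)) := by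
          rw [mul_assoc 2, ← exp_add]
          refine mul_le_mul_of_nonneg_left (exp_le_exp.2 ?_) zero_le_two
          rw [hc0]
          linarith
  have lim : Tendsto (fun n : ℕ => 2 * exp c0 * exp (-(g / 2 * n))) atTop (𝓝 (2 * exp c0 * 0)) :=
    (tendsto_exp_neg_atTop_nhds_zero.comp
      (tendsto_natCast_atTop_atTop.const_mul_atTop (half_pos hg))).const_mul _
  rw [mul_zero] at lim
  refine dist_le_zero.1 (ge_of_tendsto lim ?_)
  filter_upwards [tendsto_natCast_atTop_atTop.eventually_ge_atTop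
    (2 * (R + C * q x + J.L0) / g)] with n hn using key n hn

theorem H_le (P : Par K lam r a s1 s2) : F.Unif a fun C _ q => ∀ x ∈ F.X0, ∀ z R, 0 ≤ R →
    K.Sh a s1 (exp R) x z → ‖F.H a x z‖ ≤ exp (C * (q x + R)) := by
  obtain ⟨C1, ε1, hC1, hε1, h1⟩ := F.chart_of_H P
  have hs := P.s1_pos
  have hA := F.pc.nonneg
  have hC1' : (1 : ℝ) ≤ C1 := by exact_mod_cast hC1
  have hr0 : (0 : ℝ) ≤ r := r.cast_nonneg
  set c := 2 * C1 / s1 with hc
  have hc0 : 0 ≤ c := by positivity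
  have hcs : c * s1 = 2 * C1 := div_mul_cancel₀ _ hs.ne'
  obtain ⟨C, hC⟩ := exists_nat_ge (F.A + 1 + (r * s1 + 2) * (c + 1))
  have hp : 0 ≤ (r * s1 + 2) * (c + 1) := by positivity
  have hC' : (1 : ℝ) ≤ C := by linarith
  refine ⟨C, min ε1 (min 1 (s1 / (2 * C1))), by exact_mod_cast hC',
    lt_min hε1 (lt_min one_pos (by positivity)), fun ε q hε T x hx z R hR hz => ?_⟩
  have hε0 := T.pos
  have hεa : ε ≤ 1 := hε.trans ((min_le_right _ _).trans (min_le_left _ _))
  have hεb : ε * (2 * C1) ≤ s1 :=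
    (le_div_iff₀ (by positivity)).1 (hε.trans ((min_le_right _ _).trans (min_le_right _ _)))
  have hq := T.one_le x
  set m := ⌈c * (q x + R)⌉₊ with hm
  have hm0 : (0 : ℝ) ≤ m := m.cast_nonneg
  have hm1 : c * (q x + R) ≤ m := Nat.le_ceil _
  have hm2 : (m : ℝ) ≤ (c + 1) * (q x + R) := by
    have := (Nat.ceil_lt_add_one (show 0 ≤ c * (q x + R) by positivity)).le
    linarith
  have hxm := F.inv0 (-(m • a)) x hx
  have hqm := T.slow_b m x hx
  have hb := hz.back m
  have e1 : C1 * q (S.act (-(m • a)) x) ≤ C1 * (q x + ε * m) := by gcongr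
  have e2 : ε * (2 * C1) * m ≤ s1 * m := by gcongr
  have e3 : c * (q x + R) * s1 ≤ m * s1 := by gcongr
  have e4 : c * (q x + R) * s1 = 2 * C1 * (q x + R) := by rw [← hcs]; ring
  have e5 : R ≤ C1 * R := le_mul_of_one_le_left hR hC1'
  have hη : exp R * exp (-(s1 * m)) ≤ exp (-(C1 * q (S.act (-(m • a)) x))) := by
    rw [← exp_add]
    exact exp_le_exp.2 (by linarith)
  have k1 := (h1 ε q (hε.trans (min_le_left _ _)) T _ hxm _ _ hη hb).1
  have k2 : ‖F.H a (S.act (-(m • a)) x) (K.mv (-(m • a)) x z)‖ ≤ 1 :=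
    calc _ ≤ _ := k1
      _ ≤ exp (C1 * q (S.act (-(m • a)) x)) * exp (-(C1 * q (S.act (-(m • a)) x))) := by gcongr
      _ = 1 := by rw [← exp_add, add_neg_cancel, exp_zero]
  have k3 := F.H_mv P (m • a) hxm ⟨_, hb⟩
  rw [S.act_neg, K.mv_neg] at k3
  have k4 : ‖F.N (m • a) (S.act (-(m • a)) x)‖ ≤ exp (q x + (r * s1 + 2) * m) :=
    (pi_norm_le_iff_of_nonneg (exp_pos _).le).2 fun i => (T.N_f m _ hxm i).trans (exp_le_exp.2 (by
      have h3 : lam i a * m ≤ r * s1 * m := by gcongr; exact (P.res i).le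
      have h4 : ε * m ≤ 1 * m := by gcongr
      linarith))
  have k5 := F.pc.evv_le (F.N (m • a) (S.act (-(m • a)) x)) _ le_rfl (by simpa using k2)
  rw [mul_zero, add_zero] at k5
  rw [k3]
  have e6 : (r * s1 + 2) * m ≤ (r * s1 + 2) * ((c + 1) * (q x + R)) := by gcongr
  have e7 : (F.A + 1 + (r * s1 + 2) * (c + 1)) * (q x + R) ≤ C * (q x + R) := by gcongr
  have e8 : F.A ≤ F.A * (q x + R) := le_mul_of_one_le_right hA (by linarith)
  calc _ ≤ _ := k5
    _ ≤ exp F.A * exp (q x + (r * s1 + 2) * m) * 1 := by gcongr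
    _ ≤ exp (C * (q x + R)) := by
      rw [mul_one, ← exp_add]
      exact exp_le_exp.2 (by linarith)

end Formal

end Pool.Agent.P.MP_d483fb_an.Z.NF
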