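import Pool.Agent.P.MP_d483fb_an.Z.NF.PEst
import Pool.Agent.P.MP_d483fb_an.Z.Jet.Poly

/-!
Normal forms: uniqueness of jets and the monoid of jets.
-/

open MvPolynomial Filter Topology Real Asymptotics

noncomputable section

namespace Pool.Agent.P.MP_d483fb_an.Z.NF

variable {D r : ℕ}

theorem uniq {t t' : V D r} {C δ : ℝ} (hδ : 0 < δ)
    (h : ∀ w : E D, ‖w‖ ≤ δ → |ev t w - ev t' w| ≤ C * ‖w‖ ^ r) : t = t' := by
  have hl : Jet.Low r (toPoly (t - t')) := fun m hm =>
    coeff_toPoly_of_not _ fun h => absurd h.2 (not_lt.2 hm)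
  have h0 := hl.eq_zero (E := C) hδ fun v hv => by
    rw [← ev_eq_eval, ev_sub]
    exact h v hv.le
  rw [← sub_eq_zero, ← ofPoly_toPoly (t - t'), h0]
  rfl

theorem uniqv {T T' : Jt D r} {C δ : ℝ} (hδ : 0 < δ)
    (h : ∀ w : E D, ‖w‖ ≤ δ → ‖evv T w - evv T' w‖ ≤ C * ‖w‖ ^ r) : T = T' := by
  funext i
  exact uniq hδ fun w hw => (norm_le_pi_norm (evv T w - evv T' w) i).trans (h w hw)

theorem uniq_O {t t' : V D r}
    (h : (fun w => ev t w - ev t' w) =O[𝓝 0] fun w : E D => ‖w‖ ^ r) : t = t' := by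
  obtain ⟨C, hC⟩ := h.bound
  obtain ⟨δ, hδ, h2⟩ := Metric.eventually_nhds_iff.1 hC
  refine uniq (C := C) (half_pos hδ) fun w hw => ?_
  have := h2 (y := w) (by rw [dist_zero_right]; linarith)
  rwa [Real.norm_eq_abs, norm_pow, norm_norm] at this

theorem ev_norm_le_one : ∀ᶠ w in 𝓝 (0 : E D), ‖w‖ ≤ 1 := by
  filter_upwards [Metric.closedBall_mem_nhds (0 : E D) one_pos] with w hw
  exact mem_closedBall_zero_iff.1 hw

theorem norm_le_exp_norm {F : Type*} [SeminormedAddGroup F] (x : F) : ‖x‖ ≤ exp ‖x‖ :=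
  le_trans (le_add_of_nonneg_right zero_le_one) (add_one_le_exp _)

theorem comp_err_O (t : V D r) (T : Jt D r) :
    (fun w => ev (comp t T) w - ev t (evv T w)) =O[𝓝 0] fun w : E D => ‖w‖ ^ r := by
  obtain ⟨A, h⟩ := exists_pc D r
  refine IsBigO.of_bound (exp (A + r * ‖T‖) * ‖t‖) ?_
  filter_upwards [ev_norm_le_one] with w hw
  rw [norm_pow, norm_norm]
  exact h.comp_err t T w _ (norm_nonneg _) (norm_le_exp_norm T) hw

theorem compv_err_O (S T : Jt D r) :
    (fun w => evv (compv S T) w - evv S (evv T w)) =O[𝓝 0] fun w : E D => ‖w‖ ^ r :=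
  isBigO_pi.2 fun i => comp_err_O (S i) T

theorem evv_O (T : Jt D r) : evv T =O[𝓝 0] fun w : E D => w := by
  obtain ⟨A, h⟩ := exists_pc D r
  refine IsBigO.of_bound (exp (A + r * 0) * ‖T‖) ?_
  filter_upwards [ev_norm_le_one] with w hw
  exact h.evv_le T w le_rfl (by rwa [exp_zero])

theorem tendsto_evv (T : Jt D r) : Tendsto (evv T) (𝓝 0) (𝓝 0) :=
  (evv_O T).trans_tendsto tendsto_id

theorem pow_evv_O (T : Jt D r) (k : ℕ) :
    (fun w => ‖evv T w‖ ^ k) =O[𝓝 0] fun w : E D => ‖w‖ ^ k :=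
  (evv_O T).norm_norm.pow k

theorem ev_lip_O (t : V D r) {f g : E D → E D} (hf : Tendsto f (𝓝 0) (𝓝 0))
    (hg : Tendsto g (𝓝 0) (𝓝 0)) :
    (fun w => ev t (f w) - ev t (g w)) =O[𝓝 0] fun w => f w - g w := by
  obtain ⟨A, h⟩ := exists_pc D r
  refine IsBigO.of_bound (exp (A + r * 0) * ‖t‖) ?_
  filter_upwards [hf.eventually ev_norm_le_one, hg.eventually ev_norm_le_one] with w h1 h2
  exact h.ev_lip t _ _ 0 le_rfl (by rwa [exp_zero]) (by rwa [exp_zero])

theorem ev_lin_O (t : V D r) :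
    (fun w => ev t w - lin t w) =O[𝓝 0] fun w : E D => ‖w‖ ^ 2 := by
  obtain ⟨A, h⟩ := exists_pc D r
  refine IsBigO.of_bound (exp A * ‖t‖) ?_
  filter_upwards [ev_norm_le_one] with w hw
  rw [norm_pow, norm_norm]
  exact h.ev_lin t w hw

theorem evv_lin_O (T : Jt D r) :
    (fun w => evv T w - linv T w) =O[𝓝 0] fun w : E D => ‖w‖ ^ 2 :=
  isBigO_pi.2 fun i => ev_lin_O (T i)

theorem clm_eq_of_O {F : Type*} [NormedAddCommGroup F] [NormedSpace ℝ F] {L L' : E D →L[ℝ] F}
    (h : (fun w => L w - L' w) =O[𝓝 0] fun w : E D => ‖w‖ ^ 2) : L = L' := by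
  have h1 : HasFDerivAt L L' 0 := by
    rw [hasFDerivAt_iff_isLittleO_nhds_zero]
    simpa only [zero_add, map_zero, sub_zero] using
      h.trans_isLittleO (isLittleO_norm_pow_id one_lt_two)
  exact L.hasFDerivAt.unique h1

theorem pow_O_sq (hr : 2 ≤ r) : (fun w : E D => ‖w‖ ^ r) =O[𝓝 0] fun w => ‖w‖ ^ 2 := by
  refine IsBigO.of_bound 1 ?_
  filter_upwards [ev_norm_le_one] with w hw
  rw [one_mul, norm_pow, norm_pow, norm_norm]
  exact pow_le_pow_of_le_one (norm_nonneg _) hw hr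

theorem linv_eq {r' : ℕ} {T : Jt D r} {T' : Jt D r'} {C δ : ℝ} (hδ : 0 < δ)
    (h : ∀ w : E D, ‖w‖ ≤ δ → ‖evv T w - evv T' w‖ ≤ C * ‖w‖ ^ 2) : linv T = linv T' := by
  have h1 : (fun w => evv T w - evv T' w) =O[𝓝 0] fun w : E D => ‖w‖ ^ 2 := by
    refine IsBigO.of_bound C ?_
    filter_upwards [Metric.closedBall_mem_nhds (0 : E D) hδ] with w hw
    rw [norm_pow, norm_norm]
    exact h w (mem_closedBall_zero_iff.1 hw)
  refine clm_eq_of_O (((h1.sub (evv_lin_O T)).add (evv_lin_O T')).congr_left fun w => ?_)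
  abel

theorem comp_assoc (t : V D r) (S T : Jt D r) : comp (comp t S) T = comp t (compv S T) := by
  have h1 := comp_err_O (comp t S) T
  have h2 := ((comp_err_O t S).comp_tendsto (tendsto_evv T)).trans (pow_evv_O T r)
  have h3 := comp_err_O t (compv S T)
  have h4 := (ev_lip_O t (tendsto_evv (compv S T))
    ((tendsto_evv S).comp (tendsto_evv T))).trans (compv_err_O S T)
  refine uniq_O ((((h1.add h2).sub h3).sub h4).congr_left fun w => ?_)
  simp only [Function.comp_apply]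
  ring

theorem compv_assoc (R S T : Jt D r) : compv (compv R S) T = compv R (compv S T) := by
  funext i
  exact comp_assoc (R i) S T

theorem toPoly_ofPoly {p : MvPolynomial (Fin D) ℝ}
    (h : ∀ α, coeff α p ≠ 0 → 0 < α.degree ∧ α.degree < r) : toPoly (ofPoly p : V D r) = p := by
  ext α
  by_cases hα : 0 < α.degree ∧ α.degree < r
  · exact coeff_toPoly (ofPoly p) ⟨α, hα⟩
  · rw [coeff_toPoly_of_not _ hα]
    by_contra hc
    exact hα (h α (Ne.symm hc))

theorem toPoly_ofPoly_X (hr : 2 ≤ r) (i : Fin D) : toPoly (ofPoly (X i) : V D r) = X i := by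
  refine toPoly_ofPoly fun α hα => ?_
  rw [coeff_X] at hα
  have : Finsupp.single i 1 = α := by
    by_contra hc
    exact hα (if_neg hc)
  rw [← this, Finsupp.degree_single]
  exact ⟨one_pos, hr⟩

theorem evv_idv (hr : 2 ≤ r) (w : E D) : evv (idv D r) w = w := by
  funext i
  rw [evv, idv, ev_eq_eval, toPoly_ofPoly_X hr, eval_X]

theorem comp_idv (hr : 2 ≤ r) (t : V D r) : comp t (idv D r) = t := by
  refine uniq_O ((comp_err_O t (idv D r)).congr_left fun w => ?_)
  rw [evv_idv hr]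

theorem compv_idv (hr : 2 ≤ r) (T : Jt D r) : compv T (idv D r) = T := by
  funext i
  exact comp_idv hr (T i)

theorem idv_compv (hr : 2 ≤ r) (T : Jt D r) : compv (idv D r) T = T := by
  funext i
  rw [compv, comp, idv, toPoly_ofPoly_X hr, bind₁_X_right, ofPoly_toPoly]

theorem norm_idv_le : ‖idv D r‖ ≤ 1 := by
  refine (pi_norm_le_iff_of_nonneg zero_le_one).2 fun i =>
    (pi_norm_le_iff_of_nonneg zero_le_one).2 fun α => ?_
  rw [idv, ofPoly, coeff_X]
  split_ifs <;> simp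

theorem lin_comp (t : V D r) (T : Jt D r) : lin (comp t T) = (lin t).comp (linv T) := by
  rcases le_or_gt 2 r with hr | hr
  · have h1 := ev_lin_O (comp t T)
    have h2 := (comp_err_O t T).trans (pow_O_sq hr)
    have h3 := ((ev_lin_O t).comp_tendsto (tendsto_evv T)).trans (pow_evv_O T 2)
    have h4 := ((lin t).isBigO_comp _ (𝓝 0)).trans (evv_lin_O T)
    refine clm_eq_of_O ((((h2.sub h1).add h3).add h4).congr_left fun w => ?_)
    simp only [Function.comp_apply, map_sub, ContinuousLinearMap.comp_apply]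
    ring
  · haveI : IsEmpty (Idx D r) := ⟨fun α => by have := α.2; omega⟩
    have h0 : ∀ s : V D r, lin s = 0 := fun s => by
      rw [Subsingleton.elim s ((0 : ℝ) • s), lin_smul, zero_smul]
    rw [h0, h0, ContinuousLinearMap.zero_comp]

theorem linv_compv (S T : Jt D r) : linv (compv S T) = (linv S).comp (linv T) := by
  ext w i
  rw [linv_apply, compv, lin_comp]
  rfl

theorem linv_idv (hr : 2 ≤ r) : linv (idv D r) = ContinuousLinearMap.id ℝ (E D) := by
  refine clm_eq_of_O ((evv_lin_O (idv D r)).neg_left.congr_left fun w => ?_)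
  rw [evv_idv hr, neg_sub, ContinuousLinearMap.id_apply]

theorem coeff_linPoly (g : E D) (α : Fin D →₀ ℕ) :
    coeff α (∑ j, C (g j) * X j : MvPolynomial (Fin D) ℝ) =
      ∑ j, if Finsupp.single j 1 = α then g j else 0 := by
  simp only [coeff_sum, coeff_C_mul, coeff_X, mul_ite, mul_one, mul_zero]

theorem coeff_single_linPoly (g : E D) (i : Fin D) :
    coeff (Finsupp.single i 1) (∑ j, C (g j) * X j : MvPolynomial (Fin D) ℝ) = g i := by
  simp only [coeff_linPoly, (Finsupp.single_left_injective one_ne_zero).eq_iff, Finset.sum_ite_eq',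
    Finset.mem_univ, if_true]

theorem exists_single_of_coeff {g : E D} {α : Fin D →₀ ℕ}
    (h : coeff α (∑ j, C (g j) * X j : MvPolynomial (Fin D) ℝ) ≠ 0) :
    ∃ j, Finsupp.single j 1 = α := by
  rw [coeff_linPoly] at h
  obtain ⟨j, -, hj⟩ := Finset.exists_ne_zero_of_sum_ne_zero h
  by_contra hc
  exact hj (if_neg fun e => hc ⟨j, e⟩)

theorem toPoly_ofLin (hr : 2 ≤ r) (g : E D) : toPoly (ofLin r g) = ∑ j, C (g j) * X j := by
  refine toPoly_ofPoly fun α hα => ?_
  obtain ⟨j, rfl⟩ := exists_single_of_coeff hα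
  rw [Finsupp.degree_single]
  exact ⟨one_pos, hr⟩

theorem lin_ofLin (hr : 2 ≤ r) (g w : E D) : lin (ofLin r g) w = ∑ j, g j * w j := by
  simp only [lin, toPoly_ofLin hr, coeff_single_linPoly, sum_apply,
    smul_apply, ContinuousLinearMap.proj_apply, smul_eq_mul]

theorem ev_ofLin (hr : 2 ≤ r) (g w : E D) : ev (ofLin r g) w = ∑ j, g j * w j := by
  simp only [ev_eq_eval, toPoly_ofLin hr, map_sum, map_mul, eval_C, eval_X]

theorem norm_ofLin_le (g : E D) : ‖ofLin r g‖ ≤ ‖g‖ := by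
  refine (pi_norm_le_iff_of_nonneg (norm_nonneg _)).2 fun α => ?_
  rw [ofLin, ofPoly]
  by_cases h : coeff α.1 (∑ j, C (g j) * X j : MvPolynomial (Fin D) ℝ) = 0
  · rw [h, norm_zero]
    exact norm_nonneg _
  · obtain ⟨j, hj⟩ := exists_single_of_coeff h
    rw [← hj, coeff_single_linPoly]
    exact norm_le_pi_norm g j

end Pool.Agent.P.MP_d483fb_an.Z.NF
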