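import Pool.Agent.P.MP_d483fb_an.Z.NF.Formal
import Pool.Agent.P.MP_d483fb_an.Z.NF.PAlg

/-!
Normal forms: the chain rule for the jets of an action.
-/

open MeasureTheory Filter Topology Set Real

set_option linter.unusedSectionVars false

noncomputable section

namespace Pool.Agent.P.MP_d483fb_an.Z.NF

open Os

variable {W X Γ M : Type} [NormedAddCommGroup W] [NormedSpace ℝ W] [MeasurableSpace W]
  [MeasurableSpace X] {μ : Measure X} [Group Γ] [MeasurableSpace Γ] [MetricSpace M]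
  [MeasurableSpace M] {α : Γ →* Equiv.Perm M} {len : Γ → ℝ} {D : ℕ}
  {S : Sys W X μ} {J : Jets α len D} {K : Skew S J} {lam : Fin D → W →L[ℝ] ℝ} {r : ℕ}
  {a : W} {s1 s2 : ℝ}

/-- Small vectors are the coordinates of points close to the base point. -/
theorem Jets.exists_pt (J : Jets α len D) (p : M) {η : ℝ} (hη : 0 < η) :
    ∃ δ, 0 < δ ∧ ∀ w : E D, ‖w‖ ≤ δ →
      ‖w‖ ≤ 1 ∧ ∃ z, dist z p ≤ exp J.L0 * ‖w‖ ∧ dist z p ≤ η ∧ J.c p z = w := by
  refine ⟨min (exp (-(2 * J.L0))) (exp (-J.L0) * η), by positivity, fun w hw => ?_⟩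
  have h1 : ‖w‖ ≤ exp (-(2 * J.L0)) := hw.trans (min_le_left _ _)
  have h2 : ‖w‖ ≤ exp (-J.L0) * η := hw.trans (min_le_right _ _)
  refine ⟨h1.trans (exp_le_one_iff.2 (by linarith [J.L0_nonneg])), ?_⟩
  obtain ⟨z, hz, hc⟩ := J.c_onto p w h1
  refine ⟨z, hz, hz.trans ?_, hc⟩
  calc exp J.L0 * ‖w‖ ≤ exp J.L0 * (exp (-J.L0) * η) := by gcongr
    _ = η := by rw [← mul_assoc, ← exp_add, add_neg_cancel, exp_zero, one_mul]

theorem Jets.T_mul (J : Jets α len D) (r : ℕ) (γ γ' : Γ) (p : M) :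
    J.T r (γ * γ') p = compv (J.T r γ (α γ' p)) (J.T r γ' p) := by
  obtain ⟨A, hA⟩ := exists_pc D r
  obtain ⟨R1, hR1⟩ : ∃ R1, R1 = J.Lr r * (1 + len (γ * γ')) := ⟨_, rfl⟩
  obtain ⟨R2, hR2⟩ : ∃ R2, R2 = J.Lr r * (1 + len γ') := ⟨_, rfl⟩
  obtain ⟨R3, hR3⟩ : ∃ R3, R3 = J.Lr r * (1 + len γ) := ⟨_, rfl⟩
  obtain ⟨Lp, hLp⟩ : ∃ Lp, Lp = J.L0 * (1 + len γ') := ⟨_, rfl⟩
  have hR20 : 0 ≤ R2 := by
    rw [hR2]
    exact mul_nonneg (J.Lr_nonneg r) (by linarith [J.len_nonneg γ'])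
  have hA0 := hA.nonneg
  obtain ⟨δ, hδ, hpt⟩ := J.exists_pt p (η := min (min (exp (-R1)) (exp (-R2)))
    (exp (-Lp) * min (exp (-R3)) (exp (-J.L0)))) (by positivity)
  refine uniqv (C := exp R1 * exp J.L0 ^ r + exp R3 * (exp Lp * exp J.L0) ^ r +
    exp (A + r * (A + R2)) * ‖J.T r γ (α γ' p)‖ * (exp R2 * exp J.L0 ^ r) +
    exp (A + r * R2) * ‖J.T r γ (α γ' p)‖) hδ fun w hw => ?_
  obtain ⟨hw1, z, hz, hη, hc⟩ := hpt w hw
  have hz1 : dist z p ≤ exp (-R1) := hη.trans ((min_le_left _ _).trans (min_le_left _ _))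
  have hz2 : dist z p ≤ exp (-R2) := hη.trans ((min_le_left _ _).trans (min_le_right _ _))
  have hl : dist (α γ' z) (α γ' p) ≤ exp Lp * dist z p := hLp ▸ J.lip γ' z p
  have hz3 : dist (α γ' z) (α γ' p) ≤ min (exp (-R3)) (exp (-J.L0)) := by
    calc dist (α γ' z) (α γ' p) ≤ exp Lp * (exp (-Lp) * min (exp (-R3)) (exp (-J.L0))) :=
          hl.trans (mul_le_mul_of_nonneg_left (hη.trans (min_le_right _ _)) (exp_pos _).le)
      _ = _ := by rw [← mul_assoc, ← exp_add, add_neg_cancel, exp_zero, one_mul]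
  have hd : dist z p ^ r ≤ exp J.L0 ^ r * ‖w‖ ^ r := by
    rw [← mul_pow]
    exact pow_le_pow_left₀ dist_nonneg hz r
  have hd' : dist (α γ' z) (α γ' p) ^ r ≤ (exp Lp * exp J.L0) ^ r * ‖w‖ ^ r := by
    rw [← mul_pow, mul_assoc]
    exact pow_le_pow_left₀ dist_nonneg
      (hl.trans (mul_le_mul_of_nonneg_left hz (exp_pos _).le)) r
  have e1 := J.jet r (γ * γ') p z (hR1 ▸ hz1)
  have e2 := J.jet r γ' p z (hR2 ▸ hz2)
  have e3 := J.jet r γ (α γ' p) (α γ' z) (hR3 ▸ hz3.trans (min_le_left _ _))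
  rw [← hR1, hc, map_mul, Equiv.Perm.mul_apply, Equiv.Perm.mul_apply] at e1
  rw [← hR2, hc] at e2
  rw [← hR3] at e3
  have hT' : ‖J.T r γ' p‖ ≤ exp R2 := hR2 ▸ J.T_le r γ' p
  have hu : ‖J.c (α γ' p) (α γ' z)‖ ≤ exp (A + R2) := by
    have h := J.c_lip (α γ' p) (α γ' z) (α γ' p) (hz3.trans (min_le_right _ _))
      (by rw [dist_self]; positivity)
    rw [J.c_self, sub_zero] at h
    calc _ ≤ exp J.L0 * exp (-J.L0) :=
          h.trans (mul_le_mul_of_nonneg_left (hz3.trans (min_le_right _ _)) (exp_pos _).le)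
      _ = exp 0 := by rw [← exp_add, add_neg_cancel]
      _ ≤ _ := exp_le_exp.2 (by linarith)
  have hv : ‖evv (J.T r γ' p) w‖ ≤ exp (A + R2) := by
    have h := hA.evv_le (J.T r γ' p) w le_rfl (by rwa [exp_zero])
    rw [mul_zero, add_zero] at h
    calc _ ≤ exp A * exp R2 * 1 := h.trans (by gcongr)
      _ = _ := by rw [mul_one, exp_add]
  have e4 := hA.evv_lip (J.T r γ (α γ' p)) _ _ (by linarith) hu hv
  have e5 := hA.compv_err (J.T r γ (α γ' p)) (J.T r γ' p) w hR20 hT' hw1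
  have f1 := e1.trans (mul_le_mul_of_nonneg_left hd (exp_pos _).le)
  have f2 := e2.trans (mul_le_mul_of_nonneg_left hd (exp_pos _).le)
  have f3 := e3.trans (mul_le_mul_of_nonneg_left hd' (exp_pos _).le)
  have f4 := e4.trans (mul_le_mul_of_nonneg_left f2 (by positivity))
  have key : ∀ x0 x1 x2 x3 x4 : E D,
      ‖x1 - x4‖ ≤ ‖x0 - x1‖ + ‖x0 - x2‖ + ‖x2 - x3‖ + ‖x4 - x3‖ := fun x0 x1 x2 x3 x4 => by
    have h : x1 - x4 = -(x0 - x1) + (x0 - x2) + (x2 - x3) - (x4 - x3) := by abel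
    rw [h]
    refine (norm_sub_le _ _).trans ?_
    gcongr
    refine (norm_add_le _ _).trans ?_
    gcongr
    refine (norm_add_le _ _).trans ?_
    rw [norm_neg]
  refine (key _ _ _ _ _).trans ((add_le_add (add_le_add (add_le_add f1 f3) f4) e5).trans ?_)
  exact le_of_eq (by ring)

theorem Jets.T_one (J : Jets α len D) (hr : 2 ≤ r) (p : M) : J.T r 1 p = idv D r := by
  obtain ⟨δ, hδ, hpt⟩ := J.exists_pt p (exp_pos (-(J.Lr r * (1 + len 1))))
  refine uniqv (C := exp (J.Lr r * (1 + len 1)) * exp J.L0 ^ r) hδ fun w hw => ?_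
  obtain ⟨-, z, hz, hη, hc⟩ := hpt w hw
  have e1 := J.jet r 1 p z hη
  rw [map_one, Equiv.Perm.one_apply, Equiv.Perm.one_apply, hc] at e1
  rw [evv_idv hr, norm_sub_rev, mul_assoc, ← mul_pow]
  exact e1.trans (mul_le_mul_of_nonneg_left (pow_le_pow_left₀ dist_nonneg hz r) (exp_pos _).le)

theorem Jets.linv_T (J : Jets α len D) (hr : 2 ≤ r) (γ : Γ) (p : M) :
    linv (J.T r γ p) = J.Dl γ p := by
  obtain ⟨δ, hδ, hpt⟩ := J.exists_pt p (η := min (exp (-(J.Lr r * (1 + len γ))))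
    (exp (-(J.Lr 2 * (1 + len γ))))) (by positivity)
  refine linv_eq (C := (exp (J.Lr r * (1 + len γ)) + exp (J.Lr 2 * (1 + len γ))) * exp J.L0 ^ 2)
    hδ fun w hw => ?_
  obtain ⟨-, z, hz, hη, hc⟩ := hpt w hw
  have hz1 := hη.trans (min_le_left _ _)
  have e1 := J.jet r γ p z hz1
  have e2 := J.jet 2 γ p z (hη.trans (min_le_right _ _))
  rw [hc] at e1 e2
  have h1 : dist z p ≤ 1 := hz1.trans (exp_le_one_iff.2 (neg_nonpos.2
    (mul_nonneg (J.Lr_nonneg r) (by linarith [J.len_nonneg γ]))))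
  have hd : dist z p ^ 2 ≤ exp J.L0 ^ 2 * ‖w‖ ^ 2 := by
    rw [← mul_pow]
    exact pow_le_pow_left₀ dist_nonneg hz 2
  have hd' : dist z p ^ r ≤ exp J.L0 ^ 2 * ‖w‖ ^ 2 :=
    (pow_le_pow_of_le_one dist_nonneg h1 hr).trans hd
  have f1 := e1.trans (mul_le_mul_of_nonneg_left hd' (exp_pos _).le)
  have f2 := e2.trans (mul_le_mul_of_nonneg_left hd (exp_pos _).le)
  refine (norm_sub_le_norm_sub_add_norm_sub _ (J.c (α γ p) (α γ z)) _).trans ?_
  rw [norm_sub_rev]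
  exact (add_le_add f1 f2).trans (le_of_eq (by ring))

theorem Jets.Dl_mul (J : Jets α len D) (γ γ' : Γ) (p : M) :
    J.Dl (γ * γ') p = (J.Dl γ (α γ' p)).comp (J.Dl γ' p) := by
  rw [Jets.Dl, J.T_mul, linv_compv]
  rfl

theorem Jets.Dl_one (J : Jets α len D) (p : M) : J.Dl 1 p = ContinuousLinearMap.id ℝ (E D) := by
  rw [Jets.Dl, J.T_one le_rfl, linv_idv le_rfl]

theorem Skew.T_add (K : Skew S J) (r : ℕ) (s t : W) (x : X) :
    K.T r (s + t) x = compv (K.T r s (S.act t x)) (K.T r t x) := by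
  simp only [Skew.T, K.β_add, J.T_mul, K.pt_act]

theorem Skew.T_zero (K : Skew S J) (hr : 2 ≤ r) (x : X) : K.T r 0 x = idv D r := by
  simp only [Skew.T, K.β_zero, J.T_one hr]

theorem Skew.linv_T (K : Skew S J) (hr : 2 ≤ r) (s : W) (x : X) : linv (K.T r s x) = K.Dl s x :=
  J.linv_T hr _ _

theorem Skew.Dl_add (K : Skew S J) (s t : W) (x : X) (v : E D) :
    K.Dl (s + t) x v = K.Dl s (S.act t x) (K.Dl t x v) := by
  simp only [Skew.Dl, K.β_add, J.Dl_mul, K.pt_act]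
  rfl

theorem Skew.Dl_zero (K : Skew S J) (x : X) (v : E D) : K.Dl 0 x v = v := by
  simp only [Skew.Dl, K.β_zero, J.Dl_one]
  rfl

end Pool.Agent.P.MP_d483fb_an.Z.NF
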