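import Pool.Agent.P.MP_d483fb_an.Z.NF.Defs
import Pool.Agent.P.MP_d483fb_an.Z.Jet.Poly

/-!
Existence of uniform charts and jets for a smooth action on a compact manifold.
-/

open Set Metric MvPolynomial Filter Real
open scoped Topology ContDiff Nat Manifold

noncomputable section

namespace Pool.Agent.P.MP_d483fb_an.Z.NF

open Jet

variable {D : ℕ}

theorem ev_ofPoly {r : ℕ} (hr : 0 < r) {P : MvPolynomial (Fin D) ℝ} (hP : Low r P) (w : E D) :
    ev (ofPoly P : V D r) w = eval w P - coeff 0 P := by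
  classical
  have h0 : (0 : Fin D →₀ ℕ) ∈ mons D r := mem_mons.2 (by simpa using hr)
  rw [hP.eval_eq, ← Finset.add_sum_erase _ _ h0]
  have h := Finset.sum_subtype (F := (inferInstance : Fintype (Idx D r))) ((mons D r).erase 0)
    (p := fun α : Fin D →₀ ℕ => 0 < α.degree ∧ α.degree < r) (fun m => by
      rw [Finset.mem_erase, mem_mons, pos_iff_ne_zero, Ne, Ne, Finsupp.degree_eq_zero_iff])
    (fun m => coeff m P * ∏ i, w i ^ m i)
  rw [h]
  simp only [Finsupp.coe_zero, Pi.zero_apply, pow_zero, Finset.prod_const_one, mul_one,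
    add_sub_cancel_left]
  rfl

theorem JX_small {x : ℝ} (hx : 0 < x) : ∃ L, 0 ≤ L ∧ exp (-L) < x :=
  ⟨|log x| + 1, by positivity, by
    rw [← lt_log_iff_exp_lt hx]
    linarith [neg_abs_le (log x)]⟩

theorem JX_big (x : ℝ) : ∃ L, 0 ≤ L ∧ x ≤ exp L :=
  ⟨|x|, abs_nonneg x, by linarith [le_abs_self x, add_one_le_exp |x|]⟩

theorem JX_sub {Γ : Type} [Group Γ] {len : Γ → ℝ} (h0 : ∀ γ, 0 ≤ len γ)
    (hlmr : ∀ L : Γ → ℝ, (∀ γ γ', L (γ * γ') ≤ L γ + L γ') → ∃ C, ∀ γ, L γ ≤ C * (1 + len γ))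
    (P : Γ → ℝ → Prop) (hmono : ∀ γ a b, 0 ≤ a → a ≤ b → P γ a → P γ b)
    (h1 : ∀ γ, ∃ a, 1 ≤ a ∧ P γ a) {B : ℝ} (hB : 1 ≤ B)
    (hs : ∀ γ γ' a b, 1 ≤ a → 1 ≤ b → P γ a → P γ' b → P (γ * γ') (B * a * b)) :
    ∃ L : ℝ, 0 ≤ L ∧ ∀ γ, P γ (exp (L * (1 + len γ))) := by
  let s : Γ → Set ℝ := fun γ => {t | 0 ≤ t ∧ P γ (exp t)}
  have hne : ∀ γ, (s γ).Nonempty := fun γ => by
    obtain ⟨a, ha, h⟩ := h1 γ
    exact ⟨log a, log_nonneg ha, by rwa [exp_log (by linarith)]⟩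
  have hbd : ∀ γ, BddBelow (s γ) := fun γ => ⟨0, fun _ h => h.1⟩
  obtain ⟨C, hC⟩ := hlmr (fun γ => sInf (s γ) + log B) fun γ γ' => by
    refine le_of_forall_pos_le_add fun ε hε => ?_
    obtain ⟨t, ht, h2⟩ := exists_lt_of_csInf_lt (hne γ) (lt_add_of_pos_right _ (half_pos hε))
    obtain ⟨t', ht', h3⟩ := exists_lt_of_csInf_lt (hne γ') (lt_add_of_pos_right _ (half_pos hε))
    have h4 : log B + t + t' ∈ s (γ * γ') :=
      ⟨by linarith [log_nonneg hB, ht.1, ht'.1], by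
        rw [exp_add, exp_add, exp_log (by linarith)]
        exact hs _ _ _ _ (one_le_exp ht.1) (one_le_exp ht'.1) ht.2 ht'.2⟩
    linarith [csInf_le (hbd _) h4]
  refine ⟨|C| + 1, by positivity, fun γ => ?_⟩
  obtain ⟨t, ht, h2⟩ := exists_lt_of_csInf_lt (hne γ) (lt_add_one _)
  refine hmono _ _ _ (exp_pos _).le (exp_le_exp.2 ?_) ht.2
  have h3 := hC γ
  have h4 := mul_le_mul_of_nonneg_right (le_abs_self C) (by linarith [h0 γ] : 0 ≤ 1 + len γ)
  nlinarith [log_nonneg hB, h0 γ]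

variable {M : Type} [MetricSpace M] [MeasurableSpace M]
  {ψ : M → OpenPartialHomeomorph M (Fin D → ℝ)} (A : Atl ψ) {f g : M → M}

theorem JX_comp (hid : Smo ψ id) (r : ℕ) : ∃ B, 1 ≤ B ∧ ∀ (f g : M → M) (a b : ℝ), Smo ψ f →
    Smo ψ g → 1 ≤ a → 1 ≤ b → A.Bd r g a → A.Bd r f b → A.Bd r (g ∘ f) (B * a * b) := by
  obtain ⟨C, h1, h⟩ := A.boundv hid 0
  have hE : (1 : ℝ) ≤ r ! * C :=
    one_le_mul_of_one_le_of_one_le (by exact_mod_cast Nat.factorial_pos r) h1
  refine ⟨r ! * C, hE, fun f g a b hf hg ha hb hga hfb p q w hw hw' i hi hi' => ?_⟩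
  have hai : 1 ≤ a ^ i := one_le_pow₀ ha
  refine (hf.comp_bound hg (A.sub p hw) (A.sub (f w) (A.mem_Q _)) (A.sub q hw') (C := C * a ^ i)
    (Λ := b) (fun k hk => ?_)
    (fun k h2 hk => hfb p (f w) w hw (A.mem_Q _) k h2 (hk.trans hi'))).trans ?_
  · rcases Nat.eq_zero_or_pos k with rfl | hk0
    · have h2 := h q q 0 le_rfl _ hw' hw'
      rw [norm_iteratedFDeriv_zero] at h2 ⊢
      have e1 : (ψ (A.j q)).symm (ψ (A.j q) (g (f w))) = g (f w) := (ψ _).left_inv (A.sub q hw')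
      simp only [locv, Function.comp_apply, id, e1,
        (ψ _).left_inv (A.sub (f w) (A.mem_Q _))] at h2 ⊢
      exact h2.trans (le_mul_of_one_le_right (by linarith) hai)
    · exact (hga (f w) q _ (A.mem_Q _) hw' k hk0 (hk.trans hi')).trans
        ((pow_le_pow_right₀ ha hk).trans (le_mul_of_one_le_left (by linarith) h1))
  · rw [mul_pow, mul_pow, ← mul_assoc]
    refine mul_le_mul_of_nonneg_right (mul_le_mul_of_nonneg_right
      (le_trans ?_ (le_self_pow₀ hE (by omega))) (by positivity)) (by positivity)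
    exact mul_le_mul_of_nonneg_right (by exact_mod_cast Nat.factorial_le hi') (by linarith)

theorem JX_key (hf : Smo ψ f) (r : ℕ) {Λ L : ℝ} (hΛ : 1 ≤ Λ) (hb : A.Bd r f Λ)
    (hL : 1 ≤ L) (hl : ∀ z p, dist (f z) (f p) ≤ L * dist z p) {p q : M}
    (hpq : dist (f p) q < A.δ / 2) :
    ‖(fun l => ofPoly (A.T r f p q l) : Jt D r)‖ ≤ r * (D + 1) ^ r * Λ ^ r ∧
      ∀ z, dist z p < A.δ / (2 * A.K ^ 2 * L) →
        ‖A.c q (f z) - A.c q (f p) - evv (fun l => ofPoly (A.T r f p q l) : Jt D r) (A.c p z)‖ ≤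
          (1 + 2 * A.K * A.δ) * A.K ^ r * Λ ^ r * dist z p ^ r := by
  have hK := A.K_pos
  have hK1 := A.one_le
  have hδ := A.δ_pos
  rcases Nat.eq_zero_or_pos r with rfl | hr
  · have : IsEmpty (Idx D 0) := ⟨fun α => absurd α.2.2 (Nat.not_lt_zero _)⟩
    refine ⟨by rw [Subsingleton.elim (fun l => ofPoly (A.T 0 f p q l) : Jt D 0) 0]; simp,
      fun z _ => ?_⟩
    have e : evv (fun l => ofPoly (A.T 0 f p q l) : Jt D 0) (A.c p z) = 0 := by
      funext l
      simp [evv, ev]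
    rw [e, sub_zero]
    refine (norm_sub_le _ _).trans ?_
    simp only [pow_zero, mul_one]
    linarith [A.norm_c_le' q (f z), A.norm_c_le' q (f p)]
  have h := A.jet_expl hf hr hΛ hb hL hl hpq
  refine ⟨(pi_norm_le_iff_of_nonneg (by positivity)).2 fun l =>
    (pi_norm_le_iff_of_nonneg (by positivity)).2 fun m => ?_, fun z hz => ?_⟩
  · rw [A.T_eq r hpq]
    exact (h l).1 m.1 fun e => by simpa [e] using m.2.1
  have a1 : L * dist z p < A.δ / 2 := by
    rw [lt_div_iff₀ (by positivity)] at hz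
    have : 1 ≤ A.K ^ 2 := one_le_pow₀ hK1
    have h3 : 0 ≤ L * dist z p := by positivity
    nlinarith
  have a2 : dist z p < A.δ := by nlinarith [dist_nonneg (x := z) (y := p)]
  have a3 : dist (f z) q < A.δ := by linarith [dist_triangle (f z) (f p) q, hl z p]
  refine (pi_norm_le_iff_of_nonneg (by positivity)).2 fun l => ?_
  have h2 := (h l).2 z hz
  simp only [Pi.sub_apply, evv, Real.norm_eq_abs]
  rw [A.T_eq r hpq, ev_ofPoly hr (A.low_T0 hr f p q l), A.coeff_zero_T0 hr, A.c_eq a3, A.c_eq a2,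
    A.c_eq (hpq.trans (half_lt_self hδ)), sub_sub, add_sub_cancel]
  refine h2.trans ?_
  calc Λ ^ r * ‖A.c0 p z‖ ^ r ≤ Λ ^ r * (A.K * dist z p) ^ r := by
        gcongr
        exact A.norm_c0_le a2
    _ = 1 * A.K ^ r * Λ ^ r * dist z p ^ r := by ring
    _ ≤ _ := by
        gcongr
        exact le_add_of_nonneg_right (by positivity)

variable [CompactSpace M] [BorelSpace M] {Γ : Type} [Group Γ]

include A in
theorem exists_jets_of_atl (α : Γ →* Equiv.Perm M) (hα : ∀ γ, Smo ψ (α γ)) {len : Γ → ℝ}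
    (h0 : ∀ γ, 0 ≤ len γ)
    (hlmr : ∀ L : Γ → ℝ, (∀ γ γ', L (γ * γ') ≤ L γ + L γ') → ∃ C, ∀ γ, L γ ≤ C * (1 + len γ)) :
    ∃ J : Jets α len D, J.c = A.c := by
  have hK := A.K_pos
  have hK1 := A.one_le
  have hδ := A.δ_pos
  have hid : Smo ψ id := by simpa using hα 1
  obtain ⟨L1, hL1, hlip⟩ := JX_sub h0 hlmr
    (fun γ a => ∀ z p, dist (α γ z) (α γ p) ≤ a * dist z p)
    (fun γ a b _ hab h z p => (h z p).trans (mul_le_mul_of_nonneg_right hab dist_nonneg))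
    (fun γ => A.lipschitz (hα γ)) le_rfl fun γ γ' a b ha _ h h' z p => by
      rw [map_mul, one_mul, mul_assoc]
      exact (h _ _).trans (mul_le_mul_of_nonneg_left (h' z p) (by linarith))
  have hbd : ∀ r, ∃ L : ℝ, 0 ≤ L ∧ ∀ γ, A.Bd r (α γ) (exp (L * (1 + len γ))) := fun r => by
    obtain ⟨B, hB, h⟩ := JX_comp A hid r
    exact JX_sub h0 hlmr (fun γ a => A.Bd r (α γ) a) (fun γ a b h0 hab h => h.mono h0 hab)
      (fun γ => A.exists_bd (hα γ) r) hB fun γ γ' a b ha hb h1 h2 => by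
        rw [map_mul]
        exact h (α γ') (α γ) a b (hα γ') (hα γ) ha hb h1 h2
  choose Lb hLb hbd using hbd
  obtain ⟨a, ha, ha'⟩ := JX_small (show 0 < A.δ / (2 * A.K ^ 2) by positivity)
  obtain ⟨b, hb, hb'⟩ := JX_big A.K
  have hc : ∀ r : ℕ, ∃ c, 0 ≤ c ∧ r * (D + 1 : ℝ) ^ r + (1 + 2 * A.K * A.δ) * A.K ^ r ≤ exp c :=
    fun r => JX_big _
  choose c hc hc' using hc
  have hKK : A.δ / (2 * A.K ^ 2) ≤ A.δ / 2 / A.K := by
    rw [div_div]
    gcongr
    exact le_self_pow₀ hK1 two_ne_zero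
  have hKK' : A.δ / 2 / A.K ≤ A.δ / 2 := div_le_self (by positivity) hK1
  have s0 : exp (-(a + b + L1)) < A.δ / 2 / A.K :=
    ((exp_le_exp.2 (by linarith)).trans_lt ha').trans_le hKK
  have s1 : ∀ {z p : M}, dist z p ≤ exp (-(a + b + L1)) → z ∈ ball p A.δ := fun h =>
    mem_ball.2 (by linarith)
  have s2 : A.K ≤ exp (a + b + L1) := hb'.trans (exp_le_exp.2 (by linarith))
  have key : ∀ (r : ℕ) (γ : Γ) (p q : M), dist (α γ p) q < A.δ / 2 →
      ‖(fun l => ofPoly (A.T r (α γ) p q l) : Jt D r)‖ ≤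
        exp ((a + L1 + c r + r * Lb r) * (1 + len γ)) ∧
      ∀ z, dist z p ≤ exp (-((a + L1 + c r + r * Lb r) * (1 + len γ))) →
        ‖A.c q (α γ z) - A.c q (α γ p) -
          evv (fun l => ofPoly (A.T r (α γ) p q l) : Jt D r) (A.c p z)‖ ≤
          exp ((a + L1 + c r + r * Lb r) * (1 + len γ)) * dist z p ^ r := by
    intro r γ p q hpq
    have hl : 1 ≤ 1 + len γ := by linarith [h0 γ]
    have h := JX_key A (hα γ) r (one_le_exp (mul_nonneg (hLb r) (by linarith))) (hbd r γ)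
      (one_le_exp (mul_nonneg hL1 (by linarith))) (hlip γ) hpq
    have p1 : 0 ≤ r * (D + 1 : ℝ) ^ r := by positivity
    have p2 : 0 ≤ (1 + 2 * A.K * A.δ) * A.K ^ r := by positivity
    have p3 : 0 ≤ r * Lb r := mul_nonneg r.cast_nonneg (hLb r)
    have e : exp (c r) * exp (Lb r * (1 + len γ)) ^ r ≤
        exp ((a + L1 + c r + r * Lb r) * (1 + len γ)) := by
      rw [← exp_nat_mul, ← exp_add]
      refine exp_le_exp.2 ?_
      nlinarith [hc r, mul_nonneg (add_nonneg ha hL1) (zero_le_one.trans hl)]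
    refine ⟨h.1.trans (le_trans ?_ e), fun z hz => (h.2 z (hz.trans_lt ?_)).trans ?_⟩
    · exact mul_le_mul_of_nonneg_right (by linarith [hc' r]) (by positivity)
    · rw [← div_div, lt_div_iff₀ (exp_pos _), ← exp_add]
      refine lt_of_le_of_lt (exp_le_exp.2 ?_) ha'
      nlinarith [mul_nonneg (add_nonneg (hc r) p3) (zero_le_one.trans hl)]
    · refine mul_le_mul_of_nonneg_right (le_trans ?_ e) (by positivity)
      exact mul_le_mul_of_nonneg_right (by linarith [hc' r]) (by positivity)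
  have hL : ∀ r : ℕ, 0 ≤ a + L1 + c r + r * Lb r := fun r =>
    add_nonneg (add_nonneg (add_nonneg ha hL1) (hc r)) (mul_nonneg r.cast_nonneg (hLb r))
  have hself : ∀ p : M, dist p p < A.δ / 2 := fun p => by simpa using hδ
  have hmul : ∀ (r : ℕ) (γ : Γ), (a + L1 + c r + r * Lb r) * (1 + len γ) ≤
      (a + L1 + c r + r * Lb r) * (1 + len 1) * (1 + len γ) := fun r γ =>
    mul_le_mul_of_nonneg_right (le_mul_of_one_le_right (hL r) (by linarith [h0 1]))
      (by linarith [h0 γ])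
  refine ⟨{
    c := A.c
    T := fun r γ p l => ofPoly (A.T r (α γ) p (α γ p) l)
    L0 := a + b + L1
    Lr := fun r => (a + L1 + c r + r * Lb r) * (1 + len 1)
    L0_nonneg := by positivity
    Lr_nonneg := fun r => mul_nonneg (hL r) (by linarith [h0 1])
    len_nonneg := h0
    measC := A.measurable_c
    measT := fun r γ => measurable_pi_iff.2 fun l => measurable_pi_iff.2 fun m =>
      (A.measurable_T (hα γ) r l m.1).comp (measurable_id.prodMk (hα γ).1.measurable)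
    c_self := A.c_self
    c_lip := fun p z z' hz hz' => (A.c_biL p z (s1 hz) z' (s1 hz')).1.trans
      (mul_le_mul_of_nonneg_right s2 dist_nonneg)
    c_lip' := fun p z z' hz hz' => (A.c_biL p z (s1 hz) z' (s1 hz')).2.trans
      (mul_le_mul_of_nonneg_right s2 (norm_nonneg _))
    c_onto := fun p u hu => ?_
    lip := fun γ z z' => (hlip γ z z').trans (mul_le_mul_of_nonneg_right
      (exp_le_exp.2 (mul_le_mul_of_nonneg_right (by linarith) (by linarith [h0 γ]))) dist_nonneg)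
    T_le := fun r γ p => (key r γ p _ (hself _)).1.trans (exp_le_exp.2 (hmul r γ))
    jet := fun r γ p z hz => ?_
    tr := fun r p p' hp => ?_ }, rfl⟩
  · obtain ⟨z, h1, -, h2⟩ := A.c_onto p (v := u) (by
      refine (hu.trans (exp_le_exp.2 (by linarith))).trans_lt (s0.trans_le ?_)
      gcongr
      linarith)
    exact ⟨z, h1.trans (mul_le_mul_of_nonneg_right s2 (norm_nonneg _)), h2⟩
  · have h := (key r γ p _ (hself _)).2 z (hz.trans (exp_le_exp.2 (neg_le_neg (hmul r γ))))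
    rw [A.c_self, sub_zero] at h
    exact h.trans (mul_le_mul_of_nonneg_right (exp_le_exp.2 (hmul r γ)) (by positivity))
  · have h1 : dist (α 1 p') p < A.δ / 2 := by
      rw [map_one, Equiv.Perm.one_apply]
      refine hp.trans_lt (lt_of_le_of_lt (exp_le_exp.2 (neg_le_neg ?_))
        (ha'.trans_le (hKK.trans hKK')))
      nlinarith [h0 1, hL r, hc r, mul_nonneg (r.cast_nonneg : (0 : ℝ) ≤ r) (hLb r)]
    have h := key r 1 p' p h1
    refine ⟨_, h.1, fun z hz => ?_⟩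
    simpa using h.2 z hz

/-- uniform charts and jets exist -/
theorem exists_jets [ChartedSpace (EuclideanSpace ℝ (Fin D)) M] [IsManifold (𝓡 D) ∞ M] {N : ℕ}
    {ι : M → EuclideanSpace ℝ (Fin N)} (hι : ContMDiff (𝓡 D) (𝓡 N) ∞ ι)
    (hd : ∀ p q, dist p q = ‖ι p - ι q‖)
    (himm : ∀ p, Function.Injective (mfderiv (𝓡 D) (𝓡 N) ι p))
    (α : Γ →* Equiv.Perm M) (hα : ∀ γ, ContMDiff (𝓡 D) (𝓡 D) ∞ (α γ)) {len : Γ → ℝ}
    (h0 : ∀ γ, 0 ≤ len γ)
    (hlmr : ∀ L : Γ → ℝ, (∀ γ γ', L (γ * γ') ≤ L γ + L γ') → ∃ C, ∀ γ, L γ ≤ C * (1 + len γ)) :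
    ∃ (A : Atl (stdc (D := D) (M := M))) (J : Jets α len D), J.c = A.c := by
  obtain ⟨A⟩ := exists_atl (stdc (D := D) (M := M)) stdc_mem (stdc_biL hι hd himm)
  exact ⟨A, exists_jets_of_atl A α (fun γ => smo_stdc (hα γ)) h0 hlmr⟩

end Pool.Agent.P.MP_d483fb_an.Z.NF
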