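import Pool.Agent.P.MP_d483fb_an.Z.NF.JetAlg
import Pool.Agent.P.MP_d483fb_an.Z.NF.PRes
import Pool.Agent.P.MP_d483fb_an.Z.NF.SlowH

/-!
Normal forms: the algebra of the resonant cocycle and tempered bounds.
-/

open MeasureTheory Filter Topology Set Real

set_option linter.unusedSectionVars false

noncomputable section

namespace Pool.Agent.P.MP_d483fb_an.Z.NF

open Os

variable {W X Γ M : Type} [NormedAddCommGroup W] [NormedSpace ℝ W] [MeasurableSpace W]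
  [MeasurableSpace X] {μ : Measure X} [Group Γ] [MeasurableSpace Γ] [MetricSpace M]
  [MeasurableSpace M] {α : Γ →* Equiv.Perm M} {len : Γ → ℝ} {D : ℕ}
  {S : Sys W X μ} {J : Jets α len D} {K : Skew S J} {lam : Fin D → W →L[ℝ] ℝ} {r : ℕ}
  {a : W} {s1 s2 : ℝ}

namespace Formal

variable (F : Formal K lam r) {x : X}

theorem N_eq (hr : 2 ≤ r) (s : W) (hx : x ∈ F.X0) :
    F.N s x = compv (compv (F.Ψ (S.act s x)) (K.T r s x)) (F.Q x) := by
  rw [F.conj s x hx, compv_assoc, F.ΨQ x hx, compv_idv hr]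

theorem N_zero (hr : 2 ≤ r) (hx : x ∈ F.X0) : F.N 0 x = idv D r := by
  rw [F.N_eq hr 0 hx, K.T_zero hr, compv_idv hr, S.zero, F.ΨQ x hx]

theorem N_add (hr : 2 ≤ r) (s t : W) (hx : x ∈ F.X0) :
    F.N (s + t) x = compv (F.N s (S.act t x)) (F.N t x) := by
  rw [F.N_eq hr (s + t) hx, K.T_add, S.add, ← compv_assoc, F.conj s _ (F.inv0 t x hx),
    compv_assoc (F.N s _), compv_assoc (F.N s _), ← F.N_eq hr t hx]

theorem TQ (hr : 2 ≤ r) (s : W) (hx : x ∈ F.X0) :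
    compv (K.T r s x) (F.Q x) = compv (F.Q (S.act s x)) (F.N s x) := by
  rw [F.N_eq hr s hx, ← compv_assoc, ← compv_assoc, F.QΨ _ (F.inv0 s x hx), idv_compv hr]

theorem Jn_eq (a : W) (n : ℕ) (hx : x ∈ F.X0) :
    F.Jn a n x = compv (F.N (n • a) (S.act (-(n • a)) x)) (F.Ψ (S.act (-(n • a)) x)) := by
  rw [← F.conj _ _ (F.inv0 _ x hx), S.act_neg, Jn]

theorem Jn_Q (hr : 2 ≤ r) (a : W) (n : ℕ) (hx : x ∈ F.X0) :
    compv (F.Jn a n x) (F.Q (S.act (-(n • a)) x)) = F.N (n • a) (S.act (-(n • a)) x) := by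
  rw [F.N_eq hr _ (F.inv0 _ x hx), S.act_neg, Jn]

theorem Jn_zero (hr : 2 ≤ r) (a : W) (x : X) : F.Jn a 0 x = F.Ψ x := by
  rw [Jn, zero_nsmul, K.T_zero hr, compv_idv hr]

theorem act_succ (a : W) (n : ℕ) (x : X) :
    S.act a (S.act (-((n + 1) • a)) x) = S.act (-(n • a)) x := by
  rw [← S.add, succ_nsmul]
  congr 1
  abel

theorem mv_succ (a : W) (n : ℕ) (x : X) (z : M) :
    K.mv a (S.act (-((n + 1) • a)) x) (K.mv (-((n + 1) • a)) x z) = K.mv (-(n • a)) x z := by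
  rw [K.mv_mv, succ_nsmul]
  congr 1
  abel

theorem Jn_succ (a : W) (n : ℕ) (x : X) :
    F.Jn a (n + 1) x = compv (F.Jn a n x) (K.T r a (S.act (-((n + 1) • a)) x)) := by
  rw [Jn, Jn, compv_assoc, ← act_succ (S := S) a n x, ← K.T_add, ← succ_nsmul]

theorem Jn_act (a s : W) (n : ℕ) (hx : x ∈ F.X0) :
    compv (F.Jn a n (S.act s x)) (K.T r s (S.act (-(n • a)) x)) =
      compv (F.N s x) (F.Jn a n x) := by
  have e : K.T r (n • a + s) (S.act (-(n • a)) x) = K.T r (s + n • a) (S.act (-(n • a)) x) := by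
    rw [add_comm]
  rw [K.T_add, K.T_add, S.act_neg] at e
  rw [Jn, Jn, compv_assoc, S.comm, e, ← compv_assoc, F.conj s x hx, compv_assoc]

theorem Hn_zero (hr : 2 ≤ r) (a : W) (x : X) (z : M) :
    F.Hn a 0 x z = evv (F.Ψ x) (J.c (K.pt x) z) := by
  rw [Hn, F.Jn_zero hr, zero_nsmul, neg_zero, S.zero, K.mv_zero]

theorem H_pt (a : W) (x : X) : F.H a x (K.pt x) = 0 := by
  have : (fun n => F.Hn a n x (K.pt x)) = fun _ => 0 := by
    funext n
    rw [Hn, K.mv_pt, J.c_self, evv_zero]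
  rw [H, this]
  exact tendsto_const_nhds.limUnder_eq

theorem N_mem (a s : W) (hx : x ∈ F.X0) {v : E D} (hv : v ∈ U fun i => lam i a) :
    evv (F.N s x) v ∈ U fun i => lam i a :=
  ((F.res s x hx).apply a).evv_mem hv

theorem N_U_add (P : Par K lam r a s1 s2) (s t : W) (hx : x ∈ F.X0) {v : E D}
    (hv : v ∈ U fun i => lam i a) :
    evv (F.N (s + t) x) v = evv (F.N s (S.act t x)) (evv (F.N t x) v) := by
  funext i
  have h := (F.res (s + t) x hx).apply a i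
  rw [F.N_add P.two_le s t hx] at h ⊢
  exact ev_comp_U P.s1_pos (fun j hj => (P.lt.trans (P.gap j hj)).le) (P.res i)
    ((F.res s _ (F.inv0 t x hx)).apply a i) ((F.res t x hx).apply a) h hv

theorem N_U_neg (P : Par K lam r a s1 s2) (s : W) (hx : x ∈ F.X0) {v : E D}
    (hv : v ∈ U fun i => lam i a) : evv (F.N s (S.act (-s) x)) (evv (F.N (-s) x) v) = v := by
  rw [← F.N_U_add P s (-s) hx hv, add_neg_cancel, F.N_zero P.two_le hx, evv_idv P.two_le]

theorem Temp.h_back {ε : ℝ} {q : X → ℝ} {F : Formal K lam r} (T : F.Temp a ε q) (n : ℕ)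
    (hx : x ∈ F.X0) : K.h (S.act (-(n • a)) x) ≤ q x + ε * n :=
  (T.h_le _ (F.inv0 _ x hx)).trans (T.slow_b n x hx)

theorem exists_temp (a : W) {ε : ℝ} (hε : 0 < ε) : ∃ q, F.Temp a ε q := by
  have hr : (0 : ℝ) < r + 2 := by positivity
  set e2 := ε / (r + 2) with he2
  set e1 := e2 / (‖a‖ + 1) with he1
  have h2 : 0 < e2 := by positivity
  have h1 : 0 < e1 := by positivity
  have h3 : e1 * (‖a‖ + 1) = e2 := by rw [he1]; field_simp
  have h4 : e2 * (r + 2) = ε := by rw [he2]; field_simp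
  have hr0 : (0 : ℝ) ≤ r := r.cast_nonneg
  have h12 : e1 ≤ e2 := by nlinarith [norm_nonneg a]
  have h5 : e1 * ‖a‖ ≤ e2 := by nlinarith
  have h6 : (r + 1) * e2 ≤ ε := by nlinarith
  have h7 : e2 ≤ ε := by nlinarith
  obtain ⟨q0, m0, p0, hh, s0, b0⟩ := F.est e1 h1
  obtain ⟨q1, m1, p1, le1, s1, z1⟩ := exists_slow_pow S F.inv0 a m0 p0 h5 h2.le s0
  have hA := F.pc.nonneg
  have hl := abs_nonneg (log ε)
  have hq : ∀ x, q1 x ≤ (r + 1) * q1 x + (F.A + 1 + |log ε|) := fun x => by nlinarith [p1 x]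
  have hq0 : ∀ x ∈ F.X0, q0 x ≤ (r + 1) * q1 x + (F.A + 1 + |log ε|) := fun x hx =>
    (le1 x hx).trans (hq x)
  have zf : ∀ n : ℕ, ∀ x ∈ F.X0, q1 (S.act (n • a) x) ≤ q1 x + e2 * n := fun n x hx => by
    simpa using z1 n x hx
  have zb : ∀ n : ℕ, ∀ x ∈ F.X0, q1 (S.act (-(n • a)) x) ≤ q1 x + e2 * n := fun n x hx => by
    simpa using z1 (-n) x hx
  have hn : ∀ n : ℕ, e1 * ‖n • a‖ ≤ e2 * n := fun n => by
    rw [← Nat.cast_smul_eq_nsmul ℝ, norm_smul, Real.norm_natCast]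
    nlinarith [n.cast_nonneg (α := ℝ)]
  have hm : ∀ (n : ℕ) i, lam i (n • a) = lam i a * n := fun n i => by
    rw [map_nsmul, nsmul_eq_mul, mul_comm]
  refine ⟨fun x => (r + 1) * q1 x + (F.A + 1 + |log ε|), ⟨hε, (m1.const_mul _).add_const _,
    fun x => by nlinarith [p1 x], fun x => ?_, fun x hx => (hh x hx).trans (hq0 x hx),
    fun s x hx => ?_, fun n x hx => ?_, fun n x hx => ?_⟩,
    fun x hx => (b0 x hx).1.trans (exp_le_exp.2 (hq0 x hx)),
    fun x hx => (b0 x hx).2.1.trans (exp_le_exp.2 (hq0 x hx)),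
    fun s x hx i => ((b0 x hx).2.2 s i).trans (exp_le_exp.2 ?_),
    fun n x hx i => ((b0 x hx).2.2 _ i).trans (exp_le_exp.2 ?_),
    fun n x hx i => ((b0 x hx).2.2 _ i).trans (exp_le_exp.2 ?_), fun n x hx i => ?_⟩
  · rw [← exp_log hε, exp_le_exp, log_exp]
    nlinarith [p1 x, neg_abs_le (log ε)]
  · have := mul_le_mul_of_nonneg_left (s1 s x hx) (by positivity : (0 : ℝ) ≤ r + 1)
    have h8 : (r + 1) * e1 ≤ ε := by nlinarith
    nlinarith [mul_le_mul_of_nonneg_right h8 (norm_nonneg s)]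
  · have := mul_le_mul_of_nonneg_left (zf n x hx) (by positivity : (0 : ℝ) ≤ r + 1)
    nlinarith [mul_le_mul_of_nonneg_right h6 (n.cast_nonneg (α := ℝ))]
  · have := mul_le_mul_of_nonneg_left (zb n x hx) (by positivity : (0 : ℝ) ≤ r + 1)
    nlinarith [mul_le_mul_of_nonneg_right h6 (n.cast_nonneg (α := ℝ))]
  · nlinarith [hq0 x hx, mul_le_mul_of_nonneg_right (h12.trans h7) (norm_nonneg s)]
  · rw [hm]
    nlinarith [hq0 x hx, hn n, mul_le_mul_of_nonneg_right h7 (n.cast_nonneg (α := ℝ))]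
  · rw [map_neg, hm, norm_neg]
    nlinarith [hq0 x hx, hn n, mul_le_mul_of_nonneg_right h7 (n.cast_nonneg (α := ℝ))]
  · have hx' := F.inv0 (-(n • a)) x hx
    rw [F.Jn_eq a n hx]
    refine (F.pc.comp_le _ _ _ (p0 _) (b0 _ hx').1).trans ?_
    refine (mul_le_mul_of_nonneg_left ((b0 _ hx').2.2 _ i) (exp_pos _).le).trans ?_
    rw [← exp_add, exp_le_exp, hm]
    have := mul_le_mul_of_nonneg_left ((le1 _ hx').trans (zb n x hx))
      (by positivity : (0 : ℝ) ≤ r + 1)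
    have h9 : e2 * (r + 2) * n = ε * n := by rw [h4]
    nlinarith [hn n]

end Formal

theorem Skew.Sh.fwd {s C : ℝ} {x : X} {z : M} (hs : 0 ≤ s) (m : ℕ)
    (h : K.Sh a s C (S.act (-(m • a)) x) z) :
    K.Sh a s (C * exp (J.L0 * (1 + K.L * (1 + m * ‖a‖ + K.h (S.act (-(m • a)) x))) + s * m)) x
      (K.mv (m • a) (S.act (-(m • a)) x) z) := by
  intro n
  have hC := h.nonneg
  have hL0 := J.L0_nonneg
  have hL := K.L_nonneg
  have hh := K.h_nonneg (S.act (-(m • a)) x)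
  have hm : (0 : ℝ) ≤ m := m.cast_nonneg
  have e0 : K.mv (-(n • a)) x (K.mv (m • a) (S.act (-(m • a)) x) z) =
      K.mv (-(n • a) + m • a) (S.act (-(m • a)) x) z := by
    rw [K.mv_add, S.act_neg]
  have e1 : S.act (-(n • a)) x = S.act (-(n • a) + m • a) (S.act (-(m • a)) x) := by
    rw [S.add, S.act_neg]
  rw [e0, e1, mul_assoc, ← exp_add]
  rcases le_total m n with hmn | hmn
  · obtain ⟨k, rfl⟩ := Nat.exists_eq_add_of_le hmn
    have e2 : -((m + k) • a) + m • a = -(k • a) := by rw [add_nsmul]; abel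
    rw [e2]
    refine (h k).trans (mul_le_mul_of_nonneg_left (exp_le_exp.2 ?_) hC)
    push_cast
    have : 0 ≤ J.L0 * (1 + K.L * (1 + m * ‖a‖ + K.h (S.act (-(m • a)) x))) := by positivity
    nlinarith
  · obtain ⟨k, rfl⟩ := Nat.exists_eq_add_of_le hmn
    have e2 : -(n • a) + (n + k) • a = k • a := by rw [add_nsmul]; abel
    rw [e2, ← K.mv_pt]
    refine (K.mv_lip _ _ _ _).trans ?_
    rw [mul_comm C]
    refine mul_le_mul (exp_le_exp.2 ?_) h.zero dist_nonneg (exp_pos _).le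
    have h3 : ‖k • a‖ ≤ ((n + k : ℕ) : ℝ) * ‖a‖ := by
      rw [← Nat.cast_smul_eq_nsmul ℝ, norm_smul, Real.norm_natCast]
      gcongr
      omega
    have h4 : s * n ≤ s * ((n + k : ℕ) : ℝ) := by
      gcongr
    have h5 : J.L0 * (1 + K.L * (1 + ‖k • a‖ + K.h (S.act (-((n + k) • a)) x))) ≤
        J.L0 * (1 + K.L * (1 + ((n + k : ℕ) : ℝ) * ‖a‖ + K.h (S.act (-((n + k) • a)) x))) := by
      gcongr
    linarith

theorem Par.exists_gap (P : Par K lam r a s1 s2) : ∃ g : ℝ, 0 < g ∧ g ≤ 1 ∧ g ≤ s1 ∧ s1 + g ≤ s2 ∧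
    (∀ i, 0 < lam i a → s2 + g ≤ lam i a) ∧ (∀ i, lam i a + g ≤ r * s1) ∧
    J.L0 * K.L * ‖a‖ + g ≤ r * s1 := by
  have key : ∀ {u v : ℝ}, u < v → ∀ᶠ g in 𝓝[>] (0 : ℝ), u + g ≤ v := fun {u v} h =>
    nhdsWithin_le_nhds ((eventually_le_nhds (sub_pos.2 h)).mono fun g hg => by linarith)
  have h1 : ∀ᶠ g in 𝓝[>] (0 : ℝ), ∀ i, 0 < lam i a → s2 + g ≤ lam i a := by
    refine eventually_all.2 fun i => ?_
    by_cases hi : 0 < lam i a
    · exact (key (P.gap i hi)).mono fun g hg _ => hg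
    · exact Eventually.of_forall fun g hg => absurd hg hi
  have h2 : ∀ᶠ g in 𝓝[>] (0 : ℝ), ∀ i, lam i a + g ≤ r * s1 :=
    eventually_all.2 fun i => key (P.res i)
  obtain ⟨g, g1, g2, g3, g4, g5, g6, g7⟩ := ((eventually_mem_nhdsWithin (s := Ioi (0 : ℝ))).and
    ((key one_pos).and ((key P.s1_pos).and ((key P.lt).and (h1.and (h2.and (key P.lip))))))).exists
  exact ⟨g, g1, by linarith, by linarith, g4, g5, g6, g7⟩

end Pool.Agent.P.MP_d483fb_an.Z.NF
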