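import Pool.Agent.P.MP_d483fb_an.Z.NF.PEv

/-!
Normal forms: estimates for the composition of jets.
-/

open MvPolynomial Filter Topology Real

noncomputable section

namespace Pool.Agent.P.MP_d483fb_an.Z.NF

variable {D r : ℕ}

/-- The sum of the absolute values of the coefficients. -/
def n1 (p : MvPolynomial (Fin D) ℝ) : ℝ := ∑ α ∈ p.support, |coeff α p|

theorem n1_nonneg (p : MvPolynomial (Fin D) ℝ) : 0 ≤ n1 p :=
  Finset.sum_nonneg fun _ _ => abs_nonneg _

theorem sum_le_n1 (p : MvPolynomial (Fin D) ℝ) (s : Finset (Fin D →₀ ℕ)) :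
    ∑ α ∈ s, |coeff α p| ≤ n1 p := by
  classical
  rw [← Finset.sum_filter_ne_zero]
  refine Finset.sum_le_sum_of_subset_of_nonneg (fun α hα => ?_) fun _ _ _ => abs_nonneg _
  exact mem_support_iff.2 (abs_ne_zero.1 (Finset.mem_filter.1 hα).2)

theorem coeff_le_n1 (p : MvPolynomial (Fin D) ℝ) (α : Fin D →₀ ℕ) : |coeff α p| ≤ n1 p := by
  simpa using sum_le_n1 p {α}

theorem n1_sum {ι : Type} (s : Finset ι) (f : ι → MvPolynomial (Fin D) ℝ) :
    n1 (∑ i ∈ s, f i) ≤ ∑ i ∈ s, n1 (f i) := by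
  calc n1 (∑ i ∈ s, f i) ≤ ∑ α ∈ (∑ i ∈ s, f i).support, ∑ i ∈ s, |coeff α (f i)| :=
        Finset.sum_le_sum fun α _ => by
          rw [coeff_sum]
          exact Finset.abs_sum_le_sum_abs _ _
    _ ≤ ∑ i ∈ s, n1 (f i) := by
        rw [Finset.sum_comm]
        exact Finset.sum_le_sum fun i _ => sum_le_n1 _ _

theorem n1_monomial (α : Fin D →₀ ℕ) (c : ℝ) : n1 (monomial α c) ≤ |c| := by
  classical
  refine (Finset.sum_le_sum_of_subset_of_nonneg support_monomial_subset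
    fun _ _ _ => abs_nonneg _).trans_eq ?_
  simp

theorem n1_mul (p q : MvPolynomial (Fin D) ℝ) : n1 (p * q) ≤ n1 p * n1 q := by
  conv_lhs => rw [p.as_sum, q.as_sum, Finset.sum_mul_sum]
  conv_rhs => rw [n1, n1, Finset.sum_mul_sum]
  refine (n1_sum _ _).trans (Finset.sum_le_sum fun α _ =>
    (n1_sum _ _).trans (Finset.sum_le_sum fun β _ => ?_))
  rw [monomial_mul, ← abs_mul]
  exact n1_monomial _ _

theorem n1_one : n1 (1 : MvPolynomial (Fin D) ℝ) ≤ 1 := by
  simpa using n1_monomial (D := D) 0 1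

theorem n1_pow {p : MvPolynomial (Fin D) ℝ} {K : ℝ} (h : n1 p ≤ K) (n : ℕ) :
    n1 (p ^ n) ≤ K ^ n := by
  induction n with
  | zero => simpa using n1_one
  | succ n ih =>
    rw [pow_succ, pow_succ]
    exact (n1_mul _ _).trans (mul_le_mul ih h (n1_nonneg _) ((n1_nonneg _).trans ih))

theorem n1_prod {ι : Type} (s : Finset ι) {f : ι → MvPolynomial (Fin D) ℝ} {K : ι → ℝ}
    (h : ∀ i, n1 (f i) ≤ K i) : n1 (∏ i ∈ s, f i) ≤ ∏ i ∈ s, K i := by
  classical
  induction s using Finset.induction_on with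
  | empty => simpa using n1_one
  | insert a s ha ih =>
    rw [Finset.prod_insert ha, Finset.prod_insert ha]
    exact (n1_mul _ _).trans (mul_le_mul (h a) ih (n1_nonneg _) ((n1_nonneg _).trans (h a)))

theorem n1_toPoly (t : V D r) : n1 (toPoly t) ≤ Fintype.card (Idx D r) * ‖t‖ := by
  refine (n1_sum _ _).trans ((Finset.sum_le_card_nsmul _ _ ‖t‖ fun α _ =>
    (n1_monomial _ _).trans (norm_le_pi_norm t α)).trans_eq ?_)
  rw [nsmul_eq_mul, Finset.card_univ]

theorem n1_bind (t : V D r) {f : Fin D → MvPolynomial (Fin D) ℝ} {K : ℝ} (hK : 1 ≤ K)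
    (h : ∀ j, n1 (f j) ≤ K) :
    n1 (bind₁ f (toPoly t)) ≤ Fintype.card (Idx D r) * (‖t‖ * K ^ r) := by
  rw [toPoly, map_sum]
  refine (n1_sum _ _).trans ((Finset.sum_le_card_nsmul _ _ (‖t‖ * K ^ r)
    fun α _ => ?_).trans_eq ?_)
  · rw [bind₁_monomial]
    refine (n1_mul _ _).trans (mul_le_mul ((n1_monomial 0 _).trans (norm_le_pi_norm t α))
      ((n1_prod _ fun j => n1_pow (h j) _).trans ?_) (n1_nonneg _) (norm_nonneg _))
    rw [Finset.prod_pow_eq_pow_sum]
    exact pow_le_pow_right₀ hK α.2.2.le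
  · rw [nsmul_eq_mul, Finset.card_univ]

theorem n1_comp (t : V D r) (T : Jt D r) {R : ℝ} (hR : 0 ≤ R) (hT : ‖T‖ ≤ exp R) :
    n1 (bind₁ (fun j => toPoly (T j)) (toPoly t)) ≤
      exp ((r + 1) * Fintype.card (Idx D r) + r * R) * ‖t‖ := by
  set κ : ℝ := (Fintype.card (Idx D r) : ℝ)
  have hκ : 0 ≤ κ := Nat.cast_nonneg _
  have h1 : κ ≤ exp κ := by linarith [add_one_le_exp κ]
  have h2 := n1_bind t (f := fun j => toPoly (T j)) (K := exp (κ + R))
    (one_le_exp (by linarith)) fun j => (n1_toPoly _).trans (by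
      rw [exp_add]
      exact mul_le_mul h1 ((norm_le_pi_norm T j).trans hT) (norm_nonneg _) (exp_pos _).le)
  refine h2.trans ((mul_le_mul_of_nonneg_right h1 (by positivity)).trans_eq ?_)
  rw [← exp_nat_mul, show (r + 1) * κ + r * R = κ + r * (κ + R) by ring, exp_add]
  ring

theorem eval_comp (t : V D r) (T : Jt D r) (w : E D) :
    eval w (bind₁ (fun j => toPoly (T j)) (toPoly t)) = ev t (evv T w) := by
  rw [ev_eq_eval, show evv T w = fun j => eval w (toPoly (T j)) from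
    funext fun j => ev_eq_eval _ _]
  exact aeval_bind₁ w _ _

theorem trunc_err {p : MvPolynomial (Fin D) ℝ} (h0 : coeff 0 p = 0) {w : E D} (hw : ‖w‖ ≤ 1) :
    |ev (ofPoly p : V D r) w - eval w p| ≤ n1 p * ‖w‖ ^ r := by
  rw [ev_eq_eval, ← map_sub, eval_eq']
  refine (Finset.abs_sum_le_sum_abs _ _).trans (le_trans (Finset.sum_le_sum fun α hα => ?_)
    ((Finset.sum_mul _ _ _).ge.trans (mul_le_mul_of_nonneg_right (sum_le_n1 p _) (by positivity))))
  have h1 := mem_support_iff.1 hα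
  rw [coeff_sub] at h1 ⊢
  by_cases h2 : 0 < α.degree ∧ α.degree < r
  · exact absurd (sub_eq_zero.2 (coeff_toPoly (ofPoly p : V D r) ⟨α, h2⟩)) h1
  · rw [coeff_toPoly_of_not _ h2, zero_sub] at h1 ⊢
    have h3 : 0 < α.degree := Nat.pos_of_ne_zero fun e => h1 (by
      rw [(Finsupp.degree_eq_zero_iff α).1 e, h0, neg_zero])
    have h4 : r ≤ α.degree := not_lt.1 fun e => h2 ⟨h3, e⟩
    rw [abs_mul, abs_neg, Finset.abs_prod]
    refine mul_le_mul_of_nonneg_left ((Finset.prod_le_prod (g := fun j => ‖w‖ ^ α j)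
      (fun _ _ => abs_nonneg _) fun j _ => ?_).trans ?_) (abs_nonneg _)
    · rw [abs_pow]
      exact pow_le_pow_left₀ (abs_nonneg _) (norm_le_pi_norm w j) _
    · rw [Finset.prod_pow_eq_pow_sum, ← Finsupp.degree_eq_sum]
      exact pow_le_pow_of_le_one (norm_nonneg _) hw h4

theorem exists_pc (D r : ℕ) : ∃ A : ℝ, PC D r A := by
  obtain ⟨A, h0, h1, h2, h3, h4⟩ := exists_pc_ev D r
  set B : ℝ := (r + 1) * Fintype.card (Idx D r)
  have hB : 0 ≤ B := by positivity
  have e2 : exp A ≤ exp (A + B) := exp_le_exp.2 (by linarith)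
  have e3 : ∀ (t : V D r) (T : Jt D r) (R : ℝ), 0 ≤ R → ‖T‖ ≤ exp R →
      n1 (bind₁ (fun j => toPoly (T j)) (toPoly t)) ≤ exp (A + B + r * R) * ‖t‖ :=
    fun t T R hR hT => (n1_comp t T hR hT).trans
      (mul_le_mul_of_nonneg_right (exp_le_exp.2 (by linarith)) (norm_nonneg _))
  refine ⟨A + B, by linarith, fun t w R hR hw => (h1 t w R hR hw).trans ?_,
    fun t w w' R hR hw hw' => (h2 t w w' R hR hw hw').trans ?_, fun t w hw => (h3 t w hw).trans ?_,
    fun t => (h4 t).trans ?_, fun t T R hR hT => ?_, fun t T w R hR hT hw => ?_⟩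
  · gcongr
    linarith
  · gcongr
    linarith
  · gcongr
  · gcongr
  · exact (pi_norm_le_iff_of_nonneg (by positivity)).2 fun α =>
      (coeff_le_n1 _ _).trans (e3 t T R hR hT)
  · rw [← eval_comp]
    refine (trunc_err ?_ hw).trans (mul_le_mul_of_nonneg_right (e3 t T R hR hT) (by positivity))
    have h5 := eval_comp t T 0
    rwa [evv_zero, ev_zero, eval_zero] at h5

end Pool.Agent.P.MP_d483fb_an.Z.NF
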