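import Pool.Agent.P.MP_d483fb_an.Z.NF.Poly

/-!
Normal forms: estimates for the evaluation of jets.
-/

open MvPolynomial Filter Topology Real

noncomputable section

namespace Pool.Agent.P.MP_d483fb_an.Z.NF

variable {D r : ℕ}

theorem PEv_mono_le (α : Fin D →₀ ℕ) (w : E D) : |mono α w| ≤ ‖w‖ ^ α.degree := by
  unfold mono
  rw [Finset.abs_prod, Finsupp.degree_eq_sum, ← Finset.prod_pow_eq_pow_sum]
  refine Finset.prod_le_prod (fun _ _ => abs_nonneg _) fun j _ => ?_
  rw [abs_pow]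
  exact pow_le_pow_left₀ (abs_nonneg _) (norm_le_pi_norm w j) _

theorem ev_eq_eval (t : V D r) (w : E D) : ev t w = eval w (toPoly t) := by
  unfold ev toPoly mono
  rw [map_sum]
  refine Finset.sum_congr rfl fun α _ => ?_
  rw [eval_monomial, Finsupp.prod_fintype _ _ fun i => pow_zero _]

theorem coeff_toPoly (t : V D r) (α : Idx D r) : coeff α.1 (toPoly t) = t α := by
  classical
  unfold toPoly
  rw [coeff_sum, Finset.sum_eq_single α, coeff_monomial, if_pos rfl]
  · intro β _ hβ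
    rw [coeff_monomial, if_neg fun h => hβ (Subtype.ext h)]
  · intro h
    exact absurd (Finset.mem_univ α) h

theorem coeff_toPoly_of_not (t : V D r) {α : Fin D →₀ ℕ} (h : ¬ (0 < α.degree ∧ α.degree < r)) :
    coeff α (toPoly t) = 0 := by
  classical
  unfold toPoly
  rw [coeff_sum]
  refine Finset.sum_eq_zero fun β _ => ?_
  rw [coeff_monomial, if_neg]
  rintro rfl
  exact h β.2

theorem ofPoly_toPoly (t : V D r) : ofPoly (toPoly t) = t := by
  funext α
  exact coeff_toPoly t α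

theorem ev_add (t t' : V D r) (w : E D) : ev (t + t') w = ev t w + ev t' w := by
  simp only [ev, Pi.add_apply, add_mul, Finset.sum_add_distrib]

theorem ev_sub (t t' : V D r) (w : E D) : ev (t - t') w = ev t w - ev t' w := by
  simp only [ev, Pi.sub_apply, sub_mul, Finset.sum_sub_distrib]

theorem ev_smul (c : ℝ) (t : V D r) (w : E D) : ev (c • t) w = c * ev t w := by
  simp only [ev, Pi.smul_apply, smul_eq_mul, Finset.mul_sum, mul_assoc]

theorem ev_zero (t : V D r) : ev t 0 = 0 := by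
  refine Finset.sum_eq_zero fun α _ => ?_
  have h := PEv_mono_le α.1 (0 : E D)
  rw [norm_zero, zero_pow α.2.1.ne'] at h
  rw [abs_nonpos_iff.1 h, mul_zero]

theorem evv_zero (T : Jt D r) : evv T 0 = 0 := by
  funext i
  exact ev_zero (T i)

theorem lin_add (t t' : V D r) : lin (t + t') = lin t + lin t' := by
  simp only [lin, toPoly_add, coeff_add, add_smul, Finset.sum_add_distrib]

theorem lin_smul (c : ℝ) (t : V D r) : lin (c • t) = c • lin t := by
  simp only [lin, toPoly_smul, coeff_smul, Finset.smul_sum, smul_assoc]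

theorem lin_sum {ι : Type} (s : Finset ι) (t : ι → V D r) :
    lin (∑ i ∈ s, t i) = ∑ i ∈ s, lin (t i) := by
  classical
  induction s using Finset.induction_on with
  | empty =>
    have h := lin_smul 0 (0 : V D r)
    rw [zero_smul, zero_smul] at h
    rw [Finset.sum_empty, Finset.sum_empty, h]
  | insert a s ha ih => rw [Finset.sum_insert ha, Finset.sum_insert ha, lin_add, ih]

/-- Two values of a product of `n` factors. -/
def PEv_P (M δ : ℝ) (n : ℕ) (a b : ℝ) : Prop :=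
  |a| ≤ M ^ n ∧ |b| ≤ M ^ n ∧ |a - b| ≤ n * M ^ n * δ

theorem PEv_P_one (M δ : ℝ) : PEv_P M δ 0 1 1 := by
  simp [PEv_P]

theorem PEv_P_mul {M δ : ℝ} {n m : ℕ} {a b c d : ℝ} (h : PEv_P M δ n a b) (h' : PEv_P M δ m c d) :
    PEv_P M δ (n + m) (a * c) (b * d) := by
  obtain ⟨h1, h2, h3⟩ := h
  obtain ⟨k1, k2, k3⟩ := h'
  have p1 : 0 ≤ M ^ n := (abs_nonneg _).trans h1
  refine ⟨?_, ?_, ?_⟩
  · rw [abs_mul, pow_add]
    exact mul_le_mul h1 k1 (abs_nonneg _) p1
  · rw [abs_mul, pow_add]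
    exact mul_le_mul h2 k2 (abs_nonneg _) p1
  · have e : a * c - b * d = a * (c - d) + (a - b) * d := by ring
    have q1 := mul_le_mul h1 k3 (abs_nonneg _) p1
    have q2 := mul_le_mul h3 k2 (abs_nonneg _) ((abs_nonneg _).trans h3)
    rw [e]
    refine (abs_add_le _ _).trans ?_
    rw [abs_mul, abs_mul]
    refine (add_le_add q1 q2).trans (le_of_eq ?_)
    rw [pow_add, Nat.cast_add]
    ring

theorem PEv_P_pow {M δ a b : ℝ} (h : PEv_P M δ 1 a b) (n : ℕ) : PEv_P M δ n (a ^ n) (b ^ n) := by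
  induction n with
  | zero => rw [pow_zero, pow_zero]; exact PEv_P_one M δ
  | succ n ih => rw [pow_succ, pow_succ]; exact PEv_P_mul ih h

theorem PEv_mono_lip (α : Fin D →₀ ℕ) {w w' : E D} {M : ℝ} (hM : 1 ≤ M) (hw : ‖w‖ ≤ M)
    (hw' : ‖w'‖ ≤ M) : |mono α w - mono α w'| ≤ α.degree * M ^ α.degree * ‖w - w'‖ := by
  have h1 : ∀ j, PEv_P M ‖w - w'‖ 1 (w j) (w' j) := fun j => by
    refine ⟨?_, ?_, ?_⟩
    · rw [pow_one]
      exact (norm_le_pi_norm w j).trans hw
    · rw [pow_one]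
      exact (norm_le_pi_norm w' j).trans hw'
    · rw [pow_one, Nat.cast_one, one_mul]
      exact (norm_le_pi_norm (w - w') j).trans (le_mul_of_one_le_left (norm_nonneg _) hM)
  have key : ∀ s : Finset (Fin D), PEv_P M ‖w - w'‖ (∑ j ∈ s, α j) (∏ j ∈ s, w j ^ α j)
      (∏ j ∈ s, w' j ^ α j) := by
    intro s
    induction s using Finset.induction_on with
    | empty => exact PEv_P_one _ _
    | insert a s ha ih =>
      rw [Finset.sum_insert ha, Finset.prod_insert ha, Finset.prod_insert ha]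
      exact PEv_P_mul (PEv_P_pow (h1 a) _) ih
  rw [Finsupp.degree_eq_sum]
  exact (key Finset.univ).2.2

theorem PEv_sum_le (t : V D r) (f : Idx D r → ℝ) {B : ℝ} (h : ∀ α, |f α| ≤ B) :
    |∑ α, t α * f α| ≤ Fintype.card (Idx D r) * (‖t‖ * B) := by
  refine (Finset.abs_sum_le_sum_abs _ _).trans ?_
  rw [← nsmul_eq_mul, ← Finset.card_univ]
  refine Finset.sum_le_card_nsmul _ _ _ fun α _ => ?_
  rw [abs_mul]
  exact mul_le_mul (norm_le_pi_norm t α) (h α) (abs_nonneg _) (norm_nonneg _)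

theorem PEv_lin_apply (t : V D r) (w : E D) :
    lin t w = ∑ j, coeff (Finsupp.single j 1) (toPoly t) * w j := by
  simp [lin]

open Classical in
theorem PEv_lin_eq (t : V D r) (w : E D) :
    lin t w = ∑ α, t α * ∑ j, if α.1 = Finsupp.single j 1 then w j else 0 := by
  rw [PEv_lin_apply]
  simp only [toPoly, coeff_sum, coeff_monomial, Finset.sum_mul, Finset.mul_sum]
  rw [Finset.sum_comm]
  refine Finset.sum_congr rfl fun α _ => Finset.sum_congr rfl fun j _ => ?_
  split_ifs <;> simp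

open Classical in
theorem PEv_mono_lin (α : Fin D →₀ ℕ) (hα : 0 < α.degree) {w : E D} (hw : ‖w‖ ≤ 1) :
    |mono α w - ∑ j, if α = Finsupp.single j 1 then w j else 0| ≤ ‖w‖ ^ 2 := by
  by_cases h : ∃ j, α = Finsupp.single j 1
  · obtain ⟨j, rfl⟩ := h
    have e1 : mono (Finsupp.single j 1) w = w j := by
      unfold mono
      rw [Finset.prod_eq_single j, Finsupp.single_eq_same, pow_one]
      · intro i _ hi
        rw [Finsupp.single_eq_of_ne hi, pow_zero]
      · intro h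
        exact absurd (Finset.mem_univ j) h
    rw [e1, Finset.sum_eq_single j, if_pos rfl, sub_self, abs_zero]
    · positivity
    · intro i _ hi
      rw [if_neg fun h => hi (Finsupp.single_left_injective one_ne_zero h).symm]
    · intro h
      exact absurd (Finset.mem_univ j) h
  · rw [Finset.sum_eq_zero fun j _ => if_neg fun hj => h ⟨j, hj⟩, sub_zero]
    refine (PEv_mono_le α w).trans (pow_le_pow_of_le_one (norm_nonneg _) hw ?_)
    by_contra h2
    have h1 : α ∈ {d : Fin D →₀ ℕ | d.degree = 1} := by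
      show α.degree = 1
      omega
    rw [← Finsupp.range_single_one] at h1
    obtain ⟨j, hj⟩ := h1
    exact h ⟨j, hj.symm⟩

theorem PEv_coeff_le (t : V D r) (α : Fin D →₀ ℕ) : |coeff α (toPoly t)| ≤ ‖t‖ := by
  by_cases h : 0 < α.degree ∧ α.degree < r
  · rw [coeff_toPoly t ⟨α, h⟩]
    exact norm_le_pi_norm t _
  · rw [coeff_toPoly_of_not t h, abs_zero]
    exact norm_nonneg _

theorem exists_pc_ev (D r : ℕ) : ∃ A : ℝ, 0 ≤ A ∧
    (∀ (t : V D r) (w : E D) (R : ℝ), 0 ≤ R → ‖w‖ ≤ exp R →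
      |ev t w| ≤ exp (A + r * R) * ‖t‖ * ‖w‖) ∧
    (∀ (t : V D r) (w w' : E D) (R : ℝ), 0 ≤ R → ‖w‖ ≤ exp R → ‖w'‖ ≤ exp R →
      |ev t w - ev t w'| ≤ exp (A + r * R) * ‖t‖ * ‖w - w'‖) ∧
    (∀ (t : V D r) (w : E D), ‖w‖ ≤ 1 → |ev t w - lin t w| ≤ exp A * ‖t‖ * ‖w‖ ^ 2) ∧
    ∀ t : V D r, ‖lin t‖ ≤ exp A * ‖t‖ := by
  obtain ⟨A, hA, h1, h2, h3⟩ : ∃ A : ℝ, 0 ≤ A ∧ (Fintype.card (Idx D r) : ℝ) * r ≤ exp A ∧
      (Fintype.card (Idx D r) : ℝ) ≤ exp A ∧ (D : ℝ) ≤ exp A := by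
    have p1 : (0 : ℝ) ≤ (Fintype.card (Idx D r) : ℝ) * r := by positivity
    have p2 : (0 : ℝ) ≤ (Fintype.card (Idx D r) : ℝ) := by positivity
    have p3 : (0 : ℝ) ≤ (D : ℝ) := by positivity
    have := Real.add_one_le_exp ((Fintype.card (Idx D r) : ℝ) * r + Fintype.card (Idx D r) + D)
    exact ⟨(Fintype.card (Idx D r) : ℝ) * r + Fintype.card (Idx D r) + D, by positivity,
      by linarith, by linarith, by linarith⟩
  have hlip : ∀ (t : V D r) (w w' : E D) (R : ℝ), 0 ≤ R → ‖w‖ ≤ exp R → ‖w'‖ ≤ exp R →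
      |ev t w - ev t w'| ≤ exp (A + r * R) * ‖t‖ * ‖w - w'‖ := by
    intro t w w' R hR hw hw'
    have hM := Real.one_le_exp hR
    have e : ev t w - ev t w' = ∑ α, t α * (mono α.1 w - mono α.1 w') := by
      simp only [ev, mul_sub, Finset.sum_sub_distrib]
    have hb : ∀ α : Idx D r, |mono α.1 w - mono α.1 w'| ≤ r * exp R ^ r * ‖w - w'‖ := fun α =>
      (PEv_mono_lip α.1 hM hw hw').trans (mul_le_mul_of_nonneg_right
        (mul_le_mul (Nat.cast_le.2 α.2.2.le) (pow_le_pow_right₀ hM α.2.2.le) (by positivity)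
          (by positivity)) (norm_nonneg _))
    rw [e]
    refine (PEv_sum_le t _ hb).trans ?_
    rw [Real.exp_add, Real.exp_nat_mul]
    calc (Fintype.card (Idx D r) : ℝ) * (‖t‖ * (r * exp R ^ r * ‖w - w'‖))
        = (Fintype.card (Idx D r) : ℝ) * r * (exp R ^ r * ‖t‖ * ‖w - w'‖) := by ring
      _ ≤ exp A * (exp R ^ r * ‖t‖ * ‖w - w'‖) := mul_le_mul_of_nonneg_right h1 (by positivity)
      _ = _ := by ring
  refine ⟨A, hA, fun t w R hR hw => ?_, hlip, fun t w hw => ?_, fun t => ?_⟩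
  · have h := hlip t w 0 R hR hw (by rw [norm_zero]; exact (Real.exp_pos R).le)
    rwa [ev_zero, sub_zero, sub_zero] at h
  · rw [PEv_lin_eq, ev, ← Finset.sum_sub_distrib]
    simp only [← mul_sub]
    refine (PEv_sum_le t _ fun α => PEv_mono_lin α.1 α.2.1 hw).trans ?_
    rw [mul_assoc]
    exact mul_le_mul_of_nonneg_right h2 (by positivity)
  · refine ContinuousLinearMap.opNorm_le_bound _ (by positivity) fun w => ?_
    rw [PEv_lin_apply, Real.norm_eq_abs]
    refine (Finset.abs_sum_le_sum_abs _ _).trans ?_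
    refine (Finset.sum_le_card_nsmul _ _ (‖t‖ * ‖w‖) fun j _ => ?_).trans ?_
    · rw [abs_mul]
      exact mul_le_mul (PEv_coeff_le t _) (norm_le_pi_norm w j) (abs_nonneg _) (norm_nonneg _)
    · rw [Finset.card_univ, Fintype.card_fin, nsmul_eq_mul, mul_assoc]
      exact mul_le_mul_of_nonneg_right h3 (by positivity)

end Pool.Agent.P.MP_d483fb_an.Z.NF
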