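import Mathlib

/-!
Normal forms: truncated polynomial maps of `ℝ^D` without constant term (jets of order `< r`).
-/

open MvPolynomial

noncomputable section

namespace Pool.Agent.P.MP_d483fb_an.Z.NF

/-- The model space with the sup norm. -/
abbrev E (D : ℕ) : Type := Fin D → ℝ

/-- Exponents of the monomials of degree between `1` and `r - 1`. -/
def Idx (D r : ℕ) : Type := {α : Fin D →₀ ℕ // 0 < α.degree ∧ α.degree < r}

instance (D r : ℕ) : Finite (Idx D r) :=
  ((Finsupp.finite_of_degree_lt (σ := Fin D) r).subset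
    (t := {α : Fin D →₀ ℕ | 0 < α.degree ∧ α.degree < r}) fun _ h => h.2).to_subtype

instance (D r : ℕ) : Fintype (Idx D r) := Fintype.ofFinite _

instance (D r : ℕ) : DecidableEq (Idx D r) := Classical.decEq _

/-- Jets of real functions vanishing at `0`, as coefficient vectors with the sup norm. -/
abbrev V (D r : ℕ) : Type := Idx D r → ℝ

/-- Jets of maps fixing `0`. -/
abbrev Jt (D r : ℕ) : Type := Fin D → V D r

variable {D r : ℕ}

/-- A monomial function. -/
def mono (α : Fin D →₀ ℕ) (w : E D) : ℝ := ∏ j, w j ^ α j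

/-- The polynomial function of a jet. -/
def ev (t : V D r) (w : E D) : ℝ := ∑ α, t α * mono α.1 w

/-- The polynomial map of a jet. -/
def evv (T : Jt D r) (w : E D) : E D := fun i => ev (T i) w

/-- The polynomial of a jet. -/
def toPoly (t : V D r) : MvPolynomial (Fin D) ℝ := ∑ α, monomial α.1 (t α)

/-- The jet of a polynomial. -/
def ofPoly (p : MvPolynomial (Fin D) ℝ) : V D r := fun α => coeff α.1 p

/-- Truncated composition `t ∘ T`. -/
def comp (t : V D r) (T : Jt D r) : V D r := ofPoly (bind₁ (fun j => toPoly (T j)) (toPoly t))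

/-- Truncated composition `S ∘ T`. -/
def compv (S T : Jt D r) : Jt D r := fun i => comp (S i) T

/-- The jet of the identity. -/
def idv (D r : ℕ) : Jt D r := fun i => ofPoly (X i)

theorem toPoly_add (t t' : V D r) : toPoly (t + t') = toPoly t + toPoly t' := by
  simp [toPoly, Finset.sum_add_distrib]

theorem toPoly_smul (c : ℝ) (t : V D r) : toPoly (c • t) = c • toPoly t := by
  simp [toPoly, Finset.smul_sum, smul_monomial]

/-- Composition with `T` as a linear map. -/
def compL (T : Jt D r) : V D r →L[ℝ] V D r :=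
  LinearMap.toContinuousLinearMap
    { toFun := fun t => comp t T
      map_add' := fun t t' => by
        funext α
        simp [comp, ofPoly, toPoly_add]
      map_smul' := fun c t => by
        funext α
        simp [comp, ofPoly, toPoly_smul] }

theorem compL_apply (T : Jt D r) (t : V D r) : compL T t = comp t T := rfl

/-- The linear part of a jet. -/
def lin (t : V D r) : E D →L[ℝ] ℝ :=
  ∑ j, coeff (Finsupp.single j 1) (toPoly t) • ContinuousLinearMap.proj j

/-- The linear part of a jet. -/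
def linv (T : Jt D r) : E D →L[ℝ] E D := ContinuousLinearMap.pi fun i => lin (T i)

theorem linv_apply (T : Jt D r) (w : E D) (i : Fin D) : linv T w i = lin (T i) w := rfl

/-- The jet of the linear form with coefficients `g`. -/
def ofLin (r : ℕ) (g : E D) : V D r := ofPoly (∑ j, C (g j) * X j)

/-- The weight of a monomial. -/
def wt {Λ : Type} [AddCommMonoid Λ] (lam : Fin D → Λ) (α : Fin D →₀ ℕ) : Λ := ∑ j, α j • lam j

/-- All monomials of `t` have weight `c`. -/
def Res1 {Λ : Type} [AddCommMonoid Λ] (lam : Fin D → Λ) (c : Λ) (t : V D r) : Prop :=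
  ∀ α, t α ≠ 0 → wt lam α.1 = c

/-- A resonant jet. -/
def Res {Λ : Type} [AddCommMonoid Λ] (lam : Fin D → Λ) (T : Jt D r) : Prop :=
  ∀ i, Res1 lam (lam i) (T i)

/-- The diagonal dilation with exponents `c`. -/
def dil (c : Fin D → ℝ) (w : E D) : E D := fun j => Real.exp (c j) * w j

/-- The subspace of the coordinates of positive weight. -/
def U (c : Fin D → ℝ) : Set (E D) := {v | ∀ j, c j ≤ 0 → v j = 0}

/-- On `U c` the function `f` is a polynomial in the coordinates of positive weight all of whose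
monomials have weight at most `c0`. -/
def SubRes1 (c : Fin D → ℝ) (c0 : ℝ) (f : E D → ℝ) : Prop :=
  ∃ P : MvPolynomial (Fin D) ℝ, (∀ α ∈ P.support, (∀ j, α j ≠ 0 → 0 < c j) ∧ wt c α ≤ c0) ∧
    ∀ v ∈ U c, f v = eval v P

/-- A subresonant polynomial map on `U c`. -/
def SubRes (c : Fin D → ℝ) (S : E D → E D) : Prop := ∀ i, SubRes1 c (c i) fun v => S v i

/-- A polynomial function of degree at most `m`. -/
def IsPoly (m : ℕ) (f : E D → ℝ) : Prop :=
  ∃ P : MvPolynomial (Fin D) ℝ, P.totalDegree ≤ m ∧ ∀ v, f v = eval v P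

/-- The elementary estimates for jets hold with the constant `exp A`. -/
structure PC (D r : ℕ) (A : ℝ) : Prop where
  nonneg : 0 ≤ A
  ev_le : ∀ (t : V D r) (w : E D) (R : ℝ), 0 ≤ R → ‖w‖ ≤ Real.exp R →
    |ev t w| ≤ Real.exp (A + r * R) * ‖t‖ * ‖w‖
  ev_lip : ∀ (t : V D r) (w w' : E D) (R : ℝ), 0 ≤ R → ‖w‖ ≤ Real.exp R → ‖w'‖ ≤ Real.exp R →
    |ev t w - ev t w'| ≤ Real.exp (A + r * R) * ‖t‖ * ‖w - w'‖
  ev_lin : ∀ (t : V D r) (w : E D), ‖w‖ ≤ 1 → |ev t w - lin t w| ≤ Real.exp A * ‖t‖ * ‖w‖ ^ 2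
  lin_le : ∀ t : V D r, ‖lin t‖ ≤ Real.exp A * ‖t‖
  comp_le : ∀ (t : V D r) (T : Jt D r) (R : ℝ), 0 ≤ R → ‖T‖ ≤ Real.exp R →
    ‖comp t T‖ ≤ Real.exp (A + r * R) * ‖t‖
  comp_err : ∀ (t : V D r) (T : Jt D r) (w : E D) (R : ℝ), 0 ≤ R → ‖T‖ ≤ Real.exp R → ‖w‖ ≤ 1 →
    |ev (comp t T) w - ev t (evv T w)| ≤ Real.exp (A + r * R) * ‖t‖ * ‖w‖ ^ r

namespace PC

variable {A : ℝ} (h : PC D r A)
include h

theorem evv_le (T : Jt D r) (w : E D) {R : ℝ} (hR : 0 ≤ R) (hw : ‖w‖ ≤ Real.exp R) :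
    ‖evv T w‖ ≤ Real.exp (A + r * R) * ‖T‖ * ‖w‖ :=
  (pi_norm_le_iff_of_nonneg (by positivity)).2 fun i => (h.ev_le (T i) w R hR hw).trans (by
    gcongr
    exact norm_le_pi_norm T i)

theorem evv_lip (T : Jt D r) (w w' : E D) {R : ℝ} (hR : 0 ≤ R) (hw : ‖w‖ ≤ Real.exp R)
    (hw' : ‖w'‖ ≤ Real.exp R) :
    ‖evv T w - evv T w'‖ ≤ Real.exp (A + r * R) * ‖T‖ * ‖w - w'‖ :=
  (pi_norm_le_iff_of_nonneg (by positivity)).2 fun i => (h.ev_lip (T i) w w' R hR hw hw').trans (by
    gcongr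
    exact norm_le_pi_norm T i)

theorem evv_lin (T : Jt D r) (w : E D) (hw : ‖w‖ ≤ 1) :
    ‖evv T w - linv T w‖ ≤ Real.exp A * ‖T‖ * ‖w‖ ^ 2 :=
  (pi_norm_le_iff_of_nonneg (by positivity)).2 fun i => (h.ev_lin (T i) w hw).trans (by
    gcongr
    exact norm_le_pi_norm T i)

theorem linv_le (T : Jt D r) : ‖linv T‖ ≤ Real.exp A * ‖T‖ :=
  ContinuousLinearMap.opNorm_le_bound _ (by positivity) fun w =>
    (pi_norm_le_iff_of_nonneg (by positivity)).2 fun i => ((lin (T i)).le_opNorm w).trans (by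
      gcongr
      exact (h.lin_le (T i)).trans (by gcongr; exact norm_le_pi_norm T i))

theorem compv_le (S T : Jt D r) {R : ℝ} (hR : 0 ≤ R) (hT : ‖T‖ ≤ Real.exp R) :
    ‖compv S T‖ ≤ Real.exp (A + r * R) * ‖S‖ :=
  (pi_norm_le_iff_of_nonneg (by positivity)).2 fun i => (h.comp_le (S i) T R hR hT).trans (by
    gcongr
    exact norm_le_pi_norm S i)

theorem compv_err (S T : Jt D r) (w : E D) {R : ℝ} (hR : 0 ≤ R) (hT : ‖T‖ ≤ Real.exp R)
    (hw : ‖w‖ ≤ 1) :
    ‖evv (compv S T) w - evv S (evv T w)‖ ≤ Real.exp (A + r * R) * ‖S‖ * ‖w‖ ^ r :=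
  (pi_norm_le_iff_of_nonneg (by positivity)).2 fun i => (h.comp_err (S i) T w R hR hT hw).trans (by
    gcongr
    exact norm_le_pi_norm S i)

end PC

end Pool.Agent.P.MP_d483fb_an.Z.NF
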