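import Pool.Agent.P.MP_d483fb_an.Z.NF.NAlg

/-!
Normal forms: pseudo orbits with prescribed normal form coordinates and their shadowing.
-/

open MeasureTheory Filter Topology Set Real

set_option linter.unusedSectionVars false

noncomputable section

namespace Pool.Agent.P.MP_d483fb_an.Z.NF

open Os

variable {W X Γ M : Type} [NormedAddCommGroup W] [NormedSpace ℝ W] [MeasurableSpace W]
  [MeasurableSpace X] {μ : Measure X} [Group Γ] [MeasurableSpace Γ] [MetricSpace M]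
  [MeasurableSpace M] {α : Γ →* Equiv.Perm M} {len : Γ → ℝ} {D : ℕ}
  {S : Sys W X μ} {J : Jets α len D} {K : Skew S J} {lam : Fin D → W →L[ℝ] ℝ} {r : ℕ}
  {a : W} {s1 s2 : ℝ}

theorem ps_small {t e e' c : ℝ} (ht : t ≤ exp (-c)) (h : e - c ≤ e') : exp e * t ≤ exp e' :=
  calc exp e * t ≤ exp e * exp (-c) := by gcongr
    _ = exp (e - c) := by rw [← exp_add, sub_eq_add_neg]
    _ ≤ exp e' := exp_le_exp.2 h

theorem ps_pow {t d e : ℝ} {r : ℕ} (hr : 1 ≤ r) (hd0 : 0 ≤ d) (ht0 : 0 ≤ t) (ht : t ≤ 1)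
    (hd : d ≤ exp e * t) : d ^ r ≤ exp (r * e) * t :=
  calc d ^ r ≤ (exp e * t) ^ r := pow_le_pow_left₀ hd0 hd r
    _ = exp (r * e) * t ^ r := by rw [mul_pow, ← exp_nat_mul]
    _ ≤ exp (r * e) * t := by
        gcongr
        exact pow_le_of_le_one ht0 ht (by omega)

theorem ps_mul {t d e1 e2 e3 e : ℝ} {b : ℝ} (ht0 : 0 ≤ t) (hd0 : 0 ≤ d) (hb : b ≤ exp e2)
    (hd : d ≤ exp e3 * t) (h : e1 + e2 + e3 ≤ e) : exp e1 * b * d ≤ exp e * t :=
  calc exp e1 * b * d ≤ exp e1 * exp e2 * (exp e3 * t) := by gcongr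
    _ = exp (e1 + e2 + e3) * t := by rw [exp_add, exp_add]; ring
    _ ≤ exp e * t := by gcongr

namespace Formal

variable (F : Formal K lam r)

/-- Backward contraction of the normal form on the unstable space. -/
theorem ps_back {ε g : ℝ} {q : X → ℝ} (T : F.Temp a ε q)
    (hg : ∀ i, 0 < lam i a → s2 + g ≤ lam i a) {x : X} (hx : x ∈ F.X0) {v : E D}
    (hv : v ∈ U fun i => lam i a) (hv1 : ‖v‖ ≤ 1) (n : ℕ) :
    ‖evv (F.N (-(n • a)) x) v‖ ≤ exp (F.A + q x - (s2 + g) * n + ε * n) * ‖v‖ := by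
  refine (pi_norm_le_iff_of_nonneg (by positivity)).2 fun i => ?_
  by_cases hi : 0 < lam i a
  · have h1 := F.pc.ev_le (F.N (-(n • a)) x i) v 0 le_rfl (by simpa using hv1)
    have h2 := mul_le_mul_of_nonneg_right (hg i hi) (Nat.cast_nonneg (α := ℝ) n)
    refine h1.trans (ps_mul (e3 := 0) (norm_nonneg _) (norm_nonneg _) (T.N_b n x hx i)
      (by simp) ?_)
    linarith
  · rw [F.N_mem a _ hx hv i (not_lt.1 hi), norm_zero]
    positivity

/-- The points with chart coordinates `Q (N (-n a) v)` form a pseudo orbit. -/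
theorem exists_pseudo (P : Par K lam r a s1 s2) : F.Unif a fun C ε q => ∀ x ∈ F.X0,
    ∀ v ∈ U fun i => lam i a, ‖v‖ ≤ exp (-(C * q x)) → ∃ w : ℕ → M, ∀ n : ℕ,
      ‖evv (F.N (-(n • a)) x) v‖ ≤ exp (C * q x - s2 * n) * ‖v‖ ∧
      J.c (K.pt (S.act (-(n • a)) x)) (w n) =
        evv (F.Q (S.act (-(n • a)) x)) (evv (F.N (-(n • a)) x) v) ∧
      dist (w n) (K.pt (S.act (-(n • a)) x)) ≤ exp (C * q x - s2 * n) * ‖v‖ ∧
      dist (K.mv a (S.act (-((n + 1) • a)) x) (w (n + 1))) (w n) ≤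
        exp (C * (q x + ε * n) - r * s2 * n) * ‖v‖ := by
  obtain ⟨g, hg0, hg1, -, -, hgap, -, -⟩ := P.exists_gap
  have hA := F.pc.nonneg
  have hL0 := J.L0_nonneg
  have hLr := J.Lr_nonneg r
  have hL := K.L_nonneg
  have hs1 := P.s1_pos
  have hs2 : 0 < s2 := P.s1_pos.trans P.lt
  have hr1 : 1 ≤ r := one_le_two.trans P.two_le
  have hr0 : (0 : ℝ) ≤ r := Nat.cast_nonneg r
  set k : ℝ := 1 + K.L * (3 + ‖a‖) with hk
  have hk0 : 0 ≤ k := by positivity
  set c0 : ℝ := J.L0 * k with hc0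
  set c1 : ℝ := J.Lr r * k with hc1
  set c2 : ℝ := J.L0 + 2 * F.A + 2 with hc2
  set c3 : ℝ := F.A + c1 + r * (3 + r * s1) + 1 + r * c2 with hc3
  have hc00 : 0 ≤ c0 := by positivity
  have hc10 : 0 ≤ c1 := by positivity
  have hc20 : 0 ≤ c2 := by positivity
  have hc30 : 0 ≤ c3 := by positivity
  obtain ⟨C, hC⟩ := exists_nat_ge (c0 + c1 + c2 + c3 + 2 * J.L0 + 2)
  have hC0 : (0 : ℝ) ≤ C := Nat.cast_nonneg C
  refine ⟨C, g / (C + 2), ?_, by positivity, ?_⟩
  · have : (1 : ℝ) ≤ C := by linarith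
    exact_mod_cast this
  intro ε q hε T x hx v hv hvC
  have hε0 := T.pos
  have hεg : ε * (C + 2) ≤ g := (le_div_iff₀ (by positivity)).1 hε
  have hε1 : ε ≤ 1 := by linarith [mul_nonneg hε0.le hC0]
  have hq1 := T.one_le x
  have hCq : ∀ c : ℝ, c ≤ C → c * q x ≤ C * q x := fun c hc => by gcongr
  have hcq : ∀ c : ℝ, 0 ≤ c → c ≤ c * q x := fun c hc => le_mul_of_one_le_right hc hq1
  have hv1 : ‖v‖ ≤ 1 := hvC.trans (exp_le_one_iff.2 (by linarith [hcq C hC0]))
  have hv0 := norm_nonneg v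
  have hxn : ∀ n : ℕ, S.act (-(n • a)) x ∈ F.X0 := fun n => F.inv0 _ x hx
  have hgn : ∀ n : ℕ, ε * (C + 2) * n ≤ g * n := fun n => by gcongr
  have hεn : ∀ n : ℕ, 0 ≤ ε * n := fun n => by positivity
  have hsn : ∀ n : ℕ, 0 ≤ s2 * n := fun n => by positivity
  have hCn : ∀ n : ℕ, 0 ≤ C * (ε * n) := fun n => by positivity
  have hAq := hcq F.A hA
  have hLq := hcq J.L0 hL0
  -- the points `v n` and `u n`
  have hvn := F.ps_back T hgap hx hv hv1
  have hvn' : ∀ n : ℕ, ‖evv (F.N (-(n • a)) x) v‖ ≤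
      exp (c2 * q x - s2 * n - C * (ε * n)) * ‖v‖ := fun n =>
    (hvn n).trans (by
      refine mul_le_mul_of_nonneg_right (exp_le_exp.2 ?_) hv0
      have := hgn n
      have := hεn n
      rw [hc2]
      linarith)
  have hvn1 : ∀ n : ℕ, ‖evv (F.N (-(n • a)) x) v‖ ≤ 1 := fun n =>
    (hvn' n).trans ((ps_small hvC (e' := 0) (by
      have := hCq c2 (by linarith)
      have := hsn n
      have := hCn n
      linarith)).trans_eq exp_zero)
  have hun : ∀ n : ℕ, ‖evv (F.Q (S.act (-(n • a)) x)) (evv (F.N (-(n • a)) x) v)‖ ≤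
      exp ((2 * F.A + 2) * q x - s2 * n - C * (ε * n)) * ‖v‖ := fun n => by
    have h1 := F.pc.evv_le (F.Q (S.act (-(n • a)) x)) _ le_rfl (by simpa using hvn1 n)
    refine h1.trans (ps_mul hv0 (norm_nonneg _)
      ((T.Q_le _ (hxn n)).trans (exp_le_exp.2 (T.slow_b n x hx))) (hvn n) ?_)
    have := hgn n
    linarith
  have hw : ∀ n : ℕ, ∃ z, dist z (K.pt (S.act (-(n • a)) x)) ≤
      exp (c2 * q x - s2 * n - C * (ε * n)) * ‖v‖ ∧ J.c (K.pt (S.act (-(n • a)) x)) z =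
      evv (F.Q (S.act (-(n • a)) x)) (evv (F.N (-(n • a)) x) v) := fun n => by
    obtain ⟨z, hz1, hz2⟩ := J.c_onto (K.pt (S.act (-(n • a)) x)) _ ((hun n).trans
      (ps_small hvC (e' := -(2 * J.L0)) (by
        have := hCq (2 * F.A + 2 + 2 * J.L0) (by linarith)
        have := hsn n
        have := hCn n
        linarith)))
    refine ⟨z, hz1.trans ?_, hz2⟩
    have := ps_mul (e1 := J.L0) (e2 := 0) (b := 1) (e := c2 * q x - s2 * n - C * (ε * n)) hv0
      (norm_nonneg _) (by simp) (hun n) (by rw [hc2]; linarith)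
    simpa using this
  choose w hw1 hw2 using hw
  have hup : ∀ n : ℕ, exp (c2 * q x - s2 * n - C * (ε * n)) * ‖v‖ ≤
      exp (C * q x - s2 * n) * ‖v‖ := fun n => by
    refine mul_le_mul_of_nonneg_right (exp_le_exp.2 ?_) hv0
    have := hCq c2 (by linarith)
    have := hCn n
    linarith
  refine ⟨w, fun n => ⟨(hvn' n).trans (hup n), hw2 n, (hw1 n).trans (hup n), ?_⟩⟩
  -- the error of the pseudo orbit
  set y : ℝ := q x + ε * n with hy
  have hy1 : 1 ≤ y := by linarith [hεn n]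
  have hqy : q x ≤ y := by linarith [hεn n]
  have hcy : ∀ c : ℝ, 0 ≤ c → c ≤ c * y := fun c hc => le_mul_of_one_le_right hc hy1
  have hq0 : q (S.act (-(n • a)) x) ≤ y := T.slow_b n x hx
  have hq1' : q (S.act (-((n + 1) • a)) x) ≤ 2 * y := by
    have := T.slow_b (n + 1) x hx
    push_cast at this
    linarith
  have hh : 1 + K.L * (1 + ‖a‖ + K.h (S.act (-((n + 1) • a)) x)) ≤ k * y := by
    have h1 := (T.h_le _ (hxn (n + 1))).trans hq1'
    have h2 := hcy _ (norm_nonneg a)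
    have h3 : K.L * (1 + ‖a‖ + K.h (S.act (-((n + 1) • a)) x)) ≤ K.L * ((3 + ‖a‖) * y) := by
      gcongr
      linarith
    rw [hk]
    linarith
  have hE0 : J.L0 * (1 + K.L * (1 + ‖a‖ + K.h (S.act (-((n + 1) • a)) x))) ≤ c0 * y := by
    rw [hc0, mul_assoc]
    gcongr
  have hE1 : J.Lr r * (1 + K.L * (1 + ‖a‖ + K.h (S.act (-((n + 1) • a)) x))) ≤ c1 * y := by
    rw [hc1, mul_assoc]
    gcongr
  have hnext : exp (c2 * q x - s2 * ((n + 1 : ℕ) : ℝ) - C * (ε * ((n + 1 : ℕ) : ℝ))) * ‖v‖ ≤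
      exp (c2 * q x - s2 * n - C * (ε * n)) * ‖v‖ := by
    have : 0 ≤ C * ε := by positivity
    gcongr <;> omega
  have hd1 := (hw1 (n + 1)).trans hnext
  have hv' := (hvn' (n + 1)).trans hnext
  have hcn : ∀ c : ℝ, c ≤ C → c * (ε * n) ≤ C * (ε * n) := fun c hc =>
    mul_le_mul_of_nonneg_right hc (hεn n)
  have hpw : ∀ {d : ℝ}, 0 ≤ d → d ≤ exp (c2 * q x - s2 * n - C * (ε * n)) * ‖v‖ →
      d ^ r ≤ exp (r * c2 * y - r * s2 * n) * ‖v‖ := fun hd0 hd =>
    (ps_pow hr1 hd0 hv0 hv1 hd).trans (by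
      have h1 : c2 * q x - s2 * n - C * (ε * n) ≤ c2 * y - s2 * n := by
        have := mul_le_mul_of_nonneg_left hqy hc20
        linarith [hCn n]
      have h2 := mul_le_mul_of_nonneg_left h1 hr0
      gcongr
      linarith)
  have hact := act_succ (S := S) a n x
  have hz : dist (K.mv a (S.act (-((n + 1) • a)) x) (w (n + 1))) (K.pt (S.act (-(n • a)) x)) ≤
      exp (-J.L0) := by
    have h1 := K.mv_lip a (S.act (-((n + 1) • a)) x) (w (n + 1))
      (K.pt (S.act (-((n + 1) • a)) x))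
    rw [K.mv_pt, hact] at h1
    have h2 := ps_mul (e1 := 0) (e := c0 * y + (c2 * q x - s2 * n - C * (ε * n))) hv0 dist_nonneg
      (exp_le_exp.2 hE0) hd1 (by linarith)
    rw [exp_zero, one_mul] at h2
    refine h1.trans (h2.trans (ps_small hvC ?_))
    have := hCq (c0 + c2 + J.L0) (by linarith)
    have := hcn c0 (by linarith)
    have := hsn n
    rw [hy]
    linarith
  have hwn : dist (w n) (K.pt (S.act (-(n • a)) x)) ≤ exp (-J.L0) :=
    (hw1 n).trans (ps_small hvC (by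
      have := hCq (c2 + J.L0) (by linarith)
      have := hsn n
      have := hCn n
      linarith))
  have hry : 0 ≤ r * (3 + r * s1) * y := by positivity
  have hc1y : 0 ≤ c1 * y := by positivity
  have hAy := hcy F.A hA
  have t1 : ‖J.c (K.pt (S.act (-(n • a)) x)) (K.mv a (S.act (-((n + 1) • a)) x) (w (n + 1))) -
      evv (K.T r a (S.act (-((n + 1) • a)) x)) (evv (F.Q (S.act (-((n + 1) • a)) x))
        (evv (F.N (-((n + 1) • a)) x) v))‖ ≤ exp (c3 * y - r * s2 * n) * ‖v‖ := by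
    have h1 := K.jet r a (S.act (-((n + 1) • a)) x) (w (n + 1))
      (hd1.trans ((ps_small hvC (e' := -(c1 * y)) (by
        have := hCq (c1 + c2) (by linarith)
        have := hcn c1 (by linarith)
        have := hsn n
        rw [hy]
        linarith)).trans (exp_le_exp.2 (neg_le_neg hE1))))
    rw [hact, hw2 (n + 1)] at h1
    have h2 := ps_mul (e1 := 0) (e := c3 * y - r * s2 * n) hv0 (pow_nonneg dist_nonneg r)
      (exp_le_exp.2 hE1) (hpw dist_nonneg hd1) (by rw [hc3]; linarith)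
    rw [exp_zero, one_mul] at h2
    exact h1.trans h2
  have t2 : ‖evv (compv (K.T r a (S.act (-((n + 1) • a)) x)) (F.Q (S.act (-((n + 1) • a)) x)))
      (evv (F.N (-((n + 1) • a)) x) v) - evv (K.T r a (S.act (-((n + 1) • a)) x))
        (evv (F.Q (S.act (-((n + 1) • a)) x)) (evv (F.N (-((n + 1) • a)) x) v))‖ ≤
      exp (c3 * y - r * s2 * n) * ‖v‖ := by
    refine (F.pc.compv_err _ _ _ (R := 2 * y) (by linarith)
      ((T.Q_le _ (hxn (n + 1))).trans (exp_le_exp.2 hq1')) (hvn1 (n + 1))).trans ?_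
    refine ps_mul hv0 (pow_nonneg (norm_nonneg _) r)
      ((K.T_le r a _).trans (exp_le_exp.2 hE1)) (hpw (norm_nonneg _) hv') ?_
    have : 0 ≤ r * (r * s1) * y := by positivity
    have : 0 ≤ r * y := by positivity
    rw [hc3]
    linarith
  have t3 : ‖evv (compv (F.Q (S.act (-(n • a)) x)) (F.N a (S.act (-((n + 1) • a)) x)))
      (evv (F.N (-((n + 1) • a)) x) v) - evv (F.Q (S.act (-(n • a)) x))
        (evv (F.N a (S.act (-((n + 1) • a)) x)) (evv (F.N (-((n + 1) • a)) x) v))‖ ≤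
      exp (c3 * y - r * s2 * n) * ‖v‖ := by
    have hN : ‖F.N a (S.act (-((n + 1) • a)) x)‖ ≤ exp ((3 + r * s1) * y) := by
      refine (pi_norm_le_iff_of_nonneg (exp_pos _).le).2 fun i => ?_
      have h1 := T.N_f 1 _ (hxn (n + 1)) i
      rw [one_nsmul] at h1
      refine h1.trans (exp_le_exp.2 ?_)
      have h2 := (P.res i).le
      have h3 := hcy (r * s1) (by positivity)
      push_cast
      linarith
    refine (F.pc.compv_err _ _ _ (by positivity) hN (hvn1 (n + 1))).trans ?_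
    refine ps_mul hv0 (pow_nonneg (norm_nonneg _) r)
      ((T.Q_le _ (hxn n)).trans (exp_le_exp.2 hq0)) (hpw (norm_nonneg _) hv') ?_
    rw [hc3]
    linarith
  have hvv : evv (F.N a (S.act (-((n + 1) • a)) x)) (evv (F.N (-((n + 1) • a)) x) v) =
      evv (F.N (-(n • a)) x) v := by
    rw [← F.N_U_add P a _ hx hv]
    congr 2
    rw [succ_nsmul]
    abel
  rw [hvv, ← hw2 n, ← hact, ← F.TQ P.two_le a (hxn (n + 1)), hact] at t3
  have hsum : ‖J.c (K.pt (S.act (-(n • a)) x)) (K.mv a (S.act (-((n + 1) • a)) x) (w (n + 1))) -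
      J.c (K.pt (S.act (-(n • a)) x)) (w n)‖ ≤ 3 * (exp (c3 * y - r * s2 * n) * ‖v‖) := by
    rw [← dist_eq_norm] at t1 t2 t3 ⊢
    rw [dist_comm] at t2
    linarith [dist_triangle4 (J.c (K.pt (S.act (-(n • a)) x))
      (K.mv a (S.act (-((n + 1) • a)) x) (w (n + 1)))) _ _
      (J.c (K.pt (S.act (-(n • a)) x)) (w n)) |>.trans (add_le_add (add_le_add t1 t2) t3)]
  refine (J.c_lip' _ _ _ hz hwn).trans ?_
  have h3 : (3 : ℝ) ≤ exp 2 := by linarith [add_one_le_exp (2 : ℝ)]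
  refine (mul_le_mul_of_nonneg_left hsum (exp_pos _).le).trans ?_
  rw [← mul_assoc]
  refine ps_mul hv0 (by positivity) h3 le_rfl ?_
  have h4 := hcy (J.L0 + 2) (by positivity)
  have h5 : (J.L0 + 2 + c3) * y ≤ C * y := by
    gcongr
    linarith
  linarith

/-- A pseudo orbit with rapidly decaying errors is shadowed by a backward orbit. -/
theorem exists_shadow [CompleteSpace M] {F : Formal K lam r} {ε : ℝ} {q : X → ℝ} (T : F.Temp a ε q)
    {x : X} (hx : x ∈ F.X0) {w : ℕ → M} {η ρ δ : ℝ} (hδ : 0 < δ) (hη : 0 ≤ η)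
    (hρ : J.L0 * K.L * (‖a‖ + ε) + δ ≤ ρ)
    (hw : ∀ n : ℕ, dist (K.mv a (S.act (-((n + 1) • a)) x) (w (n + 1))) (w n) ≤ η * exp (-(ρ * n))) :
    ∃ z, ∀ m : ℕ, dist (K.mv (-(m • a)) x z) (w m) ≤
      η * exp (J.L0 * (1 + K.L * (1 + q x + ε * m)) - ρ * m) / (1 - exp (-δ)) := by
  have hL0 := J.L0_nonneg
  have hL := K.L_nonneg
  have hδ1 : exp (-δ) < 1 := exp_lt_one_iff.2 (neg_neg_of_pos hδ)
  set y : ℕ → ℕ → M := fun m k => K.mv (k • a) (S.act (-((m + k) • a)) x) (w (m + k)) with hy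
  have hstep : ∀ m k : ℕ, dist (y m k) (y m (k + 1)) ≤
      η * exp (J.L0 * (1 + K.L * (1 + q x + ε * m)) - ρ * m) * exp (-δ) ^ k := by
    intro m k
    have h1 : y m (k + 1) = K.mv (k • a) (S.act (-((m + k) • a)) x)
        (K.mv a (S.act (-((m + k + 1) • a)) x) (w (m + k + 1))) := by
      rw [← act_succ (S := S) a (m + k) x, K.mv_mv, ← succ_nsmul]
      rfl
    rw [h1, dist_comm]
    refine (K.mv_lip _ _ _ _).trans ?_
    have h2 : ‖k • a‖ ≤ k * ‖a‖ := norm_nsmul_le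
    have h3 := T.h_back (m + k) hx
    have h4 : J.L0 * (1 + K.L * (1 + ‖k • a‖ + K.h (S.act (-((m + k) • a)) x))) ≤
        J.L0 * (1 + K.L * (1 + k * ‖a‖ + (q x + ε * ((m + k : ℕ) : ℝ)))) := by gcongr
    have h5 := mul_le_mul_of_nonneg_right hρ (Nat.cast_nonneg (α := ℝ) k)
    calc _ ≤ exp (J.L0 * (1 + K.L * (1 + k * ‖a‖ + (q x + ε * ((m + k : ℕ) : ℝ))))) *
          (η * exp (-(ρ * ((m + k : ℕ) : ℝ)))) :=
          mul_le_mul (exp_le_exp.2 h4) (hw (m + k)) dist_nonneg (exp_pos _).le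
      _ = η * exp (J.L0 * (1 + K.L * (1 + k * ‖a‖ + (q x + ε * ((m + k : ℕ) : ℝ)))) +
          -(ρ * ((m + k : ℕ) : ℝ))) := by rw [exp_add]; ring
      _ ≤ η * exp (J.L0 * (1 + K.L * (1 + q x + ε * m)) - ρ * m + k * -δ) := by
          refine mul_le_mul_of_nonneg_left (exp_le_exp.2 ?_) hη
          push_cast
          linarith
      _ = _ := by rw [exp_add, exp_nat_mul, mul_assoc]
  obtain ⟨z, hz⟩ := cauchySeq_tendsto_of_complete
    (cauchySeq_of_le_geometric _ _ hδ1 (hstep 0))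
  refine ⟨z, fun m => ?_⟩
  have hc : Continuous (K.mv (-(m • a)) x) :=
    (LipschitzWith.of_dist_le' fun z z' => K.mv_lip (-(m • a)) x z z').continuous
  have h1 := (hc.tendsto z).comp (hz.comp (tendsto_add_atTop_nat m))
  have h2 : ∀ k, (K.mv (-(m • a)) x ∘ y 0 ∘ fun k => k + m) k = y m k := by
    intro k
    have h3 : K.mv (-(m • a)) x = K.mv (-(m • a))
        (S.act ((k + m) • a) (S.act (-((k + m) • a)) x)) := by rw [S.act_neg]
    simp only [Function.comp_apply, hy, zero_add]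
    rw [h3, K.mv_mv, add_comm m k]
    congr 1
    rw [add_nsmul]
    abel
  have h3 := dist_le_of_le_geometric_of_tendsto₀ _ _ hδ1 (hstep m) (h1.congr h2)
  have h4 : y m 0 = w m := by simp [hy, K.mv_zero]
  rwa [h4, dist_comm] at h3

end Formal

end Pool.Agent.P.MP_d483fb_an.Z.NF
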