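import Pool.Agent.P.MP_d483fb_an.Z.NF.JetAlg
import Pool.Agent.P.MP_d483fb_an.Z.NF.PCont

/-!
Normal forms: the derivative cocycle and the push forward of jets are tempered cocycles.
-/

open MeasureTheory Filter Topology Set Real

set_option linter.unusedSectionVars false

noncomputable section

namespace Pool.Agent.P.MP_d483fb_an.Z.NF

open Os

variable {W X Γ M : Type} [NormedAddCommGroup W] [NormedSpace ℝ W] [MeasurableSpace W]
  [MeasurableSpace X] {μ : Measure X} [Group Γ] [MeasurableSpace Γ] [MetricSpace M]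
  [MeasurableSpace M] {α : Γ →* Equiv.Perm M} {len : Γ → ℝ} {D : ℕ}
  {S : Sys W X μ} {J : Jets α len D} {K : Skew S J} {lam : Fin D → W →L[ℝ] ℝ} {r : ℕ}
  {a : W} {s1 s2 : ℝ}

/-- The push forward of jets of functions. -/
def Skew.push (K : Skew S J) (r : ℕ) (s : W) (x : X) : V D r →L[ℝ] V D r :=
  compL (K.T r (-s) (S.act s x))

theorem Skew.push_apply (K : Skew S J) (r : ℕ) (s : W) (x : X) (t : V D r) :
    K.push r s x t = comp t (K.T r (-s) (S.act s x)) := rfl

theorem Skew.tcoc_Dl (K : Skew S J) : ∃ c L : ℝ, 0 ≤ c ∧ TCoc S K.Dl (fun x => c * K.h x) L := by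
  obtain ⟨A, hA⟩ := exists_pc D 2
  have h0 := hA.nonneg
  have h1 := J.Lr_nonneg 2
  have h2 := K.L_nonneg
  refine ⟨J.Lr 2 * K.L, A + J.Lr 2 + J.Lr 2 * K.L + J.Lr 2 * K.L * K.L, by positivity,
    K.Dl_zero, K.Dl_add, fun s x v => ?_, by positivity, K.measH.const_mul _,
    fun x => mul_nonneg (by positivity) (K.h_nonneg x), fun s x => ?_⟩
  · refine ((K.Dl s x).le_opNorm v).trans ?_
    gcongr
    refine (hA.linv_le (K.T 2 s x)).trans ?_
    refine (mul_le_mul_of_nonneg_left (K.T_le 2 s x) (exp_pos A).le).trans ?_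
    rw [← exp_add, exp_le_exp]
    have h3 : 0 ≤ (A + J.Lr 2) * ‖s‖ + J.Lr 2 * K.L * K.L * (‖s‖ + 1) := by positivity
    linarith
  · have h3 := mul_le_mul_of_nonneg_left (K.h_lip s x) (mul_nonneg h1 h2)
    have h4 : 0 ≤ (A + J.Lr 2 + J.Lr 2 * K.L) * (‖s‖ + 1) := by positivity
    linarith

theorem Skew.tcoc_push (K : Skew S J) (hr : 2 ≤ r) :
    ∃ c L : ℝ, 0 ≤ c ∧ TCoc S (K.push r) (fun x => c * K.h x) L := by
  obtain ⟨A, hA⟩ := exists_pc D r
  have h0 := hA.nonneg
  have h1 := J.Lr_nonneg r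
  have h2 := K.L_nonneg
  refine ⟨r * J.Lr r * K.L, A + r * J.Lr r + r * J.Lr r * K.L + r * J.Lr r * K.L * K.L,
    by positivity, fun x v => ?_, fun s t x v => ?_, fun s x v => ?_, by positivity,
    K.measH.const_mul _, fun x => mul_nonneg (by positivity) (K.h_nonneg x), fun s x => ?_⟩
  · rw [K.push_apply, neg_zero, K.T_zero hr, comp_idv hr]
  · have e : S.act (-s) (S.act (s + t) x) = S.act t x := by
      rw [← S.add, neg_add_cancel_left]
    rw [K.push_apply, K.push_apply, K.push_apply, comp_assoc, neg_add_rev, K.T_add, e, S.add]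
  · have h5 := K.h_nonneg (S.act s x)
    refine (hA.comp_le v _ _ (by positivity) (K.T_le r (-s) (S.act s x))).trans ?_
    refine mul_le_mul_of_nonneg_right (exp_le_exp.2 ?_) (norm_nonneg v)
    have h3 := mul_le_mul_of_nonneg_left (K.h_lip s x)
      (by positivity : 0 ≤ (r : ℝ) * J.Lr r * K.L)
    have h4 : 0 ≤ (A + r * J.Lr r) * ‖s‖ := by positivity
    rw [norm_neg]
    linarith
  · have h3 := mul_le_mul_of_nonneg_left (K.h_lip s x)
      (by positivity : 0 ≤ (r : ℝ) * J.Lr r * K.L)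
    have h4 : 0 ≤ (A + r * J.Lr r + r * J.Lr r * K.L) * (‖s‖ + 1) := by positivity
    linarith

variable [Countable Γ] [DiscreteMeasurableSpace Γ]

theorem Skew.measurable_T (K : Skew S J) (r : ℕ) : Measurable fun p : W × X => K.T r p.1 p.2 := by
  have h : Measurable fun p : M × Γ => J.T r p.2 p.1 :=
    measurable_from_prod_countable_left fun γ => J.measT r γ
  exact h.comp ((K.measPt.comp measurable_snd).prodMk K.measβ)

theorem Skew.sm_Dl (K : Skew S J) : StronglyMeasurable fun p : W × X => K.Dl p.1 p.2 :=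
  continuous_linv.comp_stronglyMeasurable (K.measurable_T 2).stronglyMeasurable

theorem Skew.sm_push [BorelSpace W] (K : Skew S J) (r : ℕ) :
    StronglyMeasurable fun p : W × X => K.push r p.1 p.2 :=
  continuous_compL.comp_stronglyMeasurable
    ((K.measurable_T r).comp (measurable_fst.neg.prodMk K.measAct)).stronglyMeasurable

end Pool.Agent.P.MP_d483fb_an.Z.NF
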