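import Pool.Agent.P.MP_d483fb_an.Z.NF.Pseudo
import Pool.Agent.P.MP_d483fb_an.Z.NF.Inj

/-!
Normal forms: the normal form coordinates are onto.
-/

open MeasureTheory Filter Topology Set Real

set_option linter.unusedSectionVars false

noncomputable section

namespace Pool.Agent.P.MP_d483fb_an.Z.NF

open Os

variable {W X Γ M : Type} [NormedAddCommGroup W] [NormedSpace ℝ W] [MeasurableSpace W]
  [MeasurableSpace X] {μ : Measure X} [Group Γ] [MeasurableSpace Γ] [MetricSpace M]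
  [MeasurableSpace M] {α : Γ →* Equiv.Perm M} {len : Γ → ℝ} {D : ℕ}
  {S : Sys W X μ} {J : Jets α len D} {K : Skew S J} {lam : Fin D → W →L[ℝ] ℝ} {r : ℕ}
  {a : W} {s1 s2 : ℝ}

namespace Formal

variable [CompleteSpace M] (F : Formal K lam r)

omit [CompleteSpace M] in
theorem surj_lim (P : Par K lam r a s1 s2) {ε g C : ℝ} {q : X → ℝ} (T : F.Temp a ε q) (hg : 0 < g)
    (g1 : g ≤ s1) (g2 : s1 + g ≤ s2) (g3 : ∀ i, lam i a + g ≤ r * s1) (hε : (r + 1) * ε ≤ g)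
    {x : X} (hx : x ∈ F.X0) {v : E D} (hv : v ∈ U fun i => lam i a) {w : ℕ → M} {z : M}
    (h1 : ∀ n : ℕ, ‖evv (F.N (-(n • a)) x) v‖ ≤ exp (-(s2 * n)))
    (h2 : ∀ n : ℕ, J.c (K.pt (S.act (-(n • a)) x)) (w n) =
      evv (F.Q (S.act (-(n • a)) x)) (evv (F.N (-(n • a)) x) v))
    (h3 : ∀ n : ℕ, dist (w n) (K.pt (S.act (-(n • a)) x)) ≤ exp (-(s2 * n)))
    (h4 : ∀ n : ℕ, dist (K.mv (-(n • a)) x z) (w n) ≤ exp (C - (r * s2 - g) * n)) :
    Tendsto (fun n => F.Hn a n x z) atTop (𝓝 v) := by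
  have r2 : (2 : ℝ) ≤ r := by exact_mod_cast P.two_le
  have e0 := T.pos
  have t : ∀ c : ℝ, Tendsto (fun n : ℕ => exp (c - g * n)) atTop (𝓝 0) := fun c =>
    tendsto_exp_atBot.comp (tendsto_atBot_add_const_left _ c
      (tendsto_neg_atTop_atBot.comp (tendsto_natCast_atTop_atTop.const_mul_atTop hg)))
  refine tendsto_pi_nhds.mpr fun i => tendsto_sub_nhds_zero_iff.mp ?_
  have t2 := (t (F.A + q x + J.L0 + C)).add (t (F.A + r * q x + q x))
  have t3 := (t C).add (t 0)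
  rw [add_zero] at t2 t3
  refine squeeze_zero_norm' ?_ t2
  filter_upwards [t3.eventually (ge_mem_nhds (exp_pos (-J.L0)))] with n hn
  have n0 : (0 : ℝ) ≤ n := n.cast_nonneg
  have rs : r * s1 + 2 * g ≤ r * s2 := by nlinarith
  have a1 : dist (w n) (K.pt (S.act (-(n • a)) x)) ≤ exp (0 - g * n) :=
    (h3 n).trans (exp_le_exp.mpr (by nlinarith))
  have a2 : dist (K.mv (-(n • a)) x z) (w n) ≤ exp (C - g * n) :=
    (h4 n).trans (exp_le_exp.mpr (by
      have : g ≤ r * s2 - g := by nlinarith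
      nlinarith))
  have b1 : dist (w n) (K.pt (S.act (-(n • a)) x)) ≤ exp (-J.L0) := by
    linarith [exp_pos (C - g * n)]
  have b2 : dist (K.mv (-(n • a)) x z) (K.pt (S.act (-(n • a)) x)) ≤ exp (-J.L0) := by
    linarith [dist_triangle (K.mv (-(n • a)) x z) (w n) (K.pt (S.act (-(n • a)) x))]
  have c1 : ∀ y, dist y (K.pt (S.act (-(n • a)) x)) ≤ exp (-J.L0) →
      ‖J.c (K.pt (S.act (-(n • a)) x)) y‖ ≤ exp 0 := fun y hy =>
    (J.c_le hy).trans ((mul_le_mul_of_nonneg_left hy (exp_pos _).le).trans_eq (by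
      rw [← exp_add, add_neg_cancel]))
  have d1 := F.pc.ev_lip (F.Jn a n x i) _ _ 0 le_rfl (c1 _ b2) (c1 _ b1)
  have xn := F.inv0 (-(n • a)) x hx
  have d2 := F.pc.comp_err (F.Jn a n x i) (F.Q (S.act (-(n • a)) x)) _ (q x + ε * n)
    (by linarith [T.one_le x, mul_nonneg e0.le n0])
    ((T.Q_le _ xn).trans (exp_le_exp.mpr (T.slow_b n x hx)))
    ((h1 n).trans (exp_le_one_iff.mpr (by nlinarith)))
  have e1 : ev (comp (F.Jn a n x i) (F.Q (S.act (-(n • a)) x))) (evv (F.N (-(n • a)) x) v) =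
      v i := by
    rw [← congrFun (F.N_U_neg P (n • a) hx hv) i, ← F.Jn_Q P.two_le a n hx]
    rfl
  rw [e1, ← h2, abs_sub_comm] at d2
  have j := T.J_le n x hx i
  have l := mul_le_mul_of_nonneg_right (g3 i) n0
  have rn := mul_le_mul_of_nonneg_right rs n0
  have en := mul_le_mul_of_nonneg_right hε n0
  have en0 := mul_nonneg e0.le n0
  refine (abs_sub_le _ _ _).trans (add_le_add (d1.trans ?_) (d2.trans ?_))
  · calc _ ≤ exp (F.A + r * 0) * exp (q x + lam i a * n + ε * n) *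
          (exp J.L0 * exp (C - (r * s2 - g) * n)) := by
          gcongr
          exact (J.c_lip _ _ _ b2 b1).trans (mul_le_mul_of_nonneg_left (h4 n) (exp_pos _).le)
      _ ≤ _ := by
          simp only [← exp_add]
          exact exp_le_exp.mpr (by nlinarith)
  · calc _ ≤ exp (F.A + r * (q x + ε * n)) * exp (q x + lam i a * n + ε * n) *
          exp (-(s2 * n)) ^ r := by
          gcongr
          exact h1 n
      _ ≤ _ := by
          simp only [← exp_nat_mul, ← exp_add]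
          exact exp_le_exp.mpr (by nlinarith [mul_nonneg hg.le n0])

theorem surj_small (P : Par K lam r a s1 s2) : F.Unif a fun C _ q => ∀ x ∈ F.X0,
    ∀ v ∈ U fun i => lam i a, ‖v‖ ≤ exp (-(C * q x)) →
      ∃ z, K.Sh a s2 (exp (C * q x) * ‖v‖) x z ∧ F.H a x z = v := by
  obtain ⟨g, hg, -, g1, g2, -, g3, g4⟩ := P.exists_gap
  obtain ⟨C1, ε1, c1, hε1, hps⟩ := F.exists_pseudo P
  have r2 : (2 : ℝ) ≤ r := by exact_mod_cast P.two_le
  have l0 := J.L0_nonneg
  have ll := mul_nonneg l0 K.L_nonneg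
  have eg : 0 < 1 - exp (-g) := sub_pos.mpr (exp_lt_one_iff.mpr (by linarith))
  have cg : 0 ≤ -log (1 - exp (-g)) :=
    neg_nonneg.mpr (log_nonpos eg.le (by linarith [exp_pos (-g)]))
  obtain ⟨B, hB⟩ : ∃ B, B = J.L0 + 2 * (J.L0 * K.L) - log (1 - exp (-g)) := ⟨_, rfl⟩
  have B0 : 0 ≤ B := by linarith
  obtain ⟨C, hC⟩ := exists_nat_ge (C1 + B + 1)
  have c0 : (0 : ℝ) ≤ C1 := C1.cast_nonneg
  refine ⟨C, min ε1 (g / (C1 + J.L0 * K.L + r + 1)), by exact_mod_cast (by linarith : (1 : ℝ) ≤ C),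
    lt_min hε1 (by positivity), fun ε q hε T x hx v hv hn => ?_⟩
  have e0 := T.pos
  have q1 := T.one_le x
  have he : ε * (C1 + J.L0 * K.L + r + 1) ≤ g :=
    (le_div_iff₀ (by positivity)).mp (hε.trans (min_le_right _ _))
  have hn1 : ‖v‖ ≤ exp (-(C1 * q x)) := hn.trans (exp_le_exp.mpr (by nlinarith))
  obtain ⟨w, hw⟩ := hps ε q (hε.trans (min_le_left _ _)) T x hx v hv hn1
  have rs : r * s1 + 2 * g ≤ r * s2 := by nlinarith
  obtain ⟨z, hz⟩ := exists_shadow T hx (w := w) (η := exp (C1 * q x) * ‖v‖)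
    (ρ := r * s2 - C1 * ε) hg (by positivity) (by nlinarith) fun n => (hw n).2.2.2.trans_eq (by
      rw [mul_right_comm (exp _), ← exp_add]
      congr 2
      ring)
  have hz' : ∀ n : ℕ, dist (K.mv (-(n • a)) x z) (w n) ≤
      exp ((C1 + B) * q x - (r * s2 - g) * n) * ‖v‖ := fun n => (hz n).trans (by
    have n0 : (0 : ℝ) ≤ n := n.cast_nonneg
    rw [← exp_log eg, mul_right_comm (exp _), mul_div_right_comm, ← exp_add, ← exp_sub]
    refine mul_le_mul_of_nonneg_right (exp_le_exp.mpr ?_) (norm_nonneg _)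
    have : ε * (C1 + J.L0 * K.L) * n ≤ g * n := mul_le_mul_of_nonneg_right (by nlinarith) n0
    rw [hB]
    nlinarith)
  have small : ∀ n : ℕ, exp (C1 * q x - s2 * n) * ‖v‖ ≤ exp (-(s2 * n)) := fun n =>
    (mul_le_mul_of_nonneg_left hn1 (exp_pos _).le).trans_eq (by
      rw [← exp_add]
      congr 1
      ring)
  have sh : K.Sh a s2 (exp (C * q x) * ‖v‖) x z := fun n => by
    have n0 : (0 : ℝ) ≤ n := n.cast_nonneg
    refine (dist_triangle _ (w n) _).trans ((add_le_add (hz' n) (hw n).2.2.1).trans ?_)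
    rw [← add_mul, mul_right_comm (exp _), ← exp_add]
    refine mul_le_mul_of_nonneg_right ?_ (norm_nonneg _)
    have a1 : exp ((C1 + B) * q x - (r * s2 - g) * n) ≤ exp ((C1 + B) * q x - s2 * n) :=
      exp_le_exp.mpr (by
        have : s2 ≤ r * s2 - g := by nlinarith
        nlinarith)
    have a2 : exp (C1 * q x - s2 * n) ≤ exp ((C1 + B) * q x - s2 * n) :=
      exp_le_exp.mpr (by nlinarith)
    have a3 : exp (1 + ((C1 + B) * q x - s2 * n)) ≤ exp (C * q x + -(s2 * n)) :=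
      exp_le_exp.mpr (by nlinarith)
    rw [exp_add] at a3
    nlinarith [add_one_le_exp (1 : ℝ), exp_pos ((C1 + B) * q x - s2 * n)]
  refine ⟨z, sh, tendsto_nhds_unique (F.tendsto_H P hx ⟨_, sh.mono P.lt.le le_rfl⟩)
    (F.surj_lim P T hg g1 g2 g3 (by nlinarith) hx hv (C := (C1 + B) * q x)
      (fun n => (hw n).1.trans (small n)) (fun n => (hw n).2.1)
      (fun n => (hw n).2.2.1.trans (small n)) fun n => (hz' n).trans ?_)⟩
  exact mul_le_of_le_one_right (exp_pos _).le (hn1.trans (exp_le_one_iff.mpr (by nlinarith)))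

theorem surj (P : Par K lam r a s1 s2) : F.Unif a fun C _ q => ∀ x ∈ F.X0,
    ∀ v ∈ U fun i => lam i a, ∀ R, 0 ≤ R → ‖v‖ ≤ exp R →
      ∃ z, K.Sh a s2 (exp (C * (q x + R)) * ‖v‖) x z ∧ F.H a x z = v := by
  obtain ⟨g, hg, g0, g1, g2, g3, -, -⟩ := P.exists_gap
  obtain ⟨C2, ε2, c2, hε2, hsm⟩ := F.surj_small P
  have l0 := J.L0_nonneg
  have ll := mul_nonneg l0 K.L_nonneg
  have A0 := F.pc.nonneg
  have c0 : (0 : ℝ) ≤ C2 := C2.cast_nonneg
  have r0 : (0 : ℝ) ≤ r := r.cast_nonneg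
  obtain ⟨C', hC'⟩ : ∃ C', C' = (F.A + r + C2 + 2) / g := ⟨_, rfl⟩
  have C'0 : 0 ≤ C' := hC' ▸ by positivity
  obtain ⟨B, hB⟩ : ∃ B, B = J.L0 * K.L * (‖a‖ + 1) := ⟨_, rfl⟩
  have B0 : 0 ≤ B := hB ▸ by positivity
  obtain ⟨C, hC⟩ := exists_nat_ge (C2 + F.A + r + 1 + J.L0 + 2 * (J.L0 * K.L) + (C' + 1) * B)
  refine ⟨C, min ε2 (g / (C2 + 1)), by
    exact_mod_cast (by linarith [mul_nonneg (by linarith : 0 ≤ C' + 1) B0] : (1 : ℝ) ≤ C),
    lt_min hε2 (by positivity), fun ε q hε T x hx v hv R hR hn => ?_⟩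
  have e0 := T.pos
  have q1 := T.one_le x
  have he : ε * (C2 + 1) ≤ g := (le_div_iff₀ (by positivity)).mp (hε.trans (min_le_right _ _))
  obtain ⟨m, m1, m2⟩ : ∃ m : ℕ, C' * (q x + R) ≤ m ∧ (m : ℝ) ≤ (C' + 1) * (q x + R) :=
    ⟨⌈C' * (q x + R)⌉₊, Nat.le_ceil _, (Nat.ceil_lt_add_one (by positivity)).le.trans (by linarith)⟩
  have m0 : (0 : ℝ) ≤ m := m.cast_nonneg
  have m3 : (F.A + r + C2 + 2) * (q x + R) ≤ g * m := by
    rw [hC', div_mul_eq_mul_div, div_le_iff₀ hg] at m1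
    linarith
  have xm := F.inv0 (-(m • a)) x hx
  have vm := F.N_mem a (-(m • a)) hx hv
  have qm := T.slow_b m x hx
  have em := mul_le_mul_of_nonneg_right he m0
  have hb : ‖evv (F.N (-(m • a)) x) v‖ ≤ exp (F.A + r * R + q x - (s2 + g - ε) * m) * ‖v‖ := by
    refine (pi_norm_le_iff_of_nonneg (by positivity)).mpr fun i => ?_
    rcases le_or_gt (lam i a) 0 with h | h
    · rw [vm i h, norm_zero]
      positivity
    · refine (F.pc.ev_le _ v R hR hn).trans (mul_le_mul_of_nonneg_right ?_ (norm_nonneg _))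
      refine (mul_le_mul_of_nonneg_left (T.N_b m x hx i) (exp_pos _).le).trans ?_
      rw [← exp_add]
      exact exp_le_exp.mpr (by nlinarith [mul_le_mul_of_nonneg_right (g3 i h) m0])
  obtain ⟨z, h1, h2⟩ := hsm ε q (hε.trans (min_le_left _ _)) T _ xm _ vm (hb.trans (by
    refine (mul_le_mul_of_nonneg_left hn (exp_pos _).le).trans ?_
    rw [← exp_add]
    refine exp_le_exp.mpr ?_
    have : g * m ≤ s2 * m := mul_le_mul_of_nonneg_right (by linarith [P.s1_pos]) m0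
    nlinarith [mul_le_mul_of_nonneg_left qm c0]))
  refine ⟨_, (h1.fwd (by linarith) m).mono le_rfl ?_, ?_⟩
  · refine (mul_le_mul_of_nonneg_right (mul_le_mul_of_nonneg_left hb (exp_pos _).le)
      (exp_pos _).le).trans ?_
    rw [← mul_assoc, mul_right_comm _ ‖v‖, ← exp_add, ← exp_add]
    refine mul_le_mul_of_nonneg_right (exp_le_exp.mpr ?_) (norm_nonneg _)
    have a1 := mul_le_mul_of_nonneg_left (T.h_back m hx) ll
    have a2 := mul_le_mul_of_nonneg_left qm c0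
    have a3 := mul_le_mul_of_nonneg_left m2 B0
    have a4 := mul_le_mul_of_nonneg_right hC (by linarith : 0 ≤ q x + R)
    have a5 : J.L0 * K.L * (ε * m) ≤ J.L0 * K.L * m :=
      mul_le_mul_of_nonneg_left (mul_le_of_le_one_left m0 (by nlinarith)) ll
    have a6 : B * m = J.L0 * K.L * (m * ‖a‖) + J.L0 * K.L * m := by
      rw [hB]
      ring
    have a7 := mul_nonneg (add_nonneg (add_nonneg A0 l0) ll) (by linarith : 0 ≤ q x + R - 1)
    have a8 := mul_nonneg (add_nonneg c0 ll) hR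
    have a9 := mul_nonneg r0 (by linarith : 0 ≤ q x)
    nlinarith
  · have := F.H_mv P (m • a) xm ⟨_, h1.mono P.lt.le le_rfl⟩
    rwa [S.act_neg, h2, F.N_U_neg P _ hx hv] at this

/-- Points of the leaf approach the base point with the better rate. -/
theorem upgrade (P : Par K lam r a s1 s2) : F.Unif a fun C _ q => ∀ x ∈ F.X0,
    ∀ z ∈ K.Wu a s1 x, ∀ R, 0 ≤ R → ‖F.H a x z‖ ≤ exp R →
      K.Sh a s2 (exp (C * (q x + R)) * ‖F.H a x z‖) x z := by
  obtain ⟨C, ε0, h1, h2, h⟩ := F.surj P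
  refine ⟨C, ε0, h1, h2, fun ε q hε T x hx z hz R hR hv => ?_⟩
  obtain ⟨z', h3, h4⟩ := h ε q hε T x hx _ (F.H_mem P hx hz) R hR hv
  obtain rfl := F.H_inj P hx hz ⟨_, h3.mono P.lt.le le_rfl⟩ h4.symm
  exact h3

theorem Wu_eq (P : Par K lam r a s1 s2) {x : X} (hx : x ∈ F.X0) {z : M} (hz : z ∈ K.Wu a s1 x) :
    z ∈ K.Wu a s2 x := by
  obtain ⟨C, ε0, -, h2, h⟩ := F.upgrade P
  obtain ⟨q, T⟩ := F.exists_temp a h2
  exact ⟨_, h ε0 q le_rfl T x hx z hz ‖F.H a x z‖ (norm_nonneg _)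
    (by linarith [add_one_le_exp ‖F.H a x z‖])⟩

end Formal

end Pool.Agent.P.MP_d483fb_an.Z.NF
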