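import Pool.Agent.P.MP_d483fb_an.Z.NF.NAlg

/-!
Normal forms: one step of the dynamics in the formal normal form coordinates.
-/

open MeasureTheory Filter Topology Set Real

set_option linter.unusedSectionVars false

noncomputable section

namespace Pool.Agent.P.MP_d483fb_an.Z.NF

open Os

variable {W X Γ M : Type} [NormedAddCommGroup W] [NormedSpace ℝ W] [MeasurableSpace W]
  [MeasurableSpace X] {μ : Measure X} [Group Γ] [MeasurableSpace Γ] [MetricSpace M]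
  [MeasurableSpace M] {α : Γ →* Equiv.Perm M} {len : Γ → ℝ} {D : ℕ}
  {S : Sys W X μ} {J : Jets α len D} {K : Skew S J} {lam : Fin D → W →L[ℝ] ℝ} {r : ℕ}
  {a : W} {s1 s2 : ℝ}

namespace Formal

variable (F : Formal K lam r)

/-- One step of the dynamics in the coordinates `Ψ` is linear up to a quadratic error. -/
theorem lin_step (P : Par K lam r a s1 s2) : F.Unif a fun C _ q => ∀ x ∈ F.X0, ∀ z,
    dist z (K.pt x) ≤ exp (-(C * q x)) →
    ‖evv (F.Ψ x) (J.c (K.pt x) z)‖ ≤ exp (C * q x) * dist z (K.pt x) ∧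
    dist z (K.pt x) ≤ exp (C * q x) * ‖evv (F.Ψ x) (J.c (K.pt x) z)‖ ∧
    ‖evv (F.Ψ (S.act a x)) (J.c (K.pt (S.act a x)) (K.mv a x z)) -
      linv (F.N a x) (evv (F.Ψ x) (J.c (K.pt x) z))‖ ≤ exp (C * q x) * dist z (K.pt x) ^ 2 := by
  obtain ⟨k, hk⟩ : ∃ k : ℝ, k = F.A + J.L0 + J.Lr r * (1 + K.L * (2 + ‖a‖)) +
    (∑ i, |lam i a|) + ‖a‖ + 2 := ⟨_, rfl⟩
  have hA := F.pc.nonneg
  have hL0 := J.L0_nonneg
  have hLr := J.Lr_nonneg r
  have hL := K.L_nonneg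
  have ha := norm_nonneg a
  have hS : 0 ≤ ∑ i, |lam i a| := Finset.sum_nonneg fun _ _ => abs_nonneg _
  have hc : 0 ≤ J.Lr r * (1 + K.L * (2 + ‖a‖)) := by positivity
  obtain ⟨C, hC⟩ := exists_nat_ge (k * (r + 10 : ℕ))
  have hk2 : 2 ≤ k := by linarith
  have hr10 : (1 : ℝ) ≤ (r + 10 : ℕ) := by exact_mod_cast Nat.le_add_left 1 (r + 9)
  refine ⟨C, 1, by
    exact_mod_cast (show (1 : ℝ) ≤ C from
      le_trans (one_le_mul_of_one_le_of_one_le (by linarith) hr10) hC), one_pos,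
    fun ε q hε T x hx z hz => ?_⟩
  have hq := T.one_le x
  have hx' := F.inv0 a x hx
  have hq' : q (S.act a x) ≤ q x + 1 := by
    have := T.slow_f 1 x hx
    rw [one_nsmul] at this
    push_cast at this
    linarith
  obtain ⟨B, hB⟩ : ∃ B, B = exp (k * q x) := ⟨_, rfl⟩
  have hle : ∀ c : ℝ, c ≤ k * q x → exp c ≤ B := fun c h => hB ▸ exp_le_exp.2 h
  have hk0 : 0 ≤ k := by linarith
  have hkq : ∀ c : ℝ, c ≤ k → c ≤ k * q x := fun c h => h.trans (le_mul_of_one_le_right hk0 hq)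
  have hkq1 : ∀ c : ℝ, c + 1 ≤ k → q x + c ≤ k * q x := fun c h => by
    have h1 : k - 1 ≤ (k - 1) * q x := le_mul_of_one_le_right (by linarith) hq
    linarith
  have hB2 : 2 ≤ B := le_trans (by linarith [add_one_le_exp (2 : ℝ)]) (hle 2 (hkq _ hk2))
  have hB1 : 1 ≤ B := by linarith
  have hB0 : 0 < B := by linarith
  have bC : B ^ (r + 10) ≤ exp (C * q x) := by
    rw [hB, ← exp_nat_mul]
    refine exp_le_exp.2 ?_
    rw [← mul_assoc, mul_comm _ k]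
    gcongr
  set d := dist z (K.pt x) with hd
  have d0 : 0 ≤ d := dist_nonneg
  have hη : B ^ (r + 10) * d ≤ 1 := by
    calc B ^ (r + 10) * d ≤ exp (C * q x) * exp (-(C * q x)) := by gcongr
      _ = 1 := by rw [← exp_add, add_neg_cancel, exp_zero]
  have hp : ∀ m, m ≤ r + 9 → 2 * (B ^ m * d) ≤ 1 := fun m hm =>
    calc 2 * (B ^ m * d) ≤ B * (B ^ (r + 9) * d) := by gcongr
      _ = B ^ (r + 10) * d := by ring
      _ ≤ 1 := hη
  have hsm : ∀ c : ℝ, exp c ≤ B → d ≤ exp (-c) := fun c h => by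
    have h1 := hp 1 (by omega)
    rw [exp_neg, ← one_div, le_div_iff₀ (exp_pos c)]
    rw [pow_one] at h1
    have h2 : d * exp c ≤ d * B := by gcongr
    have h3 : 0 ≤ d * B := by positivity
    linarith
  have bA : exp F.A ≤ B := hle _ (hkq _ (by linarith))
  have bA0 : exp (F.A + r * 0) ≤ B := by simpa using bA
  have bL0 : exp J.L0 ≤ B := hle _ (hkq _ (by linarith))
  have bR : exp (F.A + r * (k * q x)) ≤ B ^ (r + 1) := by
    rw [exp_add, exp_nat_mul, ← hB, pow_succ']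
    gcongr
  have q1 := hkq1 1 (by linarith)
  have bΨ : ‖F.Ψ x‖ ≤ B := (T.Ψ_le x hx).trans (hle _ (by linarith))
  have bQ : ‖F.Q x‖ ≤ B := (T.Q_le x hx).trans (hle _ (by linarith))
  have bΨ' : ‖F.Ψ (S.act a x)‖ ≤ B := (T.Ψ_le _ hx').trans (hle _ (by linarith))
  have bΛ : exp (J.Lr r * (1 + K.L * (1 + ‖a‖ + K.h x))) ≤ B := by
    refine hle _ ?_
    have h1 : 1 + ‖a‖ + K.h x ≤ (2 + ‖a‖) * q x := by
      have h3 : ‖a‖ ≤ ‖a‖ * q x := le_mul_of_one_le_right ha hq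
      linarith [T.h_le x hx]
    have h2 : 1 + K.L * (1 + ‖a‖ + K.h x) ≤ (1 + K.L * (2 + ‖a‖)) * q x := by
      linarith [mul_le_mul_of_nonneg_left h1 hL]
    calc _ ≤ J.Lr r * ((1 + K.L * (2 + ‖a‖)) * q x) := by gcongr
      _ = J.Lr r * (1 + K.L * (2 + ‖a‖)) * q x := by ring
      _ ≤ k * q x := by gcongr; linarith
  have bT : ‖K.T r a x‖ ≤ B := (K.T_le r a x).trans bΛ
  have bN : ‖F.N a x‖ ≤ B := (pi_norm_le_iff_of_nonneg hB0.le).2 fun i =>
    (T.N_le a x hx i).trans (hle _ (by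
      have h1 : |lam i a| ≤ ∑ i, |lam i a| :=
        Finset.single_le_sum (f := fun i => |lam i a|) (fun _ _ => abs_nonneg _) (Finset.mem_univ i)
      have h2 := le_abs_self (lam i a)
      have h3 : ε * ‖a‖ ≤ ‖a‖ := mul_le_of_le_one_left ha hε
      have h4 := hkq1 ((∑ i, |lam i a|) + ‖a‖) (by linarith)
      linarith))
  have R0 : 0 ≤ k * q x := by positivity
  set w := J.c (K.pt x) z with hw
  have hwd : ‖w‖ ≤ B * d := (J.c_le (hsm _ bL0)).trans (by gcongr)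
  have hdw : d ≤ B * ‖w‖ := (J.c_ge (hsm _ bL0)).trans (by gcongr)
  have w1 : ‖w‖ ≤ 1 := by
    have := hp 1 (by omega)
    rw [pow_one] at this
    linarith [mul_nonneg hB0.le d0]
  have d1 : d ≤ 1 := by have := hp 0 (by omega); rw [pow_zero] at this; linarith
  have wr : ‖w‖ ^ r ≤ ‖w‖ ^ 2 := pow_le_pow_of_le_one (norm_nonneg _) w1 P.two_le
  have w2 : ‖w‖ ^ r ≤ (B * d) ^ 2 := wr.trans (by gcongr)
  have hev : ∀ (G : Jt D r) (v : E D), ‖G‖ ≤ B → ‖v‖ ≤ 1 → ‖evv G v‖ ≤ B ^ 2 * ‖v‖ :=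
    fun G v h1 h2 => (F.pc.evv_le G v le_rfl (by simpa using h2)).trans (by rw [sq]; gcongr)
  have herr : ∀ G G' : Jt D r, ‖G‖ ≤ B → ‖G'‖ ≤ B →
      ‖evv (compv G G') w - evv G (evv G' w)‖ ≤ B ^ (r + 2) * ‖w‖ ^ r := fun G G' h1 h2 =>
    (F.pc.compv_err G G' w R0 (hB ▸ h2) w1).trans (by rw [pow_succ B (r + 1)]; gcongr)
  set u := evv (F.Ψ x) w with hu
  have hud : ‖u‖ ≤ B ^ 3 * d := (hev _ _ bΨ w1).trans (by
    calc B ^ 2 * ‖w‖ ≤ B ^ 2 * (B * d) := by gcongr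
      _ = _ := by ring)
  have h3 := hp 3 (by omega)
  have h30 : 0 ≤ B ^ 3 * d := by positivity
  have u1 : ‖u‖ ≤ 1 := by linarith
  have hpow : ∀ m, m ≤ r + 10 → B ^ m ≤ exp (C * q x) := fun m hm =>
    (pow_le_pow_right₀ hB1 hm).trans bC
  refine ⟨hud.trans (by gcongr; exact hpow 3 (by omega)), ?_, ?_⟩
  · have h1 := herr _ _ bQ bΨ
    rw [F.QΨ x hx, evv_idv P.two_le] at h1
    have h2 := hev _ u bQ u1
    have h4 : B ^ (r + 2) * ‖w‖ ^ r ≤ B ^ (r + 3) * d * ‖w‖ :=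
      calc B ^ (r + 2) * ‖w‖ ^ r ≤ B ^ (r + 2) * (‖w‖ * ‖w‖) := by rw [← sq]; gcongr
        _ ≤ B ^ (r + 2) * (B * d * ‖w‖) := by gcongr
        _ = _ := by ring
    have h5 := mul_le_mul_of_nonneg_right (hp (r + 3) (by omega)) (norm_nonneg w)
    have h6 := norm_le_norm_add_norm_sub' w (evv (F.Q x) u)
    have h7 : ‖w‖ ≤ 2 * (B ^ 2 * ‖u‖) := by linarith
    calc d ≤ B * (B * (B ^ 2 * ‖u‖)) := hdw.trans (by gcongr; exact h7.trans (by gcongr))
      _ = B ^ 4 * ‖u‖ := by ring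
      _ ≤ _ := by gcongr; exact hpow 4 (by omega)
  · set w' := J.c (K.pt (S.act a x)) (K.mv a x z) with hw'
    have j1 : ‖w' - evv (K.T r a x) w‖ ≤ B * d ^ 2 :=
      (K.jet r a x z (hsm _ bΛ)).trans (mul_le_mul bΛ (pow_le_pow_of_le_one d0 d1 P.two_le)
        (by positivity) hB0.le)
    have j2 : ‖evv (K.T r a x) w‖ ≤ B ^ 3 * d := (hev _ _ bT w1).trans (by
      calc B ^ 2 * ‖w‖ ≤ B ^ 2 * (B * d) := by gcongr
        _ = _ := by ring)
    have j3 : B * d ^ 2 ≤ B ^ 3 * d := by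
      rw [sq d, ← mul_assoc]
      gcongr
      calc B * d ≤ B * 1 := by gcongr
        _ = B ^ 1 := by ring
        _ ≤ B ^ 3 := pow_le_pow_right₀ hB1 (by omega)
    have j4 : ‖w'‖ ≤ 1 := by
      have := norm_le_norm_add_norm_sub' w' (evv (K.T r a x) w)
      linarith
    have e1 : ‖evv (F.Ψ (S.act a x)) w' - evv (F.Ψ (S.act a x)) (evv (K.T r a x) w)‖ ≤
        B * B * (B * d ^ 2) :=
      (F.pc.evv_lip _ _ _ le_rfl (by simpa using j4) (by rw [exp_zero]; linarith)).trans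
        (by gcongr)
    have e2 := herr _ _ bΨ' bT
    rw [F.conj a x hx] at e2
    have e3 := herr _ _ bN bΨ
    have e4 : ‖evv (F.N a x) u - linv (F.N a x) u‖ ≤ B * B * (B ^ 3 * d) ^ 2 :=
      (F.pc.evv_lin _ u u1).trans (by gcongr)
    have f1 : B * B * (B * d ^ 2) ≤ B ^ (r + 8) * d ^ 2 :=
      calc B * B * (B * d ^ 2) = B ^ 3 * d ^ 2 := by ring
        _ ≤ _ := by gcongr; omega
    have f2 : B ^ (r + 2) * ‖w‖ ^ r ≤ B ^ (r + 8) * d ^ 2 :=
      calc B ^ (r + 2) * ‖w‖ ^ r ≤ B ^ (r + 2) * (B * d) ^ 2 := by gcongr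
        _ = B ^ (r + 4) * d ^ 2 := by ring
        _ ≤ _ := by gcongr; omega
    have f3 : B * B * (B ^ 3 * d) ^ 2 ≤ B ^ (r + 8) * d ^ 2 :=
      calc B * B * (B ^ 3 * d) ^ 2 = B ^ 8 * d ^ 2 := by ring
        _ ≤ _ := by gcongr; omega
    have f4 : 4 * (B ^ (r + 8) * d ^ 2) ≤ exp (C * q x) * d ^ 2 :=
      calc 4 * (B ^ (r + 8) * d ^ 2) = 2 * 2 * (B ^ (r + 8) * d ^ 2) := by ring
        _ ≤ B * B * (B ^ (r + 8) * d ^ 2) := by gcongr
        _ = B ^ (r + 10) * d ^ 2 := by ring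
        _ ≤ _ := by gcongr
    have t1 := norm_sub_le_norm_sub_add_norm_sub (evv (F.Ψ (S.act a x)) w')
      (evv (F.Ψ (S.act a x)) (evv (K.T r a x) w)) (linv (F.N a x) u)
    have t2 := norm_sub_le_norm_sub_add_norm_sub (evv (F.Ψ (S.act a x)) (evv (K.T r a x) w))
      (evv (compv (F.N a x) (F.Ψ x)) w) (linv (F.N a x) u)
    have t3 := norm_sub_le_norm_sub_add_norm_sub (evv (compv (F.N a x) (F.Ψ x)) w)
      (evv (F.N a x) u) (linv (F.N a x) u)
    rw [norm_sub_rev] at e2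
    linarith

end Formal

end Pool.Agent.P.MP_d483fb_an.Z.NF
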