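import Pool.Agent.P.MP_d483fb_an.Z.NF.PRes
import Pool.Agent.P.MP_d483fb_an.Z.NF.PLim
import Pool.Agent.P.MP_d483fb_an.Z.Grp.Gauge

/-!
Normal forms: subresonant polynomial maps as matrices acting on monomials.
-/

open MvPolynomial Filter Topology Real
open scoped Matrix Matrix.Norms.Operator

noncomputable section

namespace Pool.Agent.P.MP_d483fb_an.Z.NF

variable {D : ℕ}

/-- Monomials in the variables of positive weight, of bounded weight. -/
def Mon (c : Fin D → ℝ) : Type :=
  {m : Fin D →₀ ℕ // (∀ j, m j ≠ 0 → 0 < c j) ∧ wt c m ≤ ∑ j, |c j|}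

theorem nsmul_le_wt {c : Fin D → ℝ} {m : Fin D →₀ ℕ} (h : ∀ j, m j ≠ 0 → 0 < c j) (j : Fin D) :
    m j * c j ≤ wt c m := by
  rw [← nsmul_eq_mul]
  refine Finset.single_le_sum (f := fun j => m j • c j) (fun i _ => ?_) (Finset.mem_univ j)
  by_cases hi : m i = 0
  · simp [hi]
  · exact nsmul_nonneg (h i hi).le _

theorem exists_deg (c : Fin D → ℝ) : ∃ N : ℕ, ∀ m : Mon c, m.1.degree ≤ N := by
  choose N hN using fun j => exists_nat_ge ((∑ j, |c j|) / c j)
  refine ⟨∑ j, N j, fun m => ?_⟩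
  rw [Finsupp.degree_eq_sum]
  refine Finset.sum_le_sum fun j _ => ?_
  by_cases hj : m.1 j = 0
  · simp [hj]
  · have h1 := m.2.1 j hj
    have h2 := (le_div_iff₀ h1).2 ((nsmul_le_wt m.2.1 j).trans m.2.2)
    exact_mod_cast h2.trans (hN j)

instance (c : Fin D → ℝ) : Finite (Mon c) := by
  obtain ⟨N, hN⟩ := exists_deg c
  exact ((Finsupp.finite_of_degree_le (σ := Fin D) N).subset
    (t := {m | (∀ j, m j ≠ 0 → 0 < c j) ∧ wt c m ≤ ∑ j, |c j|}) fun m h => hN ⟨m, h⟩).to_subtype

instance (c : Fin D → ℝ) : Fintype (Mon c) := Fintype.ofFinite _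

instance (c : Fin D → ℝ) : DecidableEq (Mon c) := Classical.decEq _

variable {c : Fin D → ℝ}

/-- The values of the monomials. -/
def ver (c : Fin D → ℝ) (v : E D) : Mon c → ℝ := fun m => mono m.1 v

theorem wt_zero {Λ : Type} [AddCommMonoid Λ] (lam : Fin D → Λ) : wt lam 0 = 0 := by simp [wt]

theorem wt_add {Λ : Type} [AddCommMonoid Λ] (lam : Fin D → Λ) (m m' : Fin D →₀ ℕ) :
    wt lam (m + m') = wt lam m + wt lam m' := by
  simp [wt, add_smul, Finset.sum_add_distrib]

theorem wt_single {Λ : Type} [AddCommMonoid Λ] (lam : Fin D → Λ) (j : Fin D) :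
    wt lam (Finsupp.single j 1) = lam j := by
  simp [wt, Finsupp.single_apply]

theorem mono_single (j : Fin D) (v : E D) : mono (Finsupp.single j 1) v = v j := by
  simp [mono, Finsupp.single_apply, pow_ite]

/-- The constant monomial. -/
def e0 (c : Fin D → ℝ) : Mon c :=
  ⟨0, fun _ h => absurd rfl h, by rw [wt_zero]; exact Finset.sum_nonneg fun _ _ => abs_nonneg _⟩

/-- The monomial of a variable. -/
def eu (j : Fin D) (h : 0 < c j) : Mon c :=
  ⟨Finsupp.single j 1, fun i hi => by rwa [← (Finsupp.single_apply_ne_zero.1 hi).1] at h, by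
    rw [wt_single]
    exact (le_abs_self _).trans
      (Finset.single_le_sum (f := fun j => |c j|) (fun _ _ => abs_nonneg _) (Finset.mem_univ j))⟩

theorem ver_e0 (v : E D) : ver c v (e0 c) = 1 := by simp [ver, e0, mono]

theorem ver_eu (v : E D) (j : Fin D) (h : 0 < c j) : ver c v (eu j h) = v j := mono_single j v

theorem ver_zero : ver c 0 = Pi.single (e0 c) 1 := by
  funext m
  by_cases h : m = e0 c
  · rw [h, ver_e0, Pi.single_eq_same]
  · rw [Pi.single_eq_of_ne h]
    have h1 : m.1.degree ≠ 0 := fun h0 => h (Subtype.ext ((Finsupp.degree_eq_zero_iff _).1 h0))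
    have := PEv_mono_le m.1 (0 : E D)
    rwa [norm_zero, zero_pow h1, abs_nonpos_iff] at this

/-- The point with given values of the linear monomials. -/
def unver (c : Fin D → ℝ) (y : Mon c → ℝ) : E D := fun j => if h : 0 < c j then y (eu j h) else 0

theorem unver_mem (y : Mon c → ℝ) : unver c y ∈ U c := fun _ hj => dif_neg hj.not_gt

theorem unver_ver {v : E D} (hv : v ∈ U c) : unver c (ver c v) = v := funext fun j => by
  by_cases h : 0 < c j
  · exact (dif_pos h).trans (ver_eu v j h)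
  · exact (dif_neg h).trans (hv j (not_lt.1 h)).symm

theorem norm_unver_le {y : Mon c → ℝ} {R : ℝ} (hR : 0 ≤ R) (h : ∀ m, |y m| ≤ R) :
    ‖unver c y‖ ≤ R := (pi_norm_le_iff_of_nonneg hR).2 fun j => by
  unfold unver
  split_ifs
  · exact h _
  · simpa using hR

theorem continuous_ver : Continuous (ver c) :=
  continuous_pi fun m => by
    unfold ver mono
    fun_prop

theorem continuous_unver : Continuous (unver c) := continuous_pi fun j => by
  unfold unver
  split_ifs
  · exact continuous_apply _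
  · exact continuous_const

theorem ver_ind {b : Mon c → ℝ} (h : ∀ v ∈ U c, ‖v‖ ≤ 1 → ∑ m, b m * ver c v m = 0) : b = 0 := by
  have hco : ∀ m : Mon c, coeff m.1 (∑ m : Mon c, monomial m.1 (b m)) = b m := fun m => by
    have : ∀ m' : Mon c, m'.1 = m.1 ↔ m' = m := fun m' => Subtype.coe_inj
    simp only [coeff_sum, coeff_monomial, this, Finset.sum_ite_eq', Finset.mem_univ, if_true]
  have e : (∑ m : Mon c, monomial m.1 (b m) : MvPolynomial (Fin D) ℝ) = 0 :=
    funext_set (fun _ => Set.Icc (-1) 1) (fun _ => Set.Icc_infinite (by norm_num)) fun v hv => by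
      have h1 : ∀ j, |v j| ≤ 1 := fun j => abs_le.2 (hv j trivial)
      rw [map_sum, map_zero]
      refine Eq.trans (Finset.sum_congr rfl fun m _ => ?_)
        (h (fun j => if 0 < c j then v j else 0) (fun j hj => if_neg hj.not_gt)
        ((pi_norm_le_iff_of_nonneg zero_le_one).2 fun j => by
          split_ifs
          · exact h1 j
          · simp))
      rw [eval_monomial_eq]
      congr 1
      refine Finset.prod_congr rfl fun j _ => ?_
      by_cases hj : m.1 j = 0
      · rw [hj, pow_zero, pow_zero]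
      · simp only [if_pos (m.2.1 j hj)]
  funext m
  rw [← hco m, e, coeff_zero]
  rfl

theorem mat_ext {T T' : Matrix (Mon c) (Mon c) ℝ}
    (h : ∀ v ∈ U c, T *ᵥ ver c v = T' *ᵥ ver c v) : T = T' := by
  ext m m'
  have := ver_ind (b := fun k => T m k - T' m k) fun v hv _ => by
    simp only [sub_mul, Finset.sum_sub_distrib]
    exact sub_eq_zero.2 (congrFun (h v hv) m)
  exact sub_eq_zero.1 (congrFun this m')

/-- The matrix `T` represents the map `S` of `U c` to itself. -/
def Rp (c : Fin D → ℝ) (S : E D → E D) (T : Matrix (Mon c) (Mon c) ℝ) : Prop :=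
  ∀ v ∈ U c, S v ∈ U c ∧ ver c (S v) = T *ᵥ ver c v

variable {S S' : E D → E D} {T T' : Matrix (Mon c) (Mon c) ℝ}

theorem Rp.unique (h : Rp c S T) (h' : Rp c S' T') (e : ∀ v ∈ U c, S v = S' v) : T = T' :=
  mat_ext fun v hv => by rw [← (h v hv).2, ← (h' v hv).2, e v hv]

theorem Rp.comp (h : Rp c S T) (h' : Rp c S' T') : Rp c (fun v => S (S' v)) (T * T') :=
  fun v hv => ⟨(h _ (h' v hv).1).1, by rw [(h _ (h' v hv).1).2, (h' v hv).2, Matrix.mulVec_mulVec]⟩

theorem rp_id : Rp c (fun v => v) 1 := fun _ hv => ⟨hv, (Matrix.one_mulVec _).symm⟩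

theorem Rp.mul_eq_one (h : Rp c S T) (h' : Rp c S' T') (e : ∀ v ∈ U c, S (S' v) = v) :
    T * T' = 1 := (h.comp h').unique rp_id e

theorem rp_dil (c' : Fin D → ℝ) : Rp c (dil c') (Matrix.diagonal fun m => exp (wt c' m.1)) :=
  fun v hv => ⟨dil_mem_U hv c', funext fun m => by rw [Matrix.mulVec_diagonal]; exact mono_dil _ _ _⟩

theorem Rp.col (h : Rp c S T) (m : Mon c) : T m (e0 c) = ver c (S 0) m := by
  rw [(h 0 (zero_mem_U c)).2, ver_zero, Matrix.mulVec_single_one]
  rfl

/-- Polynomials in the variables of positive weight with monomials of weight at most `u`. -/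
def Low (c : Fin D → ℝ) (u : ℝ) (P : MvPolynomial (Fin D) ℝ) : Prop :=
  ∀ α ∈ P.support, (∀ j, α j ≠ 0 → 0 < c j) ∧ wt c α ≤ u

theorem low_one : Low c 0 1 := fun α h => by
  obtain rfl : α = 0 := Finset.mem_singleton.1 (support_monomial_subset h)
  exact ⟨fun _ h => absurd rfl h, (wt_zero c).le⟩

theorem Low.mul {u u' : ℝ} {P Q : MvPolynomial (Fin D) ℝ} (h : Low c u P) (h' : Low c u' Q) :
    Low c (u + u') (P * Q) := fun α hα => by
  obtain ⟨β, hβ, γ, hγ, rfl⟩ := Finset.mem_add.1 (support_mul P Q hα)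
  refine ⟨fun j hj => ?_, (wt_add c β γ).trans_le (add_le_add (h β hβ).2 (h' γ hγ).2)⟩
  by_cases h1 : β j = 0
  · exact (h' γ hγ).1 j fun h2 => hj (by simp [h1, h2])
  · exact (h β hβ).1 j h1

theorem Low.pow {u : ℝ} {P : MvPolynomial (Fin D) ℝ} (h : Low c u P) (n : ℕ) :
    Low c (n • u) (P ^ n) := by
  induction n with
  | zero => simpa using low_one
  | succ n ih => rw [succ_nsmul, pow_succ]; exact ih.mul h

theorem low_prod {P : Fin D → MvPolynomial (Fin D) ℝ} {u : Fin D → ℝ} (h : ∀ j, Low c (u j) (P j))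
    (s : Finset (Fin D)) : Low c (∑ j ∈ s, u j) (∏ j ∈ s, P j) := by
  induction s using Finset.induction_on with
  | empty => simpa using low_one
  | insert j s hj ih => rw [Finset.sum_insert hj, Finset.prod_insert hj]; exact (h j).mul ih

theorem SubRes.exists_rp (h : SubRes c S) (hU : ∀ v ∈ U c, S v ∈ U c) :
    ∃ T, Rp c S T ∧ ∀ m m', T m m' ≠ 0 → wt c m'.1 ≤ wt c m.1 := by
  choose P hP eP using h
  have hl : ∀ m : Mon c, Low c (wt c m.1) (∏ j, P j ^ m.1 j) := fun m =>
    low_prod (fun j => Low.pow (hP j) _) _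
  refine ⟨Matrix.of fun m m' => coeff m'.1 (∏ j, P j ^ m.1 j), fun v hv => ⟨hU v hv, ?_⟩,
    fun m m' h0 => (hl m _ (mem_support_iff.2 h0)).2⟩
  funext m
  have e1 : ver c (S v) m = eval v (∏ j, P j ^ m.1 j) := by
    simp only [ver, mono, map_prod, map_pow, ← eP _ v hv]
  rw [e1, eval_eq']
  symm
  refine Finset.sum_bij_ne_zero (fun m' _ _ => m'.1) (fun m' _ h0 => ?_)
    (fun _ _ _ _ _ _ e => Subtype.ext e) (fun β hβ h0 => ?_) fun _ _ _ => rfl
  · exact mem_support_iff.2 (left_ne_zero_of_mul h0)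
  · exact ⟨⟨β, (hl m β hβ).1, (hl m β hβ).2.trans m.2.2⟩, Finset.mem_univ _, h0, rfl⟩

theorem exists_matOf (c : Fin D → ℝ) :
    ∃ (mt : (E D → E D) → Matrix (Mon c) (Mon c) ℝ) (A : ℝ), 0 ≤ A ∧
      (∀ S T, Rp c S T → mt S = T) ∧
      (∀ (Y : Type) [MeasurableSpace Y] (S : Y → E D → E D), (∀ v, Measurable fun y => S y v) →
        Measurable fun y => mt (S y)) ∧
      ∀ S R, 0 ≤ R → (∀ v ∈ U c, ‖v‖ ≤ 1 → ‖S v‖ ≤ exp R) → ‖mt S‖ ≤ exp (A * (1 + R)) := by
  obtain ⟨n, z, t, hz, ht⟩ := coef_bound (fun (m : Mon c) v => ver c v m) {v | v ∈ U c ∧ ‖v‖ ≤ 1}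
    fun b hb => ver_ind fun v hv hv1 => hb v ⟨hv, hv1⟩
  obtain ⟨N, hN⟩ := exists_deg c
  set b : ℝ := Fintype.card (Mon c) * (n * ‖t‖) with hb
  have hb0 : 0 ≤ b := by positivity
  refine ⟨fun S => Matrix.of fun m m' => ∑ k, t m' k * ver c (S (z k)) m, b + N, by positivity,
    fun S T h => ?_, fun Y _ S hS => ?_, fun S R hR h => ?_⟩
  · ext m m'
    change ∑ k, t m' k * ver c (S (z k)) m = T m m'
    refine Eq.trans (Finset.sum_congr rfl fun k _ => ?_) (ht (T m) m').symm
    rw [(h _ (hz k).1).2]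
    rfl
  · refine measurable_pi_lambda _ fun m => measurable_pi_lambda _ fun m' => ?_
    change Measurable fun y => ∑ k, t m' k * ver c (S y (z k)) m
    exact Finset.measurable_sum _ fun k _ => (((measurable_pi_apply m).comp
      (continuous_ver.measurable.comp (hS _))).const_mul _)
  · have h1 : ∀ k m, |ver c (S (z k)) m| ≤ exp (N * R) := fun k m => by
      refine (PEv_mono_le _ _).trans ((pow_le_pow_left₀ (norm_nonneg _)
        (h _ (hz k).1 (hz k).2) _).trans ?_)
      rw [exp_nat_mul]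
      exact pow_le_pow_right₀ (one_le_exp hR) (hN m)
    refine (norm_le_of_entry (c := n * ‖t‖ * exp (N * R)) (by positivity) fun m m' => ?_).trans ?_
    · change |∑ k, t m' k * ver c (S (z k)) m| ≤ _
      refine (Finset.abs_sum_le_sum_abs _ _).trans ((Finset.sum_le_card_nsmul _ _
        (‖t‖ * exp (N * R)) fun k _ => ?_).trans_eq ?_)
      swap
      · simp [mul_assoc]
      rw [abs_mul]
      exact mul_le_mul ((norm_le_pi_norm (t m') k).trans (norm_le_pi_norm t m')) (h1 k m)
        (abs_nonneg _) (norm_nonneg _)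
    · rw [← mul_assoc, ← hb]
      refine (mul_le_mul_of_nonneg_right (by linarith [add_one_le_exp b] : b ≤ exp b)
        (exp_pos _).le).trans ?_
      rw [← exp_add, exp_le_exp]
      nlinarith [N.cast_nonneg (α := ℝ), mul_nonneg hb0 hR]

end Pool.Agent.P.MP_d483fb_an.Z.NF
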