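import Pool.Agent.P.MP_d483fb_an.Z.NF.Ver

/-!
Normal forms: the group of the matrices that preserve the variety of the values of the monomials.
-/

open Filter Topology Real Asymptotics
open scoped Matrix Matrix.Norms.Operator

noncomputable section

namespace Pool.Agent.P.MP_d483fb_an.Z.NF

variable {D : ℕ} {c : Fin D → ℝ} {S S' : E D → E D} {T T' : Matrix (Mon c) (Mon c) ℝ}

/-- `T` maps the values of the monomials on `U c` to such values. -/
def Pres (c : Fin D → ℝ) (T : Matrix (Mon c) (Mon c) ℝ) : Prop :=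
  ∀ v ∈ U c, T *ᵥ ver c v = ver c (unver c (T *ᵥ ver c v))

theorem Rp.pres (h : Rp c S T) : Pres c T := fun v hv => by
  rw [← (h v hv).2, unver_ver (h v hv).1]

theorem Pres.rp (h : Pres c T) : Rp c (fun v => unver c (T *ᵥ ver c v)) T :=
  fun v hv => ⟨unver_mem _, (h v hv).symm⟩

theorem isClosed_pres (c : Fin D → ℝ) : IsClosed {T | Pres c T} := by
  have : {T | Pres c T} = ⋂ v ∈ U c, {T | T *ᵥ ver c v = ver c (unver c (T *ᵥ ver c v))} := by
    ext T
    simp [Pres]
  rw [this]
  refine isClosed_biInter fun v _ => ?_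
  have h : Continuous fun T : Matrix (Mon c) (Mon c) ℝ => T *ᵥ ver c v :=
    continuous_id.matrix_mulVec continuous_const
  exact isClosed_eq h (continuous_ver.comp (continuous_unver.comp h))

/-- The invertible matrices that preserve the values of the monomials, with their inverses. -/
def GenF (c : Fin D → ℝ) : Submonoid (Matrix (Mon c) (Mon c) ℝ) where
  carrier := {T | IsUnit T.det ∧ Pres c T ∧ Pres c T⁻¹}
  one_mem' := ⟨by simp, rp_id.pres, by rw [inv_one]; exact rp_id.pres⟩
  mul_mem' := fun {T T'} h h' => ⟨by rw [Matrix.det_mul]; exact h.1.mul h'.1,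
    (h.2.1.rp.comp h'.2.1.rp).pres, by
      rw [Matrix.mul_inv_rev]
      exact (h'.2.2.rp.comp h.2.2.rp).pres⟩

theorem Rp.inv_eq (h : Rp c S T) (h' : Rp c S' T') (e : ∀ v ∈ U c, S (S' v) = v) : T⁻¹ = T' :=
  Matrix.inv_eq_right_inv (h.mul_eq_one h' e)

theorem Rp.mem_gen (h : Rp c S T) (h' : Rp c S' T') (e : ∀ v ∈ U c, S (S' v) = v) : T ∈ GenF c :=
  ⟨Matrix.isUnit_det_of_right_inverse (h.mul_eq_one h' e), h.pres, by
    rw [h.inv_eq h' e]
    exact h'.pres⟩

theorem genF_inv (h : T ∈ GenF c) : T⁻¹ ∈ GenF c :=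
  ⟨Matrix.isUnit_nonsing_inv_det T h.1, h.2.2, by
    rw [Matrix.nonsing_inv_nonsing_inv T h.1]
    exact h.2.1⟩

theorem genF_cl (hu : IsUnit T.det) (h : T ∈ closure (GenF c : Set (Matrix (Mon c) (Mon c) ℝ))) :
    T ∈ GenF c := by
  refine ⟨hu, (isClosed_pres c).closure_subset (closure_mono (fun _ h => h.2.1) h), ?_⟩
  have hc : ContinuousAt Inv.inv T := continuousAt_matrix_inv T (by
    rw [Ring.inverse_eq_inv']
    exact continuousAt_inv₀ hu.ne_zero)
  exact (isClosed_pres c).closure_subset (hc.continuousWithinAt.mem_closure h fun _ h => h.2.2)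

theorem Rp.row (h : Rp c S T) : T (e0 c) (e0 c) = 1 := by rw [h.col, ver_e0]

theorem dil_dil (c' : Fin D → ℝ) (v : E D) : dil c' (dil (fun j => -c' j) v) = v := by
  funext j
  simp only [dil]
  rw [← mul_assoc, ← exp_add, add_neg_cancel, exp_zero, one_mul]

theorem dil_mem_gen (c' : Fin D → ℝ) : (Matrix.diagonal fun m => exp (wt c' m.1)) ∈ GenF c :=
  (rp_dil c').mem_gen (rp_dil fun j => -c' j) fun v _ => dil_dil c' v

theorem genF_lie {V : Matrix (Mon c) (Mon c) ℝ} (h : ∀ t : ℝ, NormedSpace.exp (t • V) ∈ GenF c)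
    {m : Mon c} (hm : m.1.degree ≠ 1) : V m (e0 c) = 0 := by
  have hd : ∀ k, HasDerivAt (fun t : ℝ => NormedSpace.exp (t • V) k (e0 c)) (V k (e0 c)) 0 := by
    intro k
    have h1 := hasDerivAt_exp_smul_const V (0 : ℝ)
    rw [zero_smul, NormedSpace.exp_zero, one_mul] at h1
    exact (LinearMap.toContinuousLinearMap
      (Matrix.entryLinearMap ℝ ℝ k (e0 c))).hasFDerivAt.comp_hasDerivAt 0 h1
  set p : ℝ → E D := fun t => unver c (NormedSpace.exp (t • V) *ᵥ ver c 0) with hp
  have e : ∀ t k, NormedSpace.exp (t • V) k (e0 c) = mono k.1 (p t) := fun t k =>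
    (h t).2.1.rp.col k
  have p0 : p 0 = 0 := by
    simp only [hp, zero_smul, NormedSpace.exp_zero, Matrix.one_mulVec, unver_ver (zero_mem_U c)]
  have pd : DifferentiableAt ℝ p 0 := differentiableAt_pi.2 fun j => by
    simp only [hp, unver, ver_zero, Matrix.mulVec_single_one]
    split_ifs with hj
    · exact (hd _).differentiableAt
    · exact differentiableAt_const _
  refine (hd m).unique ?_
  simp only [e]
  by_cases h0 : m.1.degree = 0
  · simp only [(Finsupp.degree_eq_zero_iff _).1 h0, mono, Finsupp.coe_zero, Pi.zero_apply, pow_zero,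
      Finset.prod_const_one]
    exact hasDerivAt_const _ _
  · obtain ⟨d, hd2⟩ : ∃ d, m.1.degree = d + 1 + 1 := ⟨m.1.degree - 2, by omega⟩
    have z0 : mono m.1 (p 0) = 0 := by
      have := PEv_mono_le m.1 (p 0)
      rwa [hd2, p0, norm_zero, zero_pow (by omega), abs_nonpos_iff, ← p0] at this
    rw [hasDerivAt_iff_isLittleO, z0]
    simp only [sub_zero, smul_zero]
    have b1 : p =O[𝓝 0] fun t : ℝ => t := by simpa [p0] using pd.isBigO_sub
    have b2 : (fun t => ‖p t‖ ^ (d + 1)) =o[𝓝 0] fun _ => (1 : ℝ) := by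
      rw [isLittleO_one_iff]
      have := pd.continuousAt.norm.tendsto.pow (d + 1)
      rwa [p0, norm_zero, zero_pow (by omega)] at this
    have b3 := b2.mul_isBigO b1.norm_left
    simp only [one_mul] at b3
    refine IsBigO.trans_isLittleO (IsBigO.of_bound' (Eventually.of_forall fun t => ?_)) b3
    rw [← pow_succ, ← hd2]
    exact (PEv_mono_le _ _).trans (le_abs_self _)

theorem card_deg_one {Λ : Type} [AddCommMonoid Λ] (lam : Fin D → Λ) (β : Λ) :
    Nat.card {m : Mon c // m ∈ Finset.univ.filter (fun m : Mon c => m.1.degree = 1) ∧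
      wt lam m.1 = β} ≤ Nat.card {i // lam i = β} := by
  have h : ∀ m : {m : Mon c // m ∈ Finset.univ.filter (fun m : Mon c => m.1.degree = 1) ∧
      wt lam m.1 = β}, ∃ j : {i // lam i = β}, Finsupp.single j.1 1 = m.1.1 := fun m => by
    obtain ⟨j, hj⟩ : m.1.1 ∈ Set.range fun a : Fin D => Finsupp.single a 1 := by
      rw [Finsupp.range_single_one]
      exact (Finset.mem_filter.1 m.2.1).2
    exact ⟨⟨j, by rw [← wt_single lam j, ← m.2.2, ← hj]⟩, hj⟩
  choose f hf using h
  exact Nat.card_le_card_of_injective f fun m m' e =>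
    Subtype.ext (Subtype.ext (by rw [← hf m, ← hf m', e]))

theorem wt_mon_pos {m : Mon c} (h : m ≠ e0 c) : 0 < wt c m.1 := by
  obtain ⟨j, hj⟩ : ∃ j, m.1 j ≠ 0 := by
    by_contra hn
    push Not at hn
    exact h (Subtype.ext (Finsupp.ext hn))
  exact (mul_pos (Nat.cast_pos.2 (Nat.pos_of_ne_zero hj)) (m.2.1 j hj)).trans_le
    (nsmul_le_wt m.2.1 j)

theorem Res.evv_dil {r : ℕ} {c' : Fin D → ℝ} {N : Jt D r} (h : Res c' N) (v : E D) :
    evv N (dil c' v) = dil c' (evv N v) := funext fun j => (h j).ev_dil v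

/-- A matrix that represents a resonant jet has entries only between equal weights. -/
theorem Rp.res {W : Type} [NormedAddCommGroup W] [NormedSpace ℝ W] {lam : Fin D → W →L[ℝ] ℝ}
    {r : ℕ} {N : Jt D r} (hN : Res lam N) (h : Rp c (evv N) T) {m m' : Mon c} (h0 : T m m' ≠ 0) :
    wt lam m.1 = wt lam m'.1 := by
  ext s
  have e := (h.comp (rp_dil fun j => lam j s)).unique ((rp_dil fun j => lam j s).comp h)
    fun v _ => (hN.apply s).evv_dil v
  have e1 := congrFun (congrFun e m) m'
  rw [Matrix.mul_diagonal, Matrix.diagonal_mul, mul_comm] at e1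
  rw [wt_apply, wt_apply]
  exact (exp_injective (mul_right_cancel₀ h0 e1)).symm

end Pool.Agent.P.MP_d483fb_an.Z.NF
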