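import Pool.Agent.P.MP_d483fb_an.Z.NF.JetsEx
import Pool.Agent.P.MP_d483fb_an.Z.TZ.FrDefs

/-!
Charts and jets together with the derivative of the embedding.
-/

open Set Metric Filter Real
open scoped Topology ContDiff Nat Manifold

noncomputable section

namespace Pool.Agent.P.MP_d483fb_an.Z.NF

open Jet TZ

variable {D : ℕ}

theorem Wd_taylor {Y : Type} [NormedAddCommGroup Y] [NormedSpace ℝ Y] [CompleteSpace Y]
    {g : E D → Y} {x v : E D} {C : ℝ} (hg : ∀ t ∈ Icc (0 : ℝ) 1, ContDiffAt ℝ ∞ g (x + t • v))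
    (h : ∀ t ∈ Icc (0 : ℝ) 1, ‖iteratedFDeriv ℝ 2 g (x + t • v)‖ ≤ C) :
    ‖g (x + v) - g x - fderiv ℝ g x v‖ ≤ C * ‖v‖ ^ 2 := by
  have h1 := map_add_eq_sum_add_integral_iteratedFDeriv (n := 1) (f := g) (x := x) (y := v)
    fun t ht => (hg t ht).of_le (WithTop.coe_le_coe.2 (le_top : ((1 : ℕ) + 1 : ℕ∞) ≤ ⊤))
  have h2 := intervalIntegral.norm_integral_le_of_norm_le_const (a := 0) (b := 1)
    (C := C * ‖v‖ ^ 2)
    (f := fun t : ℝ => (1 - t) ^ 1 • iteratedFDeriv ℝ (1 + 1) g (x + t • v) fun _ => v) (by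
      intro t ht
      rw [uIoc_of_le zero_le_one] at ht
      rw [norm_smul, pow_one, Real.norm_of_nonneg (sub_nonneg.2 ht.2)]
      refine (mul_le_of_le_one_left (norm_nonneg _) (by linarith [ht.1])).trans ?_
      refine ((iteratedFDeriv ℝ (1 + 1) g (x + t • v)).le_opNorm _).trans ?_
      rw [Finset.prod_const, Finset.card_univ, Fintype.card_fin]
      exact mul_le_mul_of_nonneg_right (h t ⟨ht.1.le, ht.2⟩) (by positivity))
  rw [h1]
  simp only [Finset.sum_range_succ, Finset.range_zero, Finset.sum_empty, zero_add,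
    Nat.factorial_zero, Nat.factorial_one, Nat.cast_one, inv_one, one_smul,
    iteratedFDeriv_zero_apply, iteratedFDeriv_one_apply]
  refine le_trans (le_of_eq ?_) (h2.trans (le_of_eq (by simp)))
  congr 1
  abel

variable {M : Type} [MetricSpace M] [MeasurableSpace M] [BorelSpace M]
  {ψ : M → OpenPartialHomeomorph M (Fin D → ℝ)} (A : Atl ψ) {Γ : Type} [Group Γ]

theorem jemb_of_atl {α : Γ →* Equiv.Perm M} {len : Γ → ℝ} (J : Jets α len D) (hJ : J.c = A.c)
    {N : ℕ} {ι : M → EuclideanSpace ℝ (Fin N)} (hd : ∀ p q, dist p q = ‖ι p - ι q‖)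
    (hι : ∀ x, ContDiffOn ℝ ∞ (ι ∘ (ψ x).symm) (ψ x).target) : Nonempty (JEmb J ι) := by
  have hK := A.K_pos
  have hδ := A.δ_pos
  have := A.fin.to_subtype
  have hc : ∀ x k, ContinuousOn (iteratedFDeriv ℝ k (ι ∘ (ψ x).symm)) (ψ x).target := fun x k =>
    ((hι x).continuousOn_iteratedFDerivWithin (by exact_mod_cast le_top)
      (ψ x).open_target.uniqueDiffOn).congr fun _ hx =>
        (iteratedFDerivWithin_of_isOpen k (ψ x).open_target hx).symm
  have h : ∀ a : range A.j, ∃ C, ∀ z ∈ A.Q a, ‖iteratedFDeriv ℝ 2 (ι ∘ (ψ a).symm) (ψ a z)‖ ≤ C := by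
    rintro ⟨_, p, rfl⟩
    exact (A.cpt p).exists_bound_of_continuousOn ((hc _ 2).comp
      ((ψ _).continuousOn.mono (A.sub p)) fun z hz => (ψ _).map_source (A.sub p hz))
  choose C hC using h
  obtain ⟨B, hB⟩ := (finite_range C).bddAbove
  obtain ⟨a, ha, ha'⟩ := JX_small (show 0 < A.δ / A.K by positivity)
  obtain ⟨b, hb, hb'⟩ := JX_big (|B| * A.K ^ 2)
  refine ⟨⟨fun p => fderiv ℝ (ι ∘ (ψ (A.j p)).symm) (ψ (A.j p) p), a + b, ?_, fun p z hz => ?_,
    hd⟩⟩
  · refine measurable_of_cover (fun i : range A.j => A.j ⁻¹' {i.1}) (fun i => A.meas _)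
      (fun p => ⟨⟨_, p, rfl⟩, rfl⟩) fun i => ?_
    refine ContinuousOn.congr (f := fun p => fderiv ℝ (ι ∘ (ψ i).symm) (ψ i p)) ?_ ?_
    · refine ((hι i).continuousOn_fderiv_of_isOpen (ψ i).open_target (by simp)).comp
        ((ψ i).continuousOn.mono ?_) ?_
      · intro p hp
        rw [← show A.j p = i from hp]
        exact A.sub p (A.mem_Q p)
      · intro p hp
        rw [← show A.j p = i from hp]
        exact (ψ _).map_source (A.sub p (A.mem_Q p))
    · intro p hp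
      simp only
      rw [show A.j p = i from hp]
  have a1 : dist z p < A.δ / A.K := (hz.trans (exp_le_exp.2 (by linarith))).trans_lt ha'
  have a2 : dist z p < A.δ := a1.trans_le (div_le_self hδ.le A.one_le)
  have a3 := A.norm_c0_le a2
  have a4 : ‖A.c0 p z‖ < A.δ := a3.trans_lt (by rwa [lt_div_iff₀' hK] at a1)
  have seg : ∀ t ∈ Icc (0 : ℝ) 1, ∃ w ∈ A.Q (A.j p),
      ψ (A.j p) w = ψ (A.j p) p + t • A.c0 p z := fun t ht => A.onto p _ (by
    rw [norm_smul, Real.norm_of_nonneg ht.1]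
    exact (mul_le_of_le_one_left (norm_nonneg _) ht.2).trans_lt a4)
  have key := Wd_taylor (g := ι ∘ (ψ (A.j p)).symm) (x := ψ (A.j p) p) (v := A.c0 p z) (C := |B|)
    (fun t ht => by
      obtain ⟨w, hw, e⟩ := seg t ht
      rw [← e]
      exact (hι _).contDiffAt ((ψ _).open_target.mem_nhds ((ψ _).map_source (A.sub p hw))))
    (fun t ht => by
      obtain ⟨w, hw, e⟩ := seg t ht
      rw [← e]
      exact (hC ⟨_, p, rfl⟩ w hw).trans ((hB (mem_range_self _)).trans (le_abs_self B)))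
  have e1 : ψ (A.j p) p + A.c0 p z = ψ (A.j p) z := by simp [Atl.c0]
  rw [e1, Function.comp_apply, Function.comp_apply, (ψ _).left_inv (A.sub p (A.ball_sub p a2)),
    (ψ _).left_inv (A.sub p (A.mem_Q p))] at key
  rw [hJ, A.c_eq a2]
  refine key.trans ?_
  calc |B| * ‖A.c0 p z‖ ^ 2 ≤ |B| * (A.K * dist z p) ^ 2 := by gcongr
    _ = |B| * A.K ^ 2 * dist z p ^ 2 := by ring
    _ ≤ _ := mul_le_mul_of_nonneg_right (hb'.trans (exp_le_exp.2 (by linarith))) (by positivity)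

/-- uniform charts and jets exist, together with the derivative of the embedding -/
theorem exists_jets_emb [CompactSpace M] [ChartedSpace (EuclideanSpace ℝ (Fin D)) M]
    [IsManifold (𝓡 D) ∞ M] {N : ℕ} {ι : M → EuclideanSpace ℝ (Fin N)}
    (hι : ContMDiff (𝓡 D) (𝓡 N) ∞ ι) (hd : ∀ p q, dist p q = ‖ι p - ι q‖)
    (himm : ∀ p, Function.Injective (mfderiv (𝓡 D) (𝓡 N) ι p))
    (α : Γ →* Equiv.Perm M) (hα : ∀ γ, ContMDiff (𝓡 D) (𝓡 D) ∞ (α γ)) {len : Γ → ℝ}
    (h0 : ∀ γ, 0 ≤ len γ)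
    (hlmr : ∀ L : Γ → ℝ, (∀ γ γ', L (γ * γ') ≤ L γ + L γ') → ∃ C, ∀ γ, L γ ≤ C * (1 + len γ)) :
    ∃ J : Jets α len D, Nonempty (JEmb J ι) := by
  obtain ⟨A, J, hJ⟩ := exists_jets hι hd himm α hα h0 hlmr
  refine ⟨J, jemb_of_atl A J hJ hd fun x => ?_⟩
  have h := ((contMDiff_iff.1 hι).2 x 0).comp
    (EuclideanSpace.equiv (Fin D) ℝ).symm.contDiff.contDiffOn (s := (stdc (D := D) x).target)
    fun u hu => by
      have : (EuclideanSpace.equiv (Fin D) ℝ).symm u ∈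
        (chartAt (EuclideanSpace ℝ (Fin D)) x).target := hu
      simpa using this
  exact h.congr fun _ _ => rfl

end Pool.Agent.P.MP_d483fb_an.Z.NF
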